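import Mathlib

/-!
# Definitions: degree of irrationality, function fields of projective varieties, closed points
-/

namespace Pool.Agent.Helper17.Irr

universe u v

/-- The degree of irrationality of (a surface with function field) `K` over `F`: the least degree
`[K : F(a, b)]` over pairs of algebraically independent elements `a, b` of `K`. -/
noncomputable def irr (F : Type u) (K : Type v) [Field F] [Field K] [Algebra F K] : ℕ :=
  sInf {n : ℕ | 0 < n ∧ ∃ a b : K, AlgebraicIndependent F ![a, b] ∧
    Module.finrank (IntermediateField.adjoin F {a, b}) K = n}

/-- `K` is purely transcendental of transcendence degree two over `F`: a surface with function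
field `K` is rational. -/
def IsRational (F : Type u) (K : Type v) [Field F] [Field K] [Algebra F K] : Prop :=
  ∃ a b : K, AlgebraicIndependent F ![a, b] ∧ IntermediateField.adjoin F {a, b} = ⊤

/-- The function field of the (weighted) projective variety defined by the prime ideal `I`:
the subfield of the fraction field of the coordinate ring of the cone generated (over `F`) by the
quotients of two (weighted) homogeneous elements of the same degree. -/
noncomputable def projFunctionField {F : Type u} [Field F] {ι : Type} (wt : ι → ℕ)
    (I : Ideal (MvPolynomial ι F)) [I.IsPrime] :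
    IntermediateField F (FractionRing (MvPolynomial ι F ⧸ I)) :=
  IntermediateField.adjoin F {z | ∃ (n : ℕ) (a b : MvPolynomial ι F),
    a.IsWeightedHomogeneous wt n ∧ b.IsWeightedHomogeneous wt n ∧
    z = algebraMap (MvPolynomial ι F ⧸ I) _ (Ideal.Quotient.mk I a) /
      algebraMap (MvPolynomial ι F ⧸ I) _ (Ideal.Quotient.mk I b)}

/-- The variety defined by the homogeneous ideal `I` has a point with coordinates in `L`. -/
def HasPoint {F : Type u} [Field F] {ι : Type} (I : Ideal (MvPolynomial ι F))
    (L : Type v) [Field L] [Algebra F L] : Prop :=
  ∃ y : ι → L, y ≠ 0 ∧ ∀ g ∈ I, MvPolynomial.aeval y g = 0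

/-- The least degree of a closed point of the variety defined by the homogeneous ideal `I`, that
is, the least degree of a finite extension `L` of `F` such that the variety has a point with
coordinates in `L`. -/
noncomputable def minDegree {F : Type u} [Field F] {ι : Type} (I : Ideal (MvPolynomial ι F)) : ℕ :=
  sInf {d : ℕ | ∃ (L : Type u) (_ : Field L) (_ : Algebra F L), FiniteDimensional F L ∧
    Module.finrank F L = d ∧ HasPoint I L}

/-- The Jacobian criterion, for the variety defined by homogeneous polynomials `f 0, …, f (r - 1)`:
at each of its points over an algebraic closure of `F` the gradients are linearly independent. -/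
def IsSmoothIntersection {F : Type u} [Field F] {ι : Type} {r : ℕ}
    (f : Fin r → MvPolynomial ι F) : Prop :=
  ∀ y : ι → AlgebraicClosure F, y ≠ 0 → (∀ i, MvPolynomial.aeval y (f i) = 0) →
    LinearIndependent (AlgebraicClosure F)
      (fun i k => MvPolynomial.aeval y (MvPolynomial.pderiv k (f i)))

/-- The variety defined by `f 0, …, f (r - 1)` is geometrically integral. -/
def IsGeometricallyIntegral {F : Type u} [Field F] {ι : Type} {r : ℕ}
    (f : Fin r → MvPolynomial ι F) : Prop :=
  (Ideal.span (Set.range fun i =>
    MvPolynomial.map (algebraMap F (AlgebraicClosure F)) (f i))).IsPrime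

end Pool.Agent.Helper17.Irr
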