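import Mathlib

/-!
# Transcendence degree of the coordinate ring of a complete intersection
-/

set_option linter.style.haveILetI false

namespace Pool.Agent.Helper17.Irr

open Polynomial

universe u v w

/-- Every maximal ideal of a polynomial ring in `n` variables over a field has height `n`. -/
theorem height_of_isMaximal (k : Type u) [Field k] : ∀ (n : ℕ)
    (M : Ideal (MvPolynomial (Fin n) k)), M.IsMaximal → M.height = n := by
  intro n
  induction n with
  | zero =>
    intro M hM
    have h1 : (M.height : WithBot ℕ∞) ≤ ringKrullDim (MvPolynomial (Fin 0) k) :=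
      Ideal.height_le_ringKrullDim_of_ne_top hM.ne_top
    rw [MvPolynomial.ringKrullDim_of_isNoetherianRing, ringKrullDim_eq_zero_of_field] at h1
    simpa using h1
  | succ n ih =>
    intro M hM
    let e := (MvPolynomial.finSuccEquiv k n).toRingEquiv
    let P : Ideal (MvPolynomial (Fin n) k)[X] := M.map e
    haveI : P.IsMaximal := Ideal.map_isMaximal_of_equiv e
    have h1 : P.height = M.height := by
      exact e.height_map M
    let p : Ideal (MvPolynomial (Fin n) k) := P.under (MvPolynomial (Fin n) k)
    have hp : p.IsMaximal := by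
      have := Polynomial.isMaximal_comap_C_of_isJacobsonRing P
      exact this
    haveI : P.LiesOver p := ⟨rfl⟩
    rw [← h1, Polynomial.height_eq_height_add_one p P, ih p hp]
    norm_cast

/-- Noether normalisation: the Krull dimension of a finitely generated domain is at most its
transcendence degree. -/
theorem ringKrullDim_le_of_fg (F : Type u) (A : Type u) [Field F] [CommRing A] [IsDomain A]
    [Algebra F A] [Algebra.FiniteType F A] :
    ∃ s : ℕ, ringKrullDim A ≤ s ∧ (s : Cardinal) ≤ Algebra.trdeg F A := by
  obtain ⟨s, g, hg, hint⟩ := exists_integral_inj_algHom_of_fg F A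
  refine ⟨s, ?_, ?_⟩
  · letI : Algebra (MvPolynomial (Fin s) F) A := g.toRingHom.toAlgebra
    haveI : Algebra.IsIntegral (MvPolynomial (Fin s) F) A := ⟨hint⟩
    have h1 : ringKrullDim A ≤ ringKrullDim (MvPolynomial (Fin s) F) := by
      apply Order.krullDim_le_of_strictMono
        (fun p : PrimeSpectrum A => PrimeSpectrum.comap (algebraMap (MvPolynomial (Fin s) F) A) p)
      intro p q hpq
      have := Ideal.IsIntegral.comap_lt_comap (R := MvPolynomial (Fin s) F) (A := A)
        (I := p.asIdeal) (J := q.asIdeal) hpq
      exact this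
    rw [MvPolynomial.ringKrullDim_of_isNoetherianRing, ringKrullDim_eq_zero_of_field] at h1
    simpa using h1
  · have h1 : AlgebraicIndependent F (fun i : Fin s => g (MvPolynomial.X i)) := by
      rw [algebraicIndependent_iff_injective_aeval]
      have : (MvPolynomial.aeval fun i => g (MvPolynomial.X i)) = g := by
        ext i; simp
      rw [this]
      exact hg
    have := h1.lift_cardinalMk_le_trdeg
    simpa using this

theorem le_trdeg_quotient {F : Type u} [Field F] {n : ℕ} (s : Finset (MvPolynomial (Fin n) F))
    (hI : (Ideal.span (s : Set (MvPolynomial (Fin n) F))).IsPrime) (m : ℕ) (hm : s.card + m ≤ n) :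
    (m : Cardinal) ≤
      Algebra.trdeg F (MvPolynomial (Fin n) F ⧸ Ideal.span (s : Set (MvPolynomial (Fin n) F))) := by
  obtain ⟨t, h1, h2⟩ := ringKrullDim_le_of_fg F
    (MvPolynomial (Fin n) F ⧸ Ideal.span (s : Set (MvPolynomial (Fin n) F)))
  obtain ⟨M, hM, hle⟩ := Ideal.exists_le_maximal _ hI.ne_top
  have h3 := Ideal.height_le_ringKrullDim_quotient_add_encard (p := M)
    (s : Set (MvPolynomial (Fin n) F)) (Ideal.span_le.mp hle)
  rw [height_of_isMaximal F n M hM, Set.encard_coe_eq_coe_finsetCard] at h3
  refine le_trans ?_ h2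
  have h4 : ((n : ℕ∞) : WithBot ℕ∞) ≤ ((t : ℕ∞) : WithBot ℕ∞) + ((s.card : ℕ∞) : WithBot ℕ∞) :=
    h3.trans (add_le_add_left h1 _)
  norm_cast at h4
  have : m ≤ t := by omega
  exact_mod_cast this

end Pool.Agent.Helper17.Irr
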