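import Mathlib

/-!
# Specialisation of points along a purely transcendental extension

If `K` is a finite extension of `F(t)` (with `t` transcendental over `F`) of degree `n`, then
every `K`-point of a projective `F`-variety specialises to a point over a finite extension
of `F` of degree at most `n`.
-/

set_option linter.style.haveILetI false
set_option linter.deprecated false

namespace Pool.Agent.Helper17.Irr

open Polynomial IntermediateField

universe u v w

/-- Scaling the arguments of a homogeneous polynomial. -/
theorem aeval_smul_of_isHomogeneous {R : Type*} {A : Type*} [CommRing R] [CommRing A]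
    [Algebra R A] {ι : Type*} {n : ℕ} {g : MvPolynomial ι R} (hg : g.IsHomogeneous n)
    (c : A) (x : ι → A) :
    MvPolynomial.aeval (fun i => c * x i) g = c ^ n * MvPolynomial.aeval x g := by
  rw [MvPolynomial.aeval_def, MvPolynomial.aeval_def, MvPolynomial.eval₂_eq, MvPolynomial.eval₂_eq,
    Finset.mul_sum]
  refine Finset.sum_congr rfl fun d hd => ?_
  have h1 : d.degree = n := by
    by_contra h
    exact (MvPolynomial.mem_support_iff.mp hd) (hg.coeff_eq_zero h)
  have h2 : ∏ i ∈ d.support, (c * x i) ^ d i = c ^ n * ∏ i ∈ d.support, x i ^ d i := by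
    rw [← h1, Finsupp.degree_apply, ← Finset.prod_pow_eq_pow_sum, ← Finset.prod_mul_distrib]
    exact Finset.prod_congr rfl fun i _ => mul_pow _ _ _
  rw [h2]
  ring

variable {F : Type u} {K : Type v} [Field F] [Field K] [Algebra F K]

/-- A valuation ring of `K` which contains `F[t]` and in which `t` is not a unit. -/
theorem exists_valuationSubring (t : K) (ht : Transcendental F t) :
    ∃ B : ValuationSubring K, (∀ a ∈ Algebra.adjoin F {t}, a ∈ B) ∧ t ∈ B.nonunits := by
  classical
  let A : Subring K := (Algebra.adjoin F {t}).toSubring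
  have htA : t ∈ A := Algebra.self_mem_adjoin_singleton F t
  let I : Ideal A := Ideal.span {(⟨t, htA⟩ : A)}
  have hI : I ≠ ⊤ := by
    intro h
    rw [Ideal.eq_top_iff_one, Ideal.mem_span_singleton'] at h
    obtain ⟨⟨a, ha⟩, hat⟩ := h
    have ha' : a ∈ Algebra.adjoin F {t} := ha
    rw [Algebra.adjoin_singleton_eq_range_aeval] at ha'
    obtain ⟨p, rfl⟩ := ha'
    have h1 : (aeval t) (p * X - 1) = 0 := by
      have := congrArg Subtype.val hat
      simp only [Subring.coe_mul, Subring.coe_one] at this
      rw [map_sub, map_mul, aeval_X, map_one, sub_eq_zero]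
      exact this
    have h2 := (transcendental_iff.mp ht) _ h1
    have h3 := congrArg (Polynomial.eval 0) h2
    simp at h3
  obtain ⟨B, hAB, hIB⟩ := Ideal.image_subset_nonunits_valuationSubring I hI
  refine ⟨B, fun a ha => hAB ha, ?_⟩
  exact hIB ⟨⟨t, htA⟩, Ideal.subset_span rfl, rfl⟩

open scoped IntermediateField.algebraAdjoinAdjoin in
theorem exists_specialization (t : K) (ht : Transcendental F t) [FiniteDimensional F⟮t⟯ K]
    {ι : Type w} [Finite ι] (x : ι → K) (hx : x ≠ 0) :
    ∃ (L : Type v) (_ : Field L) (_ : Algebra F L), FiniteDimensional F L ∧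
      Module.finrank F L ≤ Module.finrank F⟮t⟯ K ∧
      ∃ y : ι → L, y ≠ 0 ∧ ∀ (n : ℕ) (g : MvPolynomial ι F), g.IsHomogeneous n →
        MvPolynomial.aeval x g = 0 → MvPolynomial.aeval y g = 0 := by
  classical
  obtain ⟨B, hB, htB⟩ := exists_valuationSubring t ht
  have hF : ∀ c : F, algebraMap F K c ∈ B := fun c => hB _ (Subalgebra.algebraMap_mem _ c)
  let φ : F →+* B :=
    { toFun := fun c => ⟨algebraMap F K c, hF c⟩
      map_one' := by ext; simp
      map_mul' := fun a b => by ext; simp
      map_zero' := by ext; simp
      map_add' := fun a b => by ext; simp }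
  letI : Algebra F B := φ.toAlgebra
  haveI : IsScalarTower F B K := IsScalarTower.of_algebraMap_eq (fun c => rfl)
  let L := IsLocalRing.ResidueField B
  have htB' : t ∈ B := hB _ (Algebra.self_mem_adjoin_singleton F t)
  let tB : B := ⟨t, htB'⟩
  have htres : IsLocalRing.residue B tB = 0 := by
    rw [IsLocalRing.residue_eq_zero_iff, IsLocalRing.mem_maximalIdeal, mem_nonunits_iff]
    intro hu
    rw [ValuationSubring.valuation_eq_one_iff] at hu
    have h2 : B.valuation t < 1 := htB
    exact absurd hu (ne_of_lt h2)
  -- evaluation of polynomials at `t` reduces to evaluation at `0`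
  have hred : ∀ p : F[X], IsLocalRing.residue B (aeval tB p) = algebraMap F L (p.eval 0) := by
    intro p
    have h1 : IsLocalRing.residue B (aeval tB p) = aeval (IsLocalRing.residue B tB) p := by
      have := Polynomial.aeval_algebraMap_apply L tB p
      exact this.symm
    rw [h1, htres, Polynomial.aeval_def, Polynomial.eval₂_at_zero]
    simp [Polynomial.coeff_zero_eq_eval_zero, L]
  have hrank : ∀ s : Finset L, LinearIndependent F (fun i : s => (i : L)) →
      s.card ≤ Module.finrank F⟮t⟯ K := by
    intro s hs
    by_contra hlt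
    push Not at hlt
    choose b hb using fun i : s => IsLocalRing.residue_surjective (i : L)
    have hnl : ¬ LinearIndependent F⟮t⟯ (fun i : s => ((b i : B) : K)) := by
      intro hli
      have := hli.fintype_card_le_finrank
      rw [Fintype.card_coe] at this
      omega
    rw [← LinearIndependent.iff_fractionRing (Algebra.adjoin F {t}) F⟮t⟯,
      Fintype.not_linearIndependent_iff] at hnl
    obtain ⟨c, hc0, i0, hi0⟩ := hnl
    have hc : ∀ i, ∃ p : F[X], aeval t p = (c i : K) := by
      intro i
      have : (c i : K) ∈ (aeval t : F[X] →ₐ[F] K).range := by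
        rw [← Algebra.adjoin_singleton_eq_range_aeval]
        exact (c i).2
      obtain ⟨p, hp⟩ := this
      exact ⟨p, hp⟩
    choose p hp using hc
    letI : NormalizedGCDMonoid F[X] := UniqueFactorizationMonoid.toNormalizedGCDMonoid F[X]
    have hne : (Finset.univ : Finset s).Nonempty := ⟨i0, Finset.mem_univ _⟩
    obtain ⟨q, hq, hq1⟩ := Finset.extract_gcd p hne
    set d := Finset.univ.gcd p with hd
    have hpi0 : p i0 ≠ 0 := by
      intro h
      apply hi0
      apply Subtype.ext
      rw [← hp i0, h]
      simp
    have hd0 : d ≠ 0 := by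
      intro h
      rw [hq i0 (Finset.mem_univ _), h, zero_mul] at hpi0
      exact hpi0 rfl
    have hdt : aeval t d ≠ 0 := fun h => hd0 ((transcendental_iff.mp ht) _ h)
    have hsum : ∑ i : s, aeval t (q i) * ((b i : B) : K) = 0 := by
      have h1 : aeval t d * ∑ i : s, aeval t (q i) * ((b i : B) : K) = 0 := by
        rw [Finset.mul_sum, ← hc0]
        refine Finset.sum_congr rfl fun i _ => ?_
        rw [← mul_assoc, ← map_mul, ← hq i (Finset.mem_univ _), hp i]
        rfl
      exact (mul_eq_zero.mp h1).resolve_left hdt
    have hsumB : ∑ i : s, aeval tB (q i) * (b i : B) = 0 := by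
      apply Subtype.coe_injective
      have h2 : ∀ r : F[X], ((aeval tB r : B) : K) = aeval t r := by
        intro r
        exact (Polynomial.aeval_algebraMap_apply K tB r).symm
      have h3 : ((∑ i : s, aeval tB (q i) * (b i : B) : B) : K)
          = ∑ i : s, aeval t (q i) * ((b i : B) : K) := by
        have := map_sum (algebraMap B K) (fun i : s => aeval tB (q i) * (b i : B)) Finset.univ
        refine this.trans (Finset.sum_congr rfl fun i _ => ?_)
        rw [map_mul, ← h2]
        rfl
      exact h3.trans hsum
    have hsumL : ∑ i : s, (q i).eval 0 • (i : L) = 0 := by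
      have h3 := congrArg (IsLocalRing.residue B) hsumB
      rw [map_sum, map_zero] at h3
      rw [← h3]
      refine Finset.sum_congr rfl fun i _ => ?_
      rw [map_mul, hred, hb, Algebra.smul_def]
    have hall := Fintype.linearIndependent_iff.mp hs (fun i => (q i).eval 0) hsumL
    have hX : (X : F[X]) ∣ Finset.univ.gcd q := by
      apply Finset.dvd_gcd
      intro i _
      rw [Polynomial.X_dvd_iff, Polynomial.coeff_zero_eq_eval_zero]
      exact hall i
    rw [hq1] at hX
    exact Polynomial.not_isUnit_X (isUnit_of_dvd_one hX)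
  have hrk : Module.rank F L ≤ (Module.finrank F⟮t⟯ K : ℕ) := rank_le hrank
  have hfin : FiniteDimensional F L :=
    Module.rank_lt_aleph0_iff.mp (lt_of_le_of_lt hrk (Cardinal.natCast_lt_aleph0))
  refine ⟨L, inferInstance, inferInstance, hfin, ?_, ?_⟩
  · exact Module.finrank_le_of_rank_le hrk
  · -- the point
    have hne : ∃ i, x i ≠ 0 := Function.ne_iff.mp hx
    haveI : Nonempty ι := ⟨hne.choose⟩
    obtain ⟨i0, hi0⟩ := Finite.exists_max (fun i => B.valuation (x i))
    have hxi0 : x i0 ≠ 0 := by
      intro h
      obtain ⟨j, hj⟩ := hne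
      have := hi0 j
      rw [h, map_zero, le_zero_iff, map_eq_zero] at this
      exact hj this
    have hmem : ∀ i, (x i0)⁻¹ * x i ∈ B := by
      intro i
      rw [← ValuationSubring.valuation_le_one_iff, mul_comm, ← div_eq_mul_inv, map_div₀]
      exact div_le_one_of_le₀ (hi0 i) zero_le'
    let z : ι → B := fun i => ⟨(x i0)⁻¹ * x i, hmem i⟩
    refine ⟨fun i => IsLocalRing.residue B (z i), ?_, ?_⟩
    · intro h
      have := congrFun h i0
      have h1 : z i0 = 1 := by
        apply Subtype.ext
        exact inv_mul_cancel₀ hxi0
      simp [h1] at this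
    · intro n g hg hgx
      have h1 : MvPolynomial.aeval (fun i => (x i0)⁻¹ * x i) g = 0 := by
        rw [aeval_smul_of_isHomogeneous hg, hgx, mul_zero]
      have h2 : MvPolynomial.aeval z g = 0 := by
        apply Subtype.coe_injective
        have h3 := MvPolynomial.aeval_algebraMap_apply K z g
        exact h3.symm.trans h1
      have h4 := MvPolynomial.aeval_algebraMap_apply L z g
      refine h4.trans ?_
      rw [h2, map_zero]

end Pool.Agent.Helper17.Irr
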