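import Mathlib
import Pool.Agent.Helper17.Irr.Spec

/-!
# Specialisation along `F(u, v)` and the degree of irrationality
-/

set_option linter.style.haveILetI false
set_option linter.deprecated false

namespace Pool.Agent.Helper17.Irr

open Polynomial IntermediateField

universe u v w

variable {F : Type u} {K : Type v} [Field F] [Field K] [Algebra F K]

open scoped IntermediateField.algebraAdjoinAdjoin in
theorem transcendental_of_algebraicIndependent {u v : K}
    (h : AlgebraicIndependent F ![u, v]) : Transcendental F⟮u⟯ v := by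
  have h1 : Transcendental (Algebra.adjoin F (![u, v] '' {0})) (![u, v] 1) :=
    h.transcendental_adjoin (by simp)
  have h0 : (![u, v] '' {0}) = {u} := by simp
  rw [h0] at h1
  intro h2
  exact h1 ((IsFractionRing.isAlgebraic_iff (Algebra.adjoin F {u}) F⟮u⟯ K).mpr h2)

theorem transcendental_of_algebraicIndependent' {u v : K}
    (h : AlgebraicIndependent F ![u, v]) : Transcendental F u := by
  simpa using h.transcendental 0

/-- Specialisation of a point along a finite extension `K` of `F(u, v)`. -/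
theorem exists_specialization₂ {u v : K} (h : AlgebraicIndependent F ![u, v])
    [FiniteDimensional (IntermediateField.adjoin F {u, v}) K]
    {ι : Type w} [Finite ι] (x : ι → K) (hx : x ≠ 0) :
    ∃ (L : Type v) (_ : Field L) (_ : Algebra F L), FiniteDimensional F L ∧
      Module.finrank F L ≤ Module.finrank (IntermediateField.adjoin F {u, v}) K ∧
      ∃ y : ι → L, y ≠ 0 ∧ ∀ (n : ℕ) (g : MvPolynomial ι F), g.IsHomogeneous n →
        MvPolynomial.aeval x g = 0 → MvPolynomial.aeval y g = 0 := by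
  have hset : (F⟮u⟯⟮v⟯).restrictScalars F = IntermediateField.adjoin F {u, v} := by
    rw [IntermediateField.adjoin_adjoin_left]
    congr 1
  have hfr : Module.finrank F⟮u⟯⟮v⟯ K = Module.finrank (IntermediateField.adjoin F {u, v}) K := by
    rw [← hset]
    rfl
  haveI hfin : FiniteDimensional F⟮u⟯⟮v⟯ K := by
    have : FiniteDimensional ((F⟮u⟯⟮v⟯).restrictScalars F) K := by
      rw [hset]; infer_instance
    exact this
  obtain ⟨L₁, _, _, hL₁fin, hL₁, y₁, hy₁, hy₁g⟩ :=
    exists_specialization (F := F⟮u⟯) v (transcendental_of_algebraicIndependent h) x hx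
  letI : Algebra F L₁ := ((algebraMap F⟮u⟯ L₁).comp (algebraMap F F⟮u⟯)).toAlgebra
  haveI : IsScalarTower F F⟮u⟯ L₁ := IsScalarTower.of_algebraMap_eq (fun _ => rfl)
  let t : L₁ := algebraMap F⟮u⟯ L₁ (AdjoinSimple.gen F u)
  have ht : Transcendental F t := by
    have h1 : Transcendental F (AdjoinSimple.gen F u) := by
      have h2 := transcendental_of_algebraicIndependent' h
      intro h3
      exact h2 (by simpa using h3.algebraMap (A := K))
    intro h2
    exact h1 ((isAlgebraic_algebraMap_iff (algebraMap F⟮u⟯ L₁).injective).mp h2)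
  have hmem : ∀ a : F⟮u⟯, algebraMap F⟮u⟯ L₁ a ∈ F⟮t⟯ := by
    rintro ⟨a, ha⟩
    obtain ⟨r, s, hrs⟩ := (IntermediateField.mem_adjoin_simple_iff F a).mp ha
    rw [IntermediateField.mem_adjoin_simple_iff]
    refine ⟨r, s, ?_⟩
    have h1 : (⟨a, ha⟩ : F⟮u⟯) = aeval (AdjoinSimple.gen F u) r / aeval (AdjoinSimple.gen F u) s := by
      apply Subtype.ext
      have h2 : ∀ q : F[X], ((aeval (AdjoinSimple.gen F u) q : F⟮u⟯) : K) = aeval u q := by
        intro q
        exact (Polynomial.aeval_algebraMap_apply K (AdjoinSimple.gen F u) q).symm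
      change a = _
      rw [hrs, IntermediateField.coe_div, h2, h2]
    rw [h1, map_div₀, Polynomial.aeval_algebraMap_apply, Polynomial.aeval_algebraMap_apply]
  letI : Algebra F⟮u⟯ F⟮t⟯ := ((algebraMap F⟮u⟯ L₁).codRestrict F⟮t⟯.toSubfield hmem).toAlgebra
  haveI : IsScalarTower F⟮u⟯ F⟮t⟯ L₁ := IsScalarTower.of_algebraMap_eq (fun _ => rfl)
  haveI : FiniteDimensional F⟮t⟯ L₁ := Module.Finite.of_restrictScalars_finite F⟮u⟯ F⟮t⟯ L₁
  have hle : Module.finrank F⟮t⟯ L₁ ≤ Module.finrank F⟮u⟯ L₁ := by
    haveI : FiniteDimensional F⟮u⟯ F⟮t⟯ := FiniteDimensional.left F⟮u⟯ F⟮t⟯ L₁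
    rw [← Module.finrank_mul_finrank F⟮u⟯ F⟮t⟯ L₁]
    exact Nat.le_mul_of_pos_left _ Module.finrank_pos
  obtain ⟨L, _, _, hLfin, hL, y, hy, hyg⟩ := exists_specialization (F := F) t ht y₁ hy₁
  refine ⟨L, inferInstance, inferInstance, hLfin, ?_, y, hy, ?_⟩
  · exact hL.trans (hle.trans (hL₁.trans hfr.le))
  · intro n g hg hgx
    apply hyg n g hg
    have h1 := hy₁g n (MvPolynomial.map (algebraMap F F⟮u⟯) g) (hg.map _) (by
      rw [MvPolynomial.aeval_map_algebraMap]; exact hgx)
    rw [MvPolynomial.aeval_map_algebraMap] at h1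
    exact h1

end Pool.Agent.Helper17.Irr
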