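import Mathlib
import Pool.Agent.Helper17.Irr.Defs
import Pool.Agent.Helper17.Irr.Spec2
import Pool.Agent.Helper17.Irr.Dim

/-!
# The degree of irrationality of a function field of transcendence degree two
-/

set_option linter.style.haveILetI false
set_option linter.deprecated false

namespace Pool.Agent.Helper17.Irr

open IntermediateField

universe u v w

section

variable {F : Type u} {K : Type v} [Field F] [Field K] [Algebra F K]

theorem IsRational.irr_eq_one (h : IsRational F K) : irr F K = 1 := by
  obtain ⟨a, b, hab, htop⟩ := h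
  have h1 : (1 : ℕ) ∈ {n : ℕ | 0 < n ∧ ∃ a b : K, AlgebraicIndependent F ![a, b] ∧
    Module.finrank (IntermediateField.adjoin F {a, b}) K = n} := by
    refine ⟨one_pos, a, b, hab, ?_⟩
    rw [htop]
    exact IntermediateField.finrank_top
  have h2 := Nat.sInf_mem (⟨1, h1⟩ : Set.Nonempty _)
  have h3 := Nat.sInf_le h1
  unfold irr
  have := h2.1
  omega

theorem irr_le {n : ℕ} (hn : 0 < n) {a b : K} (hab : AlgebraicIndependent F ![a, b])
    (h : Module.finrank (IntermediateField.adjoin F {a, b}) K = n) : irr F K ≤ n :=
  Nat.sInf_le ⟨hn, a, b, hab, h⟩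

/-- If the set defining `irr` is nonempty, the infimum is attained. -/
theorem exists_of_irr_pos (h : 0 < irr F K) : ∃ a b : K, AlgebraicIndependent F ![a, b] ∧
    Module.finrank (IntermediateField.adjoin F {a, b}) K = irr F K := by
  have hne : {n : ℕ | 0 < n ∧ ∃ a b : K, AlgebraicIndependent F ![a, b] ∧
    Module.finrank (IntermediateField.adjoin F {a, b}) K = n}.Nonempty := by
    by_contra h0
    rw [Set.not_nonempty_iff_eq_empty] at h0
    unfold irr at h
    rw [h0, Nat.sInf_empty] at h
    exact lt_irrefl _ h
  exact (Nat.sInf_mem hne).2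

theorem isRational_of_irr_eq_one (h : irr F K = 1) : IsRational F K := by
  obtain ⟨a, b, hab, hfr⟩ := exists_of_irr_pos (F := F) (K := K) (by omega)
  refine ⟨a, b, hab, ?_⟩
  rw [h] at hfr
  exact IntermediateField.finrank_eq_one_iff_eq_top.mp hfr

open scoped IntermediateField.algebraAdjoinAdjoin in
/-- Upper bounds for `irr`: if `K` is finite of degree at most `D` over `F(a, b)`, and has
transcendence degree at least two, then `0 < irr F K ≤ D`. -/
theorem irr_le_of_finiteDimensional (htr : 2 ≤ Algebra.trdeg F K) (a b : K)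
    [FiniteDimensional (IntermediateField.adjoin F {a, b}) K] {D : ℕ}
    (hD : Module.finrank (IntermediateField.adjoin F {a, b}) K ≤ D) :
    0 < irr F K ∧ irr F K ≤ D := by
  have hr : Set.range ![a, b] = {a, b} := by
    simp [Matrix.range_cons, Matrix.range_empty, Set.pair_comm]
  have halg : Algebra.IsAlgebraic (Algebra.adjoin F (Set.range ![a, b])) K := by
    rw [hr]
    have h1 : Algebra.IsAlgebraic (IntermediateField.adjoin F {a, b}) K := inferInstance
    constructor
    intro z
    exact (IsFractionRing.isAlgebraic_iff (Algebra.adjoin F {a, b})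
      (IntermediateField.adjoin F {a, b}) K).mpr (h1.isAlgebraic z)
  have hbasis := Algebra.IsAlgebraic.isTranscendenceBasis_of_lift_le_trdeg_of_finite F ![a, b]
    (by simpa using htr)
  have hpos : 0 < Module.finrank (IntermediateField.adjoin F {a, b}) K := Module.finrank_pos
  have h1 := irr_le hpos hbasis.1 rfl
  refine ⟨?_, h1.trans hD⟩
  have hmem : Module.finrank (IntermediateField.adjoin F {a, b}) K ∈ {n : ℕ | 0 < n ∧
    ∃ a b : K, AlgebraicIndependent F ![a, b] ∧
    Module.finrank (IntermediateField.adjoin F {a, b}) K = n} := ⟨hpos, a, b, hbasis.1, rfl⟩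
  exact (Nat.sInf_mem ⟨_, hmem⟩).1

/-- Lower bounds for `irr`: a projective variety with a `K`-point has a point of degree at most
`irr F K`. -/
theorem exists_point_of_irr_pos (h : 0 < irr F K) {ι : Type w} [Finite ι] (x : ι → K)
    (hx : x ≠ 0) :
    ∃ (L : Type v) (_ : Field L) (_ : Algebra F L), FiniteDimensional F L ∧
      Module.finrank F L ≤ irr F K ∧
      ∃ y : ι → L, y ≠ 0 ∧ ∀ (n : ℕ) (g : MvPolynomial ι F), g.IsHomogeneous n →
        MvPolynomial.aeval x g = 0 → MvPolynomial.aeval y g = 0 := by
  obtain ⟨a, b, hab, hfr⟩ := exists_of_irr_pos h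
  haveI : FiniteDimensional (IntermediateField.adjoin F {a, b}) K :=
    FiniteDimensional.of_finrank_pos (by omega)
  rw [← hfr]
  exact exists_specialization₂ hab x hx

end

end Pool.Agent.Helper17.Irr
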