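import Mathlib
import Pool.Agent.Helper17.Irr.Basic

/-!
# Function fields of (weighted) projective varieties
-/

set_option linter.style.haveILetI false
set_option linter.deprecated false

namespace Pool.Agent.Helper17.Irr

open IntermediateField

universe u v w

/-- Weighted scaling of the arguments of a weighted homogeneous polynomial. -/
theorem aeval_smul_of_isWeightedHomogeneous {R : Type*} {A : Type*} [CommRing R] [CommRing A]
    [Algebra R A] {ι : Type*} {wt : ι → ℕ} {n : ℕ} {g : MvPolynomial ι R}
    (hg : g.IsWeightedHomogeneous wt n) (c : A) (x : ι → A) :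
    MvPolynomial.aeval (fun i => c ^ wt i * x i) g = c ^ n * MvPolynomial.aeval x g := by
  rw [MvPolynomial.aeval_def, MvPolynomial.aeval_def, MvPolynomial.eval₂_eq, MvPolynomial.eval₂_eq,
    Finset.mul_sum]
  refine Finset.sum_congr rfl fun d hd => ?_
  have h1 : Finsupp.weight wt d = n := hg (MvPolynomial.mem_support_iff.mp hd)
  have h2 : ∏ i ∈ d.support, (c ^ wt i * x i) ^ d i = c ^ n * ∏ i ∈ d.support, x i ^ d i := by
    rw [← h1, Finsupp.weight_apply, Finsupp.sum, ← Finset.prod_pow_eq_pow_sum,
      ← Finset.prod_mul_distrib]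
    refine Finset.prod_congr rfl fun i _ => ?_
    rw [mul_pow, ← pow_mul, smul_eq_mul, mul_comm (wt i)]
  rw [h2]
  ring

section

variable {F : Type u} [Field F] {ι : Type} (wt : ι → ℕ) (I : Ideal (MvPolynomial ι F))
  [I.IsPrime]

/-- The homogeneous coordinates of the generic point, in the fraction field of the cone. -/
noncomputable def coneCoord (i : ι) : FractionRing (MvPolynomial ι F ⧸ I) :=
  algebraMap (MvPolynomial ι F ⧸ I) _ (Ideal.Quotient.mk I (MvPolynomial.X i))

theorem aeval_coneCoord (g : MvPolynomial ι F) :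
    MvPolynomial.aeval (coneCoord I) g =
      algebraMap (MvPolynomial ι F ⧸ I) (FractionRing (MvPolynomial ι F ⧸ I))
        (Ideal.Quotient.mk I g) := by
  have h : (MvPolynomial.aeval (coneCoord I) : MvPolynomial ι F →ₐ[F] _) =
      (IsScalarTower.toAlgHom F (MvPolynomial ι F ⧸ I)
        (FractionRing (MvPolynomial ι F ⧸ I))).comp (Ideal.Quotient.mkₐ F I) := by
    ext i
    simp [coneCoord]
  rw [h]
  rfl

theorem aeval_coneCoord_eq_zero_iff (g : MvPolynomial ι F) :
    MvPolynomial.aeval (coneCoord I) g = 0 ↔ g ∈ I := by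
  rw [aeval_coneCoord, map_eq_zero_iff _ (IsFractionRing.injective _ _),
    Ideal.Quotient.eq_zero_iff_mem]

variable {I}

theorem coneCoord_ne_zero {j : ι} (hj : MvPolynomial.X j ∉ I) : coneCoord I j ≠ 0 := by
  intro h
  apply hj
  rw [← aeval_coneCoord_eq_zero_iff, MvPolynomial.aeval_X, h]

/-- Affine coordinates of the generic point, in the cone field. -/
noncomputable def affCoord (j : ι) (i : ι) : FractionRing (MvPolynomial ι F ⧸ I) :=
  (coneCoord I j)⁻¹ ^ wt i * coneCoord I i

theorem aeval_affCoord (j : ι) {n : ℕ} {g : MvPolynomial ι F}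
    (hg : g.IsWeightedHomogeneous wt n) :
    MvPolynomial.aeval (affCoord wt (I := I) j) g =
      (coneCoord I j)⁻¹ ^ n * MvPolynomial.aeval (coneCoord I) g :=
  aeval_smul_of_isWeightedHomogeneous hg _ _

theorem affCoord_mem {j : ι} (hj1 : wt j = 1) (i : ι) :
    affCoord wt (I := I) j i ∈ projFunctionField wt I := by
  apply IntermediateField.subset_adjoin
  refine ⟨wt i, MvPolynomial.X i, MvPolynomial.X j ^ wt i, ?_, ?_, ?_⟩
  · exact MvPolynomial.isWeightedHomogeneous_X F wt i
  · have := (MvPolynomial.isWeightedHomogeneous_X F wt j).pow (wt i)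
    rw [hj1] at this
    simpa using this
  · rw [affCoord, div_eq_mul_inv, mul_comm, inv_pow, map_pow, map_pow]
    rfl

theorem projFunctionField_eq {j : ι} (hj1 : wt j = 1) (hj : MvPolynomial.X j ∉ I) :
    projFunctionField wt I = IntermediateField.adjoin F (Set.range (affCoord wt (I := I) j)) := by
  apply le_antisymm
  · rw [projFunctionField, IntermediateField.adjoin_le_iff]
    rintro z ⟨n, a, b, ha, hb, rfl⟩
    have hmem : ∀ g : MvPolynomial ι F, MvPolynomial.aeval (affCoord wt (I := I) j) g ∈
        IntermediateField.adjoin F (Set.range (affCoord wt (I := I) j)) := by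
      intro g
      have h1 : MvPolynomial.aeval (affCoord wt (I := I) j) g ∈
          Algebra.adjoin F (Set.range (affCoord wt (I := I) j)) := by
        rw [Algebra.adjoin_range_eq_range_aeval]
        exact ⟨g, rfl⟩
      exact IntermediateField.algebra_adjoin_le_adjoin _ _ h1
    have h1 := aeval_affCoord wt (I := I) j ha
    have h2 := aeval_affCoord wt (I := I) j hb
    rw [aeval_coneCoord] at h1 h2
    have h3 : algebraMap (MvPolynomial ι F ⧸ I) (FractionRing (MvPolynomial ι F ⧸ I))
        (Ideal.Quotient.mk I a) / algebraMap (MvPolynomial ι F ⧸ I) _ (Ideal.Quotient.mk I b) =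
        MvPolynomial.aeval (affCoord wt (I := I) j) a /
          MvPolynomial.aeval (affCoord wt (I := I) j) b := by
      rw [h1, h2]
      have h4 : (coneCoord I j)⁻¹ ^ n ≠ 0 := pow_ne_zero _ (inv_ne_zero (coneCoord_ne_zero hj))
      rw [mul_div_mul_left _ _ h4]
    rw [SetLike.mem_coe, h3]
    exact div_mem (hmem a) (hmem b)
  · rw [IntermediateField.adjoin_le_iff]
    rintro _ ⟨i, rfl⟩
    exact affCoord_mem wt hj1 i

/-- Affine coordinates of the generic point, in the function field. -/
noncomputable def genPt {j : ι} (hj1 : wt j = 1) (i : ι) : projFunctionField wt I :=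
  ⟨affCoord wt j i, affCoord_mem wt hj1 i⟩

theorem coe_aeval_genPt {j : ι} (hj1 : wt j = 1) (g : MvPolynomial ι F) :
    ((MvPolynomial.aeval (genPt wt (I := I) hj1) g : projFunctionField wt I) :
      FractionRing (MvPolynomial ι F ⧸ I)) = MvPolynomial.aeval (affCoord wt (I := I) j) g :=
  (MvPolynomial.aeval_algebraMap_apply _ (genPt wt (I := I) hj1) g).symm

theorem aeval_genPt_eq_zero_iff {j : ι} (hj1 : wt j = 1) (hj : MvPolynomial.X j ∉ I) {n : ℕ}
    {g : MvPolynomial ι F} (hg : g.IsWeightedHomogeneous wt n) :
    MvPolynomial.aeval (genPt wt (I := I) hj1) g = 0 ↔ g ∈ I := by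
  rw [← aeval_coneCoord_eq_zero_iff, ← Subtype.coe_inj, coe_aeval_genPt,
    aeval_affCoord wt j hg]
  simp [coneCoord_ne_zero hj]

theorem genPt_self {j : ι} (hj1 : wt j = 1) (hj : MvPolynomial.X j ∉ I) :
    genPt wt (I := I) hj1 j = 1 := by
  apply Subtype.ext
  simp [genPt, affCoord, hj1, coneCoord_ne_zero hj]

theorem adjoin_genPt {j : ι} (hj1 : wt j = 1) (hj : MvPolynomial.X j ∉ I) :
    IntermediateField.adjoin F (Set.range (genPt wt (I := I) hj1)) = ⊤ := by
  apply IntermediateField.lift_injective
  rw [IntermediateField.lift_top, IntermediateField.lift_adjoin, ← Set.range_comp]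
  exact (projFunctionField_eq wt hj1 hj).symm

open scoped IntermediateField.algebraAdjoinAdjoin in
/-- The transcendence degree of the function field of a projective variety is one less than that
of its cone. -/
theorem le_trdeg_projFunctionField {j : ι} (hj1 : wt j = 1) (hj : MvPolynomial.X j ∉ I) {m : ℕ}
    (hm : ((m + 1 : ℕ) : Cardinal) ≤ Algebra.trdeg F (MvPolynomial ι F ⧸ I)) :
    (m : Cardinal) ≤ Algebra.trdeg F (projFunctionField wt I) := by
  set Q := FractionRing (MvPolynomial ι F ⧸ I) with hQ
  set K := projFunctionField wt I with hK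
  have h1 : Algebra.trdeg F (MvPolynomial ι F ⧸ I) ≤ Algebra.trdeg F Q :=
    _root_.trdeg_le_of_injective (IsScalarTower.toAlgHom F (MvPolynomial ι F ⧸ I) Q)
      (IsFractionRing.injective _ _)
  have h2 : Algebra.trdeg F K + Algebra.trdeg K Q = Algebra.trdeg F Q := _root_.trdeg_add_eq F K (A := Q)
  have htop : IntermediateField.adjoin K {coneCoord I j} = ⊤ := by
    rw [eq_top_iff]
    intro z _
    have hcoord : ∀ i, coneCoord I i ∈
        (IntermediateField.adjoin K {coneCoord I j}).restrictScalars F := by
      intro i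
      have hx : coneCoord I j ∈ IntermediateField.adjoin K {coneCoord I j} :=
        IntermediateField.mem_adjoin_simple_self _ _
      have h5 : coneCoord I i = coneCoord I j ^ wt i * (genPt wt (I := I) hj1 i : Q) := by
        simp only [genPt, affCoord]
        rw [← mul_assoc, ← mul_pow, mul_inv_cancel₀ (coneCoord_ne_zero hj), one_pow, one_mul]
      rw [h5]
      exact mul_mem (pow_mem hx _) (IntermediateField.algebraMap_mem _ (genPt wt (I := I) hj1 i))
    have hpoly : ∀ g : MvPolynomial ι F, MvPolynomial.aeval (coneCoord I) g ∈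
        (IntermediateField.adjoin K {coneCoord I j}).restrictScalars F := by
      intro g
      have h6 : MvPolynomial.aeval (coneCoord I) g ∈
          Algebra.adjoin F (Set.range (coneCoord I)) := by
        rw [Algebra.adjoin_range_eq_range_aeval]
        exact ⟨g, rfl⟩
      have h7 : Algebra.adjoin F (Set.range (coneCoord I)) ≤
          ((IntermediateField.adjoin K {coneCoord I j}).restrictScalars F).toSubalgebra := by
        rw [Algebra.adjoin_le_iff]
        rintro _ ⟨i, rfl⟩
        exact hcoord i
      exact h7 h6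
    obtain ⟨a, b, -, rfl⟩ := IsFractionRing.div_surjective (A := MvPolynomial ι F ⧸ I) z
    obtain ⟨a, rfl⟩ := Ideal.Quotient.mk_surjective a
    obtain ⟨b, rfl⟩ := Ideal.Quotient.mk_surjective b
    have ha := hpoly a
    have hb := hpoly b
    rw [aeval_coneCoord] at ha hb
    exact div_mem ha hb
  have h3 : Algebra.trdeg K Q ≤ 1 := by
    have halg : Algebra.IsAlgebraic (Algebra.adjoin K {coneCoord I j}) Q := by
      constructor
      intro z
      refine (IsFractionRing.isAlgebraic_iff (Algebra.adjoin K {coneCoord I j})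
        (IntermediateField.adjoin K {coneCoord I j}) Q).mpr ?_
      have hz : z ∈ IntermediateField.adjoin K {coneCoord I j} := by rw [htop]; trivial
      exact isAlgebraic_algebraMap (⟨z, hz⟩ : IntermediateField.adjoin K {coneCoord I j})
    have := Algebra.IsAlgebraic.trdeg_le_cardinalMk K ({coneCoord I j} : Set Q)
    simpa using this
  have h4 : ((m + 1 : ℕ) : Cardinal) ≤ Algebra.trdeg F K + 1 :=
    hm.trans (h1.trans (h2.symm.le.trans (add_le_add_right h3 _)))
  push_cast at h4
  exact (Cardinal.add_one_le_add_one_iff).mp h4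

end

end Pool.Agent.Helper17.Irr
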