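import Mathlib
import Pool.Agent.Helper17.Irr.FunField

/-!
# Generic points and linear changes of coordinates
-/

set_option linter.style.haveILetI false
set_option linter.deprecated false

namespace Pool.Agent.Helper17.Irr

open IntermediateField

universe u v w

section

variable {F : Type u} [Field F] {n : ℕ}

/-- Linear substitution of variables. -/
noncomputable def subst (A : Matrix (Fin n) (Fin n) F) :
    MvPolynomial (Fin n) F →ₐ[F] MvPolynomial (Fin n) F :=
  MvPolynomial.aeval (fun i => ∑ j, MvPolynomial.C (A i j) * MvPolynomial.X j)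

theorem aeval_subst {R : Type*} [CommRing R] [Algebra F R] (A : Matrix (Fin n) (Fin n) F)
    (x : Fin n → R) (g : MvPolynomial (Fin n) F) :
    MvPolynomial.aeval x (subst A g) =
      MvPolynomial.aeval (fun i => ∑ j, A i j • x j) g := by
  rw [subst, ← AlgHom.comp_apply]
  congr 1
  ext i
  simp [Algebra.smul_def]

theorem subst_subst (A B : Matrix (Fin n) (Fin n) F) (g : MvPolynomial (Fin n) F) :
    subst A (subst B g) = subst (B * A) g := by
  rw [subst, aeval_subst, subst]
  congr 2
  ext1 i
  simp only [Finset.smul_sum, Matrix.mul_apply, map_sum, Finset.sum_mul, map_mul]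
  rw [Finset.sum_comm]
  refine Finset.sum_congr rfl fun j _ => Finset.sum_congr rfl fun k _ => ?_
  rw [MvPolynomial.smul_eq_C_mul, mul_assoc]

theorem subst_one (g : MvPolynomial (Fin n) F) : subst 1 g = g := by
  rw [subst]
  have : (fun i => ∑ j, MvPolynomial.C ((1 : Matrix (Fin n) (Fin n) F) i j) * MvPolynomial.X j) =
      (MvPolynomial.X : Fin n → MvPolynomial (Fin n) F) := by
    ext1 i
    rw [Finset.sum_eq_single i]
    · simp
    · intro j _ hj
      simp [Matrix.one_apply_ne (Ne.symm hj)]
    · simp
  rw [this, MvPolynomial.aeval_X_left, AlgHom.id_apply]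

theorem IsHomogeneous.subst {m : ℕ} {g : MvPolynomial (Fin n) F} (hg : g.IsHomogeneous m)
    (A : Matrix (Fin n) (Fin n) F) : (subst A g).IsHomogeneous m := by
  have h := hg.aeval (S := F) (n := 1) (fun i => ∑ j, MvPolynomial.C (A i j) * MvPolynomial.X j)
    (fun i => MvPolynomial.IsHomogeneous.sum _ _ _ fun j _ =>
      MvPolynomial.isHomogeneous_C_mul_X _ _)
  rwa [one_mul] at h

/-- `x` is a generic point, with coordinates in `K`, of the projective variety defined by the
ideal `I`, and `K` is generated by the ratios of its coordinates. -/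
structure IsGenericPoint {K : Type v} [Field K] [Algebra F K]
    (I : Ideal (MvPolynomial (Fin n) F)) (x : Fin n → K) : Prop where
  ne_zero : x ≠ 0
  mem_iff : ∀ (m : ℕ) (g : MvPolynomial (Fin n) F), g.IsHomogeneous m →
    (MvPolynomial.aeval x g = 0 ↔ g ∈ I)
  eq_top : ∀ k : IntermediateField F K, (∀ i j, x i / x j ∈ k) → k = ⊤

variable {K : Type v} [Field K] [Algebra F K]

theorem IsGenericPoint.linearChange {I : Ideal (MvPolynomial (Fin n) F)} {x : Fin n → K}
    (h : IsGenericPoint I x) {A B : Matrix (Fin n) (Fin n) F} (hBA : B * A = 1) :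
    IsGenericPoint (I.comap (subst A)) (fun i => ∑ j, A i j • x j) := by
  have hx : ∀ i, x i = ∑ j, B i j • ∑ k, A j k • x k := by
    intro i
    simp only [Finset.smul_sum, smul_smul]
    rw [Finset.sum_comm]
    simp only [← Finset.sum_smul]
    have : ∀ k, ∑ j, B i j * A j k = (1 : Matrix (Fin n) (Fin n) F) i k := by
      intro k
      rw [← hBA, Matrix.mul_apply]
    simp only [this]
    rw [Finset.sum_eq_single i]
    · simp
    · intro j _ hj
      simp [Matrix.one_apply_ne (Ne.symm hj)]
    · simp
  refine ⟨?_, ?_, ?_⟩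
  · intro h0
    apply h.ne_zero
    ext i
    rw [hx i]
    have h1 : ∀ j, ∑ k, A j k • x k = 0 := fun j => congrFun h0 j
    simp [h1]
  · intro m g hg
    rw [← aeval_subst, h.mem_iff m _ (IsHomogeneous.subst hg A), Ideal.mem_comap]
  · intro k hk
    apply h.eq_top
    obtain ⟨m, hm⟩ : ∃ m, ∑ k, A m k • x k ≠ 0 := by
      by_contra h1
      push Not at h1
      apply h.ne_zero
      ext i
      rw [hx i]
      simp [h1]
    have h2 : ∀ i, x i / ∑ k, A m k • x k ∈ k := by
      intro i
      rw [hx i, Finset.sum_div]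
      refine sum_mem fun j _ => ?_
      rw [smul_div_assoc]
      exact k.smul_mem (hk j m)
    intro i j
    have h3 : x i / x j = (x i / ∑ k, A m k • x k) / (x j / ∑ k, A m k • x k) := by
      field_simp
    rw [h3]
    exact div_mem (h2 i) (h2 j)

/-- Two linearly independent families of the same size are exchanged by an invertible matrix. -/
theorem exists_matrix_mulVec {m : ℕ} (p : Fin m → Fin n → F) (q : Fin m → Fin n → F)
    (hp : LinearIndependent F p) (hq : LinearIndependent F q) :
    ∃ A B : Matrix (Fin n) (Fin n) F, A * B = 1 ∧ B * A = 1 ∧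
      (∀ i, A.mulVec (p i) = q i) ∧ ∀ i, B.mulVec (q i) = p i := by
  let bp := Module.Basis.span hp
  let bq := Module.Basis.span hq
  obtain ⟨g, hg⟩ := Submodule.exists_linearEquiv_restrict_eq (bp.equiv bq (Equiv.refl _))
  have hgp : ∀ i, g (p i) = q i := by
    intro i
    have h1 := hg (bp i)
    rw [Module.Basis.equiv_apply] at h1
    simpa [bp, bq, Module.Basis.span_apply] using h1.symm
  refine ⟨LinearMap.toMatrix' g.toLinearMap, LinearMap.toMatrix' g.symm.toLinearMap, ?_, ?_, ?_, ?_⟩
  · rw [← LinearMap.toMatrix'_comp]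
    simp
  · rw [← LinearMap.toMatrix'_comp]
    simp
  · intro i
    rw [LinearMap.toMatrix'_mulVec]
    exact hgp i
  · intro i
    rw [LinearMap.toMatrix'_mulVec]
    simp [← hgp i]

end

end Pool.Agent.Helper17.Irr
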