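import Mathlib
import Pool.Agent.Helper17.Irr.Basic

/-!
# Degrees of extensions generated by points of plane curves
-/

set_option linter.style.haveILetI false
set_option linter.deprecated false

namespace Pool.Agent.Helper17.Irr

open IntermediateField

universe u v w

section

variable {k : Type u} {K : Type v} [Field k] [Field K] [Algebra k K]

/-- If `K = k(c)` where `c` is a root of a nonzero polynomial of degree at most `D`, then `K` is
finite over `k` of degree at most `D`. -/
theorem finrank_le_of_root' (c : K) (hc : k⟮c⟯ = ⊤)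
    (P : Polynomial k) (hP : P ≠ 0) (hPc : Polynomial.aeval c P = 0) {D : ℕ}
    (hD : P.natDegree ≤ D) : FiniteDimensional k K ∧ Module.finrank k K ≤ D := by
  have halg : IsAlgebraic k c := ⟨P, hP, hPc⟩
  have hint : IsIntegral k c := halg.isIntegral
  have h1 : FiniteDimensional k k⟮c⟯ := IntermediateField.adjoin.finiteDimensional hint
  have h2 : Module.finrank k k⟮c⟯ = (minpoly k c).natDegree :=
    IntermediateField.adjoin.finrank hint
  have h3 : (minpoly k c).natDegree ≤ P.natDegree :=
    Polynomial.natDegree_le_of_dvd (minpoly.dvd k c hPc) hP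
  rw [hc] at h1 h2
  haveI := h1
  refine ⟨?_, ?_⟩
  · exact Module.Finite.equiv (IntermediateField.topEquiv (F := k) (E := K)).toLinearEquiv
  · rw [← LinearEquiv.finrank_eq (IntermediateField.topEquiv (F := k) (E := K)).toLinearEquiv, h2]
    omega

theorem finrank_adjoin_le_two_of_root (c : K) (p q r : k) (hpqr : p ≠ 0 ∨ q ≠ 0)
    (h : algebraMap k K p * c ^ 2 + algebraMap k K q * c + algebraMap k K r = 0) :
    FiniteDimensional k k⟮c⟯ ∧ Module.finrank k k⟮c⟯ ≤ 2 := by
  set P := Polynomial.C p * Polynomial.X ^ 2 + Polynomial.C q * Polynomial.X + Polynomial.C r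
    with hP
  have hP0 : P ≠ 0 := by
    intro h0
    rcases hpqr with hp | hq
    · apply hp
      have := congrArg (fun P : Polynomial k => P.coeff 2) h0
      simpa [hP, Polynomial.coeff_X, Polynomial.coeff_C] using this
    · apply hq
      have := congrArg (fun P : Polynomial k => P.coeff 1) h0
      simpa [hP, Polynomial.coeff_X, Polynomial.coeff_C] using this
  have hPc : Polynomial.aeval c P = 0 := by simpa [hP] using h
  have halg : IsAlgebraic k c := ⟨P, hP0, hPc⟩
  have hint : IsIntegral k c := halg.isIntegral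
  have h1 : FiniteDimensional k k⟮c⟯ := IntermediateField.adjoin.finiteDimensional hint
  refine ⟨h1, ?_⟩
  rw [IntermediateField.adjoin.finrank hint]
  exact (Polynomial.natDegree_le_of_dvd (minpoly.dvd k c hPc) hP0).trans
    Polynomial.natDegree_quadratic_le

/-- Version for a polynomial of degree at most two. -/
theorem finrank_le_two_of_root (c : K) (hc : k⟮c⟯ = ⊤) (p q r : k) (hpqr : p ≠ 0 ∨ q ≠ 0)
    (h : algebraMap k K p * c ^ 2 + algebraMap k K q * c + algebraMap k K r = 0) :
    FiniteDimensional k K ∧ Module.finrank k K ≤ 2 := by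
  apply finrank_le_of_root' c hc
    (Polynomial.C p * Polynomial.X ^ 2 + Polynomial.C q * Polynomial.X + Polynomial.C r)
  · intro h0
    rcases hpqr with hp | hq
    · apply hp
      have := congrArg (fun P : Polynomial k => P.coeff 2) h0
      simpa [Polynomial.coeff_X, Polynomial.coeff_C] using this
    · apply hq
      have := congrArg (fun P : Polynomial k => P.coeff 1) h0
      simpa [Polynomial.coeff_X, Polynomial.coeff_C] using this
  · simpa using h
  · exact Polynomial.natDegree_quadratic_le

/-- Two-step version. -/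
theorem finrank_le_mul {c : K} {d₁ d₂ : ℕ} (h₁ : FiniteDimensional k k⟮c⟯)
    (h₁' : Module.finrank k k⟮c⟯ ≤ d₁) (h₂ : FiniteDimensional k⟮c⟯ K)
    (h₂' : Module.finrank k⟮c⟯ K ≤ d₂) :
    FiniteDimensional k K ∧ Module.finrank k K ≤ d₁ * d₂ := by
  refine ⟨Module.Finite.trans k⟮c⟯ K, ?_⟩
  rw [← Module.finrank_mul_finrank k k⟮c⟯ K]
  exact Nat.mul_le_mul h₁' h₂'

/-- Elimination for two conics, the second one without `X ^ 2`-term. -/
theorem two_conics (X Y : K) (htop : IntermediateField.adjoin k {X, Y} = ⊤)
    (α β γ l m n β' γ' l' m' n' : k)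
    (h₁ : algebraMap k K α * X ^ 2 + algebraMap k K β * (X * Y) + algebraMap k K γ * Y ^ 2 +
      algebraMap k K l * X + algebraMap k K m * Y + algebraMap k K n = 0)
    (h₂ : algebraMap k K β' * (X * Y) + algebraMap k K γ' * Y ^ 2 + algebraMap k K l' * X +
      algebraMap k K m' * Y + algebraMap k K n' = 0)
    (hα : α ≠ 0) (hρ : α * γ' ^ 2 - β * β' * γ' + γ * β' ^ 2 ≠ 0) :
    FiniteDimensional k K ∧ Module.finrank k K ≤ 4 := by
  have hinj := (algebraMap k K).injective
  have hXY : k⟮Y⟯⟮X⟯ = ⊤ := by
    rw [← IntermediateField.restrictScalars_eq_top_iff (K := k),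
      IntermediateField.adjoin_adjoin_left, ← htop]
    congr 1
    ext z; simp
  have hYX : k⟮X⟯⟮Y⟯ = ⊤ := by
    rw [← IntermediateField.restrictScalars_eq_top_iff (K := k),
      IntermediateField.adjoin_adjoin_left, ← htop]
    congr 1
  set a := algebraMap k K with ha
  by_cases hA : a β' * Y + a l' = 0
  · have hB : a γ' * Y ^ 2 + a m' * Y + a n' = 0 := by linear_combination h₂ - X * hA
    by_cases hβ' : β' = 0
    · -- `Y` is quadratic over `k`, `X` is quadratic over `k(Y)`
      have hγ' : γ' ≠ 0 := by
        rintro rfl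
        apply hρ
        rw [hβ']
        ring
      obtain ⟨h3, h4⟩ := finrank_adjoin_le_two_of_root Y γ' m' n' (Or.inl hγ') hB
      have h5 : FiniteDimensional k⟮Y⟯ K ∧ Module.finrank k⟮Y⟯ K ≤ 2 := by
        apply finrank_le_two_of_root X hXY (algebraMap k k⟮Y⟯ α)
          (algebraMap k k⟮Y⟯ β * AdjoinSimple.gen k Y + algebraMap k k⟮Y⟯ l)
          (algebraMap k k⟮Y⟯ γ * AdjoinSimple.gen k Y ^ 2 +
            algebraMap k k⟮Y⟯ m * AdjoinSimple.gen k Y + algebraMap k k⟮Y⟯ n)
          (Or.inl (by simpa using hα))
        simp only [map_add, map_mul, map_pow, ← IsScalarTower.algebraMap_apply,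
          IntermediateField.AdjoinSimple.algebraMap_gen]
        linear_combination h₁
      obtain ⟨h6, h7⟩ := finrank_le_mul h3 h4 h5.1 h5.2
      exact ⟨h6, h7⟩
    · -- `Y` lies in `k`
      have hY : Y = a (-l' / β') := by
        rw [map_div₀, map_neg]
        field_simp [show a β' ≠ 0 from (map_ne_zero a).mpr hβ']
        linear_combination hA
      have hXtop : k⟮X⟯ = ⊤ := by
        rw [eq_top_iff, ← htop, IntermediateField.adjoin_le_iff]
        rintro z (rfl | rfl)
        · exact IntermediateField.mem_adjoin_simple_self _ _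
        · rw [hY]
          exact IntermediateField.algebraMap_mem _ _
      obtain ⟨h3, h4⟩ := finrank_le_two_of_root X hXtop α (β * (-l' / β') + l)
        (γ * (-l' / β') ^ 2 + m * (-l' / β') + n) (Or.inl hα) (by
          simp only [map_add, map_mul, map_pow]
          rw [← ha, ← hY]
          linear_combination h₁)
      exact ⟨h3, h4.trans (by norm_num)⟩
  · -- `X` lies in `k(Y)`, and `Y` satisfies an equation of degree four
    have hX : X = -(a γ' * Y ^ 2 + a m' * Y + a n') / (a β' * Y + a l') := by
      rw [eq_div_iff hA]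
      linear_combination h₂
    have hYtop : k⟮Y⟯ = ⊤ := by
      rw [eq_top_iff, ← htop, IntermediateField.adjoin_le_iff]
      have hY : Y ∈ k⟮Y⟯ := IntermediateField.mem_adjoin_simple_self _ _
      rintro z (rfl | rfl)
      · rw [hX]
        exact div_mem (neg_mem (add_mem (add_mem (mul_mem (IntermediateField.algebraMap_mem _ _)
          (pow_mem hY _)) (mul_mem (IntermediateField.algebraMap_mem _ _) hY))
          (IntermediateField.algebraMap_mem _ _)))
          (add_mem (mul_mem (IntermediateField.algebraMap_mem _ _) hY)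
            (IntermediateField.algebraMap_mem _ _))
      · exact hY
    set c₄ := α * γ' ^ 2 - β * β' * γ' + γ * β' ^ 2 with hc₄
    let c₃ := 2 * α * γ' * m' - (β * (β' * m' + l' * γ') + l * β' * γ') +
      (β' ^ 2 * m + 2 * β' * l' * γ)
    let c₂ := α * (m' ^ 2 + 2 * γ' * n') - (β * (β' * n' + l' * m') + l * (β' * m' + l' * γ')) +
      (β' ^ 2 * n + 2 * β' * l' * m + l' ^ 2 * γ)
    let c₁ := 2 * α * m' * n' - (β * l' * n' + l * (β' * n' + l' * m')) +
      (2 * β' * l' * n + l' ^ 2 * m)
    let c₀ := α * n' ^ 2 - l * l' * n' + l' ^ 2 * n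
    apply finrank_le_of_root' Y hYtop (Polynomial.C c₄ * Polynomial.X ^ 4 +
      Polynomial.C c₃ * Polynomial.X ^ 3 + Polynomial.C c₂ * Polynomial.X ^ 2 +
      Polynomial.C c₁ * Polynomial.X + Polynomial.C c₀)
    · intro h0
      apply hρ
      have := congrArg (fun P : Polynomial k => P.coeff 4) h0
      simpa [Polynomial.coeff_X, Polynomial.coeff_C] using this
    · simp only [map_add, map_mul, map_pow, Polynomial.aeval_C, Polynomial.aeval_X]
      simp only [c₃, c₂, c₁, c₀, hc₄, map_add, map_sub, map_mul, map_pow, map_ofNat, ← ha]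
      linear_combination (a β' * Y + a l') ^ 2 * h₁ - (a α * (X * (a β' * Y + a l') -
        (a γ' * Y ^ 2 + a m' * Y + a n')) + (a β' * Y + a l') * (a β * Y + a l)) * h₂
    · compute_degree

/-- Elimination for a conic and a line. -/
theorem conic_line (X Y : K) (htop : IntermediateField.adjoin k {X, Y} = ⊤)
    (α β γ l m n l' m' n' : k)
    (h₁ : algebraMap k K α * X ^ 2 + algebraMap k K β * (X * Y) + algebraMap k K γ * Y ^ 2 +
      algebraMap k K l * X + algebraMap k K m * Y + algebraMap k K n = 0)
    (h₂ : algebraMap k K l' * X + algebraMap k K m' * Y + algebraMap k K n' = 0)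
    (hρ : α * m' ^ 2 - β * l' * m' + γ * l' ^ 2 ≠ 0) :
    FiniteDimensional k K ∧ Module.finrank k K ≤ 2 := by
  set a := algebraMap k K with ha
  by_cases hl' : l' = 0
  · have hm' : m' ≠ 0 := by
      rintro rfl
      apply hρ
      rw [hl']
      ring
    have hα : α ≠ 0 := by
      rintro rfl
      apply hρ
      rw [hl']
      ring
    have hY : Y = a (-n' / m') := by
      rw [map_div₀, map_neg]
      field_simp [show a m' ≠ 0 from (map_ne_zero a).mpr hm']
      rw [hl', map_zero] at h₂
      linear_combination h₂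
    have hXtop : k⟮X⟯ = ⊤ := by
      rw [eq_top_iff, ← htop, IntermediateField.adjoin_le_iff]
      rintro z (rfl | rfl)
      · exact IntermediateField.mem_adjoin_simple_self _ _
      · rw [hY]
        exact IntermediateField.algebraMap_mem _ _
    exact finrank_le_two_of_root X hXtop α (β * (-n' / m') + l)
      (γ * (-n' / m') ^ 2 + m * (-n' / m') + n) (Or.inl hα) (by
        simp only [map_add, map_mul, map_pow]
        rw [← ha, ← hY]
        linear_combination h₁)
  · have hal' : a l' ≠ 0 := (map_ne_zero a).mpr hl'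
    have hX : X = -(a m' * Y + a n') / a l' := by
      rw [eq_div_iff hal']
      linear_combination h₂
    have hYtop : k⟮Y⟯ = ⊤ := by
      rw [eq_top_iff, ← htop, IntermediateField.adjoin_le_iff]
      have hY : Y ∈ k⟮Y⟯ := IntermediateField.mem_adjoin_simple_self _ _
      rintro z (rfl | rfl)
      · rw [hX]
        exact div_mem (neg_mem (add_mem (mul_mem (IntermediateField.algebraMap_mem _ _) hY)
          (IntermediateField.algebraMap_mem _ _))) (IntermediateField.algebraMap_mem _ _)
      · exact hY
    apply finrank_le_two_of_root Y hYtop (α * m' ^ 2 - β * l' * m' + γ * l' ^ 2)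
      (2 * α * m' * n' - β * l' * n' - l * l' * m' + m * l' ^ 2)
      (α * n' ^ 2 - l * l' * n' + n * l' ^ 2) (Or.inl hρ)
    simp only [map_add, map_sub, map_mul, map_pow, map_ofNat, ← ha]
    linear_combination (a l') ^ 2 * h₁ - (a α * (X * a l' - (a m' * Y + a n')) +
      a l' * (a β * Y + a l)) * h₂

/-- The function field of a conic over `k` has degree at most two over `k(w)` or `k(T)`. -/
theorem conic_proj (T w : K) (htop : IntermediateField.adjoin k {T, w} = ⊤)
    (c d e g h i : k) (hne : c ≠ 0 ∨ d ≠ 0 ∨ e ≠ 0)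
    (hG : algebraMap k K c * T ^ 2 + algebraMap k K d * (T * w) + algebraMap k K e * w ^ 2 +
      algebraMap k K g * T + algebraMap k K h * w + algebraMap k K i = 0) :
    (FiniteDimensional k⟮w⟯ K ∧ Module.finrank k⟮w⟯ K ≤ 2) ∨
    (FiniteDimensional k⟮T⟯ K ∧ Module.finrank k⟮T⟯ K ≤ 2) := by
  have hwT : k⟮w⟯⟮T⟯ = ⊤ := by
    rw [← IntermediateField.restrictScalars_eq_top_iff (K := k),
      IntermediateField.adjoin_adjoin_left, ← htop]
    congr 1
    ext z; simp
  have hTw : k⟮T⟯⟮w⟯ = ⊤ := by
    rw [← IntermediateField.restrictScalars_eq_top_iff (K := k),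
      IntermediateField.adjoin_adjoin_left, ← htop]
    congr 1
  by_cases h1 : c ≠ 0 ∨ algebraMap k K d * w + algebraMap k K g ≠ 0
  · left
    apply finrank_le_two_of_root T hwT (algebraMap k k⟮w⟯ c)
      (algebraMap k k⟮w⟯ d * AdjoinSimple.gen k w + algebraMap k k⟮w⟯ g)
      (algebraMap k k⟮w⟯ e * AdjoinSimple.gen k w ^ 2 +
        algebraMap k k⟮w⟯ h * AdjoinSimple.gen k w + algebraMap k k⟮w⟯ i)
    · rcases h1 with h1 | h1
      · left; simpa using h1
      · right
        intro h2
        apply h1
        have := congrArg (algebraMap k⟮w⟯ K) h2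
        simpa only [map_add, map_mul, ← IsScalarTower.algebraMap_apply,
          IntermediateField.AdjoinSimple.algebraMap_gen, map_zero] using this
    · simp only [map_add, map_mul, map_pow, ← IsScalarTower.algebraMap_apply,
        IntermediateField.AdjoinSimple.algebraMap_gen]
      linear_combination hG
  · push Not at h1
    obtain ⟨hc, h1⟩ := h1
    by_cases h2 : e ≠ 0 ∨ algebraMap k K d * T + algebraMap k K h ≠ 0
    · right
      apply finrank_le_two_of_root w hTw (algebraMap k k⟮T⟯ e)
        (algebraMap k k⟮T⟯ d * AdjoinSimple.gen k T + algebraMap k k⟮T⟯ h)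
        (algebraMap k k⟮T⟯ c * AdjoinSimple.gen k T ^ 2 +
          algebraMap k k⟮T⟯ g * AdjoinSimple.gen k T + algebraMap k k⟮T⟯ i)
      · rcases h2 with h2 | h2
        · left; simpa using h2
        · right
          intro h3
          apply h2
          have := congrArg (algebraMap k⟮T⟯ K) h3
          simpa only [map_add, map_mul, ← IsScalarTower.algebraMap_apply,
            IntermediateField.AdjoinSimple.algebraMap_gen, map_zero] using this
      · simp only [map_add, map_mul, map_pow, ← IsScalarTower.algebraMap_apply,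
          IntermediateField.AdjoinSimple.algebraMap_gen]
        linear_combination hG
    · push Not at h2
      obtain ⟨he, h2⟩ := h2
      have hd : d ≠ 0 := by tauto
      have hT : T = algebraMap k K (-h / d) := by
        rw [map_div₀, map_neg]
        field_simp [show algebraMap k K d ≠ 0 from (map_ne_zero _).mpr hd]
        linear_combination h2
      left
      apply finrank_le_two_of_root T hwT 0 1 (algebraMap k k⟮w⟯ (h / d)) (Or.inr one_ne_zero)
      rw [← IsScalarTower.algebraMap_apply, hT, map_div₀, map_div₀, map_neg]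
      simp
      ring

end

end Pool.Agent.Helper17.Irr
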