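import Mathlib
import Pool.Agent.Helper17.Irr.Change

/-!
# Normal forms of conics with a point of degree two
-/

set_option linter.style.haveILetI false
set_option linter.deprecated false

namespace Pool.Agent.Helper17.Irr

universe u v w

section

variable {E : Type u} [Field E] (c : Fin 3 → Fin 3 → E)

/-- The value of a ternary quadratic form. -/
def qv (R : Type v) [CommRing R] [Algebra E R] (a : Fin 3 → R) : R :=
  ∑ i, ∑ j, algebraMap E R (c i j) * (a i * a j)

/-- The polar form. -/
def qp (a b : Fin 3 → E) : E := ∑ i, ∑ j, c i j * (a i * b j + b i * a j)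

variable {c}

theorem qv_two {R : Type v} [CommRing R] [Algebra E R] (α β : R) (a b : Fin 3 → E) :
    qv c R (fun i => α * algebraMap E R (a i) + β * algebraMap E R (b i)) =
      α ^ 2 * algebraMap E R (qv c E a) + α * β * algebraMap E R (qp c a b) +
        β ^ 2 * algebraMap E R (qv c E b) := by
  simp only [qv, qp, map_sum, map_mul, map_add, Finset.mul_sum, ← Finset.sum_add_distrib,
    Algebra.algebraMap_self, RingHom.id_apply]
  refine Finset.sum_congr rfl fun i _ => Finset.sum_congr rfl fun j _ => ?_
  ring

theorem qv_three {R : Type v} [CommRing R] [Algebra E R] (α β δ : R) (a b d : Fin 3 → E) :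
    qv c R (fun i => α * algebraMap E R (a i) + β * algebraMap E R (b i) +
        δ * algebraMap E R (d i)) =
      α ^ 2 * algebraMap E R (qv c E a) + α * β * algebraMap E R (qp c a b) +
        β ^ 2 * algebraMap E R (qv c E b) + α * δ * algebraMap E R (qp c a d) +
        β * δ * algebraMap E R (qp c b d) + δ ^ 2 * algebraMap E R (qv c E d) := by
  simp only [qv, qp, map_sum, map_mul, map_add, Finset.mul_sum, ← Finset.sum_add_distrib,
    Algebra.algebraMap_self, RingHom.id_apply]
  refine Finset.sum_congr rfl fun i _ => Finset.sum_congr rfl fun j _ => ?_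
  ring

theorem qv_smul {R : Type v} [CommRing R] [Algebra E R] (α : R) (a : Fin 3 → R) :
    qv c R (fun i => α * a i) = α ^ 2 * qv c R a := by
  simp only [qv, Finset.mul_sum]
  refine Finset.sum_congr rfl fun i _ => Finset.sum_congr rfl fun j _ => ?_
  ring

theorem qv_algebraMap {R : Type v} [CommRing R] [Algebra E R] (a : Fin 3 → E) :
    qv c R (fun i => algebraMap E R (a i)) = algebraMap E R (qv c E a) := by
  simp only [qv, map_sum, map_mul, Algebra.algebraMap_self, RingHom.id_apply]

/-- A point over a quadratic extension spans a line on which the form is anisotropic. -/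
theorem line_of_quadratic_point (hno : ∀ a : Fin 3 → E, a ≠ 0 → qv c E a ≠ 0)
    {R : Type v} [CommRing R] [Algebra E R] (η : R)
    (hη : ∀ α β : E, algebraMap E R α + algebraMap E R β * η = 0 → α = 0 ∧ β = 0)
    (b c₀ : E) (hη2 : η ^ 2 = algebraMap E R c₀ + algebraMap E R b * η) (v₀ v₁ : Fin 3 → E)
    (hspan : Ideal.span (Set.range fun i => algebraMap E R (v₀ i) + algebraMap E R (v₁ i) * η) = ⊤)
    (hQ : qv c R (fun i => algebraMap E R (v₀ i) + algebraMap E R (v₁ i) * η) = 0) :
    qv c E v₁ ≠ 0 ∧ qv c E v₀ = - c₀ * qv c E v₁ ∧ qp c v₀ v₁ = - b * qv c E v₁ ∧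
      LinearIndependent E ![v₀, v₁] := by
  have hinj : ∀ α : E, algebraMap E R α = 0 → α = 0 := by
    intro α h
    exact (hη α 0 (by rw [h, map_zero, zero_mul, add_zero])).1
  have h1R : (1 : R) ≠ 0 := by
    intro h
    have := hinj 1 (by rw [map_one, h])
    exact one_ne_zero this
  have hform : (fun i => algebraMap E R (v₀ i) + algebraMap E R (v₁ i) * η) =
      fun i => 1 * algebraMap E R (v₀ i) + η * algebraMap E R (v₁ i) := by
    ext i
    ring
  have hne : ∃ i, algebraMap E R (v₀ i) + algebraMap E R (v₁ i) * η ≠ 0 := by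
    by_contra hcon
    push Not at hcon
    have h2 : Set.range (fun i => algebraMap E R (v₀ i) + algebraMap E R (v₁ i) * η) ⊆ {0} := by
      rintro _ ⟨i, rfl⟩
      exact hcon i
    have h3 : (1 : R) ∈ Ideal.span (Set.range fun i => algebraMap E R (v₀ i) +
        algebraMap E R (v₁ i) * η) := by rw [hspan]; trivial
    have h4 := Ideal.span_mono h2 h3
    rw [Ideal.mem_span_singleton, zero_dvd_iff] at h4
    exact h1R h4
  -- proportional vectors give rational points
  have hprop : ∀ (a : Fin 3 → E) (θ : R), (∀ i, algebraMap E R (v₀ i) +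
      algebraMap E R (v₁ i) * η = θ * algebraMap E R (a i)) → False := by
    intro a θ h
    have ha : a ≠ 0 := by
      rintro rfl
      obtain ⟨i, hi⟩ := hne
      apply hi
      rw [h i]
      simp
    have hθ : IsUnit θ := by
      have h3 : (1 : R) ∈ Ideal.span (Set.range fun i => algebraMap E R (v₀ i) +
          algebraMap E R (v₁ i) * η) := by rw [hspan]; trivial
      have h4 : Ideal.span (Set.range fun i => algebraMap E R (v₀ i) +
          algebraMap E R (v₁ i) * η) ≤ Ideal.span {θ} := by
        rw [Ideal.span_le]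
        rintro _ ⟨i, rfl⟩
        simp only [h i]
        exact Ideal.mul_mem_right _ _ (Ideal.mem_span_singleton_self θ)
      exact isUnit_of_dvd_one (Ideal.mem_span_singleton.mp (h4 h3))
    have h5 : (fun i => algebraMap E R (v₀ i) + algebraMap E R (v₁ i) * η) =
        fun i => θ * algebraMap E R (a i) := funext h
    rw [h5, qv_smul, qv_algebraMap] at hQ
    have h6 := (hθ.pow 2).mul_right_eq_zero.mp hQ
    exact hno a ha (hinj _ h6)
  have hli : LinearIndependent E ![v₀, v₁] := by
    rw [LinearIndependent.pair_iff]
    intro s t hst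
    have hst' : ∀ i, s * v₀ i + t * v₁ i = 0 := by
      intro i
      have := congrFun hst i
      simpa using this
    by_cases ht : t = 0
    · refine ⟨?_, ht⟩
      by_contra hs
      apply hprop v₁ η
      intro i
      have h2 := hst' i
      rw [ht, zero_mul, add_zero] at h2
      rw [(mul_eq_zero.mp h2).resolve_left hs, map_zero]
      ring
    · exfalso
      apply hprop v₀ (1 + algebraMap E R (-s / t) * η)
      intro i
      have h2 : v₁ i = (-s / t) * v₀ i := by
        field_simp
        linear_combination hst' i
      rw [h2, map_mul]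
      ring
  have hv₁ : v₁ ≠ 0 := by
    intro h
    exact hli.ne_zero 1 (by simpa using h)
  rw [hform, qv_two] at hQ
  have h2 := hη (qv c E v₀ + c₀ * qv c E v₁) (qp c v₀ v₁ + b * qv c E v₁) (by
    simp only [map_add, map_mul]
    linear_combination hQ - algebraMap E R (qv c E v₁) * hη2)
  exact ⟨hno v₁ hv₁, by linear_combination h2.1, by linear_combination h2.2, hli⟩

/-- Normal form of the generic point of a conic with a point of degree two. -/
theorem conic_normal_form (hno : ∀ a : Fin 3 → E, a ≠ 0 → qv c E a ≠ 0) {b c₀ : E}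
    {v₀ v₁ : Fin 3 → E} (h1 : qv c E v₁ ≠ 0) (h0 : qv c E v₀ = - c₀ * qv c E v₁)
    (h01 : qp c v₀ v₁ = - b * qv c E v₁) (hli : LinearIndependent E ![v₀, v₁])
    {K : Type v} [Field K] [Algebra E K]
    (hcl : ∀ z : K, IsAlgebraic E z → ∃ a : E, z = algebraMap E K a)
    (X : Fin 3 → K) (hX2 : X 2 = 1) (hX : qv c K X = 0) :
    ∃ (B : Matrix (Fin 3) (Fin 3) E) (s t r : K) (l m n : E),
      (∀ i, X i = r * (algebraMap E K (B i 0) * s + algebraMap E K (B i 1) * t +
        algebraMap E K (B i 2))) ∧
      t * t - algebraMap E K b * (s * t) - algebraMap E K c₀ * (s * s) + algebraMap E K l * s +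
        algebraMap E K m * t + algebraMap E K n = 0 ∧
      (l = 0 → m = 0 → b = 0 → (2 : E) = 0 → ∀ i j, c i j + c j i = 0) := by
  obtain ⟨A, B, hAB, hBA, hA, hB⟩ := exists_matrix_mulVec (m := 2) ![v₀, v₁]
    ![Pi.single 0 1, Pi.single 1 1] hli (by
      rw [LinearIndependent.pair_iff]
      intro s t hst
      have e0 := congrFun hst 0
      have e1 := congrFun hst 1
      simp at e0 e1
      exact ⟨e0, e1⟩)
  have hB0 : B.mulVec (Pi.single 0 1) = v₀ := by simpa using hB 0
  have hB1 : B.mulVec (Pi.single 1 1) = v₁ := by simpa using hB 1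
  have hc0 : ∀ i, B i 0 = v₀ i := fun i => by
    rw [← hB0, Matrix.mulVec_single_one, Matrix.col_apply]
  have hc1 : ∀ i, B i 1 = v₁ i := fun i => by
    rw [← hB1, Matrix.mulVec_single_one, Matrix.col_apply]
  set v₂ : Fin 3 → E := fun i => B i 2 with hv₂
  -- the new coordinates
  set a : Fin 3 → K := fun k => ∑ j, algebraMap E K (A k j) * X j with ha
  have hXa : ∀ i, X i = a 0 * algebraMap E K (v₀ i) + a 1 * algebraMap E K (v₁ i) +
      a 2 * algebraMap E K (v₂ i) := by
    intro i
    have h2 : ∑ k, algebraMap E K (B i k) * a k = X i := by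
      simp only [ha, Finset.mul_sum]
      rw [Finset.sum_comm]
      have h3 : ∀ j, ∑ k, algebraMap E K (B i k) * (algebraMap E K (A k j) * X j) =
          algebraMap E K ((1 : Matrix (Fin 3) (Fin 3) E) i j) * X j := by
        intro j
        rw [← hBA, Matrix.mul_apply, map_sum, Finset.sum_mul]
        refine Finset.sum_congr rfl fun k _ => ?_
        rw [map_mul]
        ring
      simp only [h3]
      rw [Finset.sum_eq_single i]
      · simp
      · intro j _ hj
        simp [Matrix.one_apply_ne (Ne.symm hj)]
      · simp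
    rw [← h2, Fin.sum_univ_three, hc0, hc1]
    ring
  have hXfun : X = fun i => a 0 * algebraMap E K (v₀ i) + a 1 * algebraMap E K (v₁ i) +
      a 2 * algebraMap E K (v₂ i) := funext hXa
  have hX' := hX
  rw [hXfun, qv_three, h0, h01] at hX'
  set γ := qv c E v₁ with hγ
  have hinj := (algebraMap E K).injective
  have hγK : algebraMap E K γ ≠ 0 := (map_ne_zero _).mpr h1
  have ha2 : a 2 ≠ 0 := by
    intro ha2
    rw [ha2] at hX' hXa
    have h3 : a 1 ^ 2 - algebraMap E K b * (a 0 * a 1) - algebraMap E K c₀ * a 0 ^ 2 = 0 := by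
      have h4 : algebraMap E K γ * (a 1 ^ 2 - algebraMap E K b * (a 0 * a 1) -
          algebraMap E K c₀ * a 0 ^ 2) = 0 := by
        simp only [map_mul, map_neg] at hX'
        linear_combination hX'
      exact (mul_eq_zero.mp h4).resolve_left hγK
    by_cases ha0 : a 0 = 0
    · have ha1 : a 1 = 0 := by
        rw [ha0] at h3
        have : a 1 ^ 2 = 0 := by linear_combination h3
        exact pow_eq_zero_iff (two_ne_zero) |>.mp this
      have h4 := hXa 2
      rw [hX2, ha0, ha1] at h4
      simp at h4
    · -- everything is algebraic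
      set ρ := a 1 / a 0 with hρ
      have hρalg : IsAlgebraic E ρ := by
        refine ⟨Polynomial.X ^ 2 - Polynomial.C b * Polynomial.X - Polynomial.C c₀, ?_, ?_⟩
        · intro h5
          have := congrArg (fun P : Polynomial E => P.coeff 2) h5
          simp at this
        · simp only [map_sub, map_mul, map_pow, Polynomial.aeval_X, Polynomial.aeval_C]
          rw [hρ]
          field_simp
          linear_combination h3
      obtain ⟨r, hr⟩ := hcl ρ hρalg
      have ha1 : a 1 = a 0 * algebraMap E K r := by
        rw [← hr, hρ]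
        field_simp
      have hXr : ∀ i, X i = a 0 * algebraMap E K (v₀ i + r * v₁ i) := by
        intro i
        rw [hXa i, ha1, map_add, map_mul]
        ring
      have h5 : v₀ + r • v₁ ≠ 0 := by
        intro h6
        have h7 := hXr 2
        have h8 : v₀ 2 + r * v₁ 2 = 0 := by
          have := congrFun h6 2
          simpa using this
        rw [hX2, h8, map_zero, mul_zero] at h7
        exact one_ne_zero h7
      apply hno _ h5
      apply hinj
      rw [map_zero, ← qv_algebraMap]
      have h6 : X = fun i => a 0 * algebraMap E K ((v₀ + r • v₁) i) := by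
        ext i
        rw [hXr i]
        simp
      rw [h6, qv_smul] at hX
      exact (mul_eq_zero.mp hX).resolve_left (pow_ne_zero 2 ha0)
  refine ⟨B, a 0 / a 2, a 1 / a 2, a 2, qp c v₀ v₂ / γ, qp c v₁ v₂ / γ, qv c E v₂ / γ, ?_, ?_, ?_⟩
  · intro i
    rw [hXa i, hc0, hc1]
    simp only [hv₂]
    field_simp
  · simp only [map_div₀]
    simp only [map_mul, map_neg] at hX'
    field_simp
    linear_combination hX'
  · intro hl hm hb h2 i j
    have hl' : qp c v₀ v₂ = 0 := by
      rcases div_eq_zero_iff.mp hl with h | h
      · exact h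
      · exact absurd h h1
    have hm' : qp c v₁ v₂ = 0 := by
      rcases div_eq_zero_iff.mp hm with h | h
      · exact h
      · exact absurd h h1
    have h01' : qp c v₀ v₁ = 0 := by rw [h01, hb]; ring
    -- the polar form vanishes identically
    have hbil : ∀ x y z : Fin 3 → E, ∀ r : E, qp c (fun i => x i + r * y i) z =
        qp c x z + r * qp c y z := by
      intro x y z r
      simp only [qp, Finset.mul_sum, ← Finset.sum_add_distrib]
      refine Finset.sum_congr rfl fun i _ => Finset.sum_congr rfl fun j _ => ?_
      ring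
    have hsymm : ∀ x y : Fin 3 → E, qp c x y = qp c y x := by
      intro x y
      simp only [qp]
      refine Finset.sum_congr rfl fun i _ => Finset.sum_congr rfl fun j _ => ?_
      ring
    have hself : ∀ x : Fin 3 → E, qp c x x = 0 := by
      intro x
      have : qp c x x = 2 * qv c E x := by
        simp only [qp, qv, Finset.mul_sum]
        refine Finset.sum_congr rfl fun i _ => Finset.sum_congr rfl fun j _ => ?_
        simp only [Algebra.algebraMap_self, RingHom.id_apply]
        ring
      rw [this, h2, zero_mul]
    have hdec : ∀ x : Fin 3 → E, ∃ α β δ : E, x = fun i => (α * v₀ i + β * v₁ i) + δ * v₂ i := by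
      intro x
      refine ⟨A.mulVec x 0, A.mulVec x 1, A.mulVec x 2, ?_⟩
      have h3 : B.mulVec (A.mulVec x) = x := by
        rw [Matrix.mulVec_mulVec, hBA, Matrix.one_mulVec]
      ext i
      have h4 := congrFun h3 i
      rw [Matrix.mulVec, dotProduct, Fin.sum_univ_three] at h4
      rw [← h4, hc0, hc1]
      ring
    have hv : ∀ x, qp c v₀ x = 0 ∧ qp c v₁ x = 0 ∧ qp c v₂ x = 0 := by
      intro x
      obtain ⟨α, β, δ, hx⟩ := hdec x
      have hgen : ∀ y, qp c x y = α * qp c v₀ y + β * qp c v₁ y + δ * qp c v₂ y := by
        intro y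
        rw [hx]
        have e1 : (fun i => (α * v₀ i + β * v₁ i) + δ * v₂ i) =
          fun i => ((fun i => α * v₀ i + β * v₁ i) i) + δ * v₂ i := rfl
        rw [e1, hbil]
        have e2 : (fun i => α * v₀ i + β * v₁ i) =
          fun i => ((fun i => (0 : Fin 3 → E) i + α * v₀ i) i) + β * v₁ i := by
          ext i; simp
        rw [e2, hbil, hbil]
        have e3 : qp c (0 : Fin 3 → E) y = 0 := by simp [qp]
        rw [e3]
        ring
      refine ⟨?_, ?_, ?_⟩
      · rw [hsymm, hgen, hself, hsymm v₁ v₀, h01', hsymm v₂ v₀, hl']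
        ring
      · rw [hsymm, hgen, hself, h01', hsymm v₂ v₁, hm']
        ring
      · rw [hsymm, hgen, hself, hl', hm']
        ring
    have hall : ∀ x y, qp c x y = 0 := by
      intro x y
      obtain ⟨α, β, δ, hx⟩ := hdec x
      rw [hx]
      have e1 : (fun i => (α * v₀ i + β * v₁ i) + δ * v₂ i) =
        fun i => ((fun i => α * v₀ i + β * v₁ i) i) + δ * v₂ i := rfl
      rw [e1, hbil]
      have e2 : (fun i => α * v₀ i + β * v₁ i) =
        fun i => ((fun i => (0 : Fin 3 → E) i + α * v₀ i) i) + β * v₁ i := by
        ext i; simp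
      rw [e2, hbil, hbil]
      have e3 : qp c (0 : Fin 3 → E) y = 0 := by simp [qp]
      rw [e3, (hv y).1, (hv y).2.1, (hv y).2.2]
      ring
    have h3 := hall (Pi.single i 1) (Pi.single j 1)
    have h4 : qp c (Pi.single i 1) (Pi.single j 1) = c i j + c j i := by
      simp only [qp, mul_add, Finset.sum_add_distrib]
      congr 1
      · rw [Finset.sum_eq_single i, Finset.sum_eq_single j]
        · simp
        · intro k _ hk
          simp [hk]
        · simp
        · intro k _ hk
          simp [hk]
        · simp
      · rw [Finset.sum_eq_single j, Finset.sum_eq_single i]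
        · simp
        · intro k _ hk
          simp [hk]
        · simp
        · intro k _ hk
          simp [hk]
        · simp
    rw [← h4, h3]

end

end Pool.Agent.Helper17.Irr
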