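import Mathlib
import Pool.Agent.Helper17.Irr.ConicNormal

/-!
# Conics with a rational point
-/

set_option linter.style.haveILetI false
set_option linter.deprecated false

namespace Pool.Agent.Helper17.Irr

open IntermediateField

universe u v w

section

variable {E : Type u} [Field E] {c : Fin 3 → Fin 3 → E}

/-- The coordinates of a point of a conic with a smooth rational point are rational functions of
one parameter. -/
theorem conic_parametrization {a : Fin 3 → E} (ha : a ≠ 0) (hqa : qv c E a = 0)
    (hsm : ∃ k, ∑ j, (c k j + c j k) * a j ≠ 0) {K : Type v} [Field K] [Algebra E K]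
    (X : Fin 3 → K) (hX2 : X 2 = 1) (hX : qv c K X = 0) :
    ∃ κ : K, ∀ i, X i ∈ E⟮κ⟯ := by
  obtain ⟨A, B, hAB, hBA, hA, hB⟩ := exists_matrix_mulVec (m := 1) ![a] ![Pi.single 2 1]
    (by
      rw [linearIndependent_unique_iff]
      exact ha)
    (by
      rw [linearIndependent_unique_iff]
      intro h
      have := congrFun h 2
      simp at this)
  have hB2 : B.mulVec (Pi.single 2 1) = a := by simpa using hB 0
  have hc2 : ∀ i, B i 2 = a i := fun i => by
    rw [← hB2, Matrix.mulVec_single_one, Matrix.col_apply]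
  set b₀ : Fin 3 → E := fun i => B i 0 with hb₀
  set b₁ : Fin 3 → E := fun i => B i 1 with hb₁
  -- the new coordinates
  set Y : Fin 3 → K := fun k => ∑ j, algebraMap E K (A k j) * X j with hY
  have hXY : ∀ i, X i = Y 0 * algebraMap E K (b₀ i) + Y 1 * algebraMap E K (b₁ i) +
      Y 2 * algebraMap E K (a i) := by
    intro i
    have h2 : ∑ k, algebraMap E K (B i k) * Y k = X i := by
      simp only [hY, Finset.mul_sum]
      rw [Finset.sum_comm]
      have h3 : ∀ j, ∑ k, algebraMap E K (B i k) * (algebraMap E K (A k j) * X j) =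
          algebraMap E K ((1 : Matrix (Fin 3) (Fin 3) E) i j) * X j := by
        intro j
        rw [← hBA, Matrix.mul_apply, map_sum, Finset.sum_mul]
        refine Finset.sum_congr rfl fun k _ => ?_
        rw [map_mul]
        ring
      simp only [h3]
      rw [Finset.sum_eq_single i]
      · simp
      · intro j _ hj
        simp [Matrix.one_apply_ne (Ne.symm hj)]
      · simp
    rw [← h2, Fin.sum_univ_three, hc2]
    ring
  have hXfun : X = fun i => Y 0 * algebraMap E K (b₀ i) + Y 1 * algebraMap E K (b₁ i) +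
      Y 2 * algebraMap E K (a i) := funext hXY
  have hX' := hX
  rw [hXfun, qv_three, hqa, map_zero, mul_zero, add_zero] at hX'
  -- the polar form at `a` does not vanish
  have hpol : qp c b₀ a ≠ 0 ∨ qp c b₁ a ≠ 0 := by
    by_contra hcon
    push Not at hcon
    obtain ⟨h0, h1⟩ := hcon
    obtain ⟨k, hk⟩ := hsm
    apply hk
    have hself : qp c a a = 0 := by
      have : qp c a a = 2 * qv c E a := by
        simp only [qp, qv, Finset.mul_sum]
        refine Finset.sum_congr rfl fun i _ => Finset.sum_congr rfl fun j _ => ?_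
        simp only [Algebra.algebraMap_self, RingHom.id_apply]
        ring
      rw [this, hqa, mul_zero]
    have hlin : ∀ x : Fin 3 → E, qp c x a = ∑ i, x i * ∑ j, (c i j + c j i) * a j := by
      intro x
      have e1 : qp c x a = ∑ i, ∑ j, c i j * (x i * a j) + ∑ i, ∑ j, c i j * (a i * x j) := by
        simp only [qp, mul_add, Finset.sum_add_distrib]
      rw [e1, Finset.sum_comm (f := fun i j => c i j * (a i * x j)), ← Finset.sum_add_distrib]
      refine Finset.sum_congr rfl fun i _ => ?_
      rw [Finset.mul_sum, ← Finset.sum_add_distrib]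
      refine Finset.sum_congr rfl fun j _ => ?_
      ring
    have hsingle : qp c (Pi.single k 1) a = ∑ j, (c k j + c j k) * a j := by
      rw [hlin, Finset.sum_eq_single k]
      · rw [Pi.single_eq_same, one_mul]
      · intro i _ hi
        rw [Pi.single_eq_of_ne hi, zero_mul]
      · simp
    rw [← hsingle]
    have hdec : (Pi.single k 1 : Fin 3 → E) = fun i =>
        A.mulVec (Pi.single k 1) 0 * b₀ i + A.mulVec (Pi.single k 1) 1 * b₁ i +
        A.mulVec (Pi.single k 1) 2 * a i := by
      have h3 : B.mulVec (A.mulVec (Pi.single k 1)) = Pi.single k 1 := by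
        rw [Matrix.mulVec_mulVec, hBA, Matrix.one_mulVec]
      ext i
      have h4 := congrFun h3 i
      rw [Matrix.mulVec, dotProduct, Fin.sum_univ_three] at h4
      rw [← h4, hc2]
      ring
    set s := A.mulVec (Pi.single k 1) 0
    set t := A.mulVec (Pi.single k 1) 1
    set r := A.mulVec (Pi.single k 1) 2
    have h5 : qp c (Pi.single k 1) a = s * qp c b₀ a + t * qp c b₁ a + r * qp c a a := by
      rw [hlin, hlin b₀, hlin b₁, hlin a, hdec]
      simp only [Finset.mul_sum, ← Finset.sum_add_distrib]
      refine Finset.sum_congr rfl fun i _ => Finset.sum_congr rfl fun j _ => ?_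
      ring
    rw [h5, h0, h1, hself]
    ring
  set δ := qp c b₀ a with hδ
  set ε := qp c b₁ a with hε
  -- if the new coordinates are proportional to elements of a field, so are the old ones
  have key : ∀ (κ θ y₀ y₁ y₂ : K), y₀ ∈ E⟮κ⟯ → y₁ ∈ E⟮κ⟯ → y₂ ∈ E⟮κ⟯ → Y 0 = θ * y₀ →
      Y 1 = θ * y₁ → Y 2 = θ * y₂ → ∀ i, X i ∈ E⟮κ⟯ := by
    intro κ θ y₀ y₁ y₂ h0 h1 h2 e0 e1 e2
    have hm : ∀ i, y₀ * algebraMap E K (b₀ i) + y₁ * algebraMap E K (b₁ i) +
        y₂ * algebraMap E K (a i) ∈ E⟮κ⟯ := fun i =>
      add_mem (add_mem (mul_mem h0 (IntermediateField.algebraMap_mem _ _))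
        (mul_mem h1 (IntermediateField.algebraMap_mem _ _)))
        (mul_mem h2 (IntermediateField.algebraMap_mem _ _))
    have hXθ : ∀ i, X i = θ * (y₀ * algebraMap E K (b₀ i) + y₁ * algebraMap E K (b₁ i) +
        y₂ * algebraMap E K (a i)) := by
      intro i
      rw [hXY i, e0, e1, e2]
      ring
    have hθ : θ ∈ E⟮κ⟯ := by
      have h3 := hXθ 2
      rw [hX2] at h3
      have h4 : θ = (y₀ * algebraMap E K (b₀ 2) + y₁ * algebraMap E K (b₁ 2) +
        y₂ * algebraMap E K (a 2))⁻¹ := by
        rw [← one_div, eq_div_iff]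
        · exact h3.symm
        · intro h5
          rw [h5, mul_zero] at h3
          exact one_ne_zero h3
      rw [h4]
      exact inv_mem (hm 2)
    intro i
    rw [hXθ i]
    exact mul_mem hθ (hm i)
  by_cases hY0 : Y 0 = 0
  · by_cases hY1 : Y 1 = 0
    · exact ⟨0, key 0 (Y 2) 0 0 1 (zero_mem _) (zero_mem _) (one_mem _) (by rw [hY0, mul_zero])
        (by rw [hY1, mul_zero]) (by rw [mul_one])⟩
    · refine ⟨Y 2 / Y 1, key _ (Y 1) 0 1 (Y 2 / Y 1) (zero_mem _) (one_mem _)
        (IntermediateField.mem_adjoin_simple_self E _) (by rw [hY0, mul_zero]) (by rw [mul_one])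
        (by field_simp)⟩
  · set κ := Y 1 / Y 0 with hκ
    have hY1 : Y 1 = Y 0 * κ := by
      rw [hκ]
      field_simp
    by_cases hl : algebraMap E K δ + algebraMap E K ε * κ = 0
    · -- the point lies on a rational line
      have hκE : ∃ r : E, κ = algebraMap E K r := by
        have hε0 : ε ≠ 0 := by
          intro h0
          rw [h0, map_zero, zero_mul, add_zero] at hl
          rcases hpol with h | h
          · exact h ((map_eq_zero _).mp hl)
          · exact h h0
        refine ⟨-δ / ε, ?_⟩
        rw [map_div₀, map_neg, eq_div_iff ((map_ne_zero _).mpr hε0)]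
        linear_combination hl
      obtain ⟨r, hr⟩ := hκE
      exact ⟨Y 2 / Y 0, key _ (Y 0) 1 (algebraMap E K r) (Y 2 / Y 0) (one_mem _)
        (IntermediateField.algebraMap_mem _ _) (IntermediateField.mem_adjoin_simple_self E _)
        (by rw [mul_one]) (by rw [hY1, hr]) (by field_simp)⟩
    · have hκm : κ ∈ E⟮κ⟯ := IntermediateField.mem_adjoin_simple_self E _
      have hb : ∀ z : E, algebraMap E K z ∈ E⟮κ⟯ := fun z => IntermediateField.algebraMap_mem _ z
      refine ⟨κ, key κ (Y 0) 1 κ (-(algebraMap E K (qv c E b₀) + κ * algebraMap E K (qp c b₀ b₁) +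
        κ ^ 2 * algebraMap E K (qv c E b₁)) / (algebraMap E K δ + algebraMap E K ε * κ))
        (one_mem _) hκm (div_mem (neg_mem (add_mem (add_mem (hb _) (mul_mem hκm (hb _)))
          (mul_mem (pow_mem hκm 2) (hb _)))) (add_mem (hb _) (mul_mem (hb _) hκm)))
        (by rw [mul_one]) hY1 ?_⟩
      rw [mul_div_assoc', eq_div_iff hl]
      have h3 : Y 0 * (Y 2 * (algebraMap E K δ + algebraMap E K ε * κ) - Y 0 *
          -(algebraMap E K (qv c E b₀) + κ * algebraMap E K (qp c b₀ b₁) +
          κ ^ 2 * algebraMap E K (qv c E b₁))) = 0 := by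
        rw [hY1] at hX'
        linear_combination hX'
      have h4 := (mul_eq_zero.mp h3).resolve_left hY0
      linear_combination h4

end

end Pool.Agent.Helper17.Irr
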