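import Mathlib
import Pool.Agent.Helper17.Irr.Change

/-!
# Elimination for surfaces in projective three-space
-/

set_option linter.style.haveILetI false
set_option linter.deprecated false

namespace Pool.Agent.Helper17.Irr

open IntermediateField

universe u v w

section

variable {F : Type u} [Field F] {K : Type v} [Field K] [Algebra F K]

theorem aeval_finSucc {n : ℕ} {k : IntermediateField F K} (ξ : Fin n → k) (c : K)
    (f : MvPolynomial (Fin (n + 1)) F) :
    Polynomial.aeval c ((MvPolynomial.finSuccEquiv F n f).map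
      (MvPolynomial.aeval ξ : MvPolynomial (Fin n) F →ₐ[F] k).toRingHom) =
      MvPolynomial.aeval (Fin.cons c (fun i => (ξ i : K)) : Fin (n + 1) → K) f := by
  have h : ((Polynomial.aeval (R := k) c).toRingHom.comp
      (Polynomial.mapRingHom (MvPolynomial.aeval ξ : MvPolynomial (Fin n) F →ₐ[F] k).toRingHom)).comp
        (MvPolynomial.finSuccEquiv F n : MvPolynomial (Fin (n + 1)) F →+* _) =
      (MvPolynomial.aeval (Fin.cons c (fun i => (ξ i : K)) : Fin (n + 1) → K)).toRingHom := by
    apply MvPolynomial.ringHom_ext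
    · intro r
      simp [MvPolynomial.finSuccEquiv_apply]
    · intro i
      refine Fin.cases ?_ (fun j => ?_) i
      · simp [MvPolynomial.finSuccEquiv_X_zero]
      · simp [MvPolynomial.finSuccEquiv_X_succ]
  have := congrArg (fun φ => φ f) h
  simpa using this

/-- If `K = k(c)` where `c` is a root of a nonzero polynomial of degree at most `D`, then `K` is
finite over `k` of degree at most `D`. -/
theorem finrank_le_of_root {k : IntermediateField F K} (c : K) (hc : k⟮c⟯ = ⊤)
    (P : Polynomial k) (hP : P ≠ 0) (hPc : Polynomial.aeval c P = 0) {D : ℕ}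
    (hD : P.natDegree ≤ D) : FiniteDimensional k K ∧ Module.finrank k K ≤ D := by
  have halg : IsAlgebraic k c := ⟨P, hP, hPc⟩
  have hint : IsIntegral k c := halg.isIntegral
  have h1 : FiniteDimensional k k⟮c⟯ := IntermediateField.adjoin.finiteDimensional hint
  have h2 : Module.finrank k k⟮c⟯ = (minpoly k c).natDegree :=
    IntermediateField.adjoin.finrank hint
  have h3 : (minpoly k c).natDegree ≤ P.natDegree :=
    Polynomial.natDegree_le_of_dvd (minpoly.dvd k c hPc) hP
  rw [hc] at h1 h2
  haveI := h1
  refine ⟨?_, ?_⟩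
  · exact Module.Finite.equiv (IntermediateField.topEquiv (F := k) (E := K)).toLinearEquiv
  · rw [← LinearEquiv.finrank_eq (IntermediateField.topEquiv (F := k) (E := K)).toLinearEquiv, h2]
    omega

/-- A homogeneous polynomial not involving `X 0` lies in the principal ideal generated by a
polynomial involving `X 0` only if it is zero. -/
theorem rename_succ_mem_span_iff {n : ℕ} {f : MvPolynomial (Fin (n + 1)) F}
    (hf : 0 < (MvPolynomial.finSuccEquiv F n f).natDegree) (g : MvPolynomial (Fin n) F) :
    MvPolynomial.rename Fin.succ g ∈ Ideal.span {f} ↔ g = 0 := by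
  constructor
  · intro h
    rw [Ideal.mem_span_singleton] at h
    by_contra hg
    obtain ⟨q, hq⟩ := h
    have h1 : MvPolynomial.finSuccEquiv F n f ∣ Polynomial.C g := by
      refine ⟨MvPolynomial.finSuccEquiv F n q, ?_⟩
      rw [← map_mul, ← hq]
      have : ∀ g : MvPolynomial (Fin n) F, MvPolynomial.finSuccEquiv F n
          (MvPolynomial.rename Fin.succ g) = Polynomial.C g := by
        intro g
        have h : (MvPolynomial.finSuccEquiv F n).toAlgHom.comp (MvPolynomial.rename Fin.succ) =
            (Algebra.algHom F (MvPolynomial (Fin n) F) (Polynomial (MvPolynomial (Fin n) F))) := by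
          apply MvPolynomial.algHom_ext
          intro i
          simp [MvPolynomial.finSuccEquiv_X_succ]
          rfl
        exact congrArg (fun φ => φ g) h
      exact (this g).symm
    have h2 := Polynomial.natDegree_le_of_dvd h1 (by simpa using hg)
    simp at h2
    omega
  · rintro rfl
    simp

/-- Elimination: a surface `f = 0` in `P³` such that `f` has degree `D > 0` in the first variable
has degree of irrationality at most `D`. -/
theorem irr_le_of_natDegree {f : MvPolynomial (Fin 4) F} {d : ℕ} (hf : f.IsHomogeneous d)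
    {x : Fin 4 → K} (hx : IsGenericPoint (Ideal.span {f}) x)
    (htr : 2 ≤ Algebra.trdeg F K) (hpos : 0 < (MvPolynomial.finSuccEquiv F 3 f).natDegree) :
    0 < irr F K ∧ irr F K ≤ (MvPolynomial.finSuccEquiv F 3 f).natDegree := by
  have hf0 : f ≠ 0 := by
    rintro rfl
    simp at hpos
  have hx3 : x 3 ≠ 0 := by
    intro h
    have h1 := (hx.mem_iff 1 (MvPolynomial.X 3) (MvPolynomial.isHomogeneous_X _ _)).mp (by simpa)
    have h2 : (MvPolynomial.X 3 : MvPolynomial (Fin 4) F) =
      MvPolynomial.rename Fin.succ (MvPolynomial.X 2) := by simp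
    rw [h2, rename_succ_mem_span_iff hpos] at h1
    exact MvPolynomial.X_ne_zero _ h1
  set a := x 1 / x 3 with ha
  set b := x 2 / x 3 with hb
  set c := x 0 / x 3 with hc
  set k := IntermediateField.adjoin F {a, b} with hk
  have hak : a ∈ k := IntermediateField.subset_adjoin _ _ (by simp)
  have hbk : b ∈ k := IntermediateField.subset_adjoin _ _ (by simp)
  let ξ : Fin 3 → k := ![⟨a, hak⟩, ⟨b, hbk⟩, 1]
  have hξ : (fun i => (ξ i : K)) = fun i : Fin 3 => (x 3)⁻¹ * x i.succ := by
    ext i
    fin_cases i
    · simp [ξ, ha, div_eq_inv_mul]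
    · simp [ξ, hb, div_eq_inv_mul]
    · simp [ξ, hx3]
  have hcons : (Fin.cons c (fun i => (ξ i : K)) : Fin 4 → K) = fun i => (x 3)⁻¹ * x i := by
    ext i
    refine Fin.cases ?_ (fun j => ?_) i
    · simp [hc, div_eq_inv_mul]
    · rw [hξ]
      simp
  set P := (MvPolynomial.finSuccEquiv F 3 f).map
      (MvPolynomial.aeval ξ : MvPolynomial (Fin 3) F →ₐ[F] k).toRingHom with hP
  have hPc : Polynomial.aeval c P = 0 := by
    rw [hP, aeval_finSucc, hcons, aeval_smul_of_isHomogeneous hf,
      (hx.mem_iff d f hf).mpr (Ideal.subset_span rfl), mul_zero]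
  -- the leading coefficient does not vanish
  set D := (MvPolynomial.finSuccEquiv F 3 f).natDegree with hD
  have hDd : D ≤ d := by
    rw [hD, MvPolynomial.natDegree_finSuccEquiv]
    exact (MvPolynomial.degreeOf_le_totalDegree _ _).trans hf.totalDegree_le
  have hcoeff : P.coeff D ≠ 0 := by
    set ℓ := (MvPolynomial.finSuccEquiv F 3 f).coeff D with hℓ
    have hℓ0 : ℓ ≠ 0 := by
      rw [hℓ, hD, Polynomial.coeff_natDegree, Polynomial.leadingCoeff_ne_zero]
      simpa using hf0
    have hℓh : ℓ.IsHomogeneous (d - D) :=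
      MvPolynomial.IsHomogeneous.finSuccEquiv_coeff_isHomogeneous hf D (d - D) (by omega)
    rw [hP, Polynomial.coeff_map]
    intro h
    have h1 : MvPolynomial.aeval (fun i => (ξ i : K)) ℓ = 0 := by
      have := MvPolynomial.aeval_algebraMap_apply K ξ ℓ
      refine this.trans ?_
      rw [show MvPolynomial.aeval ξ ℓ = 0 from h, map_zero]
    rw [hξ, aeval_smul_of_isHomogeneous hℓh] at h1
    have h2 : MvPolynomial.aeval x (MvPolynomial.rename Fin.succ ℓ) = 0 := by
      rw [MvPolynomial.aeval_rename]
      exact (mul_eq_zero.mp h1).resolve_left (pow_ne_zero _ (inv_ne_zero hx3))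
    rw [hx.mem_iff (d - D) _ (hℓh.rename_isHomogeneous), rename_succ_mem_span_iff hpos] at h2
    exact hℓ0 h2
  have hP0 : P ≠ 0 := by
    intro h
    rw [h] at hcoeff
    simp at hcoeff
  have hPD : P.natDegree ≤ D := Polynomial.natDegree_map_le
  have htop : k⟮c⟯ = ⊤ := by
    have h1 : (k⟮c⟯).restrictScalars F = ⊤ := by
      apply hx.eq_top
      have h2 : ∀ i, (x 3)⁻¹ * x i ∈ k⟮c⟯ := by
        intro i
        rw [← congrFun hcons i]
        refine Fin.cases ?_ (fun j => ?_) i
        · exact IntermediateField.mem_adjoin_simple_self _ _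
        · exact k⟮c⟯.algebraMap_mem (ξ j)
      intro i j
      have h3 : x i / x j = ((x 3)⁻¹ * x i) / ((x 3)⁻¹ * x j) := by
        field_simp
      rw [h3]
      exact div_mem (h2 i) (h2 j)
    rw [eq_top_iff]
    intro z _
    have : z ∈ (k⟮c⟯).restrictScalars F := by rw [h1]; trivial
    exact this
  obtain ⟨hfin, hle⟩ := finrank_le_of_root c htop P hP0 hPc hPD
  haveI := hfin
  exact irr_le_of_finiteDimensional htr a b hle

end

end Pool.Agent.Helper17.Irr
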