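import Mathlib
import Pool.Agent.Helper17.Irr.Elim

/-!
# Restriction of quadratic and cubic forms to lines
-/

set_option linter.style.haveILetI false
set_option linter.deprecated false

namespace Pool.Agent.Helper17.Irr

universe u v w

variable {F : Type u} [Field F] {ι : Type w}

theorem quadratic_mem_span {q : MvPolynomial ι F} (hq : q.IsHomogeneous 2) :
    q ∈ Submodule.span F {g : MvPolynomial ι F | ∃ i j, g = MvPolynomial.X i * MvPolynomial.X j} := by
  have h1 : q ∈ MvPolynomial.homogeneousSubmodule ι F 2 := hq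
  rw [← MvPolynomial.homogeneousSubmodule_one_pow, MvPolynomial.homogeneousSubmodule_one_eq_span_X,
    pow_two, Submodule.span_mul_span] at h1
  refine Submodule.span_mono ?_ h1
  rintro _ ⟨_, ⟨i, rfl⟩, _, ⟨j, rfl⟩, rfl⟩
  exact ⟨i, j, rfl⟩

theorem cubic_mem_span {q : MvPolynomial ι F} (hq : q.IsHomogeneous 3) :
    q ∈ Submodule.span F {g : MvPolynomial ι F | ∃ i j k,
      g = MvPolynomial.X i * MvPolynomial.X j * MvPolynomial.X k} := by
  have h1 : q ∈ MvPolynomial.homogeneousSubmodule ι F 3 := hq
  rw [← MvPolynomial.homogeneousSubmodule_one_pow, MvPolynomial.homogeneousSubmodule_one_eq_span_X,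
    pow_succ, pow_two, Submodule.span_mul_span, Submodule.span_mul_span] at h1
  refine Submodule.span_mono ?_ h1
  rintro _ ⟨_, ⟨_, ⟨i, rfl⟩, _, ⟨j, rfl⟩, rfl⟩, _, ⟨k, rfl⟩, rfl⟩
  exact ⟨i, j, k, rfl⟩

/-- A quadratic form is given by a matrix. -/
theorem exists_matrix_of_quadratic {n : ℕ} {q : MvPolynomial (Fin n) F} (hq : q.IsHomogeneous 2) :
    ∃ M : Fin n → Fin n → F,
      q = ∑ i, ∑ j, MvPolynomial.C (M i j) * (MvPolynomial.X i * MvPolynomial.X j) := by
  have hs := quadratic_mem_span hq
  clear hq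
  induction hs using Submodule.span_induction with
  | mem x h =>
    obtain ⟨i, j, rfl⟩ := h
    refine ⟨fun a b => if a = i then (if b = j then 1 else 0) else 0, ?_⟩
    rw [Finset.sum_eq_single i, Finset.sum_eq_single j]
    · simp
    · intro b _ hb
      simp [hb]
    · simp
    · intro a _ ha
      simp [ha]
    · simp
  | zero => exact ⟨fun _ _ => 0, by simp⟩
  | add x y hx hy h1 h2 =>
    obtain ⟨M, hM⟩ := h1
    obtain ⟨N, hN⟩ := h2
    refine ⟨fun i j => M i j + N i j, ?_⟩
    rw [hM, hN]
    simp only [map_add, add_mul, Finset.sum_add_distrib]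
  | smul a x hx h =>
    obtain ⟨M, hM⟩ := h
    refine ⟨fun i j => a * M i j, ?_⟩
    rw [hM]
    simp only [MvPolynomial.smul_eq_C_mul, Finset.mul_sum, map_mul, mul_assoc]

/-- Restriction of a cubic form to a line. -/
theorem cubic_line {f : MvPolynomial ι F} (hf : f.IsHomogeneous 3) (A B : ι → F) (L : Type v)
    [CommRing L] [Algebra F L] :
    ∃ g₁ g₂ : F, ∀ s t : L,
      MvPolynomial.aeval (fun i => s * algebraMap F L (A i) + t * algebraMap F L (B i)) f =
      s ^ 3 * algebraMap F L (MvPolynomial.aeval A f) + s ^ 2 * t * algebraMap F L g₁ +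
        s * t ^ 2 * algebraMap F L g₂ + t ^ 3 * algebraMap F L (MvPolynomial.aeval B f) := by
  have hs := cubic_mem_span hf
  clear hf
  induction hs using Submodule.span_induction with
  | mem x h =>
    obtain ⟨i, j, k, rfl⟩ := h
    refine ⟨A i * A j * B k + A i * B j * A k + B i * A j * A k,
      A i * B j * B k + B i * A j * B k + B i * B j * A k, fun s t => ?_⟩
    simp only [map_mul, map_add, MvPolynomial.aeval_X]
    ring
  | zero => exact ⟨0, 0, fun s t => by simp⟩
  | add x y hx hy h1 h2 =>
    obtain ⟨a₁, a₂, ha⟩ := h1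
    obtain ⟨b₁, b₂, hb⟩ := h2
    refine ⟨a₁ + b₁, a₂ + b₂, fun s t => ?_⟩
    rw [map_add, ha, hb]
    simp only [map_add]
    ring
  | smul a x hx h =>
    obtain ⟨a₁, a₂, ha⟩ := h
    refine ⟨a * a₁, a * a₂, fun s t => ?_⟩
    have h1 : ∀ C : ι → F, MvPolynomial.aeval C (a • x) = a * MvPolynomial.aeval C x := by
      intro C
      rw [map_smul, smul_eq_mul]
    rw [map_smul, ha, h1, h1, Algebra.smul_def]
    simp only [map_mul]
    ring

/-- The chain rule for partial derivatives. -/
theorem pderiv_aeval {σ τ : Type*} [Fintype σ] (ℓ : σ → MvPolynomial τ F) (g : MvPolynomial σ F)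
    (i : τ) : MvPolynomial.pderiv i (MvPolynomial.aeval ℓ g) =
      ∑ j, MvPolynomial.aeval ℓ (MvPolynomial.pderiv j g) * MvPolynomial.pderiv i (ℓ j) := by
  classical
  induction g using MvPolynomial.induction_on with
  | C a => simp
  | add p q hp hq => simp only [map_add, hp, hq, add_mul, Finset.sum_add_distrib]
  | mul_X p k hp =>
    rw [map_mul, MvPolynomial.aeval_X, MvPolynomial.pderiv_mul, hp]
    simp only [MvPolynomial.pderiv_mul, map_add, map_mul, MvPolynomial.aeval_X, add_mul,
      Finset.sum_add_distrib, MvPolynomial.pderiv_X]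
    congr 1
    · rw [Finset.sum_mul]
      exact Finset.sum_congr rfl fun j _ => by ring
    · rw [Finset.sum_eq_single k]
      · simp
      · intro j _ hj
        simp [hj]
      · simp

end Pool.Agent.Helper17.Irr
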