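import Mathlib
import Pool.Agent.Helper17.Irr.Forms

/-!
# Cubic surfaces
-/

set_option linter.style.haveILetI false
set_option linter.deprecated false

namespace Pool.Agent.Helper17.Irr

open IntermediateField

universe u v w

section

variable {F : Type u} [Field F]

/-- A cubic form with a nontrivial zero in a quadratic extension has a nontrivial zero. -/
theorem cubic_zero_of_quadratic {ι : Type w} {f : MvPolynomial ι F} (hf : f.IsHomogeneous 3)
    {L : Type v} [Field L] [Algebra F L] [FiniteDimensional F L] (hL : Module.finrank F L = 2)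
    (y : ι → L) (hy : y ≠ 0) (hfy : MvPolynomial.aeval y f = 0) :
    ∃ p : ι → F, p ≠ 0 ∧ MvPolynomial.aeval p f = 0 := by
  classical
  -- choose a basis `1, ω`
  obtain ⟨ω, hω⟩ : ∃ ω : L, ω ∉ (⊥ : Subalgebra F L) := by
    by_contra h
    push Not at h
    have h1 : (⊥ : Subalgebra F L) = ⊤ := eq_top_iff.mpr fun z _ => h z
    have h2 := Subalgebra.bot_eq_top_iff_finrank_eq_one.mp h1
    omega
  have hli : LinearIndependent F ![(1 : L), ω] := by
    rw [LinearIndependent.pair_iff]
    intro s t hst
    have ht : t = 0 := by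
      by_contra ht
      apply hω
      rw [Algebra.mem_bot]
      refine ⟨-s / t, ?_⟩
      have h1 : t • ω = (-s) • (1 : L) := by
        rw [neg_smul, eq_neg_iff_add_eq_zero, add_comm]; exact hst
      rw [div_eq_inv_mul, map_mul, Algebra.algebraMap_eq_smul_one (-s), ← h1, Algebra.smul_def,
        ← mul_assoc, ← map_mul, inv_mul_cancel₀ ht, map_one, one_mul]
    refine ⟨?_, ht⟩
    rw [ht, zero_smul, add_zero, smul_eq_zero] at hst
    exact hst.resolve_right one_ne_zero
  have hspan : ∀ z : L, ∃ a b : F, z = algebraMap F L a + algebraMap F L b * ω := by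
    intro z
    have h1 : Submodule.span F (Set.range ![(1 : L), ω]) = ⊤ :=
      hli.span_eq_top_of_card_eq_finrank (by simp [hL])
    have h2 : z ∈ Submodule.span F (Set.range ![(1 : L), ω]) := by rw [h1]; trivial
    rw [Matrix.range_cons, Matrix.range_cons, Matrix.range_empty, Set.union_empty,
      Set.singleton_union, Submodule.mem_span_pair] at h2
    obtain ⟨a, b, hab⟩ := h2
    exact ⟨a, b, by rw [← hab, Algebra.smul_def, Algebra.smul_def, mul_one]⟩
  choose A B hAB using fun i => hspan (y i)
  have hyeq : y = fun i => 1 * algebraMap F L (A i) + ω * algebraMap F L (B i) := by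
    ext i
    rw [hAB i]
    ring
  obtain ⟨g₁, g₂, hg⟩ := cubic_line hf A B L
  have hinj := (algebraMap F L).injective
  have hgF : ∀ s t : F, MvPolynomial.aeval (fun i => s * A i + t * B i) f =
      s ^ 3 * MvPolynomial.aeval A f + s ^ 2 * t * g₁ + s * t ^ 2 * g₂ +
        t ^ 3 * MvPolynomial.aeval B f := by
    intro s t
    apply hinj
    have h1 := hg (algebraMap F L s) (algebraMap F L t)
    have h2 := MvPolynomial.aeval_algebraMap_apply L (fun i => s * A i + t * B i) f
    rw [← h2]
    simp only [Function.comp_def, map_mul, map_add, map_pow] at h1 ⊢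
    exact h1
  by_cases hB : B = 0
  · refine ⟨A, ?_, ?_⟩
    · rintro rfl
      apply hy
      rw [hyeq, hB]
      ext i
      simp
    · apply hinj
      have h2 := MvPolynomial.aeval_algebraMap_apply L A f
      rw [← h2, map_zero, ← hfy, hyeq, hB]
      congr 2
      ext i
      simp
  · obtain ⟨β, γ, hβγ⟩ : ∃ β γ : F, ω ^ 2 = algebraMap F L γ + algebraMap F L β * ω := by
      obtain ⟨a, b, hab⟩ := hspan (ω ^ 2)
      exact ⟨b, a, hab⟩
    have h0 : MvPolynomial.aeval y f = 0 := hfy
    rw [hyeq, hg 1 ω] at h0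
    set g₀ := MvPolynomial.aeval A f with hg₀
    set g₃ := MvPolynomial.aeval B f with hg₃
    by_cases hg₃0 : g₃ = 0
    · exact ⟨B, hB, hg₃0⟩
    · have h1 : algebraMap F L (g₀ + g₂ * γ + g₃ * β * γ) +
          algebraMap F L (g₁ + g₂ * β + g₃ * (β ^ 2 + γ)) * ω = 0 := by
        rw [← h0]
        simp only [map_add, map_mul, map_pow]
        linear_combination (-(algebraMap F L g₂) - algebraMap F L g₃ * ω -
          algebraMap F L g₃ * algebraMap F L β) * hβγ
      have h2 : g₀ + g₂ * γ + g₃ * β * γ = 0 ∧ g₁ + g₂ * β + g₃ * (β ^ 2 + γ) = 0 := by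
        rw [LinearIndependent.pair_iff] at hli
        apply hli
        rw [Algebra.smul_def, Algebra.smul_def, mul_one]
        exact h1
      obtain ⟨h3, h4⟩ := h2
      refine ⟨fun i => g₃ * A i + (-(g₂ + β * g₃)) * B i, ?_, ?_⟩
      · intro h5
        -- then `A = r B`, and `f(B) = 0`
        apply hg₃0
        have h6 : ∀ i, g₃ * A i = (g₂ + β * g₃) * B i := by
          intro i
          have := congrFun h5 i
          simp only [Pi.zero_apply] at this
          linear_combination this
        have h7 : (fun i => algebraMap F L g₃ * y i) =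
            fun i => (algebraMap F L (g₂ + β * g₃) + algebraMap F L g₃ * ω) *
              algebraMap F L (B i) := by
          ext i
          have := congrArg (algebraMap F L) (h6 i)
          rw [map_mul, map_mul] at this
          rw [hAB i]
          linear_combination this
        have h8 : MvPolynomial.aeval (fun i => algebraMap F L g₃ * y i) f = 0 := by
          rw [aeval_smul_of_isHomogeneous hf, hfy, mul_zero]
        rw [h7, aeval_smul_of_isHomogeneous hf] at h8
        have h9 := MvPolynomial.aeval_algebraMap_apply L B f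
        have h10 : MvPolynomial.aeval (fun i => algebraMap F L (B i)) f = algebraMap F L g₃ := h9
        rw [h10] at h8
        rcases mul_eq_zero.mp h8 with h8 | h8
        · exfalso
          have h11 := pow_eq_zero_iff (n := 3) (by norm_num) |>.mp h8
          have h12 : (g₂ + β * g₃) • (1 : L) + g₃ • ω = 0 := by
            rw [Algebra.smul_def, Algebra.smul_def, mul_one]; exact h11
          exact hg₃0 (((LinearIndependent.pair_iff).mp hli _ _ h12).2)
        · exact hinj (by rw [h8, map_zero])
      · rw [hgF]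
        linear_combination (g₃ ^ 3) * h3 - (g₃ ^ 2 * (g₂ + β * g₃)) * h4

/-- A polynomial not involving the first variable is the image of a polynomial in the others. -/
theorem exists_eq_rename_succ {n : ℕ} {f : MvPolynomial (Fin (n + 1)) F}
    (h : (MvPolynomial.finSuccEquiv F n f).natDegree = 0) :
    ∃ g : MvPolynomial (Fin n) F, f = MvPolynomial.rename Fin.succ g := by
  refine ⟨(MvPolynomial.finSuccEquiv F n f).coeff 0, ?_⟩
  apply (MvPolynomial.finSuccEquiv F n).injective
  have h1 : ∀ g : MvPolynomial (Fin n) F, MvPolynomial.finSuccEquiv F n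
      (MvPolynomial.rename Fin.succ g) = Polynomial.C g := by
    intro g
    have h : (MvPolynomial.finSuccEquiv F n).toAlgHom.comp (MvPolynomial.rename Fin.succ) =
        (Algebra.algHom F (MvPolynomial (Fin n) F) (Polynomial (MvPolynomial (Fin n) F))) := by
      apply MvPolynomial.algHom_ext
      intro i
      simp [MvPolynomial.finSuccEquiv_X_succ]
      rfl
    exact congrArg (fun φ => φ g) h
  rw [h1]
  exact Polynomial.eq_C_of_natDegree_eq_zero h

theorem aeval_zero_of_isHomogeneous {R : Type*} [CommRing R] [Algebra F R] {ι : Type*} {n : ℕ}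
    (hn : n ≠ 0) {g : MvPolynomial ι F} (hg : g.IsHomogeneous n) :
    MvPolynomial.aeval (0 : ι → R) g = 0 := by
  have := aeval_smul_of_isHomogeneous hg (0 : R) 0
  rw [zero_pow hn, zero_mul] at this
  have h0 : (fun i : ι => (0 : R) * (0 : ι → R) i) = 0 := by ext i; simp
  rwa [h0] at this

theorem natDegree_pos_of_ne_zero {f : MvPolynomial (Fin 4) F} (hf : f.IsHomogeneous 3)
    (h : MvPolynomial.aeval (Pi.single 0 1 : Fin 4 → F) f ≠ 0) :
    0 < (MvPolynomial.finSuccEquiv F 3 f).natDegree := by
  by_contra h0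
  obtain ⟨g, rfl⟩ := exists_eq_rename_succ (Nat.eq_zero_of_not_pos h0)
  apply h
  rw [MvPolynomial.aeval_rename]
  have h1 : (Pi.single 0 1 : Fin 4 → F) ∘ Fin.succ = 0 := by
    ext i
    simp
  rw [h1]
  exact aeval_zero_of_isHomogeneous (by norm_num)
    ((MvPolynomial.IsHomogeneous.rename_isHomogeneous_iff (Fin.succ_injective _)).mp hf)

theorem natDegree_le_of_isHomogeneous {f : MvPolynomial (Fin 4) F} {d : ℕ}
    (hf : f.IsHomogeneous d) : (MvPolynomial.finSuccEquiv F 3 f).natDegree ≤ d := by
  rw [MvPolynomial.natDegree_finSuccEquiv]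
  exact (MvPolynomial.degreeOf_le_totalDegree _ _).trans hf.totalDegree_le

/-- If the cubic form vanishes at the first coordinate point, its degree in the first variable is
at most two. -/
theorem natDegree_le_two {f : MvPolynomial (Fin 4) F} (hf : f.IsHomogeneous 3)
    (h : MvPolynomial.aeval (Pi.single 0 1 : Fin 4 → F) f = 0) :
    (MvPolynomial.finSuccEquiv F 3 f).natDegree ≤ 2 := by
  have h1 := natDegree_le_of_isHomogeneous hf
  have h2 : (MvPolynomial.finSuccEquiv F 3 f).coeff 3 = 0 := by
    have hh : ((MvPolynomial.finSuccEquiv F 3 f).coeff 3).IsHomogeneous 0 :=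
      MvPolynomial.IsHomogeneous.finSuccEquiv_coeff_isHomogeneous hf 3 0 rfl
    have h3 : MvPolynomial.eval (Fin.cons 1 (0 : Fin 3 → F) : Fin 4 → F) f = 0 := by
      have h4 : (Fin.cons 1 (0 : Fin 3 → F) : Fin 4 → F) = Pi.single 0 1 := by
        ext i
        refine Fin.cases ?_ (fun j => ?_) i <;> simp
      rw [h4, ← MvPolynomial.coe_aeval_eq_eval]
      exact h
    rw [MvPolynomial.eval_eq_eval_mv_eval', Polynomial.eval_eq_sum_range'
      (n := 4) (lt_of_le_of_lt Polynomial.natDegree_map_le (by omega))] at h3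
    simp only [Polynomial.coeff_map, one_pow, mul_one] at h3
    have h5 : ∀ i < 3, MvPolynomial.eval (0 : Fin 3 → F)
        ((MvPolynomial.finSuccEquiv F 3 f).coeff i) = 0 := by
      intro i hi
      have := MvPolynomial.IsHomogeneous.finSuccEquiv_coeff_isHomogeneous hf i (3 - i) (by omega)
      rw [← MvPolynomial.coe_aeval_eq_eval]
      exact aeval_zero_of_isHomogeneous (by omega) this
    rw [Finset.sum_range_succ, Finset.sum_eq_zero (fun i hi => h5 i (Finset.mem_range.mp hi)),
      zero_add] at h3
    rw [MvPolynomial.totalDegree_eq_zero_iff_eq_C.mp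
      (Nat.le_zero.mp hh.totalDegree_le)] at h3 ⊢
    rw [MvPolynomial.eval_C] at h3
    rw [h3, map_zero]
  by_contra h3
  have h4 : (MvPolynomial.finSuccEquiv F 3 f).natDegree = 3 := by omega
  have h5 : (MvPolynomial.finSuccEquiv F 3 f).leadingCoeff = 0 := by
    rw [Polynomial.leadingCoeff, h4]
    exact h2
  rw [Polynomial.leadingCoeff_eq_zero] at h5
  rw [h5] at h4
  simp at h4

theorem comap_subst_span {n : ℕ} (A B : Matrix (Fin n) (Fin n) F) (hAB : A * B = 1)
    (hBA : B * A = 1) (f : MvPolynomial (Fin n) F) :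
    (Ideal.span {f}).comap (subst A) = Ideal.span {subst B f} := by
  ext g
  rw [Ideal.mem_comap, Ideal.mem_span_singleton, Ideal.mem_span_singleton]
  constructor
  · rintro ⟨h, hh⟩
    refine ⟨subst B h, ?_⟩
    rw [← map_mul, ← hh, subst_subst, hAB, subst_one]
  · rintro ⟨h, hh⟩
    refine ⟨subst A h, ?_⟩
    rw [hh, map_mul, subst_subst, hBA, subst_one]

variable {K : Type v} [Field K] [Algebra F K]

/-- A cubic surface without rational points has degree of irrationality at most three. -/
theorem cubic_irr_le_three {f : MvPolynomial (Fin 4) F} (hf : f.IsHomogeneous 3)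
    {x : Fin 4 → K} (hx : IsGenericPoint (Ideal.span {f}) x) (htr : 2 ≤ Algebra.trdeg F K)
    (hno : ¬ ∃ p : Fin 4 → F, p ≠ 0 ∧ MvPolynomial.aeval p f = 0) :
    0 < irr F K ∧ irr F K ≤ 3 := by
  have h1 : MvPolynomial.aeval (Pi.single 0 1 : Fin 4 → F) f ≠ 0 := by
    intro h
    exact hno ⟨Pi.single 0 1, by simp, h⟩
  have h2 := irr_le_of_natDegree hf hx htr (natDegree_pos_of_ne_zero hf h1)
  exact ⟨h2.1, h2.2.trans (natDegree_le_of_isHomogeneous hf)⟩

/-- A cubic surface with a smooth rational point has degree of irrationality at most two. -/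
theorem cubic_irr_le_two {f : MvPolynomial (Fin 4) F} (hf : f.IsHomogeneous 3)
    {x : Fin 4 → K} (hx : IsGenericPoint (Ideal.span {f}) x) (htr : 2 ≤ Algebra.trdeg F K)
    (p : Fin 4 → F) (hp : p ≠ 0) (hfp : MvPolynomial.aeval p f = 0)
    (hsm : ∃ i, MvPolynomial.aeval p (MvPolynomial.pderiv i f) ≠ 0) :
    0 < irr F K ∧ irr F K ≤ 2 := by
  obtain ⟨A, B, hAB, hBA, hA, hB⟩ := exists_matrix_mulVec (m := 1) ![p] ![Pi.single 0 1]
    (by simpa using hp) (by simp)
  have hA' : A.mulVec p = Pi.single 0 1 := by simpa using hA 0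
  have hB' : B.mulVec (Pi.single 0 1) = p := by simpa using hB 0
  have hf' : (subst B f).IsHomogeneous 3 := IsHomogeneous.subst hf B
  have hx' := hx.linearChange hBA
  rw [comap_subst_span A B hAB hBA] at hx'
  have h1 : MvPolynomial.aeval (Pi.single 0 1 : Fin 4 → F) (subst B f) = 0 := by
    rw [aeval_subst]
    have : (fun i => ∑ j, B i j • (Pi.single 0 1 : Fin 4 → F) j) = p := by
      rw [← hB']
      ext i
      simp [Matrix.mulVec, dotProduct]
    rw [this, hfp]
  have hpos : 0 < (MvPolynomial.finSuccEquiv F 3 (subst B f)).natDegree := by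
    by_contra h0
    obtain ⟨g, hg⟩ := exists_eq_rename_succ (Nat.eq_zero_of_not_pos h0)
    have hgh : g.IsHomogeneous 3 := by
      rw [hg] at hf'
      exact (MvPolynomial.IsHomogeneous.rename_isHomogeneous_iff (Fin.succ_injective _)).mp hf'
    have hfg : f = MvPolynomial.aeval
        (fun i : Fin 3 => ∑ j, MvPolynomial.C (A i.succ j) * MvPolynomial.X j) g := by
      have h2 : f = subst A (subst B f) := by rw [subst_subst, hBA, subst_one]
      rw [h2, hg, subst, MvPolynomial.aeval_rename]
      rfl
    obtain ⟨i, hi⟩ := hsm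
    apply hi
    rw [hfg, pderiv_aeval, map_sum]
    refine Finset.sum_eq_zero fun j _ => ?_
    rw [map_mul]
    have h3 : MvPolynomial.aeval p (MvPolynomial.aeval
        (fun i : Fin 3 => ∑ j, MvPolynomial.C (A i.succ j) * MvPolynomial.X j)
        (MvPolynomial.pderiv j g)) = 0 := by
      rw [← AlgHom.comp_apply, MvPolynomial.comp_aeval]
      have h4 : (fun i : Fin 3 => MvPolynomial.aeval p
          (∑ j, MvPolynomial.C (A i.succ j) * MvPolynomial.X j : MvPolynomial (Fin 4) F)) = 0 := by
        ext i
        have h5 := congrFun hA' i.succ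
        simp only [Matrix.mulVec, dotProduct] at h5
        simpa using h5
      rw [h4]
      exact aeval_zero_of_isHomogeneous (n := 2) (by norm_num) hgh.pderiv
    rw [h3, zero_mul]
  have h2 := irr_le_of_natDegree hf' hx' htr hpos
  exact ⟨h2.1, h2.2.trans (natDegree_le_two hf' h1)⟩

end

end Pool.Agent.Helper17.Irr
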