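import Mathlib
import Pool.Agent.Helper17.Irr.Forms

/-!
# Pencils of quadrics with a point of degree three have a rational point
-/

set_option linter.style.haveILetI false
set_option linter.deprecated false

namespace Pool.Agent.Helper17.Irr

universe u v w

section

variable {F : Type u} [Field F] {ι : Type w}

/-- Restriction of a quadratic form to a plane. -/
theorem quadratic_plane {q : MvPolynomial ι F} (hq : q.IsHomogeneous 2) (A B C : ι → F)
    (L : Type v) [CommRing L] [Algebra F L] :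
    ∃ β δ ε : F, ∀ s t r : L,
      MvPolynomial.aeval (fun i => s * algebraMap F L (A i) + t * algebraMap F L (B i) +
        r * algebraMap F L (C i)) q =
      s ^ 2 * algebraMap F L (MvPolynomial.aeval A q) + s * t * algebraMap F L β +
        t ^ 2 * algebraMap F L (MvPolynomial.aeval B q) + s * r * algebraMap F L δ +
        t * r * algebraMap F L ε + r ^ 2 * algebraMap F L (MvPolynomial.aeval C q) := by
  have hs := quadratic_mem_span hq
  clear hq
  induction hs using Submodule.span_induction with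
  | mem x h =>
    obtain ⟨i, j, rfl⟩ := h
    refine ⟨A i * B j + B i * A j, A i * C j + C i * A j, B i * C j + C i * B j,
      fun s t r => ?_⟩
    simp only [map_mul, map_add, MvPolynomial.aeval_X]
    ring
  | zero => exact ⟨0, 0, 0, fun s t r => by simp⟩
  | add x y hx hy h1 h2 =>
    obtain ⟨a₁, a₂, a₃, ha⟩ := h1
    obtain ⟨b₁, b₂, b₃, hb⟩ := h2
    refine ⟨a₁ + b₁, a₂ + b₂, a₃ + b₃, fun s t r => ?_⟩
    rw [map_add, ha, hb]
    simp only [map_add]
    ring
  | smul a x hx h =>
    obtain ⟨a₁, a₂, a₃, ha⟩ := h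
    refine ⟨a * a₁, a * a₂, a * a₃, fun s t r => ?_⟩
    have h1 : ∀ C : ι → F, MvPolynomial.aeval C (a • x) = a * MvPolynomial.aeval C x := by
      intro C
      rw [map_smul, smul_eq_mul]
    rw [map_smul, ha, h1, h1, h1, Algebra.smul_def]
    simp only [map_mul]
    ring

/-- An element of a cubic extension is rational or of degree three. -/
theorem cubic_element {L : Type v} [Field L] [Algebra F L] [FiniteDimensional F L]
    (hL : Module.finrank F L = 3) (ρ : L) :
    (∃ r : F, ρ = algebraMap F L r) ∨ ∀ a b c : F, algebraMap F L a + algebraMap F L b * ρ +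
      algebraMap F L c * ρ ^ 2 = 0 → a = 0 ∧ b = 0 ∧ c = 0 := by
  have hint : IsIntegral F ρ := Algebra.IsIntegral.isIntegral ρ
  have hdvd : (minpoly F ρ).natDegree ∣ 3 := by
    rw [← IntermediateField.adjoin.finrank hint, ← hL,
      ← Module.finrank_mul_finrank F (IntermediateField.adjoin F {ρ}) L]
    exact Dvd.intro _ rfl
  rcases (Nat.dvd_prime (by norm_num)).mp hdvd with h | h
  · left
    rw [← (minpoly.natDegree_eq_one_iff).symm] at h
    obtain ⟨r, hr⟩ := h
    exact ⟨r, hr.symm⟩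
  · right
    intro a b c habc
    set P := Polynomial.C a + Polynomial.C b * Polynomial.X + Polynomial.C c * Polynomial.X ^ 2
      with hP
    have hP0 : P = 0 := by
      by_contra h0
      have h1 : Polynomial.aeval ρ P = 0 := by simpa [hP] using habc
      have h2 := Polynomial.natDegree_le_of_dvd (minpoly.dvd F ρ h1) h0
      have h3 : P.natDegree ≤ 2 := by
        rw [hP]
        compute_degree
      omega
    refine ⟨?_, ?_, ?_⟩
    · have := congrArg (fun P : Polynomial F => P.coeff 0) hP0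
      simpa [hP, Polynomial.coeff_X, Polynomial.coeff_C] using this
    · have := congrArg (fun P : Polynomial F => P.coeff 1) hP0
      simpa [hP, Polynomial.coeff_X, Polynomial.coeff_C] using this
    · have := congrArg (fun P : Polynomial F => P.coeff 2) hP0
      simpa [hP, Polynomial.coeff_X, Polynomial.coeff_C] using this

/-- The case where the conjugate points span a line. -/
theorem rational_point_of_line {q₁ q₂ : MvPolynomial ι F} (h₁ : q₁.IsHomogeneous 2)
    (h₂ : q₂.IsHomogeneous 2) {L : Type v} [Field L] [Algebra F L] [FiniteDimensional F L]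
    (hL : Module.finrank F L = 3) (A B : ι → F) (l m : L)
    (hy : (fun i => l * algebraMap F L (A i) + m * algebraMap F L (B i)) ≠ 0)
    (hy₁ : MvPolynomial.aeval (fun i => l * algebraMap F L (A i) + m * algebraMap F L (B i)) q₁ = 0)
    (hy₂ : MvPolynomial.aeval (fun i => l * algebraMap F L (A i) + m * algebraMap F L (B i)) q₂ = 0) :
    ∃ p : ι → F, p ≠ 0 ∧ MvPolynomial.aeval p q₁ = 0 ∧ MvPolynomial.aeval p q₂ = 0 := by
  have hinj := (algebraMap F L).injective
  have hbase : ∀ (C : ι → F) (q : MvPolynomial ι F), MvPolynomial.aeval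
      (fun i => algebraMap F L (C i)) q = algebraMap F L (MvPolynomial.aeval C q) := fun C q =>
    MvPolynomial.aeval_algebraMap_apply L C q
  by_cases hl : l = 0
  · refine ⟨B, ?_, ?_, ?_⟩
    · rintro rfl
      apply hy
      ext i
      simp [hl]
    · have h3 : MvPolynomial.aeval (fun i => m * algebraMap F L (B i)) q₁ = 0 := by
        rw [← hy₁]; simp [hl]
      have hm : m ≠ 0 := by
        rintro rfl
        apply hy
        ext i
        simp [hl]
      rw [aeval_smul_of_isHomogeneous h₁, hbase] at h3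
      exact hinj (by rw [(mul_eq_zero.mp h3).resolve_left (pow_ne_zero 2 hm), map_zero])
    · have h3 : MvPolynomial.aeval (fun i => m * algebraMap F L (B i)) q₂ = 0 := by
        rw [← hy₂]; simp [hl]
      have hm : m ≠ 0 := by
        rintro rfl
        apply hy
        ext i
        simp [hl]
      rw [aeval_smul_of_isHomogeneous h₂, hbase] at h3
      exact hinj (by rw [(mul_eq_zero.mp h3).resolve_left (pow_ne_zero 2 hm), map_zero])
  · set ρ := m / l with hρ
    have hyρ : (fun i => l * algebraMap F L (A i) + m * algebraMap F L (B i)) =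
        fun i => l * (algebraMap F L (A i) + ρ * algebraMap F L (B i)) := by
      ext i
      rw [hρ]
      field_simp
    rw [hyρ] at hy hy₁ hy₂
    rw [aeval_smul_of_isHomogeneous h₁] at hy₁
    rw [aeval_smul_of_isHomogeneous h₂] at hy₂
    have e₁ := (mul_eq_zero.mp hy₁).resolve_left (pow_ne_zero 2 hl)
    have e₂ := (mul_eq_zero.mp hy₂).resolve_left (pow_ne_zero 2 hl)
    rcases cubic_element hL ρ with ⟨r, hr⟩ | hind
    · refine ⟨fun i => A i + r * B i, ?_, ?_, ?_⟩
      · intro h
        apply hy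
        ext i
        have h3 := congrArg (algebraMap F L) (congrFun h i)
        rw [map_add, map_mul, ← hr] at h3
        rw [h3]
        simp
      · apply hinj
        rw [← hbase, map_zero, ← e₁, hr]
        simp only [map_add, map_mul]
      · apply hinj
        rw [← hbase, map_zero, ← e₂, hr]
        simp only [map_add, map_mul]
    · have hz : ∀ q : MvPolynomial ι F, q.IsHomogeneous 2 → MvPolynomial.aeval
          (fun i => algebraMap F L (A i) + ρ * algebraMap F L (B i)) q = 0 →
          MvPolynomial.aeval A q = 0 ∧ MvPolynomial.aeval B q = 0 := by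
        intro q hq h
        obtain ⟨β, δ, ε, hform⟩ := quadratic_plane hq A B 0 L
        have h3 := hform 1 ρ 0
        simp only [one_mul, zero_mul, add_zero, one_pow, mul_zero] at h3
        rw [h] at h3
        have h4 := hind (MvPolynomial.aeval A q) β (MvPolynomial.aeval B q) (by
          linear_combination -h3)
        exact ⟨h4.1, h4.2.2⟩
      obtain ⟨a1, b1⟩ := hz q₁ h₁ e₁
      obtain ⟨a2, b2⟩ := hz q₂ h₂ e₂
      by_cases hA : A = 0
      · refine ⟨B, ?_, b1, b2⟩
        rintro rfl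
        apply hy
        ext i
        simp [hA]
      · exact ⟨A, hA, a1, a2⟩

/-- A pencil of quadrics with a point of degree three has a rational point. -/
theorem rational_point_of_cubic_point {q₁ q₂ : MvPolynomial ι F} (h₁ : q₁.IsHomogeneous 2)
    (h₂ : q₂.IsHomogeneous 2) {L : Type v} [Field L] [Algebra F L] [FiniteDimensional F L]
    (hL : Module.finrank F L = 3) (y : ι → L) (hy : y ≠ 0)
    (hy₁ : MvPolynomial.aeval y q₁ = 0) (hy₂ : MvPolynomial.aeval y q₂ = 0) :
    ∃ p : ι → F, p ≠ 0 ∧ MvPolynomial.aeval p q₁ = 0 ∧ MvPolynomial.aeval p q₂ = 0 := by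
  have hinj := (algebraMap F L).injective
  obtain ⟨θ, hθ⟩ : ∃ θ : L, ∀ a b c : F, algebraMap F L a + algebraMap F L b * θ +
      algebraMap F L c * θ ^ 2 = 0 → a = 0 ∧ b = 0 ∧ c = 0 := by
    by_contra hcon
    push Not at hcon
    have h1 : (⊥ : Subalgebra F L) = ⊤ := by
      rw [eq_top_iff]
      intro θ _
      rcases cubic_element hL θ with ⟨r, hr⟩ | h
      · rw [Algebra.mem_bot]
        exact ⟨r, hr.symm⟩
      · obtain ⟨a, b, c, h2, h3⟩ := hcon θ
        obtain ⟨h4, h5, h6⟩ := h a b c h2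
        exact absurd h6 (h3 h4 h5)
    have h2 := Subalgebra.bot_eq_top_iff_finrank_eq_one.mp h1
    omega
  have hspan : ∀ z : L, ∃ a b c : F, z = algebraMap F L a + algebraMap F L b * θ +
      algebraMap F L c * θ ^ 2 := by
    have hli : LinearIndependent F ![(1 : L), θ, θ ^ 2] := by
      rw [Fintype.linearIndependent_iff]
      intro g hg
      rw [Fin.sum_univ_three] at hg
      simp only [Matrix.cons_val_zero, Matrix.cons_val_one, Matrix.cons_val, Algebra.smul_def,
        mul_one] at hg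
      obtain ⟨h3, h4, h5⟩ := hθ _ _ _ hg
      intro i
      fin_cases i
      · exact h3
      · exact h4
      · exact h5
    intro z
    have h1 : Submodule.span F (Set.range ![(1 : L), θ, θ ^ 2]) = ⊤ :=
      hli.span_eq_top_of_card_eq_finrank (by simp [hL])
    have h2 : z ∈ Submodule.span F (Set.range ![(1 : L), θ, θ ^ 2]) := by rw [h1]; trivial
    rw [Submodule.mem_span_range_iff_exists_fun] at h2
    obtain ⟨c, hc⟩ := h2
    rw [Fin.sum_univ_three] at hc
    refine ⟨c 0, c 1, c 2, ?_⟩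
    rw [← hc]
    simp [Algebra.smul_def]
  choose v₀ v₁ v₂ hv using fun i => hspan (y i)
  obtain ⟨n₀, n₁, n₂, hn⟩ := hspan (θ ^ 3)
  set m₀ := -n₀ with hm₀
  set m₁ := -n₁ with hm₁
  set m₂ := -n₂ with hm₂
  have hθ3 : θ ^ 3 + algebraMap F L m₂ * θ ^ 2 + algebraMap F L m₁ * θ + algebraMap F L m₀ = 0 := by
    rw [hm₀, hm₁, hm₂, map_neg, map_neg, map_neg]
    linear_combination hn
  have hroot : ∀ r : F, r ^ 3 + m₂ * r ^ 2 + m₁ * r + m₀ ≠ 0 := by
    intro r hr
    have h3 : (θ - algebraMap F L r) * (algebraMap F L (r ^ 2 + m₂ * r + m₁) +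
        algebraMap F L (r + m₂) * θ + algebraMap F L 1 * θ ^ 2) = 0 := by
      have h4 := congrArg (algebraMap F L) hr
      simp only [map_add, map_mul, map_pow, map_zero, map_one] at h4 ⊢
      linear_combination hθ3 - h4
    rcases mul_eq_zero.mp h3 with h5 | h5
    · have := hθ (-r) 1 0 (by rw [map_neg, map_one, map_zero]; linear_combination h5)
      exact one_ne_zero this.2.1
    · exact one_ne_zero (hθ _ _ _ h5).2.2
  have hyeq : y = fun i => 1 * algebraMap F L (v₀ i) + θ * algebraMap F L (v₁ i) +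
      θ ^ 2 * algebraMap F L (v₂ i) := by
    ext i
    rw [hv i]
    ring
  -- the restricted forms
  have key : ∀ q : MvPolynomial ι F, q.IsHomogeneous 2 → MvPolynomial.aeval y q = 0 →
      ∃ a b c : F, ∀ X₀ X₁ X₂ : F,
        MvPolynomial.aeval (fun i => X₀ * v₀ i + X₁ * v₁ i + X₂ * v₂ i) q =
        b * (X₁ * X₂ + m₂ * X₁ ^ 2 + m₁ * X₀ * X₁ + m₀ * X₀ ^ 2) +
        a * (X₂ ^ 2 + m₂ * X₁ * X₂ + m₁ * X₁ ^ 2 + m₀ * X₀ * X₁) +
        c * (X₀ * X₂ - X₁ ^ 2) := by
    intro q hq hyq
    obtain ⟨β, δ, ε, hform⟩ := quadratic_plane hq v₀ v₁ v₂ L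
    set α := MvPolynomial.aeval v₀ q with hα
    set γ := MvPolynomial.aeval v₁ q with hγ
    set ζ := MvPolynomial.aeval v₂ q with hζ
    have h3 := hform 1 θ (θ ^ 2)
    rw [← hyeq, hyq] at h3
    have h4 := hθ (α - (ε - ζ * m₂) * m₀) (β - ζ * m₀ - (ε - ζ * m₂) * m₁)
      (γ + δ - ζ * m₁ - (ε - ζ * m₂) * m₂) (by
        simp only [map_add, map_sub, map_mul]
        linear_combination -h3 - (algebraMap F L ζ * θ + (algebraMap F L ε -
          algebraMap F L ζ * algebraMap F L m₂)) * hθ3)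
    obtain ⟨h5, h6, h7⟩ := h4
    refine ⟨ζ, ε - ζ * m₂, δ, fun X₀ X₁ X₂ => ?_⟩
    apply hinj
    have h8 := hform (algebraMap F L X₀) (algebraMap F L X₁) (algebraMap F L X₂)
    have h9 := MvPolynomial.aeval_algebraMap_apply L
      (fun i => X₀ * v₀ i + X₁ * v₁ i + X₂ * v₂ i) q
    rw [← h9]
    have h10 : (algebraMap F L ∘ fun i => X₀ * v₀ i + X₁ * v₁ i + X₂ * v₂ i) =
        fun i => algebraMap F L X₀ * algebraMap F L (v₀ i) + algebraMap F L X₁ *
        algebraMap F L (v₁ i) + algebraMap F L X₂ * algebraMap F L (v₂ i) := by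
      ext i
      simp only [Function.comp_apply, map_add, map_mul]
    rw [h10, h8]
    have h5' := congrArg (algebraMap F L) h5
    have h6' := congrArg (algebraMap F L) h6
    have h7' := congrArg (algebraMap F L) h7
    simp only [map_add, map_sub, map_mul, map_pow, map_zero] at h5' h6' h7' ⊢
    linear_combination (algebraMap F L X₀) ^ 2 * h5' +
      (algebraMap F L X₀ * algebraMap F L X₁) * h6' + (algebraMap F L X₁) ^ 2 * h7'
  obtain ⟨a₁, b₁, c₁, k₁⟩ := key q₁ h₁ hy₁
  obtain ⟨a₂, b₂, c₂, k₂⟩ := key q₂ h₂ hy₂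
  -- a vector orthogonal to both
  obtain ⟨e, he0, he⟩ : ∃ e : Fin 3 → F, e ≠ 0 ∧
      (c₁ * e 0 + b₁ * e 1 + a₁ * e 2 = 0 ∧ c₂ * e 0 + b₂ * e 1 + a₂ * e 2 = 0) := by
    let T : (Fin 3 → F) →ₗ[F] (Fin 2 → F) := Matrix.mulVecLin !![c₁, b₁, a₁; c₂, b₂, a₂]
    have hT : LinearMap.ker T ≠ ⊥ := LinearMap.ker_ne_bot_of_finrank_lt (by simp)
    obtain ⟨e, he, he0⟩ := Submodule.exists_mem_ne_zero_of_ne_bot hT
    rw [LinearMap.mem_ker] at he
    refine ⟨e, he0, ?_, ?_⟩
    · have := congrFun he 0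
      simpa [T, Matrix.mulVec, dotProduct, Fin.sum_univ_three] using this
    · have := congrFun he 1
      simpa [T, Matrix.mulVec, dotProduct, Fin.sum_univ_three] using this
  set e₀ := e 0 with he₀
  set e₁ := e 1 with he₁
  set e₂ := e 2 with he₂
  set M₂ := -(e₂ + m₁ * e₀ + m₂ * e₁) with hM₂
  set M₃ := -(m₂ * M₂ + m₁ * e₁ + m₀ * e₀) with hM₃
  set X₀ := e₀ * M₂ - e₁ ^ 2 with hX₀
  set X₁ := -m₂ * X₀ - (e₀ * M₃ - e₁ * M₂) with hX₁
  set X₂ := -m₂ * X₁ - m₁ * X₀ + (e₁ * M₃ - M₂ ^ 2) with hX₂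
  have hX : ¬ (X₀ = 0 ∧ X₁ = 0 ∧ X₂ = 0) := by
    rintro ⟨g0, g1, g2⟩
    have r1 : e₀ * M₂ = e₁ ^ 2 := by linear_combination g0
    have r2 : e₀ * M₃ = e₁ * M₂ := by
      rw [g0] at hX₁
      rw [g1] at hX₁
      linear_combination hX₁
    have r3 : e₁ * M₃ = M₂ ^ 2 := by
      rw [g2, g1, g0] at hX₂
      linear_combination -hX₂
    by_cases h0 : e₀ = 0
    · have g1 : e₁ = 0 := by
        rw [h0, zero_mul] at r1
        exact pow_eq_zero_iff (two_ne_zero) |>.mp r1.symm
      have g2 : M₂ = 0 := by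
        rw [g1, zero_mul] at r3
        exact pow_eq_zero_iff (two_ne_zero) |>.mp r3.symm
      have g3 : e₂ = 0 := by
        rw [h0, g1] at hM₂
        rw [g2] at hM₂
        linear_combination hM₂
      apply he0
      ext i
      fin_cases i
      · exact h0
      · exact g1
      · exact g3
    · apply hroot (e₁ / e₀)
      have t2 : M₂ = e₁ ^ 2 / e₀ := by
        rw [eq_div_iff h0]
        linear_combination r1
      have t3 : M₃ = e₁ ^ 3 / e₀ ^ 2 := by
        rw [eq_div_iff (pow_ne_zero 2 h0)]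
        linear_combination e₀ * r2 + e₁ * r1
      rw [t3, t2] at hM₃
      field_simp at hM₃ ⊢
      linear_combination hM₃
  -- the forms at `X`
  set M₄ := -(m₂ * M₃ + m₁ * M₂ + m₀ * e₁) with hM₄
  have hD0 : ∃ κ : F, X₀ * X₂ - X₁ ^ 2 = κ * e₀ ∧
      X₁ * X₂ + m₂ * X₁ ^ 2 + m₁ * X₀ * X₁ + m₀ * X₀ ^ 2 = κ * e₁ ∧
      X₂ ^ 2 + m₂ * X₁ * X₂ + m₁ * X₁ ^ 2 + m₀ * X₀ * X₁ = κ * e₂ := by
    refine ⟨e₀ * (M₂ * M₄ - M₃ ^ 2) - e₁ * (e₁ * M₄ - M₂ * M₃) + M₂ * (e₁ * M₃ - M₂ ^ 2),
      ?_, ?_, ?_⟩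
    · rw [hX₂, hX₁, hX₀, hM₄, hM₃, hM₂]
      ring
    · rw [hX₂, hX₁, hX₀, hM₄, hM₃, hM₂]
      ring
    · rw [hX₂, hX₁, hX₀, hM₄, hM₃, hM₂]
      ring
  obtain ⟨κ', d0, d1, d2⟩ := hD0
  have z₁ : MvPolynomial.aeval (fun i => X₀ * v₀ i + X₁ * v₁ i + X₂ * v₂ i) q₁ = 0 := by
    rw [k₁, d0, d1, d2]
    linear_combination κ' * he.1
  have z₂ : MvPolynomial.aeval (fun i => X₀ * v₀ i + X₁ * v₁ i + X₂ * v₂ i) q₂ = 0 := by
    rw [k₂, d0, d1, d2]
    linear_combination κ' * he.2
  by_cases hp : (fun i => X₀ * v₀ i + X₁ * v₁ i + X₂ * v₂ i) = 0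
  · -- the vectors are linearly dependent
    have hp' : ∀ i, X₀ * v₀ i + X₁ * v₁ i + X₂ * v₂ i = 0 := fun i => congrFun hp i
    by_cases g0 : X₀ = 0
    · by_cases g1 : X₁ = 0
      · have g2 : X₂ ≠ 0 := fun g2 => hX ⟨g0, g1, g2⟩
        have hy' : y = fun i => 1 * algebraMap F L (v₀ i) + θ * algebraMap F L (v₁ i) := by
          rw [hyeq]
          ext i
          have := hp' i
          rw [g0, g1, zero_mul, zero_mul, zero_add, zero_add] at this
          rw [(mul_eq_zero.mp this).resolve_left g2, map_zero, mul_zero, add_zero]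
        rw [hy'] at hy hy₁ hy₂
        exact rational_point_of_line h₁ h₂ hL _ _ _ _ hy hy₁ hy₂
      · have hy' : y = fun i => 1 * algebraMap F L (v₀ i) +
            (θ ^ 2 - θ * algebraMap F L (X₂ / X₁)) * algebraMap F L (v₂ i) := by
          rw [hyeq]
          ext i
          have h3 : v₁ i = - (X₂ / X₁) * v₂ i := by
            have := hp' i
            rw [g0] at this
            field_simp
            linear_combination this
          rw [h3, map_mul, map_neg]
          ring
        rw [hy'] at hy hy₁ hy₂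
        exact rational_point_of_line h₁ h₂ hL _ _ _ _ hy hy₁ hy₂
    · have hy' : y = fun i => (θ - algebraMap F L (X₁ / X₀)) * algebraMap F L (v₁ i) +
          (θ ^ 2 - algebraMap F L (X₂ / X₀)) * algebraMap F L (v₂ i) := by
        rw [hyeq]
        ext i
        have h3 : v₀ i = - (X₁ / X₀) * v₁ i - (X₂ / X₀) * v₂ i := by
          have := hp' i
          field_simp
          linear_combination this
        rw [h3, map_sub, map_mul, map_neg, map_mul]
        ring
      rw [hy'] at hy hy₁ hy₂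
      exact rational_point_of_line h₁ h₂ hL _ _ _ _ hy hy₁ hy₂
  · exact ⟨_, hp, z₁, z₂⟩

end

end Pool.Agent.Helper17.Irr
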