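import Mathlib
import Pool.Agent.Helper17.Irr.Defs

/-!
# Definitions: Weil restrictions of conics
-/

namespace Pool.Agent.Helper17.Irr

universe u v w

/-- The quadratic algebra `S[ω]`, `ω² = p + q ω`, over an `F`-algebra `S`, for `p`, `q` in `F`.
For `S = F` this is an arbitrary quadratic algebra `E` over `F`, and in general it is `E ⊗ S`. -/
abbrev QA {F : Type u} [Field F] (p q : F) (S : Type v) [CommRing S] [Algebra F S] : Type v :=
  QuadraticAlgebra S (algebraMap F S p) (algebraMap F S q)

/-- The homomorphism `E ⊗ S → E ⊗ T` induced by a homomorphism `S → T`. -/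
def QA.map {F : Type u} [Field F] (p q : F) {S : Type v} {T : Type w} [CommRing S] [CommRing T]
    [Algebra F S] [Algebra F T] (f : S →ₐ[F] T) : QA p q S →+* QA p q T where
  toFun z := ⟨f z.re, f z.im⟩
  map_one' := by ext <;> simp [QuadraticAlgebra.re_one, QuadraticAlgebra.im_one]
  map_mul' x y := by ext <;> simp
  map_zero' := by ext <;> simp
  map_add' x y := by ext <;> simp

/-- The value at a vector `v` over `E ⊗ S` of the ternary quadratic form over `E` with
coefficients `c i j`. -/
def conicVal {F : Type u} [Field F] {p q : F} (c : Fin 3 → Fin 3 → QA p q F) (S : Type v)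
    [CommRing S] [Algebra F S] (v : Fin 3 → QA p q S) : QA p q S :=
  ∑ i, ∑ j, QA.map p q (Algebra.ofId F S) (c i j) * (v i * v j)

/-- The conic over `E` with coefficients `c i j` is smooth: for both (or all) embeddings of `E`
into an algebraic closure of `F`, given by `ω ↦ r`, the gradient does not vanish at the points of
the conic. -/
def IsSmoothConic {F : Type u} [Field F] {p q : F} (c : Fin 3 → Fin 3 → QA p q F) : Prop :=
  ∀ r : AlgebraicClosure F, r ^ 2 = algebraMap F _ p + algebraMap F _ q * r →
    ∀ y : Fin 3 → AlgebraicClosure F, y ≠ 0 →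
      ∑ i, ∑ j, (algebraMap F _ (c i j).re + algebraMap F _ (c i j).im * r) * (y i * y j) = 0 →
      ∃ k, ∑ j, (algebraMap F _ (c k j + c j k).re + algebraMap F _ (c k j + c j k).im * r) * y j
        ≠ 0

/-- The Weil restriction of the conic has a point over `L`: the conic has a point over `E ⊗ L`. -/
def HasResPoint {F : Type u} [Field F] {p q : F} (c : Fin 3 → Fin 3 → QA p q F) (L : Type v)
    [Field L] [Algebra F L] : Prop :=
  ∃ v : Fin 3 → QA p q L, Ideal.span (Set.range v) = ⊤ ∧ conicVal c L v = 0

/-- The least degree of a closed point of the Weil restriction of the conic. -/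
noncomputable def resMinDegree {F : Type u} [Field F] {p q : F}
    (c : Fin 3 → Fin 3 → QA p q F) : ℕ :=
  sInf {d : ℕ | ∃ (L : Type u) (_ : Field L) (_ : Algebra F L), FiniteDimensional F L ∧
    Module.finrank F L = d ∧ HasResPoint c L}

/-- The two equations of the Weil restriction of the affine conic obtained by setting the third
coordinate equal to `1`: the components of the value of the quadratic form at the vector
`(X₀ + X₁ ω, X₂ + X₃ ω, 1)`. -/
noncomputable def resEquations {F : Type u} [Field F] {p q : F} (c : Fin 3 → Fin 3 → QA p q F) :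
    Fin 2 → MvPolynomial (Fin 4) F :=
  ![(conicVal c (MvPolynomial (Fin 4) F)
      ![⟨MvPolynomial.X 0, MvPolynomial.X 1⟩, ⟨MvPolynomial.X 2, MvPolynomial.X 3⟩, 1]).re,
    (conicVal c (MvPolynomial (Fin 4) F)
      ![⟨MvPolynomial.X 0, MvPolynomial.X 1⟩, ⟨MvPolynomial.X 2, MvPolynomial.X 3⟩, 1]).im]

end Pool.Agent.Helper17.Irr
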