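import Mathlib
import Pool.Agent.Helper17.Irr.DefsRes

/-!
# Definitions: del Pezzo surfaces of degree six
-/

namespace Pool.Agent.Helper17.Irr

universe u v w

/-- Let `M` be a cubic algebra over `F` with basis `bM`. The matrix, in the basis `1 ⊗ bM i` of
`R ⊗ M` over `R`, of the multiplication by the element `∑ z i ⊗ bM i` of `R ⊗ M`. -/
noncomputable def mulMat {F : Type u} [Field F] {M : Type v} [CommRing M] [Algebra F M]
    (bM : Module.Basis (Fin 3) F M) {R : Type w} [CommRing R] [Algebra F R] (z : Fin 3 → R) :
    Matrix (Fin 3) (Fin 3) R :=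
  ∑ k, z k • (Algebra.leftMulMatrix bM (bM k)).map (algebraMap F R)

/-- The coordinates of the element `1 ⊗ m` of `R ⊗ M`. -/
noncomputable def coords {F : Type u} [Field F] {M : Type v} [CommRing M] [Algebra F M]
    (bM : Module.Basis (Fin 3) F M) (R : Type w) [CommRing R] [Algebra F R] (m : M) : Fin 3 → R :=
  fun i => algebraMap F R (bM.repr m i)

/-- The coordinates of `z z̄ - w² b` in `E ⊗ S ⊗ M`, where `E = F[ω]`, `ω² = p + q ω` and the bar
is the conjugation of `E`. -/
noncomputable def sixEqA {F : Type u} [Field F] {M : Type v} [CommRing M] [Algebra F M]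
    (bM : Module.Basis (Fin 3) F M) {p q : F} (b : M) {S : Type w} [CommRing S] [Algebra F S]
    (z : Fin 3 → QA p q S) (w : S) : Fin 3 → QA p q S :=
  (mulMat bM z).mulVec (fun i => star (z i)) -
    fun i => algebraMap S (QA p q S) (w ^ 2) * coords bM (QA p q S) b i

/-- The coordinates of `b z^# - a w z̄` in `E ⊗ S ⊗ M`, where `z^#` is the adjoint of `z` over
`E ⊗ S`: the product of `z` and `z^#` is the norm of `z`. -/
noncomputable def sixEqB {F : Type u} [Field F] {M : Type v} [CommRing M] [Algebra F M]
    (bM : Module.Basis (Fin 3) F M) {p q : F} (a : QA p q F) (b : M) {S : Type w} [CommRing S]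
    [Algebra F S] (z : Fin 3 → QA p q S) (w : S) : Fin 3 → QA p q S :=
  (mulMat bM (coords bM (QA p q S) b)).mulVec
      ((mulMat bM z).adjugate.mulVec (coords bM (QA p q S) 1)) -
    fun i => QA.map p q (Algebra.ofId F S) a * algebraMap S (QA p q S) w * star (z i)

/-- The generic vector of `E ⊗ M`: the variables are the six coordinates and the last one is `w`. -/
noncomputable def genVec {F : Type u} [Field F] (p q : F) :
    Fin 3 → QA p q (MvPolynomial (Option (Fin 3 × Fin 2)) F) :=
  fun i => ⟨MvPolynomial.X (some (i, 0)), MvPolynomial.X (some (i, 1))⟩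

/-- The ideal of the surface `z z̄ = b w²`, `b z^# = a w z̄` in the projective space of `E ⊗ M ⊕ F`:
it is generated by the components of the equations. -/
noncomputable def sixIdeal {F : Type u} [Field F] {M : Type v} [CommRing M] [Algebra F M]
    (bM : Module.Basis (Fin 3) F M) {p q : F} (a : QA p q F) (b : M) :
    Ideal (MvPolynomial (Option (Fin 3 × Fin 2)) F) :=
  Ideal.span ((Set.range fun i => (sixEqA bM b (genVec p q) (MvPolynomial.X none) i).re) ∪
    (Set.range fun i => (sixEqA bM b (genVec p q) (MvPolynomial.X none) i).im) ∪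
    (Set.range fun i => (sixEqB bM a b (genVec p q) (MvPolynomial.X none) i).re) ∪
    (Set.range fun i => (sixEqB bM a b (genVec p q) (MvPolynomial.X none) i).im))

end Pool.Agent.Helper17.Irr
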