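import Mathlib
import Pool.Agent.Helper17.Irr.Cubic

/-!
# Intersections of two quadrics in projective four-space
-/

set_option linter.style.haveILetI false
set_option linter.deprecated false

namespace Pool.Agent.Helper17.Irr

open IntermediateField

universe u v w

section

variable {F : Type u} [Field F]

/-- Values of a quadratic form given by a matrix. -/
theorem aeval_quadratic {n : ℕ} {R : Type*} [CommRing R] [Algebra F R]
    (M : Fin n → Fin n → F) (x : Fin n → R) :
    MvPolynomial.aeval x (∑ i, ∑ j, MvPolynomial.C (M i j) *
      (MvPolynomial.X i * MvPolynomial.X j) : MvPolynomial (Fin n) F) =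
      ∑ i, ∑ j, algebraMap F R (M i j) * (x i * x j) := by
  simp [map_sum]

/-- Coefficients of low degree of elements of an ideal generated by forms of degree `m`. -/
theorem coeff_eq_zero_of_mem_span {σ : Type*} {s : Set (MvPolynomial σ F)} {m : ℕ}
    (hs : ∀ f ∈ s, f.IsHomogeneous m) {g : MvPolynomial σ F} (hg : g ∈ Ideal.span s)
    {d : σ →₀ ℕ} (hd : d.degree < m) : g.coeff d = 0 := by
  classical
  induction hg using Submodule.span_induction generalizing d with
  | mem f hf => exact (hs f hf).coeff_eq_zero (by omega)
  | zero => simp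
  | add f g _ _ h1 h2 => rw [MvPolynomial.coeff_add, h1 hd, h2 hd, add_zero]
  | smul a f _ h =>
    rw [smul_eq_mul, MvPolynomial.coeff_mul]
    refine Finset.sum_eq_zero fun p hp => ?_
    rw [Finset.HasAntidiagonal.mem_antidiagonal] at hp
    rw [h (d := p.2) ?_, mul_zero]
    have : p.1.degree + p.2.degree = d.degree := by rw [← hp, map_add]
    omega

/-- A form of degree `m` in the ideal generated by two forms of degree `m` is a linear combination
of them. -/
theorem exists_of_mem_span_pair {σ : Type*} {q₁ q₂ : MvPolynomial σ F} {m : ℕ}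
    (h₁ : q₁.IsHomogeneous m) (h₂ : q₂.IsHomogeneous m) {g : MvPolynomial σ F}
    (hgh : g.IsHomogeneous m) (hg : g ∈ Ideal.span {q₁, q₂}) :
    ∃ a b : F, g = MvPolynomial.C a * q₁ + MvPolynomial.C b * q₂ := by
  rw [Ideal.mem_span_pair] at hg
  obtain ⟨a, b, hab⟩ := hg
  refine ⟨a.coeff 0, b.coeff 0, ?_⟩
  have h1 : ∀ (a q : MvPolynomial σ F), q.IsHomogeneous m →
      MvPolynomial.homogeneousComponent m (a * q) = MvPolynomial.C (a.coeff 0) * q := by
    classical
    intro a q hq
    ext d
    rw [MvPolynomial.coeff_homogeneousComponent, MvPolynomial.coeff_C_mul]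
    by_cases hd : d.degree = m
    · rw [if_pos hd, MvPolynomial.coeff_mul, Finset.sum_eq_single (0, d)]
      · intro p hp hp0
        rw [Finset.HasAntidiagonal.mem_antidiagonal] at hp
        by_cases h0 : p.1 = 0
        · exfalso
          apply hp0
          rw [h0, zero_add] at hp
          exact Prod.ext h0 hp
        · rw [hq.coeff_eq_zero, mul_zero]
          have h3 : p.1.degree + p.2.degree = d.degree := by rw [← hp, map_add]
          have h4 : p.1.degree ≠ 0 := by
            rw [Ne, Finsupp.degree_eq_zero_iff]
            exact h0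
          omega
      · intro h
        exfalso
        apply h
        simp
    · rw [if_neg hd, hq.coeff_eq_zero hd, mul_zero]
  have h2 := congrArg (MvPolynomial.homogeneousComponent m) hab
  rw [map_add, h1 a q₁ h₁, h1 b q₂ h₂, MvPolynomial.homogeneousComponent_of_mem hgh, if_pos rfl]
    at h2
  exact h2.symm

end

end Pool.Agent.Helper17.Irr
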