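import Mathlib
import Pool.Agent.Helper17.Irr.Pencil
import Pool.Agent.Helper17.Irr.Conic

/-!
# Del Pezzo surfaces of degree four: the case without points of degree at most two
-/

set_option linter.style.haveILetI false
set_option linter.deprecated false

namespace Pool.Agent.Helper17.Irr

open IntermediateField

universe u v w

section

variable {F : Type u} [Field F]

/-- The value of a quadratic form in five variables. -/
theorem aeval_five {R : Type*} [CommRing R] [Algebra F R] (M : Fin 5 → Fin 5 → F) (x : Fin 5 → R) :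
    MvPolynomial.aeval x (∑ i, ∑ j, MvPolynomial.C (M i j) *
      (MvPolynomial.X i * MvPolynomial.X j) : MvPolynomial (Fin 5) F) =
      algebraMap F R (M 0 0) * x 0 ^ 2 + algebraMap F R (M 0 1 + M 1 0) * (x 0 * x 1) +
      algebraMap F R (M 1 1) * x 1 ^ 2 +
      (algebraMap F R (M 0 2 + M 2 0) * x 2 + algebraMap F R (M 0 3 + M 3 0) * x 3 +
        algebraMap F R (M 0 4 + M 4 0) * x 4) * x 0 +
      (algebraMap F R (M 1 2 + M 2 1) * x 2 + algebraMap F R (M 1 3 + M 3 1) * x 3 +
        algebraMap F R (M 1 4 + M 4 1) * x 4) * x 1 +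
      (algebraMap F R (M 2 2) * x 2 ^ 2 + algebraMap F R (M 2 3 + M 3 2) * (x 2 * x 3) +
        algebraMap F R (M 2 4 + M 4 2) * (x 2 * x 4) + algebraMap F R (M 3 3) * x 3 ^ 2 +
        algebraMap F R (M 3 4 + M 4 3) * (x 3 * x 4) + algebraMap F R (M 4 4) * x 4 ^ 2) := by
  rw [aeval_quadratic]
  simp only [Fin.sum_univ_five, map_add]
  ring

variable {K : Type v} [Field K] [Algebra F K]

theorem X_notMem_span {q₁ q₂ : MvPolynomial (Fin 5) F} (h₁ : q₁.IsHomogeneous 2)
    (h₂ : q₂.IsHomogeneous 2) (i : Fin 5) : MvPolynomial.X i ∉ Ideal.span {q₁, q₂} := by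
  intro h
  have h3 := coeff_eq_zero_of_mem_span (m := 2) (by
    rintro f (rfl | rfl)
    · exact h₁
    · exact h₂) h (d := Finsupp.single i 1) (by simp)
  simp at h3

theorem IsGenericPoint.ne_zero_of_notMem {n : ℕ} {I : Ideal (MvPolynomial (Fin n) F)}
    {x : Fin n → K} (hx : IsGenericPoint I x) {i : Fin n} (h : MvPolynomial.X i ∉ I) :
    x i ≠ 0 := by
  intro h0
  exact h ((hx.mem_iff 1 _ (MvPolynomial.isHomogeneous_X _ _)).mp (by simpa using h0))

/-- The function field is generated over `F(x₂/x₄, x₃/x₄)` by `x₀/x₄` and `x₁/x₄`. -/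
theorem IsGenericPoint.adjoin_five {I : Ideal (MvPolynomial (Fin 5) F)}
    {x : Fin 5 → K} (hx : IsGenericPoint I x) (h : x 4 ≠ 0) :
    IntermediateField.adjoin (IntermediateField.adjoin F {x 2 / x 4, x 3 / x 4})
      {x 0 / x 4, x 1 / x 4} = ⊤ := by
  set k := IntermediateField.adjoin F {x 2 / x 4, x 3 / x 4} with hk
  rw [← IntermediateField.restrictScalars_eq_top_iff (K := F)]
  apply hx.eq_top
  have h2 : ∀ i, x i / x 4 ∈ (IntermediateField.adjoin k {x 0 / x 4, x 1 / x 4}).restrictScalars F := by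
    intro i
    have ha : x 2 / x 4 ∈ k := IntermediateField.subset_adjoin F _ (Set.mem_insert _ _)
    have hb : x 3 / x 4 ∈ k :=
      IntermediateField.subset_adjoin F _ (Set.mem_insert_of_mem _ (Set.mem_singleton _))
    have k0 : x 0 / x 4 ∈ IntermediateField.adjoin k {x 0 / x 4, x 1 / x 4} :=
      IntermediateField.subset_adjoin k _ (Set.mem_insert _ _)
    have k1 : x 1 / x 4 ∈ IntermediateField.adjoin k {x 0 / x 4, x 1 / x 4} :=
      IntermediateField.subset_adjoin k _ (Set.mem_insert_of_mem _ (Set.mem_singleton _))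
    have k2 : x 2 / x 4 ∈ IntermediateField.adjoin k {x 0 / x 4, x 1 / x 4} :=
      IntermediateField.algebraMap_mem _ (⟨_, ha⟩ : k)
    have k3 : x 3 / x 4 ∈ IntermediateField.adjoin k {x 0 / x 4, x 1 / x 4} :=
      IntermediateField.algebraMap_mem _ (⟨_, hb⟩ : k)
    rw [IntermediateField.mem_restrictScalars]
    fin_cases i
    · exact k0
    · exact k1
    · exact k2
    · exact k3
    · simp only [Fin.reduceFinMk, div_self h]
      exact one_mem _
  intro i j
  have h3 : x i / x j = (x i / x 4) / (x j / x 4) := by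
    field_simp
  rw [h3]
  exact div_mem (h2 i) (h2 j)

/-- Del Pezzo surfaces of degree four without points of degree at most two: upper bound. -/
theorem pencil_irr_le_four_aux {q₁ q₂ : MvPolynomial (Fin 5) F} (h₁ : q₁.IsHomogeneous 2)
    (h₂ : q₂.IsHomogeneous 2) {x : Fin 5 → K} (hx : IsGenericPoint (Ideal.span {q₁, q₂}) x)
    (htr : 2 ≤ Algebra.trdeg F K)
    (hno : ∀ (L : Type u) [Field L] [Algebra F L], FiniteDimensional F L →
      Module.finrank F L ≤ 2 → ∀ y : Fin 5 → L, y ≠ 0 →
      ¬ (MvPolynomial.aeval y q₁ = 0 ∧ MvPolynomial.aeval y q₂ = 0))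
    (h0 : MvPolynomial.aeval (Pi.single 0 1 : Fin 5 → F) q₁ ≠ 0) :
    0 < irr F K ∧ irr F K ≤ 4 := by
  obtain ⟨M, hM⟩ := exists_matrix_of_quadratic h₁
  obtain ⟨N, hN⟩ := exists_matrix_of_quadratic h₂
  have hx4 : x 4 ≠ 0 := hx.ne_zero_of_notMem (X_notMem_span h₁ h₂ 4)
  set k := IntermediateField.adjoin F {x 2 / x 4, x 3 / x 4} with hk
  have ha : x 2 / x 4 ∈ k := IntermediateField.subset_adjoin _ _ (by simp)
  have hb : x 3 / x 4 ∈ k := IntermediateField.subset_adjoin _ _ (by simp)
  set a : k := ⟨_, ha⟩ with hadef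
  set b : k := ⟨_, hb⟩ with hbdef
  have hα : M 0 0 ≠ 0 := by
    intro h
    apply h0
    rw [hM, aeval_five]
    simp [h]
  -- the equations at the generic point
  have hE : ∀ (q : MvPolynomial (Fin 5) F) (P : Fin 5 → Fin 5 → F), q.IsHomogeneous 2 →
      q = ∑ i, ∑ j, MvPolynomial.C (P i j) * (MvPolynomial.X i * MvPolynomial.X j) →
      q ∈ Ideal.span {q₁, q₂} →
      algebraMap k K (algebraMap F k (P 0 0)) * (x 0 / x 4) ^ 2 +
      algebraMap k K (algebraMap F k (P 0 1 + P 1 0)) * ((x 0 / x 4) * (x 1 / x 4)) +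
      algebraMap k K (algebraMap F k (P 1 1)) * (x 1 / x 4) ^ 2 +
      algebraMap k K (algebraMap F k (P 0 2 + P 2 0) * a + algebraMap F k (P 0 3 + P 3 0) * b +
        algebraMap F k (P 0 4 + P 4 0)) * (x 0 / x 4) +
      algebraMap k K (algebraMap F k (P 1 2 + P 2 1) * a + algebraMap F k (P 1 3 + P 3 1) * b +
        algebraMap F k (P 1 4 + P 4 1)) * (x 1 / x 4) +
      algebraMap k K (algebraMap F k (P 2 2) * a ^ 2 + algebraMap F k (P 2 3 + P 3 2) * (a * b) +
        algebraMap F k (P 2 4 + P 4 2) * a + algebraMap F k (P 3 3) * b ^ 2 +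
        algebraMap F k (P 3 4 + P 4 3) * b + algebraMap F k (P 4 4)) = 0 := by
    intro q P hq hP hmem
    have h3 := (hx.mem_iff 2 q hq).mpr hmem
    rw [hP, aeval_five] at h3
    have ha' : algebraMap k K a = x 2 / x 4 := rfl
    have hb' : algebraMap k K b = x 3 / x 4 := rfl
    simp only [map_add, map_mul, map_pow, ← IsScalarTower.algebraMap_apply, ha', hb'] at h3 ⊢
    field_simp
    linear_combination h3
  have hE1 := hE q₁ M h₁ hM (Ideal.subset_span (by simp))
  have hE2 := hE q₂ N h₂ hN (Ideal.subset_span (by simp))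
  set β' : F := M 0 0 * (N 0 1 + N 1 0) - N 0 0 * (M 0 1 + M 1 0) with hβ'
  set γ' : F := M 0 0 * N 1 1 - N 0 0 * M 1 1 with hγ'
  -- the two quadrics have no common point on the line
  have hρ : M 0 0 * γ' ^ 2 - (M 0 1 + M 1 0) * β' * γ' + M 1 1 * β' ^ 2 ≠ 0 := by
    intro hρ0
    by_cases hbg : β' = 0 ∧ γ' = 0
    · -- the two restrictions are proportional: use a root of the first one
      obtain ⟨r, hr⟩ := IsAlgClosed.exists_root (k := AlgebraicClosure F)
        (Polynomial.C (algebraMap F (AlgebraicClosure F) (M 0 0)) * Polynomial.X ^ 2 +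
          Polynomial.C (algebraMap F (AlgebraicClosure F) (M 0 1 + M 1 0)) * Polynomial.X +
          Polynomial.C (algebraMap F (AlgebraicClosure F) (M 1 1))) (by
          rw [Polynomial.degree_quadratic ((map_ne_zero _).mpr hα)]
          norm_num)
      have hr' : algebraMap F (AlgebraicClosure F) (M 0 0) * r ^ 2 +
          algebraMap F (AlgebraicClosure F) (M 0 1 + M 1 0) * r +
          algebraMap F (AlgebraicClosure F) (M 1 1) = 0 := by
        simpa [Polynomial.IsRoot] using hr
      obtain ⟨hfin, hle⟩ := finrank_adjoin_le_two_of_root r _ _ _ (Or.inl hα) hr'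
      have hg : algebraMap F F⟮r⟯ (M 0 0) * (AdjoinSimple.gen F r) ^ 2 +
          algebraMap F F⟮r⟯ (M 0 1 + M 1 0) * AdjoinSimple.gen F r +
          algebraMap F F⟮r⟯ (M 1 1) = 0 := by
        apply (algebraMap F⟮r⟯ (AlgebraicClosure F)).injective
        simp only [map_add, map_mul, map_pow, ← IsScalarTower.algebraMap_apply,
          IntermediateField.AdjoinSimple.algebraMap_gen, map_zero]
        rw [← hr', map_add]
      apply hno F⟮r⟯ hfin hle ![AdjoinSimple.gen F r, 1, 0, 0, 0]
      · intro h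
        have := congrFun h 1
        simp at this
      · have e1 : MvPolynomial.aeval ![AdjoinSimple.gen F r, 1, 0, 0, 0] q₁ = 0 := by
          rw [hM, aeval_five]
          simp only [Matrix.cons_val_zero, Matrix.cons_val_one, Matrix.cons_val]
          linear_combination hg
        refine ⟨e1, ?_⟩
        have h3 : algebraMap F F⟮r⟯ (M 0 0) *
            MvPolynomial.aeval ![AdjoinSimple.gen F r, 1, 0, 0, 0] q₂ = 0 := by
          rw [hM, aeval_five] at e1
          rw [hN, aeval_five]
          simp only [Matrix.cons_val_zero, Matrix.cons_val_one, Matrix.cons_val] at e1 ⊢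
          have hb0 := congrArg (algebraMap F F⟮r⟯) hbg.1
          have hg0 := congrArg (algebraMap F F⟮r⟯) hbg.2
          rw [hβ'] at hb0
          rw [hγ'] at hg0
          simp only [map_sub, map_mul, map_zero, map_add] at hb0 hg0 e1 ⊢
          linear_combination (AdjoinSimple.gen F r) * hb0 + hg0 +
            algebraMap F F⟮r⟯ (N 0 0) * e1
        exact (mul_eq_zero.mp h3).resolve_left ((map_ne_zero _).mpr hα)
    · apply hno F inferInstance (by simp) ![-γ', β', 0, 0, 0]
      · intro h
        apply hbg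
        have e0 := congrFun h 0
        have e1 := congrFun h 1
        simp at e0 e1
        exact ⟨e1, e0⟩
      · have e1 : MvPolynomial.aeval ![-γ', β', 0, 0, 0] q₁ = 0 := by
          rw [hM, aeval_five]
          simp only [Matrix.cons_val_zero, Matrix.cons_val_one, Matrix.cons_val,
            Algebra.algebraMap_self, RingHom.id_apply]
          linear_combination hρ0
        refine ⟨e1, ?_⟩
        have h3 : M 0 0 * MvPolynomial.aeval ![-γ', β', 0, 0, 0] q₂ = 0 := by
          rw [hM, aeval_five] at e1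
          rw [hN, aeval_five]
          simp only [Matrix.cons_val_zero, Matrix.cons_val_one, Matrix.cons_val,
            Algebra.algebraMap_self, RingHom.id_apply] at e1 ⊢
          linear_combination N 0 0 * e1 - β' * γ' * hβ' + β' ^ 2 * hγ'
        exact (mul_eq_zero.mp h3).resolve_left hα
  obtain ⟨hfin, hle⟩ := two_conics (k := k) (x 0 / x 4) (x 1 / x 4) (hx.adjoin_five hx4)
    (algebraMap F k (M 0 0)) (algebraMap F k (M 0 1 + M 1 0)) (algebraMap F k (M 1 1)) _ _ _
    (algebraMap F k β') (algebraMap F k γ')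
    (algebraMap F k (M 0 0) * (algebraMap F k (N 0 2 + N 2 0) * a +
      algebraMap F k (N 0 3 + N 3 0) * b + algebraMap F k (N 0 4 + N 4 0)) -
      algebraMap F k (N 0 0) * (algebraMap F k (M 0 2 + M 2 0) * a +
      algebraMap F k (M 0 3 + M 3 0) * b + algebraMap F k (M 0 4 + M 4 0)))
    (algebraMap F k (M 0 0) * (algebraMap F k (N 1 2 + N 2 1) * a +
      algebraMap F k (N 1 3 + N 3 1) * b + algebraMap F k (N 1 4 + N 4 1)) -
      algebraMap F k (N 0 0) * (algebraMap F k (M 1 2 + M 2 1) * a +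
      algebraMap F k (M 1 3 + M 3 1) * b + algebraMap F k (M 1 4 + M 4 1)))
    (algebraMap F k (M 0 0) * (algebraMap F k (N 2 2) * a ^ 2 +
        algebraMap F k (N 2 3 + N 3 2) * (a * b) +
        algebraMap F k (N 2 4 + N 4 2) * a + algebraMap F k (N 3 3) * b ^ 2 +
        algebraMap F k (N 3 4 + N 4 3) * b + algebraMap F k (N 4 4)) -
      algebraMap F k (N 0 0) * (algebraMap F k (M 2 2) * a ^ 2 +
        algebraMap F k (M 2 3 + M 3 2) * (a * b) +
        algebraMap F k (M 2 4 + M 4 2) * a + algebraMap F k (M 3 3) * b ^ 2 +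
        algebraMap F k (M 3 4 + M 4 3) * b + algebraMap F k (M 4 4)))
    hE1 (by
      rw [hβ', hγ']
      simp only [map_add, map_sub, map_mul, map_pow] at hE1 hE2 ⊢
      linear_combination (algebraMap k K (algebraMap F k (M 0 0))) * hE2 -
        (algebraMap k K (algebraMap F k (N 0 0))) * hE1)
    (by simpa using hα) (by
      intro h
      apply hρ
      apply (algebraMap F k).injective
      simpa only [map_add, map_sub, map_mul, map_pow, map_zero] using h)
  haveI := hfin
  exact irr_le_of_finiteDimensional htr (x 2 / x 4) (x 3 / x 4) hle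

/-- Del Pezzo surfaces of degree four without points of degree at most two: upper bound. -/
theorem pencil_irr_le_four {q₁ q₂ : MvPolynomial (Fin 5) F} (h₁ : q₁.IsHomogeneous 2)
    (h₂ : q₂.IsHomogeneous 2) {x : Fin 5 → K} (hx : IsGenericPoint (Ideal.span {q₁, q₂}) x)
    (htr : 2 ≤ Algebra.trdeg F K)
    (hno : ∀ (L : Type u) [Field L] [Algebra F L], FiniteDimensional F L →
      Module.finrank F L ≤ 2 → ∀ y : Fin 5 → L, y ≠ 0 →
      ¬ (MvPolynomial.aeval y q₁ = 0 ∧ MvPolynomial.aeval y q₂ = 0)) :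
    0 < irr F K ∧ irr F K ≤ 4 := by
  by_cases h0 : MvPolynomial.aeval (Pi.single 0 1 : Fin 5 → F) q₁ = 0
  · have h0' : MvPolynomial.aeval (Pi.single 0 1 : Fin 5 → F) q₂ ≠ 0 := by
      intro h
      exact hno F inferInstance (by simp) (Pi.single 0 1) (by simp) ⟨h0, h⟩
    rw [Set.pair_comm] at hx
    exact pencil_irr_le_four_aux h₂ h₁ hx htr
      (fun L _ _ hf hr y hy h => hno L hf hr y hy h.symm) h0'
  · exact pencil_irr_le_four_aux h₁ h₂ hx htr hno h0

end

end Pool.Agent.Helper17.Irr
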