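import Mathlib
import Pool.Agent.Helper17.Irr.Quartic

/-!
# Del Pezzo surfaces of degree four: the case of a point of degree two
-/

set_option linter.style.haveILetI false
set_option linter.deprecated false

namespace Pool.Agent.Helper17.Irr

open IntermediateField

universe u v w

section

variable {F : Type u} [Field F]

theorem aeval_pderiv_subst {n : ℕ} {R : Type*} [CommRing R] [Algebra F R]
    (B : Matrix (Fin n) (Fin n) F) (f : MvPolynomial (Fin n) F) (y : Fin n → R) (k : Fin n) :
    MvPolynomial.aeval y (MvPolynomial.pderiv k (subst B f)) =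
      ∑ j, B j k • MvPolynomial.aeval (fun i => ∑ l, B i l • y l) (MvPolynomial.pderiv j f) := by
  rw [subst, pderiv_aeval, map_sum]
  refine Finset.sum_congr rfl fun j _ => ?_
  have h1 : MvPolynomial.pderiv k (∑ l, MvPolynomial.C (B j l) * MvPolynomial.X l :
      MvPolynomial (Fin n) F) = MvPolynomial.C (B j k) := by
    rw [map_sum, Finset.sum_eq_single k]
    · simp
    · intro l _ hl
      simp [MvPolynomial.pderiv_X_of_ne hl]
    · simp
  rw [map_mul, h1, MvPolynomial.aeval_C, Algebra.smul_def, mul_comm]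
  congr 1
  exact aeval_subst B y _

theorem comap_subst_span_pair {n : ℕ} (A B : Matrix (Fin n) (Fin n) F) (hAB : A * B = 1)
    (hBA : B * A = 1) (f g : MvPolynomial (Fin n) F) :
    (Ideal.span {f, g}).comap (subst A) = Ideal.span {subst B f, subst B g} := by
  ext h
  rw [Ideal.mem_comap, Ideal.mem_span_pair, Ideal.mem_span_pair]
  constructor
  · rintro ⟨a, b, hh⟩
    refine ⟨subst B a, subst B b, ?_⟩
    rw [← map_mul, ← map_mul, ← map_add, hh, subst_subst, hAB, subst_one]
  · rintro ⟨a, b, hh⟩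
    refine ⟨subst A a, subst A b, ?_⟩
    rw [← hh, map_add, map_mul, map_mul, subst_subst, subst_subst, hBA, subst_one, subst_one]

theorem aeval_pderiv_quadratic {n : ℕ} {R : Type*} [CommRing R] [Algebra F R]
    (M : Fin n → Fin n → F) (y : Fin n → R) (k : Fin n) :
    MvPolynomial.aeval y (MvPolynomial.pderiv k (∑ i, ∑ j, MvPolynomial.C (M i j) *
      (MvPolynomial.X i * MvPolynomial.X j) : MvPolynomial (Fin n) F)) =
      ∑ j, algebraMap F R (M k j + M j k) * y j := by
  classical
  have h1 : ∀ i j, MvPolynomial.aeval y (MvPolynomial.pderiv k (MvPolynomial.C (M i j) *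
      (MvPolynomial.X i * MvPolynomial.X j) : MvPolynomial (Fin n) F)) =
      (if i = k then algebraMap F R (M i j) * y j else 0) +
      (if j = k then algebraMap F R (M i j) * y i else 0) := by
    intro i j
    rw [MvPolynomial.pderiv_C_mul, MvPolynomial.pderiv_mul, MvPolynomial.pderiv_X,
      MvPolynomial.pderiv_X, map_mul, map_add, map_mul, map_mul,
      MvPolynomial.aeval_C, MvPolynomial.aeval_X, MvPolynomial.aeval_X]
    by_cases hi : i = k <;> by_cases hj : j = k <;>
      (simp [hi, hj, eq_comm]; try ring)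
  simp only [map_sum, h1, Finset.sum_add_distrib, map_add, add_mul]
  congr 1
  · rw [Finset.sum_comm]
    simp
  · simp

variable {K : Type v} [Field K] [Algebra F K]

/-- The case of a quadratic point, in normalised coordinates. -/
theorem pencil_quad_aux {q₁ q₂ : MvPolynomial (Fin 5) F} (h₁ : q₁.IsHomogeneous 2)
    (h₂ : q₂.IsHomogeneous 2) {x : Fin 5 → K} (hx : IsGenericPoint (Ideal.span {q₁, q₂}) x)
    (htr : 2 ≤ Algebra.trdeg F K) {L : Type w} [Field L] [Algebra F L] (ω : L)
    (hω : ∀ s t : F, algebraMap F L s + algebraMap F L t * ω = 0 → s = 0 ∧ t = 0)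
    (b c : F) (hω2 : ω ^ 2 = algebraMap F L b * ω + algebraMap F L c)
    (hy₁ : MvPolynomial.aeval ![1, ω, 0, 0, 0] q₁ = 0)
    (hy₂ : MvPolynomial.aeval ![1, ω, 0, 0, 0] q₂ = 0)
    (hsm : ∀ s t : F, (∀ k, algebraMap F L s * MvPolynomial.aeval ![1, ω, 0, 0, 0]
      (MvPolynomial.pderiv k q₁) + algebraMap F L t * MvPolynomial.aeval ![1, ω, 0, 0, 0]
      (MvPolynomial.pderiv k q₂) = 0) → s = 0 ∧ t = 0)
    (h0 : MvPolynomial.aeval (Pi.single 1 1 : Fin 5 → F) q₁ ≠ 0) :
    0 < irr F K ∧ irr F K ≤ 2 := by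
  obtain ⟨M, hM⟩ := exists_matrix_of_quadratic h₁
  obtain ⟨N, hN⟩ := exists_matrix_of_quadratic h₂
  have hx4 : x 4 ≠ 0 := hx.ne_zero_of_notMem (X_notMem_span h₁ h₂ 4)
  set k := IntermediateField.adjoin F {x 2 / x 4, x 3 / x 4} with hk
  have ha : x 2 / x 4 ∈ k := IntermediateField.subset_adjoin _ _ (by simp)
  have hb : x 3 / x 4 ∈ k := IntermediateField.subset_adjoin _ _ (by simp)
  set a : k := ⟨_, ha⟩ with hadef
  set d : k := ⟨_, hb⟩ with hbdef
  have hM11 : M 1 1 ≠ 0 := by
    intro h
    apply h0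
    rw [hM, aeval_five]
    simp [h]
  -- the restriction to the line
  have hr : ∀ (q : MvPolynomial (Fin 5) F) (P : Fin 5 → Fin 5 → F),
      q = ∑ i, ∑ j, MvPolynomial.C (P i j) * (MvPolynomial.X i * MvPolynomial.X j) →
      MvPolynomial.aeval ![1, ω, 0, 0, 0] q = 0 →
      P 0 0 = - c * P 1 1 ∧ P 0 1 + P 1 0 = - b * P 1 1 := by
    intro q P hP hq
    rw [hP, aeval_five] at hq
    simp only [Matrix.cons_val_zero, Matrix.cons_val_one, Matrix.cons_val] at hq
    have h3 := hω (P 0 0 + c * P 1 1) ((P 0 1 + P 1 0) + b * P 1 1) (by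
      simp only [map_add, map_mul] at hq ⊢
      linear_combination hq - algebraMap F L (P 1 1) * hω2)
    obtain ⟨h4, h5⟩ := h3
    exact ⟨by linear_combination h4, by linear_combination h5⟩
  obtain ⟨hM00, hM01⟩ := hr q₁ M hM hy₁
  obtain ⟨hN00, hN01⟩ := hr q₂ N hN hy₂
  -- the equations at the generic point
  have hE : ∀ (q : MvPolynomial (Fin 5) F) (P : Fin 5 → Fin 5 → F), q.IsHomogeneous 2 →
      q = ∑ i, ∑ j, MvPolynomial.C (P i j) * (MvPolynomial.X i * MvPolynomial.X j) →
      q ∈ Ideal.span {q₁, q₂} →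
      algebraMap k K (algebraMap F k (P 0 0)) * (x 0 / x 4) ^ 2 +
      algebraMap k K (algebraMap F k (P 0 1 + P 1 0)) * ((x 0 / x 4) * (x 1 / x 4)) +
      algebraMap k K (algebraMap F k (P 1 1)) * (x 1 / x 4) ^ 2 +
      algebraMap k K (algebraMap F k (P 0 2 + P 2 0) * a + algebraMap F k (P 0 3 + P 3 0) * d +
        algebraMap F k (P 0 4 + P 4 0)) * (x 0 / x 4) +
      algebraMap k K (algebraMap F k (P 1 2 + P 2 1) * a + algebraMap F k (P 1 3 + P 3 1) * d +
        algebraMap F k (P 1 4 + P 4 1)) * (x 1 / x 4) +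
      algebraMap k K (algebraMap F k (P 2 2) * a ^ 2 + algebraMap F k (P 2 3 + P 3 2) * (a * d) +
        algebraMap F k (P 2 4 + P 4 2) * a + algebraMap F k (P 3 3) * d ^ 2 +
        algebraMap F k (P 3 4 + P 4 3) * d + algebraMap F k (P 4 4)) = 0 := by
    intro q P hq hP hmem
    have h3 := (hx.mem_iff 2 q hq).mpr hmem
    rw [hP, aeval_five] at h3
    have ha' : algebraMap k K a = x 2 / x 4 := rfl
    have hb' : algebraMap k K d = x 3 / x 4 := rfl
    simp only [map_add, map_mul, map_pow, ← IsScalarTower.algebraMap_apply, ha', hb'] at h3 ⊢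
    field_simp
    linear_combination h3
  have hE1 := hE q₁ M h₁ hM (Ideal.subset_span (by simp))
  have hE2 := hE q₂ N h₂ hN (Ideal.subset_span (by simp))
  -- the linear combination `P` without `X 0 ^ 2`, `X 0 * X 1` and `X 1 ^ 2`
  set P : Fin 5 → Fin 5 → F := fun i j => M 1 1 * N i j - N 1 1 * M i j with hP
  have hPij : ∀ i j, P i j = M 1 1 * N i j - N 1 1 * M i j := fun i j => rfl
  have hP11 : P 1 1 = 0 := by rw [hPij]; ring
  have hP00 : P 0 0 = 0 := by rw [hPij, hM00, hN00]; ring
  have hP01 : P 0 1 + P 1 0 = 0 := by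
    rw [hPij, hPij]; linear_combination M 1 1 * hN01 - N 1 1 * hM01
  -- the linear forms
  set l' : Fin 5 → F := fun j => P 0 j + P j 0 with hl'
  set m' : Fin 5 → F := fun j => P 1 j + P j 1 with hm'
  have hlm : ¬ ((l' 2 = 0 ∧ l' 3 = 0 ∧ l' 4 = 0) ∧ (m' 2 = 0 ∧ m' 3 = 0 ∧ m' 4 = 0)) := by
    rintro ⟨⟨h2, h3, h4⟩, h5, h6, h7⟩
    apply hM11
    refine (hsm (- N 1 1) (M 1 1) ?_).2
    intro j
    have h8 : algebraMap F L (- N 1 1) * MvPolynomial.aeval ![1, ω, 0, 0, 0]
        (MvPolynomial.pderiv j q₁) + algebraMap F L (M 1 1) *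
          MvPolynomial.aeval ![1, ω, 0, 0, 0] (MvPolynomial.pderiv j q₂) =
        algebraMap F L (P j 0 + P 0 j) + algebraMap F L (P j 1 + P 1 j) * ω := by
      rw [hM, hN, aeval_pderiv_quadratic, aeval_pderiv_quadratic, Fin.sum_univ_five,
        Fin.sum_univ_five]
      simp only [Matrix.cons_val_zero, Matrix.cons_val_one, Matrix.cons_val, hPij, map_add,
        map_sub, map_mul, map_neg]
      ring
    rw [h8]
    simp only [hl', hm'] at h2 h3 h4 h5 h6 h7
    have h9 : P j 0 + P 0 j = 0 ∧ P j 1 + P 1 j = 0 := by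
      fin_cases j
      · exact ⟨by simp [hP00], by simpa using hP01⟩
      · exact ⟨(add_comm _ _).trans hP01, by simp [hP11]⟩
      · exact ⟨(add_comm _ _).trans h2, (add_comm _ _).trans h5⟩
      · exact ⟨(add_comm _ _).trans h3, (add_comm _ _).trans h6⟩
      · exact ⟨(add_comm _ _).trans h4, (add_comm _ _).trans h7⟩
    rw [h9.1, h9.2, map_zero, zero_mul, add_zero]
  set lk : k := algebraMap F k (l' 2) * a + algebraMap F k (l' 3) * d + algebraMap F k (l' 4)
    with hlk
  set mk : k := algebraMap F k (m' 2) * a + algebraMap F k (m' 3) * d + algebraMap F k (m' 4)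
    with hmk
  have hirr : ∀ s t : F, s ^ 2 + b * s * t - c * t ^ 2 = 0 → s = 0 ∧ t = 0 := by
    intro s t hst
    have h3 : (algebraMap F L s - algebraMap F L t * (-(ω))) *
        (algebraMap F L (s + b * t) - algebraMap F L t * ω) = 0 := by
      have h4 := congrArg (algebraMap F L) hst
      simp only [map_add, map_mul, map_sub, map_pow, map_zero] at h4 ⊢
      linear_combination h4 - (algebraMap F L t) ^ 2 * hω2
    rcases mul_eq_zero.mp h3 with h5 | h5
    · exact hω s t (by linear_combination h5)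
    · have h6 := hω (s + b * t) (-t) (by rw [map_neg]; linear_combination h5)
      obtain ⟨h7, h8⟩ := h6
      have h9 : t = 0 := by simpa using h8
      rw [h9] at h7
      exact ⟨by simpa using h7, h9⟩
  have hρ : lk ^ 2 + algebraMap F k b * lk * mk - algebraMap F k c * mk ^ 2 ≠ 0 := by
    intro hzero
    -- the form `H`
    let lX : MvPolynomial (Fin 5) F := MvPolynomial.C (l' 2) * MvPolynomial.X 2 +
      MvPolynomial.C (l' 3) * MvPolynomial.X 3 + MvPolynomial.C (l' 4) * MvPolynomial.X 4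
    let mX : MvPolynomial (Fin 5) F := MvPolynomial.C (m' 2) * MvPolynomial.X 2 +
      MvPolynomial.C (m' 3) * MvPolynomial.X 3 + MvPolynomial.C (m' 4) * MvPolynomial.X 4
    have hlX : lX.IsHomogeneous 1 :=
      ((MvPolynomial.isHomogeneous_C_mul_X _ _).add (MvPolynomial.isHomogeneous_C_mul_X _ _)).add
        (MvPolynomial.isHomogeneous_C_mul_X _ _)
    have hmX : mX.IsHomogeneous 1 :=
      ((MvPolynomial.isHomogeneous_C_mul_X _ _).add (MvPolynomial.isHomogeneous_C_mul_X _ _)).add
        (MvPolynomial.isHomogeneous_C_mul_X _ _)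
    set H : MvPolynomial (Fin 5) F := lX * lX + MvPolynomial.C b * (lX * mX) -
      MvPolynomial.C c * (mX * mX) with hH
    have hHh : H.IsHomogeneous 2 :=
      ((hlX.mul hlX).add ((hlX.mul hmX).C_mul b)).sub ((hmX.mul hmX).C_mul c)
    have hlx : ∀ (R : Type v) [CommRing R] [Algebra F R] (z : Fin 5 → R),
        MvPolynomial.aeval z lX = algebraMap F R (l' 2) * z 2 + algebraMap F R (l' 3) * z 3 +
          algebraMap F R (l' 4) * z 4 := by
      intro R _ _ z
      simp [lX]
    have hlx' : MvPolynomial.aeval x lX = x 4 * algebraMap k K lk := by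
      have ha' : algebraMap k K a = x 2 / x 4 := rfl
      have hb' : algebraMap k K d = x 3 / x 4 := rfl
      rw [hlx, hlk]
      simp only [map_add, map_mul, ← IsScalarTower.algebraMap_apply, ha', hb']
      field_simp
    have hmx' : MvPolynomial.aeval x mX = x 4 * algebraMap k K mk := by
      have ha' : algebraMap k K a = x 2 / x 4 := rfl
      have hb' : algebraMap k K d = x 3 / x 4 := rfl
      have : MvPolynomial.aeval x mX = algebraMap F K (m' 2) * x 2 +
          algebraMap F K (m' 3) * x 3 + algebraMap F K (m' 4) * x 4 := by simp [mX]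
      rw [this, hmk]
      simp only [map_add, map_mul, ← IsScalarTower.algebraMap_apply, ha', hb']
      field_simp
    have hHx : MvPolynomial.aeval x H = 0 := by
      have h3 := congrArg (algebraMap k K) hzero
      rw [hH, map_sub, map_add, map_mul, map_mul, map_mul, map_mul, map_mul, MvPolynomial.aeval_C,
        MvPolynomial.aeval_C, hlx', hmx']
      simp only [map_add, map_sub, map_mul, map_pow, map_zero,
        ← IsScalarTower.algebraMap_apply] at h3
      linear_combination (x 4) ^ 2 * h3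
    obtain ⟨s, t, hst⟩ := exists_of_mem_span_pair h₁ h₂ hHh ((hx.mem_iff 2 H hHh).mp hHx)
    -- evaluate at points of `F`
    have hev : ∀ z : Fin 5 → F, (l' 2 * z 2 + l' 3 * z 3 + l' 4 * z 4) ^ 2 +
        b * (l' 2 * z 2 + l' 3 * z 3 + l' 4 * z 4) * (m' 2 * z 2 + m' 3 * z 3 + m' 4 * z 4) -
        c * (m' 2 * z 2 + m' 3 * z 3 + m' 4 * z 4) ^ 2 =
        s * MvPolynomial.aeval z q₁ + t * MvPolynomial.aeval z q₂ := by
      intro z
      have h3 := congrArg (MvPolynomial.aeval z) hst
      have h4 : MvPolynomial.aeval z H = (l' 2 * z 2 + l' 3 * z 3 + l' 4 * z 4) ^ 2 +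
        b * (l' 2 * z 2 + l' 3 * z 3 + l' 4 * z 4) * (m' 2 * z 2 + m' 3 * z 3 + m' 4 * z 4) -
        c * (m' 2 * z 2 + m' 3 * z 3 + m' 4 * z 4) ^ 2 := by
        simp only [hH, lX, mX, map_sub, map_add, map_mul, MvPolynomial.aeval_C,
          MvPolynomial.aeval_X, Algebra.algebraMap_self, RingHom.id_apply]
        ring
      rw [← h4, h3]
      simp
    have hst1 : s * M 1 1 + t * N 1 1 = 0 := by
      have h3 := hev (Pi.single 1 1)
      rw [hM, hN, aeval_five, aeval_five] at h3
      simp at h3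
      linear_combination -h3
    -- so `M 1 1 * H = t * (P-form)`
    have hev2 : ∀ z : Fin 5 → F, M 1 1 * ((l' 2 * z 2 + l' 3 * z 3 + l' 4 * z 4) ^ 2 +
        b * (l' 2 * z 2 + l' 3 * z 3 + l' 4 * z 4) * (m' 2 * z 2 + m' 3 * z 3 + m' 4 * z 4) -
        c * (m' 2 * z 2 + m' 3 * z 3 + m' 4 * z 4) ^ 2) =
        t * (P 0 0 * z 0 ^ 2 + (P 0 1 + P 1 0) * (z 0 * z 1) + P 1 1 * z 1 ^ 2 +
          (l' 2 * z 2 + l' 3 * z 3 + l' 4 * z 4) * z 0 +
          (m' 2 * z 2 + m' 3 * z 3 + m' 4 * z 4) * z 1 +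
          (P 2 2 * z 2 ^ 2 + (P 2 3 + P 3 2) * (z 2 * z 3) +
        (P 2 4 + P 4 2) * (z 2 * z 4) + P 3 3 * z 3 ^ 2 +
        (P 3 4 + P 4 3) * (z 3 * z 4) + P 4 4 * z 4 ^ 2)) := by
      intro z
      have h3 := hev z
      rw [hM, hN, aeval_five, aeval_five] at h3
      simp only [Algebra.algebraMap_self, RingHom.id_apply] at h3
      simp only [hl', hm'] at h3 ⊢
      simp only [hPij] at h3 ⊢
      linear_combination (M 1 1) * h3 + (M 0 0 * z 0 ^ 2 + (M 0 1 + M 1 0) * (z 0 * z 1) +
        M 1 1 * z 1 ^ 2 + ((M 0 2 + M 2 0) * z 2 + (M 0 3 + M 3 0) * z 3 +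
        (M 0 4 + M 4 0) * z 4) * z 0 + ((M 1 2 + M 2 1) * z 2 + (M 1 3 + M 3 1) * z 3 +
        (M 1 4 + M 4 1) * z 4) * z 1 + (M 2 2 * z 2 ^ 2 + (M 2 3 + M 3 2) * (z 2 * z 3) +
        (M 2 4 + M 4 2) * (z 2 * z 4) + M 3 3 * z 3 ^ 2 + (M 3 4 + M 4 3) * (z 3 * z 4) +
        M 4 4 * z 4 ^ 2)) * hst1
    apply hlm
    by_cases ht : t = 0
    · -- then `H` vanishes at all points
      have h3 : ∀ z : Fin 5 → F, (l' 2 * z 2 + l' 3 * z 3 + l' 4 * z 4) = 0 ∧
          (m' 2 * z 2 + m' 3 * z 3 + m' 4 * z 4) = 0 := by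
        intro z
        have h4 := hev2 z
        rw [ht, zero_mul] at h4
        exact hirr _ _ ((mul_eq_zero.mp h4).resolve_left hM11)
      have e2 := h3 (Pi.single 2 1)
      have e3 := h3 (Pi.single 3 1)
      have e4 := h3 (Pi.single 4 1)
      simp at e2 e3 e4
      exact ⟨⟨e2.1, e3.1, e4.1⟩, e2.2, e3.2, e4.2⟩
    · -- compare the values at `z` and at `z + e₀`, `z + e₁`
      have h3 : ∀ z : Fin 5 → F, (l' 2 * z 2 + l' 3 * z 3 + l' 4 * z 4) = 0 ∧
          (m' 2 * z 2 + m' 3 * z 3 + m' 4 * z 4) = 0 := by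
        intro z
        have h4 := hev2 ![0, 0, z 2, z 3, z 4]
        have h5 := hev2 ![1, 0, z 2, z 3, z 4]
        have h6 := hev2 ![0, 1, z 2, z 3, z 4]
        simp only [Matrix.cons_val_zero, Matrix.cons_val_one, Matrix.cons_val, hP00, hP01, hP11]
          at h4 h5 h6
        constructor
        · have h7 : t * (l' 2 * z 2 + l' 3 * z 3 + l' 4 * z 4) = 0 := by
            linear_combination h4 - h5
          exact (mul_eq_zero.mp h7).resolve_left ht
        · have h7 : t * (m' 2 * z 2 + m' 3 * z 3 + m' 4 * z 4) = 0 := by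
            linear_combination h4 - h6
          exact (mul_eq_zero.mp h7).resolve_left ht
      have e2 := h3 (Pi.single 2 1)
      have e3 := h3 (Pi.single 3 1)
      have e4 := h3 (Pi.single 4 1)
      simp at e2 e3 e4
      exact ⟨⟨e2.1, e3.1, e4.1⟩, e2.2, e3.2, e4.2⟩
  obtain ⟨hfin, hle⟩ := conic_line (k := k) (x 0 / x 4) (x 1 / x 4) (hx.adjoin_five hx4)
    (algebraMap F k (M 0 0)) (algebraMap F k (M 0 1 + M 1 0)) (algebraMap F k (M 1 1)) _ _ _
    lk mk
    (algebraMap F k (P 2 2) * a ^ 2 + algebraMap F k (P 2 3 + P 3 2) * (a * d) +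
        algebraMap F k (P 2 4 + P 4 2) * a + algebraMap F k (P 3 3) * d ^ 2 +
        algebraMap F k (P 3 4 + P 4 3) * d + algebraMap F k (P 4 4))
    hE1 (by
      have hN00' : N 0 0 = - c * N 1 1 := hN00
      rw [hlk, hmk]
      simp only [hl', hm', hPij]
      rw [hM00, hM01] at hE1
      rw [hN00, hN01] at hE2
      simp only [map_add, map_sub, map_mul, map_pow, map_neg] at hE1 hE2 ⊢
      linear_combination (algebraMap k K (algebraMap F k (M 1 1))) * hE2 -
        (algebraMap k K (algebraMap F k (N 1 1))) * hE1)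
    (by
      intro h
      apply hρ
      rw [hM00, hM01] at h
      have h5 : algebraMap F k (M 1 1) *
          (lk ^ 2 + algebraMap F k b * lk * mk - algebraMap F k c * mk ^ 2) = 0 := by
        simp only [map_mul, map_neg] at h
        linear_combination h
      exact (mul_eq_zero.mp h5).resolve_left ((map_ne_zero _).mpr hM11))
  haveI := hfin
  exact irr_le_of_finiteDimensional htr (x 2 / x 4) (x 3 / x 4) hle

/-- A basis `1, ω` of a quadratic extension. -/
theorem exists_quadratic_basis {L : Type w} [Field L] [Algebra F L]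
    [FiniteDimensional F L] (hL : Module.finrank F L = 2) :
    ∃ ω : L, (∀ s t : F, algebraMap F L s + algebraMap F L t * ω = 0 → s = 0 ∧ t = 0) ∧
      ∀ z : L, ∃ a b : F, z = algebraMap F L a + algebraMap F L b * ω := by
  obtain ⟨ω, hω⟩ : ∃ ω : L, ω ∉ (⊥ : Subalgebra F L) := by
    by_contra h
    push Not at h
    have h1 : (⊥ : Subalgebra F L) = ⊤ := eq_top_iff.mpr fun z _ => h z
    have h2 := Subalgebra.bot_eq_top_iff_finrank_eq_one.mp h1
    omega
  have hli : ∀ s t : F, algebraMap F L s + algebraMap F L t * ω = 0 → s = 0 ∧ t = 0 := by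
    intro s t hst
    have ht : t = 0 := by
      by_contra ht
      apply hω
      rw [Algebra.mem_bot]
      refine ⟨-s / t, ?_⟩
      have ht' : algebraMap F L t ≠ 0 := (map_ne_zero _).mpr ht
      rw [map_div₀, map_neg, div_eq_iff ht']
      linear_combination -hst
    refine ⟨?_, ht⟩
    rw [ht, map_zero, zero_mul, add_zero] at hst
    exact (map_eq_zero _).mp hst
  refine ⟨ω, hli, ?_⟩
  have hli' : LinearIndependent F ![(1 : L), ω] := by
    rw [LinearIndependent.pair_iff]
    intro s t hst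
    apply hli
    rw [Algebra.smul_def, Algebra.smul_def, mul_one] at hst
    exact hst
  intro z
  have h1 : Submodule.span F (Set.range ![(1 : L), ω]) = ⊤ :=
    hli'.span_eq_top_of_card_eq_finrank (by simp [hL])
  have h2 : z ∈ Submodule.span F (Set.range ![(1 : L), ω]) := by rw [h1]; trivial
  rw [Matrix.range_cons, Matrix.range_cons, Matrix.range_empty, Set.union_empty,
    Set.singleton_union, Submodule.mem_span_pair] at h2
  obtain ⟨a, b, hab⟩ := h2
  exact ⟨a, b, by rw [← hab, Algebra.smul_def, Algebra.smul_def, mul_one]⟩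

/-- Del Pezzo surfaces of degree four without rational points but with a smooth point of
degree two. -/
theorem pencil_irr_le_two_of_quadratic {q₁ q₂ : MvPolynomial (Fin 5) F}
    (h₁ : q₁.IsHomogeneous 2) (h₂ : q₂.IsHomogeneous 2) {x : Fin 5 → K}
    (hx : IsGenericPoint (Ideal.span {q₁, q₂}) x) (htr : 2 ≤ Algebra.trdeg F K)
    (hno : ∀ y : Fin 5 → F, y ≠ 0 →
      ¬ (MvPolynomial.aeval y q₁ = 0 ∧ MvPolynomial.aeval y q₂ = 0))
    {L : Type w} [Field L] [Algebra F L] [FiniteDimensional F L] (hL : Module.finrank F L = 2)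
    (y : Fin 5 → L) (hy : y ≠ 0) (hy₁ : MvPolynomial.aeval y q₁ = 0)
    (hy₂ : MvPolynomial.aeval y q₂ = 0)
    (hsm : ∀ s t : L, (∀ k, s * MvPolynomial.aeval y (MvPolynomial.pderiv k q₁) +
      t * MvPolynomial.aeval y (MvPolynomial.pderiv k q₂) = 0) → s = 0 ∧ t = 0) :
    0 < irr F K ∧ irr F K ≤ 2 := by
  obtain ⟨ω, hli, hspan⟩ := exists_quadratic_basis hL
  choose A B hAB using fun i => hspan (y i)
  obtain ⟨c, b, hcb⟩ := hspan (ω ^ 2)
  have hinj := (algebraMap F L).injective
  -- a point proportional to a rational vector is rational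
  have hnoprop : ∀ (C : Fin 5 → F) (r : L), y = (fun i => r * algebraMap F L (C i)) → False := by
    intro C r h
    have hr : r ≠ 0 := by
      rintro rfl
      apply hy
      rw [h]
      ext i
      simp
    have hC : C ≠ 0 := by
      rintro rfl
      apply hy
      rw [h]
      ext i
      simp
    have hz : ∀ q : MvPolynomial (Fin 5) F, q.IsHomogeneous 2 → MvPolynomial.aeval y q = 0 →
        MvPolynomial.aeval C q = 0 := by
      intro q hq hyq
      rw [h, aeval_smul_of_isHomogeneous hq] at hyq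
      have h2 := (mul_eq_zero.mp hyq).resolve_left (pow_ne_zero 2 hr)
      apply hinj
      rw [map_zero, ← h2]
      exact (MvPolynomial.aeval_algebraMap_apply L C q).symm
    exact hno C hC ⟨hz q₁ h₁ hy₁, hz q₂ h₂ hy₂⟩
  have hABli : LinearIndependent F ![A, B] := by
    rw [LinearIndependent.pair_iff]
    intro s t hst
    have hst' : ∀ i, s * A i + t * B i = 0 := by
      intro i
      have := congrFun hst i
      simpa using this
    by_cases ht : t = 0
    · refine ⟨?_, ht⟩
      by_contra hs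
      have hA0 : ∀ i, A i = 0 := by
        intro i
        have := hst' i
        rw [ht, zero_mul, add_zero] at this
        exact (mul_eq_zero.mp this).resolve_left hs
      apply hnoprop B ω
      ext i
      rw [hAB i, hA0 i, map_zero, zero_add, mul_comm]
    · exfalso
      have hB0 : ∀ i, B i = (-s / t) * A i := by
        intro i
        field_simp
        linear_combination hst' i
      apply hnoprop A (1 + algebraMap F L (-s / t) * ω)
      ext i
      rw [hAB i, hB0 i, map_mul]
      ring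
  obtain ⟨P, Q, hPQ, hQP, hP, hQ⟩ := exists_matrix_mulVec (m := 2) ![A, B]
    ![Pi.single 0 1, Pi.single 1 1] hABli (by
      rw [LinearIndependent.pair_iff]
      intro s t hst
      have e0 := congrFun hst 0
      have e1 := congrFun hst 1
      simp at e0 e1
      exact ⟨e0, e1⟩)
  have hQ0 : Q.mulVec (Pi.single 0 1) = A := by simpa using hQ 0
  have hQ1 : Q.mulVec (Pi.single 1 1) = B := by simpa using hQ 1
  have hQA : ∀ i, Q i 0 = A i := by
    intro i
    rw [← hQ0, Matrix.mulVec_single_one, Matrix.col_apply]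
  have hQB : ∀ i, Q i 1 = B i := by
    intro i
    rw [← hQ1, Matrix.mulVec_single_one, Matrix.col_apply]
  have hx' := hx.linearChange hQP
  rw [comap_subst_span_pair P Q hPQ hQP] at hx'
  have hy' : (fun i => ∑ l, Q i l • (![1, ω, 0, 0, 0] : Fin 5 → L) l) = y := by
    ext i
    rw [Fin.sum_univ_five, hAB i, hQA, hQB]
    simp [Algebra.smul_def]
  have hy₁' : MvPolynomial.aeval (![1, ω, 0, 0, 0] : Fin 5 → L) (subst Q q₁) = 0 := by
    rw [aeval_subst, hy', hy₁]
  have hy₂' : MvPolynomial.aeval (![1, ω, 0, 0, 0] : Fin 5 → L) (subst Q q₂) = 0 := by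
    rw [aeval_subst, hy', hy₂]
  have hsm' : ∀ s t : F, (∀ k, algebraMap F L s * MvPolynomial.aeval ![1, ω, 0, 0, 0]
      (MvPolynomial.pderiv k (subst Q q₁)) + algebraMap F L t *
      MvPolynomial.aeval ![1, ω, 0, 0, 0] (MvPolynomial.pderiv k (subst Q q₂)) = 0) →
      s = 0 ∧ t = 0 := by
    intro s t hst
    have h3 := hsm (algebraMap F L s) (algebraMap F L t) (by
      intro j
      have h4 : ∑ k, P k j • (algebraMap F L s * MvPolynomial.aeval ![1, ω, 0, 0, 0]
          (MvPolynomial.pderiv k (subst Q q₁)) + algebraMap F L t *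
          MvPolynomial.aeval ![1, ω, 0, 0, 0] (MvPolynomial.pderiv k (subst Q q₂))) = 0 :=
        Finset.sum_eq_zero fun k _ => by rw [hst k, smul_zero]
      have h5 : ∀ q : MvPolynomial (Fin 5) F, ∑ k, P k j • MvPolynomial.aeval
          (![1, ω, 0, 0, 0] : Fin 5 → L) (MvPolynomial.pderiv k (subst Q q)) =
          MvPolynomial.aeval y (MvPolynomial.pderiv j q) := by
        intro q
        simp only [aeval_pderiv_subst, hy', Finset.smul_sum, smul_smul]
        rw [Finset.sum_comm]
        simp only [← Finset.sum_smul]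
        have h6 : ∀ i, ∑ k, P k j * Q i k = (1 : Matrix (Fin 5) (Fin 5) F) i j := by
          intro i
          rw [← hQP, Matrix.mul_apply]
          exact Finset.sum_congr rfl fun k _ => mul_comm _ _
        simp only [h6]
        rw [Finset.sum_eq_single j]
        · simp
        · intro i _ hi
          simp [Matrix.one_apply_ne hi]
        · simp
      rw [← h5 q₁, ← h5 q₂, Finset.mul_sum, Finset.mul_sum, ← Finset.sum_add_distrib]
      refine (Finset.sum_congr rfl fun k _ => ?_).trans h4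
      rw [smul_add, mul_smul_comm, mul_smul_comm])
    exact ⟨(map_eq_zero _).mp h3.1, (map_eq_zero _).mp h3.2⟩
  have hB : B ≠ 0 := by
    intro h
    have := hABli.ne_zero 1
    exact this (by simpa using h)
  have hB1 : ∀ q : MvPolynomial (Fin 5) F, MvPolynomial.aeval (Pi.single 1 1 : Fin 5 → F)
      (subst Q q) = MvPolynomial.aeval B q := by
    intro q
    rw [aeval_subst]
    have h1 : (fun i => ∑ j, Q i j • (Pi.single 1 1 : Fin 5 → F) j) = B := by
      rw [← hQ1]
      rfl
    rw [h1]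
  have hω2 : ω ^ 2 = algebraMap F L b * ω + algebraMap F L c := by rw [hcb]; ring
  by_cases h0 : MvPolynomial.aeval (Pi.single 1 1 : Fin 5 → F) (subst Q q₁) = 0
  · have h0' : MvPolynomial.aeval (Pi.single 1 1 : Fin 5 → F) (subst Q q₂) ≠ 0 := by
      intro h
      rw [hB1] at h0 h
      exact hno B hB ⟨h0, h⟩
    rw [Set.pair_comm] at hx'
    exact pencil_quad_aux (IsHomogeneous.subst h₂ Q) (IsHomogeneous.subst h₁ Q) hx' htr ω hli b c
      hω2 hy₂' hy₁' (fun s t h => by
        have := hsm' t s (fun k => by rw [add_comm]; exact h k)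
        exact ⟨this.2, this.1⟩) h0'
  · exact pencil_quad_aux (IsHomogeneous.subst h₁ Q) (IsHomogeneous.subst h₂ Q) hx' htr ω hli b c
      hω2 hy₁' hy₂' hsm' h0

end

end Pool.Agent.Helper17.Irr
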