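import Mathlib
import Pool.Agent.Helper17.Irr.QuadPoint

/-!
# Del Pezzo surfaces of degree four: the case of a rational point
-/

set_option linter.style.haveILetI false
set_option linter.deprecated false

namespace Pool.Agent.Helper17.Irr

open IntermediateField

universe u v w

section

variable {F : Type u} [Field F] {K : Type v} [Field K] [Algebra F K]

theorem irr_le_of_tower (htr : 2 ≤ Algebra.trdeg F K) (t w : K) {D : ℕ}
    (h : FiniteDimensional F⟮t⟯⟮w⟯ K) (h' : Module.finrank F⟮t⟯⟮w⟯ K ≤ D) :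
    0 < irr F K ∧ irr F K ≤ D := by
  have hE : (F⟮t⟯⟮w⟯).restrictScalars F = IntermediateField.adjoin F {t, w} := by
    rw [IntermediateField.adjoin_adjoin_left]
    congr 1
  have h1 : FiniteDimensional ((F⟮t⟯⟮w⟯).restrictScalars F) K := h
  have h2 : Module.finrank ((F⟮t⟯⟮w⟯).restrictScalars F) K ≤ D := h'
  rw [hE] at h1 h2
  exact irr_le_of_finiteDimensional htr t w h2

theorem linear_eq_zero {q₁ q₂ : MvPolynomial (Fin 5) F} (h₁ : q₁.IsHomogeneous 2)
    (h₂ : q₂.IsHomogeneous 2) {x : Fin 5 → K} (hx : IsGenericPoint (Ideal.span {q₁, q₂}) x)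
    (i j : Fin 5) (hij : i ≠ j) (s t : F)
    (h : algebraMap F K s * x i + algebraMap F K t * x j = 0) : s = 0 ∧ t = 0 := by
  have hh : (MvPolynomial.C s * MvPolynomial.X i + MvPolynomial.C t * MvPolynomial.X j :
      MvPolynomial (Fin 5) F).IsHomogeneous 1 :=
    (MvPolynomial.isHomogeneous_C_mul_X _ _).add (MvPolynomial.isHomogeneous_C_mul_X _ _)
  have h3 := (hx.mem_iff 1 _ hh).mp (by simpa using h)
  have h4 : ∀ d : Fin 5 →₀ ℕ, d.degree < 2 → MvPolynomial.coeff d (MvPolynomial.C s *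
      MvPolynomial.X i + MvPolynomial.C t * MvPolynomial.X j : MvPolynomial (Fin 5) F) = 0 := by
    intro d hd
    exact coeff_eq_zero_of_mem_span (m := 2) (by
      rintro f (rfl | rfl)
      · exact h₁
      · exact h₂) h3 hd
  have h5 := h4 (Finsupp.single i 1) (by simp)
  have h6 := h4 (Finsupp.single j 1) (by simp)
  rw [MvPolynomial.coeff_add, MvPolynomial.coeff_C_mul, MvPolynomial.coeff_C_mul,
    MvPolynomial.coeff_X', MvPolynomial.coeff_X'] at h5 h6
  have h7 : Finsupp.single j 1 ≠ Finsupp.single i 1 := by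
    intro h8
    exact hij ((Finsupp.single_left_injective (one_ne_zero) h8).symm)
  simp [h7, h7.symm] at h5 h6
  exact ⟨h5, h6⟩

/-- Degree four del Pezzo surfaces with a smooth rational point, in normalised coordinates. -/
theorem pencil_rat_aux {q₁ q₂ : MvPolynomial (Fin 5) F} (h₁ : q₁.IsHomogeneous 2)
    (h₂ : q₂.IsHomogeneous 2) {x : Fin 5 → K} (hx : IsGenericPoint (Ideal.span {q₁, q₂}) x)
    (htr : 2 ≤ Algebra.trdeg F K)
    (hp₁ : MvPolynomial.aeval (Pi.single 0 1 : Fin 5 → F) q₁ = 0)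
    (hp₂ : MvPolynomial.aeval (Pi.single 0 1 : Fin 5 → F) q₂ = 0)
    (hg₁ : ∀ k, MvPolynomial.aeval (Pi.single 0 1 : Fin 5 → F) (MvPolynomial.pderiv k q₁) =
      (Pi.single 1 1 : Fin 5 → F) k)
    (hg₂ : ∀ k, MvPolynomial.aeval (Pi.single 0 1 : Fin 5 → F) (MvPolynomial.pderiv k q₂) =
      (Pi.single 2 1 : Fin 5 → F) k) :
    0 < irr F K ∧ irr F K ≤ 2 := by
  obtain ⟨M, hM⟩ := exists_matrix_of_quadratic h₁
  obtain ⟨N, hN⟩ := exists_matrix_of_quadratic h₂
  have hx2 : x 2 ≠ 0 := hx.ne_zero_of_notMem (X_notMem_span h₁ h₂ 2)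
  have hr : ∀ (q : MvPolynomial (Fin 5) F) (P : Fin 5 → Fin 5 → F),
      q = ∑ i, ∑ j, MvPolynomial.C (P i j) * (MvPolynomial.X i * MvPolynomial.X j) →
      MvPolynomial.aeval (Pi.single 0 1 : Fin 5 → F) q = 0 → P 0 0 = 0 := by
    intro q P hP hq
    rw [hP, aeval_five] at hq
    simpa using hq
  have hM00 := hr q₁ M hM hp₁
  have hN00 := hr q₂ N hN hp₂
  have hgr : ∀ (q : MvPolynomial (Fin 5) F) (P : Fin 5 → Fin 5 → F) (c : Fin 5 → F),
      q = ∑ i, ∑ j, MvPolynomial.C (P i j) * (MvPolynomial.X i * MvPolynomial.X j) →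
      (∀ k, MvPolynomial.aeval (Pi.single 0 1 : Fin 5 → F) (MvPolynomial.pderiv k q) = c k) →
      ∀ k, P 0 k + P k 0 = c k := by
    intro q P c hP hq k
    rw [← hq k, hP, aeval_pderiv_quadratic, Fin.sum_univ_five]
    simp [add_comm]
  have hMg := hgr q₁ M _ hM hg₁
  have hNg := hgr q₂ N _ hN hg₂
  have hM1 : M 0 1 + M 1 0 = 1 := by simpa using hMg 1
  have hM2 : M 0 2 + M 2 0 = 0 := by simpa using hMg 2
  have hM3 : M 0 3 + M 3 0 = 0 := by simpa using hMg 3
  have hM4 : M 0 4 + M 4 0 = 0 := by simpa using hMg 4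
  have hN1 : N 0 1 + N 1 0 = 0 := by simpa using hNg 1
  have hN2 : N 0 2 + N 2 0 = 1 := by simpa using hNg 2
  have hN3 : N 0 3 + N 3 0 = 0 := by simpa using hNg 3
  have hN4 : N 0 4 + N 4 0 = 0 := by simpa using hNg 4
  -- the equations at the generic point
  have hE1 : x 0 * x 1 + (algebraMap F K (M 1 1) * x 1 ^ 2 +
      (algebraMap F K (M 1 2 + M 2 1) * x 2 + algebraMap F K (M 1 3 + M 3 1) * x 3 +
        algebraMap F K (M 1 4 + M 4 1) * x 4) * x 1 +
      (algebraMap F K (M 2 2) * x 2 ^ 2 + algebraMap F K (M 2 3 + M 3 2) * (x 2 * x 3) +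
        algebraMap F K (M 2 4 + M 4 2) * (x 2 * x 4) + algebraMap F K (M 3 3) * x 3 ^ 2 +
        algebraMap F K (M 3 4 + M 4 3) * (x 3 * x 4) + algebraMap F K (M 4 4) * x 4 ^ 2)) = 0 := by
    have h3 := (hx.mem_iff 2 q₁ h₁).mpr (Ideal.subset_span (by simp))
    rw [hM, aeval_five, hM00, hM1, hM2, hM3, hM4] at h3
    rw [← h3]
    simp only [map_zero, map_one]
    ring
  have hE2 : x 0 * x 2 + (algebraMap F K (N 1 1) * x 1 ^ 2 +
      (algebraMap F K (N 1 2 + N 2 1) * x 2 + algebraMap F K (N 1 3 + N 3 1) * x 3 +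
        algebraMap F K (N 1 4 + N 4 1) * x 4) * x 1 +
      (algebraMap F K (N 2 2) * x 2 ^ 2 + algebraMap F K (N 2 3 + N 3 2) * (x 2 * x 3) +
        algebraMap F K (N 2 4 + N 4 2) * (x 2 * x 4) + algebraMap F K (N 3 3) * x 3 ^ 2 +
        algebraMap F K (N 3 4 + N 4 3) * (x 3 * x 4) + algebraMap F K (N 4 4) * x 4 ^ 2)) = 0 := by
    have h3 := (hx.mem_iff 2 q₂ h₂).mpr (Ideal.subset_span (by simp))
    rw [hN, aeval_five, hN00, hN1, hN2, hN3, hN4] at h3
    rw [← h3]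
    simp only [map_zero, map_one]
    ring
  set t : K := x 1 / x 2 with ht
  set τ : F⟮t⟯ := AdjoinSimple.gen F t with hτ
  have hτK : algebraMap F⟮t⟯ K τ = x 1 / x 2 := AdjoinSimple.algebraMap_gen F t
  -- the leading coefficients do not all vanish
  set c : F⟮t⟯ := algebraMap F F⟮t⟯ (M 3 3) - τ * algebraMap F F⟮t⟯ (N 3 3) with hc
  set d : F⟮t⟯ := algebraMap F F⟮t⟯ (M 3 4 + M 4 3) - τ * algebraMap F F⟮t⟯ (N 3 4 + N 4 3) with hd
  set e : F⟮t⟯ := algebraMap F F⟮t⟯ (M 4 4) - τ * algebraMap F F⟮t⟯ (N 4 4) with he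
  have hlin : ∀ m n : F, algebraMap F F⟮t⟯ m - τ * algebraMap F F⟮t⟯ n = 0 → m = 0 ∧ n = 0 := by
    intro m n h
    have h3 := congrArg (algebraMap F⟮t⟯ K) h
    rw [map_sub, map_mul, hτK, map_zero, ← IsScalarTower.algebraMap_apply,
      ← IsScalarTower.algebraMap_apply] at h3
    have h4 := linear_eq_zero h₁ h₂ hx 2 1 (by decide) m (-n) (by
      rw [map_neg]
      field_simp at h3
      linear_combination h3)
    exact ⟨h4.1, by simpa using h4.2⟩
  have hne : c ≠ 0 ∨ d ≠ 0 ∨ e ≠ 0 := by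
    by_contra hcon
    push Not at hcon
    obtain ⟨hc0, hd0, he0⟩ := hcon
    obtain ⟨m1, n1⟩ := hlin _ _ hc0
    obtain ⟨m2, n2⟩ := hlin _ _ hd0
    obtain ⟨m3, n3⟩ := hlin _ _ he0
    -- the determinant form
    let a₁ : MvPolynomial (Fin 5) F := MvPolynomial.C (M 1 1) * MvPolynomial.X 1 +
      MvPolynomial.C (M 1 2 + M 2 1) * MvPolynomial.X 2 +
      MvPolynomial.C (M 1 3 + M 3 1) * MvPolynomial.X 3 +
      MvPolynomial.C (M 1 4 + M 4 1) * MvPolynomial.X 4
    let b₁ : MvPolynomial (Fin 5) F := MvPolynomial.C (M 2 2) * MvPolynomial.X 2 +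
      MvPolynomial.C (M 2 3 + M 3 2) * MvPolynomial.X 3 +
      MvPolynomial.C (M 2 4 + M 4 2) * MvPolynomial.X 4
    let a₂ : MvPolynomial (Fin 5) F := MvPolynomial.C (N 1 1) * MvPolynomial.X 1 +
      MvPolynomial.C (N 1 2 + N 2 1) * MvPolynomial.X 2 +
      MvPolynomial.C (N 1 3 + N 3 1) * MvPolynomial.X 3 +
      MvPolynomial.C (N 1 4 + N 4 1) * MvPolynomial.X 4
    let b₂ : MvPolynomial (Fin 5) F := MvPolynomial.C (N 2 2) * MvPolynomial.X 2 +
      MvPolynomial.C (N 2 3 + N 3 2) * MvPolynomial.X 3 +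
      MvPolynomial.C (N 2 4 + N 4 2) * MvPolynomial.X 4
    have ha₁ : a₁.IsHomogeneous 1 := (((MvPolynomial.isHomogeneous_C_mul_X _ _).add
      (MvPolynomial.isHomogeneous_C_mul_X _ _)).add (MvPolynomial.isHomogeneous_C_mul_X _ _)).add
        (MvPolynomial.isHomogeneous_C_mul_X _ _)
    have ha₂ : a₂.IsHomogeneous 1 := (((MvPolynomial.isHomogeneous_C_mul_X _ _).add
      (MvPolynomial.isHomogeneous_C_mul_X _ _)).add (MvPolynomial.isHomogeneous_C_mul_X _ _)).add
        (MvPolynomial.isHomogeneous_C_mul_X _ _)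
    have hb₁ : b₁.IsHomogeneous 1 := ((MvPolynomial.isHomogeneous_C_mul_X _ _).add
      (MvPolynomial.isHomogeneous_C_mul_X _ _)).add (MvPolynomial.isHomogeneous_C_mul_X _ _)
    have hb₂ : b₂.IsHomogeneous 1 := ((MvPolynomial.isHomogeneous_C_mul_X _ _).add
      (MvPolynomial.isHomogeneous_C_mul_X _ _)).add (MvPolynomial.isHomogeneous_C_mul_X _ _)
    set h : MvPolynomial (Fin 5) F := (MvPolynomial.X 0 + a₁) * (MvPolynomial.X 0 + b₂) -
      a₂ * b₁ with hh
    have hhom : h.IsHomogeneous 2 :=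
      (((MvPolynomial.isHomogeneous_X _ _).add ha₁).mul
        ((MvPolynomial.isHomogeneous_X _ _).add hb₂)).sub (ha₂.mul hb₁)
    have hh0 : MvPolynomial.aeval x h = 0 := by
      have h3 : x 2 * MvPolynomial.aeval x h = 0 := by
        rw [m1, m2, m3] at hE1
        rw [n1, n2, n3] at hE2
        simp only [hh, a₁, b₁, a₂, b₂, map_sub, map_add, map_mul, MvPolynomial.aeval_C,
          MvPolynomial.aeval_X, map_zero] at hE1 hE2 ⊢
        linear_combination (x 0 + (algebraMap F K (M 1 1) * x 1 +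
          (algebraMap F K (M 1 2) + algebraMap F K (M 2 1)) * x 2 +
          (algebraMap F K (M 1 3) + algebraMap F K (M 3 1)) * x 3 +
          (algebraMap F K (M 1 4) + algebraMap F K (M 4 1)) * x 4)) * hE2 -
          (algebraMap F K (N 1 1) * x 1 +
          (algebraMap F K (N 1 2) + algebraMap F K (N 2 1)) * x 2 +
          (algebraMap F K (N 1 3) + algebraMap F K (N 3 1)) * x 3 +
          (algebraMap F K (N 1 4) + algebraMap F K (N 4 1)) * x 4) * hE1
      exact (mul_eq_zero.mp h3).resolve_left hx2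
    obtain ⟨s, t', hst⟩ := exists_of_mem_span_pair h₁ h₂ hhom ((hx.mem_iff 2 h hhom).mp hh0)
    have h4 := congrArg (MvPolynomial.aeval (Pi.single 0 1 : Fin 5 → F)) hst
    rw [map_add, map_mul, map_mul, hp₁, hp₂, mul_zero, mul_zero, add_zero, hh] at h4
    simp [a₁, b₁, a₂, b₂] at h4
  have htop : IntermediateField.adjoin F⟮t⟯ {x 3 / x 2, x 4 / x 2} = ⊤ := by
    rw [← IntermediateField.restrictScalars_eq_top_iff (K := F)]
    apply hx.eq_top
    set E := (IntermediateField.adjoin F⟮t⟯ {x 3 / x 2, x 4 / x 2}).restrictScalars F with hE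
    have k1 : x 1 / x 2 ∈ E := by
      rw [← hτK]
      exact IntermediateField.algebraMap_mem _ τ
    have k3 : x 3 / x 2 ∈ E := (IntermediateField.mem_restrictScalars F).mpr
      (IntermediateField.subset_adjoin F⟮t⟯ _ (Set.mem_insert _ _))
    have k4 : x 4 / x 2 ∈ E := (IntermediateField.mem_restrictScalars F).mpr
      (IntermediateField.subset_adjoin F⟮t⟯ _ (Set.mem_insert_of_mem _ (Set.mem_singleton _)))
    have kF : ∀ a : F, algebraMap F K a ∈ E := fun a => IntermediateField.algebraMap_mem _ a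
    have k0 : x 0 / x 2 ∈ E := by
      have h3 : x 0 / x 2 = -(algebraMap F K (N 1 1) * (x 1 / x 2) ^ 2 +
        (algebraMap F K (N 1 2 + N 2 1) + algebraMap F K (N 1 3 + N 3 1) * (x 3 / x 2) +
        algebraMap F K (N 1 4 + N 4 1) * (x 4 / x 2)) * (x 1 / x 2) +
        (algebraMap F K (N 2 2) + algebraMap F K (N 2 3 + N 3 2) * (x 3 / x 2) +
        algebraMap F K (N 2 4 + N 4 2) * (x 4 / x 2) + algebraMap F K (N 3 3) * (x 3 / x 2) ^ 2 +
        algebraMap F K (N 3 4 + N 4 3) * ((x 3 / x 2) * (x 4 / x 2)) +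
        algebraMap F K (N 4 4) * (x 4 / x 2) ^ 2)) := by
        field_simp
        linear_combination hE2
      rw [h3]
      exact neg_mem (add_mem (add_mem (mul_mem (kF _) (pow_mem k1 2)) (mul_mem (add_mem
        (add_mem (kF _) (mul_mem (kF _) k3)) (mul_mem (kF _) k4)) k1)) (add_mem (add_mem (add_mem
        (add_mem (add_mem (kF _) (mul_mem (kF _) k3)) (mul_mem (kF _) k4))
        (mul_mem (kF _) (pow_mem k3 2))) (mul_mem (kF _) (mul_mem k3 k4)))
        (mul_mem (kF _) (pow_mem k4 2))))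
    have hall : ∀ i, x i / x 2 ∈ E := by
      intro i
      fin_cases i
      · exact k0
      · exact k1
      · simp only [Fin.reduceFinMk, div_self hx2]
        exact one_mem _
      · exact k3
      · exact k4
    intro i j
    have h3 : x i / x j = (x i / x 2) / (x j / x 2) := by
      field_simp
    rw [h3]
    exact div_mem (hall i) (hall j)
  have hconic := conic_proj (k := F⟮t⟯) (x 3 / x 2) (x 4 / x 2) htop c d e
    ((algebraMap F F⟮t⟯ (M 1 3 + M 3 1) * τ + algebraMap F F⟮t⟯ (M 2 3 + M 3 2)) -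
      τ * (algebraMap F F⟮t⟯ (N 1 3 + N 3 1) * τ + algebraMap F F⟮t⟯ (N 2 3 + N 3 2)))
    ((algebraMap F F⟮t⟯ (M 1 4 + M 4 1) * τ + algebraMap F F⟮t⟯ (M 2 4 + M 4 2)) -
      τ * (algebraMap F F⟮t⟯ (N 1 4 + N 4 1) * τ + algebraMap F F⟮t⟯ (N 2 4 + N 4 2)))
    ((algebraMap F F⟮t⟯ (M 1 1) * τ ^ 2 + algebraMap F F⟮t⟯ (M 1 2 + M 2 1) * τ +
      algebraMap F F⟮t⟯ (M 2 2)) - τ * (algebraMap F F⟮t⟯ (N 1 1) * τ ^ 2 +
      algebraMap F F⟮t⟯ (N 1 2 + N 2 1) * τ + algebraMap F F⟮t⟯ (N 2 2))) hne (by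
      simp only [hc, hd, he, map_add, map_sub, map_mul, map_pow, hτK,
        ← IsScalarTower.algebraMap_apply] at hE1 hE2 ⊢
      field_simp
      linear_combination x 2 * hE1 - x 1 * hE2)
  rcases hconic with ⟨h3, h4⟩ | ⟨h3, h4⟩
  · exact irr_le_of_tower htr t (x 4 / x 2) h3 h4
  · exact irr_le_of_tower htr t (x 3 / x 2) h3 h4

end

end Pool.Agent.Helper17.Irr
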