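import Mathlib
import Pool.Agent.Helper17.Irr.RatPoint

/-!
# Del Pezzo surfaces of degree four: reduction of the case of a rational point to normal form
-/

set_option linter.style.haveILetI false
set_option linter.deprecated false

namespace Pool.Agent.Helper17.Irr

open IntermediateField

universe u v w

section

variable {F : Type u} [Field F] {K : Type v} [Field K] [Algebra F K]

/-- Euler's relation for a quadratic form. -/
theorem euler_quadratic {n : ℕ} {q : MvPolynomial (Fin n) F} (hq : q.IsHomogeneous 2)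
    (p : Fin n → F) (hp : MvPolynomial.aeval p q = 0) :
    ∑ k, MvPolynomial.aeval p (MvPolynomial.pderiv k q) * p k = 0 := by
  obtain ⟨M, hM⟩ := exists_matrix_of_quadratic hq
  have h1 := hp
  rw [hM, aeval_quadratic] at h1
  simp only [hM, aeval_pderiv_quadratic, Algebra.algebraMap_self, RingHom.id_apply] at h1 ⊢
  have h2 : ∑ k, (∑ j, (M k j + M j k) * p j) * p k =
      (∑ i, ∑ j, M i j * (p i * p j)) + ∑ i, ∑ j, M i j * (p i * p j) := by
    simp only [Finset.sum_mul, add_mul, Finset.sum_add_distrib]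
    congr 1
    · exact Finset.sum_congr rfl fun i _ => Finset.sum_congr rfl fun j _ => by ring
    · rw [Finset.sum_comm]
      exact Finset.sum_congr rfl fun i _ => Finset.sum_congr rfl fun j _ => by ring
  rw [h2, h1, add_zero]

/-- Degree four del Pezzo surfaces with a smooth rational point. -/
theorem pencil_irr_le_two_of_rational {q₁ q₂ : MvPolynomial (Fin 5) F}
    (h₁ : q₁.IsHomogeneous 2) (h₂ : q₂.IsHomogeneous 2) {x : Fin 5 → K}
    (hx : IsGenericPoint (Ideal.span {q₁, q₂}) x) (htr : 2 ≤ Algebra.trdeg F K)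
    (p : Fin 5 → F) (hp : p ≠ 0) (hp₁ : MvPolynomial.aeval p q₁ = 0)
    (hp₂ : MvPolynomial.aeval p q₂ = 0)
    (hsm : ∀ s t : F, (∀ k, s * MvPolynomial.aeval p (MvPolynomial.pderiv k q₁) +
      t * MvPolynomial.aeval p (MvPolynomial.pderiv k q₂) = 0) → s = 0 ∧ t = 0) :
    0 < irr F K ∧ irr F K ≤ 2 := by
  classical
  set g₁ : Fin 5 → F := fun k => MvPolynomial.aeval p (MvPolynomial.pderiv k q₁) with hg₁
  set g₂ : Fin 5 → F := fun k => MvPolynomial.aeval p (MvPolynomial.pderiv k q₂) with hg₂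
  have hE₁ : ∑ k, g₁ k * p k = 0 := euler_quadratic h₁ p hp₁
  have hE₂ : ∑ k, g₂ k * p k = 0 := euler_quadratic h₂ p hp₂
  -- a nonzero minor
  obtain ⟨i, j, hD⟩ : ∃ i j, g₁ i * g₂ j - g₁ j * g₂ i ≠ 0 := by
    by_contra hcon
    push Not at hcon
    obtain ⟨i, hi⟩ : ∃ i, g₁ i ≠ 0 := by
      by_contra h0
      push Not at h0
      exact one_ne_zero (hsm 1 0 (fun k => by
        have h1 : MvPolynomial.aeval p (MvPolynomial.pderiv k q₁) = 0 := h0 k
        rw [h1]; ring)).1
    have h1 := hsm (-g₂ i) (g₁ i) (fun k => by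
      have h2 := hcon i k
      change -g₂ i * g₁ k + g₁ i * g₂ k = 0
      linear_combination h2)
    exact hi h1.2
  set D := g₁ i * g₂ j - g₁ j * g₂ i with hDdef
  have hdot : ∀ (g : Fin 5 → F) (a b : F), ∑ k, g k * (a • Pi.single i 1 + b • Pi.single j 1 :
      Fin 5 → F) k = g i * a + g j * b := by
    intro g a b
    simp only [Pi.add_apply, Pi.smul_apply, smul_eq_mul, mul_add, Finset.sum_add_distrib]
    congr 1
    · rw [Finset.sum_eq_single i]
      · simp
      · intro k _ hk
        simp [hk]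
      · simp
    · rw [Finset.sum_eq_single j]
      · simp
      · intro k _ hk
        simp [hk]
      · simp
  set a : Fin 5 → F := (g₂ j / D) • Pi.single i 1 + (-g₂ i / D) • Pi.single j 1 with ha
  set b : Fin 5 → F := (-g₁ j / D) • Pi.single i 1 + (g₁ i / D) • Pi.single j 1 with hb
  have g₁a : ∑ k, g₁ k * a k = 1 := by
    rw [hdot]
    field_simp
    rw [hDdef]; ring
  have g₂a : ∑ k, g₂ k * a k = 0 := by
    rw [hdot]
    field_simp
    ring
  have g₁b : ∑ k, g₁ k * b k = 0 := by
    rw [hdot]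
    field_simp
    ring
  have g₂b : ∑ k, g₂ k * b k = 1 := by
    rw [hdot]
    field_simp
    rw [hDdef]; ring
  have hsum : ∀ (g u v w : Fin 5 → F) (r s t : F), ∑ k, g k * (r * u k + s * v k + t * w k) =
      r * (∑ k, g k * u k) + s * (∑ k, g k * v k) + t * ∑ k, g k * w k := by
    intro g u v w r s t
    simp only [Fin.sum_univ_five]
    ring
  have hli : LinearIndependent F ![p, a, b] := by
    rw [Fintype.linearIndependent_iff]
    intro c hc
    rw [Fin.sum_univ_three] at hc
    simp only [Matrix.cons_val_zero, Matrix.cons_val_one, Matrix.cons_val] at hc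
    have hc' : ∀ k, c 0 * p k + c 1 * a k + c 2 * b k = 0 := by
      intro k
      have := congrFun hc k
      simpa using this
    have e1 : ∑ k, g₁ k * (c 0 * p k + c 1 * a k + c 2 * b k) = 0 :=
      Finset.sum_eq_zero fun k _ => by rw [hc' k, mul_zero]
    have e2 : ∑ k, g₂ k * (c 0 * p k + c 1 * a k + c 2 * b k) = 0 :=
      Finset.sum_eq_zero fun k _ => by rw [hc' k, mul_zero]
    rw [hsum, hE₁, g₁a, g₁b] at e1
    rw [hsum, hE₂, g₂a, g₂b] at e2
    have c1 : c 1 = 0 := by linear_combination e1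
    have c2 : c 2 = 0 := by linear_combination e2
    have c0 : c 0 = 0 := by
      by_contra h0
      apply hp
      ext k
      have := hc' k
      rw [c1, c2, zero_mul, zero_mul, add_zero, add_zero] at this
      exact (mul_eq_zero.mp this).resolve_left h0
    intro l
    fin_cases l
    · exact c0
    · exact c1
    · exact c2
  obtain ⟨A, B, hAB, hBA, hA, hB⟩ := exists_matrix_mulVec (m := 3) ![p, a, b]
    ![Pi.single 0 1, Pi.single 1 1, Pi.single 2 1] hli (by
      rw [Fintype.linearIndependent_iff]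
      intro c hc
      rw [Fin.sum_univ_three] at hc
      have e0 := congrFun hc 0
      have e1 := congrFun hc 1
      have e2 := congrFun hc 2
      simp at e0 e1 e2
      intro l
      fin_cases l
      · exact e0
      · exact e1
      · exact e2)
  have A0 : A.mulVec p = Pi.single 0 1 := by simpa using hA 0
  have A1 : A.mulVec a = Pi.single 1 1 := by simpa using hA 1
  have A2 : A.mulVec b = Pi.single 2 1 := by simpa using hA 2
  set w₃ : Fin 5 → F := B.mulVec (Pi.single 3 1) with hw₃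
  set w₄ : Fin 5 → F := B.mulVec (Pi.single 4 1) with hw₄
  have A3 : A.mulVec w₃ = Pi.single 3 1 := by rw [hw₃, Matrix.mulVec_mulVec, hAB, Matrix.one_mulVec]
  have A4 : A.mulVec w₄ = Pi.single 4 1 := by rw [hw₄, Matrix.mulVec_mulVec, hAB, Matrix.one_mulVec]
  set v₃ : Fin 5 → F := w₃ - (∑ k, g₁ k * w₃ k) • a - (∑ k, g₂ k * w₃ k) • b with hv₃
  set v₄ : Fin 5 → F := w₄ - (∑ k, g₁ k * w₄ k) • a - (∑ k, g₂ k * w₄ k) • b with hv₄
  have hsub : ∀ (g w : Fin 5 → F) (s t : F), ∑ k, g k * (w - s • a - t • b : Fin 5 → F) k =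
      (∑ k, g k * w k) - s * (∑ k, g k * a k) - t * ∑ k, g k * b k := by
    intro g w s t
    simp only [Fin.sum_univ_five, Pi.sub_apply, Pi.smul_apply, smul_eq_mul]
    ring
  have g₁v₃ : ∑ k, g₁ k * v₃ k = 0 := by rw [hv₃, hsub, g₁a, g₁b]; ring
  have g₂v₃ : ∑ k, g₂ k * v₃ k = 0 := by rw [hv₃, hsub, g₂a, g₂b]; ring
  have g₁v₄ : ∑ k, g₁ k * v₄ k = 0 := by rw [hv₄, hsub, g₁a, g₁b]; ring
  have g₂v₄ : ∑ k, g₂ k * v₄ k = 0 := by rw [hv₄, hsub, g₂a, g₂b]; ring
  have Av₃ : A.mulVec v₃ = Pi.single 3 1 - (∑ k, g₁ k * w₃ k) • Pi.single 1 1 -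
      (∑ k, g₂ k * w₃ k) • Pi.single 2 1 := by
    rw [hv₃, Matrix.mulVec_sub, Matrix.mulVec_sub, Matrix.mulVec_smul, Matrix.mulVec_smul,
      A1, A2, A3]
  have Av₄ : A.mulVec v₄ = Pi.single 4 1 - (∑ k, g₁ k * w₄ k) • Pi.single 1 1 -
      (∑ k, g₂ k * w₄ k) • Pi.single 2 1 := by
    rw [hv₄, Matrix.mulVec_sub, Matrix.mulVec_sub, Matrix.mulVec_smul, Matrix.mulVec_smul,
      A1, A2, A4]
  have hli5 : LinearIndependent F ![p, a, b, v₃, v₄] := by
    rw [Fintype.linearIndependent_iff]
    intro c hc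
    rw [Fin.sum_univ_five] at hc
    simp only [Matrix.cons_val_zero, Matrix.cons_val_one, Matrix.cons_val] at hc
    have h3 := congrArg A.mulVec hc
    rw [Matrix.mulVec_add, Matrix.mulVec_add, Matrix.mulVec_add, Matrix.mulVec_add,
      Matrix.mulVec_smul, Matrix.mulVec_smul, Matrix.mulVec_smul, Matrix.mulVec_smul,
      Matrix.mulVec_smul, A0, A1, A2, Av₃, Av₄, Matrix.mulVec_zero] at h3
    have e0 := congrFun h3 0
    have e1 := congrFun h3 1
    have e2 := congrFun h3 2
    have e3 := congrFun h3 3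
    have e4 := congrFun h3 4
    simp at e0 e1 e2 e3 e4
    rw [e3, e4] at e1 e2
    simp at e1 e2
    intro l
    fin_cases l
    · exact e0
    · exact e1
    · exact e2
    · exact e3
    · exact e4
  obtain ⟨P, Q, hPQ, hQP, hP, hQ⟩ := exists_matrix_mulVec (m := 5) ![p, a, b, v₃, v₄]
    (fun i => Pi.single i 1) hli5 (by
      rw [Fintype.linearIndependent_iff]
      intro c hc l
      have := congrFun hc l
      simpa [Finset.sum_apply, Pi.single_apply] using this)
  have hQ0 : Q.mulVec (Pi.single 0 1) = p := by simpa using hQ 0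
  have hQ1 : Q.mulVec (Pi.single 1 1) = a := by simpa using hQ 1
  have hQ2 : Q.mulVec (Pi.single 2 1) = b := by simpa using hQ 2
  have hQ3 : Q.mulVec (Pi.single 3 1) = v₃ := by simpa using hQ 3
  have hQ4 : Q.mulVec (Pi.single 4 1) = v₄ := by simpa using hQ 4
  have c0 : ∀ i, Q i 0 = p i := fun i => by
    rw [← hQ0, Matrix.mulVec_single_one, Matrix.col_apply]
  have c1 : ∀ i, Q i 1 = a i := fun i => by
    rw [← hQ1, Matrix.mulVec_single_one, Matrix.col_apply]
  have c2 : ∀ i, Q i 2 = b i := fun i => by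
    rw [← hQ2, Matrix.mulVec_single_one, Matrix.col_apply]
  have c3 : ∀ i, Q i 3 = v₃ i := fun i => by
    rw [← hQ3, Matrix.mulVec_single_one, Matrix.col_apply]
  have c4 : ∀ i, Q i 4 = v₄ i := fun i => by
    rw [← hQ4, Matrix.mulVec_single_one, Matrix.col_apply]
  have hpt : (fun i => ∑ l, Q i l • (Pi.single 0 1 : Fin 5 → F) l) = p := by
    ext i
    rw [← c0 i, Finset.sum_eq_single 0]
    · simp
    · intro j _ hj
      simp [hj]
    · simp
  have hx' := hx.linearChange hQP
  rw [comap_subst_span_pair P Q hPQ hQP] at hx'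
  refine pencil_rat_aux (IsHomogeneous.subst h₁ Q) (IsHomogeneous.subst h₂ Q) hx' htr ?_ ?_ ?_ ?_
  · rw [aeval_subst, hpt, hp₁]
  · rw [aeval_subst, hpt, hp₂]
  · intro k
    rw [aeval_pderiv_subst, hpt]
    have h3 : ∑ j, Q j k • MvPolynomial.aeval p (MvPolynomial.pderiv j q₁) =
        ∑ j, g₁ j * Q j k := Finset.sum_congr rfl fun j _ => by rw [smul_eq_mul, mul_comm]
    rw [h3]
    fin_cases k
    · simp only [Fin.zero_eta, c0, hE₁]
      simp
    · simp only [Fin.mk_one, c1, g₁a]
      simp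
    · simp only [Fin.reduceFinMk, c2, g₁b]
      simp
    · simp only [Fin.reduceFinMk, c3, g₁v₃]
      simp
    · simp only [Fin.reduceFinMk, c4, g₁v₄]
      simp
  · intro k
    rw [aeval_pderiv_subst, hpt]
    have h3 : ∑ j, Q j k • MvPolynomial.aeval p (MvPolynomial.pderiv j q₂) =
        ∑ j, g₂ j * Q j k := Finset.sum_congr rfl fun j _ => by rw [smul_eq_mul, mul_comm]
    rw [h3]
    fin_cases k
    · simp only [Fin.zero_eta, c0, hE₂]
      simp
    · simp only [Fin.mk_one, c1, g₂a]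
      simp
    · simp only [Fin.reduceFinMk, c2, g₂b]
      simp
    · simp only [Fin.reduceFinMk, c3, g₂v₃]
      simp
    · simp only [Fin.reduceFinMk, c4, g₂v₄]
      simp

end

end Pool.Agent.Helper17.Irr
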