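import Mathlib
import Pool.Agent.Helper17.Irr.Elim

/-!
# Double planes: del Pezzo surfaces of degree one and two
-/

set_option linter.style.haveILetI false
set_option linter.deprecated false

namespace Pool.Agent.Helper17.Irr

open IntermediateField

universe u v w

section

variable {F : Type u} [Field F] {K : Type v} [Field K] [Algebra F K]

theorem finSuccEquiv_coeff_isWeightedHomogeneous {n : ℕ} {wt : Fin (n + 1) → ℕ} {N : ℕ}
    {f : MvPolynomial (Fin (n + 1)) F} (hf : f.IsWeightedHomogeneous wt N) (i M : ℕ)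
    (hM : i * wt 0 + M = N) :
    ((MvPolynomial.finSuccEquiv F n f).coeff i).IsWeightedHomogeneous (wt ∘ Fin.succ) M := by
  intro d hd
  rw [MvPolynomial.finSuccEquiv_coeff_coeff] at hd
  have h1 := hf hd
  rw [Finsupp.weight_apply, Finsupp.sum_fintype _ _ (fun _ => by simp), Fin.sum_univ_succ,
    Finsupp.cons_zero] at h1
  rw [Finsupp.weight_apply, Finsupp.sum_fintype _ _ (fun _ => by simp)]
  simp only [Finsupp.cons_succ, smul_eq_mul, Function.comp_apply] at h1 ⊢
  omega

theorem isWeightedHomogeneous_rename_succ {n : ℕ} {wt : Fin (n + 1) → ℕ} {M : ℕ}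
    {g : MvPolynomial (Fin n) F} (hg : g.IsWeightedHomogeneous (wt ∘ Fin.succ) M) :
    (MvPolynomial.rename Fin.succ g).IsWeightedHomogeneous wt M := by
  intro d hd
  obtain ⟨e, rfl, he⟩ := MvPolynomial.coeff_rename_ne_zero _ _ _ hd
  have h1 := hg he
  rw [Finsupp.weight_apply] at h1 ⊢
  rw [← h1, Finsupp.sum_mapDomain_index (by simp) (by intros; simp [add_mul])]
  rfl

theorem natDegree_mul_le {wt : Fin 4 → ℕ} {f : MvPolynomial (Fin 4) F} {N : ℕ}
    (hf : f.IsWeightedHomogeneous wt N) (hf0 : f ≠ 0) :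
    (MvPolynomial.finSuccEquiv F 3 f).natDegree * wt 0 ≤ N := by
  set D := (MvPolynomial.finSuccEquiv F 3 f).natDegree with hD
  set ℓ := (MvPolynomial.finSuccEquiv F 3 f).coeff D with hℓ
  have hℓ0 : ℓ ≠ 0 := by
    rw [hℓ, hD, Polynomial.coeff_natDegree, Polynomial.leadingCoeff_ne_zero]
    simpa using hf0
  obtain ⟨d, hd⟩ := MvPolynomial.ne_zero_iff.mp hℓ0
  rw [hℓ, MvPolynomial.finSuccEquiv_coeff_coeff] at hd
  have h1 := hf hd
  rw [Finsupp.weight_apply, Finsupp.sum_fintype _ _ (fun _ => by simp), Fin.sum_univ_succ,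
    Finsupp.cons_zero, smul_eq_mul] at h1
  omega

/-- Elimination in the weighted case. -/
theorem irr_le_of_natDegree_weighted {wt : Fin 4 → ℕ} {f : MvPolynomial (Fin 4) F} {N : ℕ}
    (hf : f.IsWeightedHomogeneous wt N) {x : Fin 4 → K}
    (hmem : ∀ (n : ℕ) (g : MvPolynomial (Fin 4) F), g.IsWeightedHomogeneous wt n →
      (MvPolynomial.aeval x g = 0 ↔ g ∈ Ideal.span {f}))
    (hx3 : x 3 = 1) (htop : IntermediateField.adjoin F (Set.range x) = ⊤)
    (htr : 2 ≤ Algebra.trdeg F K) (hpos : 0 < (MvPolynomial.finSuccEquiv F 3 f).natDegree) :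
    0 < irr F K ∧ irr F K ≤ (MvPolynomial.finSuccEquiv F 3 f).natDegree := by
  have hf0 : f ≠ 0 := by
    rintro rfl
    simp at hpos
  set k := IntermediateField.adjoin F {x 1, x 2} with hk
  have hak : x 1 ∈ k := IntermediateField.subset_adjoin F _ (Set.mem_insert _ _)
  have hbk : x 2 ∈ k :=
    IntermediateField.subset_adjoin F _ (Set.mem_insert_of_mem _ (Set.mem_singleton _))
  let ξ : Fin 3 → k := ![⟨x 1, hak⟩, ⟨x 2, hbk⟩, 1]
  have hξ : (fun i => (ξ i : K)) = x ∘ Fin.succ := by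
    ext i
    fin_cases i
    · simp [ξ]
    · simp [ξ]
    · simp [ξ, hx3]
  have hcons : (Fin.cons (x 0) (fun i => (ξ i : K)) : Fin 4 → K) = x := by
    rw [hξ]
    ext i
    refine Fin.cases ?_ (fun j => ?_) i
    · simp
    · simp
  set P := (MvPolynomial.finSuccEquiv F 3 f).map
      (MvPolynomial.aeval ξ : MvPolynomial (Fin 3) F →ₐ[F] k).toRingHom with hP
  have hPc : Polynomial.aeval (x 0) P = 0 := by
    rw [hP, aeval_finSucc, hcons, hmem N f hf]
    exact Ideal.subset_span rfl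
  set D := (MvPolynomial.finSuccEquiv F 3 f).natDegree with hD
  have hDd : D * wt 0 ≤ N := natDegree_mul_le hf hf0
  have hcoeff : P.coeff D ≠ 0 := by
    set ℓ := (MvPolynomial.finSuccEquiv F 3 f).coeff D with hℓ
    have hℓ0 : ℓ ≠ 0 := by
      rw [hℓ, hD, Polynomial.coeff_natDegree, Polynomial.leadingCoeff_ne_zero]
      simpa using hf0
    have hℓh : ℓ.IsWeightedHomogeneous (wt ∘ Fin.succ) (N - D * wt 0) :=
      finSuccEquiv_coeff_isWeightedHomogeneous hf D (N - D * wt 0) (by omega)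
    rw [hP, Polynomial.coeff_map]
    intro h
    have h1 : MvPolynomial.aeval (fun i => (ξ i : K)) ℓ = 0 := by
      have := MvPolynomial.aeval_algebraMap_apply K ξ ℓ
      refine this.trans ?_
      rw [show MvPolynomial.aeval ξ ℓ = 0 from h, map_zero]
    rw [hξ, ← MvPolynomial.aeval_rename, hmem _ _ (isWeightedHomogeneous_rename_succ hℓh),
      rename_succ_mem_span_iff hpos] at h1
    exact hℓ0 h1
  have hP0 : P ≠ 0 := by
    intro h
    rw [h] at hcoeff
    simp at hcoeff
  have hPD : P.natDegree ≤ D := Polynomial.natDegree_map_le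
  have htop' : k⟮x 0⟯ = ⊤ := by
    have h1 : (k⟮x 0⟯).restrictScalars F = ⊤ := by
      rw [eq_top_iff, ← htop, IntermediateField.adjoin_le_iff]
      rintro _ ⟨i, rfl⟩
      have h2 : x i ∈ k⟮x 0⟯ := by
        rw [← congrFun hcons i]
        refine Fin.cases ?_ (fun j => ?_) i
        · exact IntermediateField.mem_adjoin_simple_self _ _
        · exact k⟮x 0⟯.algebraMap_mem (ξ j)
      exact h2
    rw [eq_top_iff]
    intro z _
    have : z ∈ (k⟮x 0⟯).restrictScalars F := by rw [h1]; trivial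
    exact this
  obtain ⟨hfin, hle⟩ := finrank_le_of_root (x 0) htop' P hP0 hPc hPD
  haveI := hfin
  exact irr_le_of_finiteDimensional htr (x 1) (x 2) hle

end

end Pool.Agent.Helper17.Irr
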