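import Mathlib
import Pool.Agent.Helper17.Irr.RatPoint2
import Pool.Agent.Helper17.Irr.CubicPoint
import Pool.Agent.Helper17.Irr.Weighted

/-!
# Del Pezzo surfaces of degree at most four
-/

set_option linter.style.haveILetI false
set_option linter.deprecated false

namespace Pool.Agent.Helper17.Irr

open IntermediateField

universe u v w

section

variable {F : Type u} [Field F]

/-! ### Points and their degrees -/

section Points

variable {ι : Type} {I : Ideal (MvPolynomial ι F)}

theorem HasPoint.of_finrank_one {L : Type v} [Field L] [Algebra F L]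
    (h1 : Module.finrank F L = 1) (h : HasPoint I L) : HasPoint I F := by
  obtain ⟨y, hy, hyI⟩ := h
  have hbij : Function.Surjective (algebraMap F L) := by
    have h2 := Subalgebra.bot_eq_top_iff_finrank_eq_one.mpr h1
    intro z
    have : z ∈ (⊥ : Subalgebra F L) := by rw [h2]; trivial
    exact Algebra.mem_bot.mp this
  choose s hs using hbij
  refine ⟨fun i => s (y i), ?_, ?_⟩
  · intro h0
    apply hy
    ext i
    rw [← hs (y i), show s (y i) = 0 from congrFun h0 i, map_zero]
    rfl
  · intro g hg
    apply (algebraMap F L).injective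
    rw [map_zero, ← hyI g hg, ← MvPolynomial.aeval_algebraMap_apply]
    congr 2
    ext i
    simp [hs]

theorem minDegree_le {L : Type u} [Field L] [Algebra F L] [FiniteDimensional F L]
    (h : HasPoint I L) : minDegree I ≤ Module.finrank F L :=
  Nat.sInf_le ⟨L, inferInstance, inferInstance, inferInstance, rfl, h⟩

theorem exists_minDegree {L : Type u} [Field L] [Algebra F L] [FiniteDimensional F L]
    (h : HasPoint I L) : ∃ (L : Type u) (_ : Field L) (_ : Algebra F L), FiniteDimensional F L ∧
      Module.finrank F L = minDegree I ∧ HasPoint I L :=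
  Nat.sInf_mem (s := {d : ℕ | ∃ (L : Type u) (_ : Field L) (_ : Algebra F L),
    FiniteDimensional F L ∧ Module.finrank F L = d ∧ HasPoint I L})
    ⟨_, L, inferInstance, inferInstance, inferInstance, rfl, h⟩

theorem minDegree_pos {L : Type u} [Field L] [Algebra F L] [FiniteDimensional F L]
    (h : HasPoint I L) : 0 < minDegree I := by
  obtain ⟨L', _, _, hfin, hr, _⟩ := exists_minDegree h
  rw [← hr]
  exact Module.finrank_pos

theorem minDegree_eq_one (h : HasPoint I F) : minDegree I = 1 := by
  have h1 := minDegree_le h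
  have h2 := minDegree_pos h
  rw [Module.finrank_self] at h1
  omega

theorem le_minDegree {L : Type u} [Field L] [Algebra F L] [FiniteDimensional F L]
    (h : HasPoint I L) {d : ℕ} (hd : ∀ (L : Type u) [Field L] [Algebra F L],
      FiniteDimensional F L → HasPoint I L → d ≤ Module.finrank F L) : d ≤ minDegree I := by
  obtain ⟨L', i1, i2, hfin, hr, hp⟩ := exists_minDegree h
  rw [← hr]
  exact hd L' hfin hp

theorem hasPoint_span {r : ℕ} {f : Fin r → MvPolynomial ι F} {L : Type v} [Field L] [Algebra F L] :
    HasPoint (Ideal.span (Set.range f)) L ↔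
      ∃ y : ι → L, y ≠ 0 ∧ ∀ i, MvPolynomial.aeval y (f i) = 0 := by
  constructor
  · rintro ⟨y, hy, h⟩
    exact ⟨y, hy, fun i => h _ (Ideal.subset_span ⟨i, rfl⟩)⟩
  · rintro ⟨y, hy, h⟩
    refine ⟨y, hy, fun g hg => ?_⟩
    have h1 : Ideal.span (Set.range f) ≤ RingHom.ker (MvPolynomial.aeval y : MvPolynomial ι F →ₐ[F] L) := by
      rw [Ideal.span_le]
      rintro _ ⟨i, rfl⟩
      exact h i
    exact h1 hg

/-- The Jacobian criterion holds at points over algebraic extensions. -/
theorem IsSmoothIntersection.linearIndependent {r : ℕ} {f : Fin r → MvPolynomial ι F}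
    (hs : IsSmoothIntersection f) {L : Type v} [Field L] [Algebra F L] [Algebra.IsAlgebraic F L]
    (y : ι → L) (hy : y ≠ 0) (hyf : ∀ i, MvPolynomial.aeval y (f i) = 0) :
    LinearIndependent L (fun i k => MvPolynomial.aeval y (MvPolynomial.pderiv k (f i))) := by
  let σ : L →ₐ[F] AlgebraicClosure F := IsAlgClosed.lift
  have hσ : ∀ g : MvPolynomial ι F, MvPolynomial.aeval (fun i => σ (y i)) g =
      σ (MvPolynomial.aeval y g) := by
    intro g
    have : MvPolynomial.aeval (fun i => σ (y i)) = σ.comp (MvPolynomial.aeval y) := by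
      ext i
      simp
    rw [this]
    rfl
  have h1 := hs (fun i => σ (y i)) (by
    intro h0
    apply hy
    ext i
    have := congrFun h0 i
    simpa using this) (fun i => by rw [hσ, hyf, map_zero])
  rw [Fintype.linearIndependent_iff] at h1 ⊢
  intro c hc i
  have h2 := h1 (fun i => σ (c i)) (by
    ext k
    have h3 := congrArg σ (congrFun hc k)
    simp only [Finset.sum_apply, Pi.smul_apply, smul_eq_mul, map_sum, map_mul, Pi.zero_apply,
      map_zero] at h3 ⊢
    simpa only [hσ] using h3) i
  simpa using h2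

end Points

/-! ### The generic point -/

theorem isGenericPoint_genPt {n : ℕ} {I : Ideal (MvPolynomial (Fin n) F)} [I.IsPrime] {j : Fin n}
    (hj1 : (1 : Fin n → ℕ) j = 1) (hj : MvPolynomial.X j ∉ I) :
    IsGenericPoint I (genPt (1 : Fin n → ℕ) (I := I) hj1) := by
  have h1 := genPt_self (1 : Fin n → ℕ) (I := I) hj1 hj
  refine ⟨?_, ?_, ?_⟩
  · intro h0
    rw [h0] at h1
    exact zero_ne_one h1
  · intro m g hg
    exact aeval_genPt_eq_zero_iff (1 : Fin n → ℕ) (I := I) hj1 hj hg
  · intro k hk
    rw [eq_top_iff, ← adjoin_genPt (1 : Fin n → ℕ) (I := I) hj1 hj,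
      IntermediateField.adjoin_le_iff]
    rintro _ ⟨i, rfl⟩
    have := hk i j
    rwa [h1, div_one] at this

/-- The degree of irrationality is at least the least degree of a point. -/
theorem minDegree_le_irr {n r : ℕ} {f : Fin r → MvPolynomial (Fin n) F} {d : Fin r → ℕ}
    (hf : ∀ i, (f i).IsHomogeneous (d i)) {K : Type u} [Field K] [Algebra F K] {x : Fin n → K}
    (hx : IsGenericPoint (Ideal.span (Set.range f)) x) (hirr : 0 < irr F K) :
    ∃ (L : Type u) (_ : Field L) (_ : Algebra F L), FiniteDimensional F L ∧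
      Module.finrank F L ≤ irr F K ∧ HasPoint (Ideal.span (Set.range f)) L := by
  obtain ⟨L, i1, i2, hfin, hle, y, hy, hyg⟩ := exists_point_of_irr_pos hirr x hx.ne_zero
  refine ⟨L, i1, i2, hfin, hle, ?_⟩
  rw [hasPoint_span]
  refine ⟨y, hy, fun i => hyg (d i) (f i) (hf i) ?_⟩
  rw [hx.mem_iff _ _ (hf i)]
  exact Ideal.subset_span ⟨i, rfl⟩

end

end Pool.Agent.Helper17.Irr
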