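import Mathlib
import Pool.Agent.Helper17.Irr.Low

/-!
# The degree of irrationality of del Pezzo surfaces of degree at most four
-/

set_option linter.style.haveILetI false
set_option linter.deprecated false

namespace Pool.Agent.Helper17.Irr

open IntermediateField

universe u v w

section

variable {F : Type u} [Field F]

theorem three_le_trdeg {n : ℕ} (s : Finset (MvPolynomial (Fin n) F))
    {I : Ideal (MvPolynomial (Fin n) F)} (hI : I = Ideal.span (s : Set (MvPolynomial (Fin n) F)))
    (hp : I.IsPrime) (hm : s.card + 3 ≤ n) :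
    ((2 + 1 : ℕ) : Cardinal) ≤ Algebra.trdeg F (MvPolynomial (Fin n) F ⧸ I) := by
  subst hI
  exact le_trdeg_quotient s hp 3 hm

/-- Cubic surfaces. -/
theorem cubic_formula (f : Fin 1 → MvPolynomial (Fin 4) F) (hf : ∀ i, (f i).IsHomogeneous 3)
    (hs : IsSmoothIntersection f) [hI : (Ideal.span (Set.range f)).IsPrime] :
    (¬ IsRational F (projFunctionField (1 : Fin 4 → ℕ) (Ideal.span (Set.range f))) →
      irr F (projFunctionField (1 : Fin 4 → ℕ) (Ideal.span (Set.range f))) =
        max 2 (minDegree (Ideal.span (Set.range f)))) ∧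
    (minDegree (Ideal.span (Set.range f)) = 1 ∨ minDegree (Ideal.span (Set.range f)) = 3) := by
  set I := Ideal.span (Set.range f) with hIdef
  have hI' : I = Ideal.span {f 0} := by
    rw [hIdef]
    congr 1
    ext g
    simp [Fin.exists_fin_one, eq_comm]
  have hX : (MvPolynomial.X 3 : MvPolynomial (Fin 4) F) ∉ I := by
    intro h
    have h3 := coeff_eq_zero_of_mem_span (m := 3) (by
      rintro g ⟨i, rfl⟩
      exact hf i) h (d := Finsupp.single 3 1) (by simp)
    simp at h3
  have hgen := isGenericPoint_genPt (F := F) (I := I) (j := 3) rfl hX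
  set K := projFunctionField (1 : Fin 4 → ℕ) I with hK
  set x := genPt (1 : Fin 4 → ℕ) (I := I) (j := 3) rfl with hx
  have htr : 2 ≤ Algebra.trdeg F K :=
    le_trdeg_projFunctionField (1 : Fin 4 → ℕ) (j := 3) rfl hX (m := 2)
      (three_le_trdeg {f 0} (by rw [Finset.coe_singleton]; exact hI') hI (by simp))
  have hgen' : IsGenericPoint (Ideal.span {f 0}) x := hI' ▸ hgen
  by_cases hpt : HasPoint I F
  · -- a rational point
    have hδ := minDegree_eq_one hpt
    refine ⟨fun hrat => ?_, Or.inl hδ⟩
    obtain ⟨p, hp, hpf⟩ := hasPoint_span.mp hpt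
    have h1 := hs.linearIndependent p hp hpf
    have h2 : ∃ i, MvPolynomial.aeval p (MvPolynomial.pderiv i (f 0)) ≠ 0 := by
      by_contra h0
      push Not at h0
      apply h1.ne_zero 0
      ext i
      exact h0 i
    obtain ⟨h3, h4⟩ : 0 < irr F K ∧ irr F K ≤ 2 := cubic_irr_le_two (hf 0) hgen' htr p hp (hpf 0) h2
    have h5 : irr F K ≠ 1 := fun h => hrat (isRational_of_irr_eq_one h)
    rw [hδ]
    change irr F K = _
    omega
  · -- no rational point
    have hno : ¬ ∃ p : Fin 4 → F, p ≠ 0 ∧ MvPolynomial.aeval p (f 0) = 0 := by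
      rintro ⟨p, hp, hp0⟩
      apply hpt
      rw [hasPoint_span]
      exact ⟨p, hp, fun i => by rwa [Fin.fin_one_eq_zero i]⟩
    obtain ⟨h3, h4⟩ : 0 < irr F K ∧ irr F K ≤ 3 := cubic_irr_le_three (hf 0) hgen' htr hno
    have hthree : ∀ (L : Type u) [Field L] [Algebra F L], FiniteDimensional F L →
        HasPoint I L → 3 ≤ Module.finrank F L := by
      intro L _ _ hfin hL
      have hpos : 0 < Module.finrank F L := Module.finrank_pos
      by_contra hlt
      have : Module.finrank F L = 1 ∨ Module.finrank F L = 2 := by omega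
      rcases this with h | h
      · exact hpt (hL.of_finrank_one h)
      · obtain ⟨y, hy, hyf⟩ := hasPoint_span.mp hL
        exact hno (cubic_zero_of_quadratic (hf 0) h y hy (hyf 0))
    obtain ⟨L, i1, i2, hfin, hle, hL⟩ := minDegree_le_irr (d := fun _ => 3) hf hgen h3
    have hle' : Module.finrank F L ≤ irr F K := hle
    have h5 := hthree L hfin hL
    have h6 : 3 ≤ minDegree I := le_minDegree hL hthree
    have h7 : minDegree I ≤ 3 := (minDegree_le hL).trans (hle.trans h4)
    have h8 : minDegree I = 3 := le_antisymm h7 h6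
    refine ⟨fun _ => ?_, Or.inr h8⟩
    rw [h8]
    change irr F K = _
    omega

/-- Intersections of two quadrics. -/
theorem quartic_formula (f : Fin 2 → MvPolynomial (Fin 5) F) (hf : ∀ i, (f i).IsHomogeneous 2)
    (hs : IsSmoothIntersection f) [hI : (Ideal.span (Set.range f)).IsPrime] :
    (¬ IsRational F (projFunctionField (1 : Fin 5 → ℕ) (Ideal.span (Set.range f))) →
      irr F (projFunctionField (1 : Fin 5 → ℕ) (Ideal.span (Set.range f))) =
        max 2 (minDegree (Ideal.span (Set.range f)))) ∧
    (minDegree (Ideal.span (Set.range f)) = 1 ∨ minDegree (Ideal.span (Set.range f)) = 2 ∨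
      minDegree (Ideal.span (Set.range f)) = 4) := by
  classical
  set I := Ideal.span (Set.range f) with hIdef
  have hI' : I = Ideal.span {f 0, f 1} := by
    rw [hIdef]
    congr 1
    ext g
    simp [Fin.exists_fin_two, eq_comm]
  have hX : (MvPolynomial.X 4 : MvPolynomial (Fin 5) F) ∉ I := by
    rw [hI']
    exact X_notMem_span (hf 0) (hf 1) 4
  have hgen := isGenericPoint_genPt (F := F) (I := I) (j := 4) rfl hX
  set K := projFunctionField (1 : Fin 5 → ℕ) I with hK
  set x := genPt (1 : Fin 5 → ℕ) (I := I) (j := 4) rfl with hx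
  have htr : 2 ≤ Algebra.trdeg F K :=
    le_trdeg_projFunctionField (1 : Fin 5 → ℕ) (j := 4) rfl hX (m := 2)
      (three_le_trdeg {f 0, f 1} (by rw [Finset.coe_pair]; exact hI') hI (by
        have := Finset.card_le_two (a := f 0) (b := f 1)
        omega))
  have hgen' : IsGenericPoint (Ideal.span {f 0, f 1}) x := hI' ▸ hgen
  have hgrad : ∀ {L : Type u} [Field L] [Algebra F L] [FiniteDimensional F L] (y : Fin 5 → L),
      y ≠ 0 → (∀ i, MvPolynomial.aeval y (f i) = 0) →
      ∀ s t : L, (∀ k, s * MvPolynomial.aeval y (MvPolynomial.pderiv k (f 0)) +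
      t * MvPolynomial.aeval y (MvPolynomial.pderiv k (f 1)) = 0) → s = 0 ∧ t = 0 := by
    intro L _ _ _ y hy hyf s t hst
    have h1 := hs.linearIndependent y hy hyf
    rw [Fintype.linearIndependent_iff] at h1
    have h2 := h1 ![s, t] (by
      rw [Fin.sum_univ_two]
      ext k
      simpa using hst k)
    exact ⟨h2 0, h2 1⟩
  by_cases hpt : HasPoint I F
  · -- a rational point
    have hδ := minDegree_eq_one hpt
    refine ⟨fun hrat => ?_, Or.inl hδ⟩
    obtain ⟨p, hp, hpf⟩ := hasPoint_span.mp hpt
    obtain ⟨h3, h4⟩ : 0 < irr F K ∧ irr F K ≤ 2 := pencil_irr_le_two_of_rational (hf 0) (hf 1) hgen' htr p hp (hpf 0) (hpf 1)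
      (hgrad p hp hpf)
    have h5 : irr F K ≠ 1 := fun h => hrat (isRational_of_irr_eq_one h)
    rw [hδ]
    change irr F K = _
    omega
  · have hno : ∀ y : Fin 5 → F, y ≠ 0 →
        ¬ (MvPolynomial.aeval y (f 0) = 0 ∧ MvPolynomial.aeval y (f 1) = 0) := by
      rintro y hy ⟨h0, h1⟩
      apply hpt
      rw [hasPoint_span]
      refine ⟨y, hy, fun i => ?_⟩
      fin_cases i
      · exact h0
      · exact h1
    by_cases hquad : ∃ (L : Type u) (_ : Field L) (_ : Algebra F L), FiniteDimensional F L ∧
        Module.finrank F L = 2 ∧ HasPoint I L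
    · -- a point of degree two
      obtain ⟨L, i1, i2, hfin, hr, hL⟩ := hquad
      have hδ : minDegree I = 2 := by
        apply le_antisymm
        · rw [← hr]; exact minDegree_le hL
        · apply le_minDegree hL
          intro L' _ _ hfin' hL'
          have hpos : 0 < Module.finrank F L' := Module.finrank_pos
          by_contra hlt
          exact hpt (hL'.of_finrank_one (by omega))
      refine ⟨fun hrat => ?_, Or.inr (Or.inl hδ)⟩
      obtain ⟨y, hy, hyf⟩ := hasPoint_span.mp hL
      obtain ⟨h3, h4⟩ : 0 < irr F K ∧ irr F K ≤ 2 := pencil_irr_le_two_of_quadratic (hf 0) (hf 1) hgen' htr hno hr y hy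
        (hyf 0) (hyf 1) (hgrad y hy hyf)
      have h5 : irr F K ≠ 1 := fun h => hrat (isRational_of_irr_eq_one h)
      rw [hδ]
      change irr F K = _
      omega
    · -- no points of degree at most two
      have hfour : ∀ (L : Type u) [Field L] [Algebra F L], FiniteDimensional F L →
          HasPoint I L → 4 ≤ Module.finrank F L := by
        intro L _ _ hfin hL
        have hpos : 0 < Module.finrank F L := Module.finrank_pos
        by_contra hlt
        have : Module.finrank F L = 1 ∨ Module.finrank F L = 2 ∨ Module.finrank F L = 3 := by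
          omega
        rcases this with h | h | h
        · exact hpt (hL.of_finrank_one h)
        · exact hquad ⟨L, _, _, hfin, h, hL⟩
        · obtain ⟨y, hy, hyf⟩ := hasPoint_span.mp hL
          obtain ⟨p, hp, hp0, hp1⟩ := rational_point_of_cubic_point (hf 0) (hf 1) h y hy
            (hyf 0) (hyf 1)
          exact hno p hp ⟨hp0, hp1⟩
      obtain ⟨h3, h4⟩ : 0 < irr F K ∧ irr F K ≤ 4 := pencil_irr_le_four (hf 0) (hf 1) hgen' htr (by
        intro L _ _ hfin hr y hy h
        have h5 := hfour L hfin (by
          rw [hIdef, hasPoint_span]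
          refine ⟨y, hy, fun i => ?_⟩
          fin_cases i
          · exact h.1
          · exact h.2)
        omega)
      obtain ⟨L, i1, i2, hfin, hle, hL⟩ := minDegree_le_irr (d := fun _ => 2) hf hgen h3
      have hle' : Module.finrank F L ≤ irr F K := hle
      have h5 := hfour L hfin hL
      have h6 : 4 ≤ minDegree I := le_minDegree hL hfour
      have h7 : minDegree I ≤ 4 := (minDegree_le hL).trans (hle.trans h4)
      have h8 : minDegree I = 4 := le_antisymm h7 h6
      refine ⟨fun _ => ?_, Or.inr (Or.inr h8)⟩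
      rw [h8]
      change irr F K = _
      omega

end

end Pool.Agent.Helper17.Irr
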