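import Mathlib
import Pool.Agent.Helper17.Irr.LowDegree

/-!
# Del Pezzo surfaces of degree one and two
-/

set_option linter.style.haveILetI false
set_option linter.deprecated false

namespace Pool.Agent.Helper17.Irr

open IntermediateField

universe u v w

section

variable {F : Type u} [Field F]

theorem aeval_zero_of_isWeightedHomogeneous {R : Type*} [CommRing R] [Algebra F R] {ι : Type*}
    {wt : ι → ℕ} {N : ℕ} (hN : N ≠ 0) {g : MvPolynomial ι F} (hg : g.IsWeightedHomogeneous wt N) :
    MvPolynomial.aeval (0 : ι → R) g = 0 := by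
  rw [MvPolynomial.aeval_zero]
  have h1 : MvPolynomial.constantCoeff g = 0 := by
    by_contra h0
    have := hg (d := 0) h0
    rw [map_zero] at this
    exact hN this.symm
  rw [h1, map_zero]

theorem natDegree_pos_of_smooth {wt : Fin 4 → ℕ} {N : ℕ} (hN : N ≠ 0) (hNwt : ∀ j : Fin 3,
    N ≠ wt j.succ) {f : Fin 1 → MvPolynomial (Fin 4) F} (hf : (f 0).IsWeightedHomogeneous wt N)
    (hs : IsSmoothIntersection f) : 0 < (MvPolynomial.finSuccEquiv F 3 (f 0)).natDegree := by
  by_contra h0
  obtain ⟨g, hg⟩ := exists_eq_rename_succ (Nat.eq_zero_of_not_pos h0)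
  have hgw : g.IsWeightedHomogeneous (wt ∘ Fin.succ) N := by
    intro d hd
    have h1 := hf (d := d.mapDomain Fin.succ) (by
      rw [hg, MvPolynomial.coeff_rename_mapDomain _ (Fin.succ_injective _)]
      exact hd)
    rw [Finsupp.weight_apply] at h1 ⊢
    rw [← h1, Finsupp.sum_mapDomain_index (by simp) (by intros; simp [add_mul])]
    rfl
  have hy0 : (Pi.single 0 1 : Fin 4 → AlgebraicClosure F) ∘ Fin.succ = 0 := by
    ext i
    simp
  have h1 := hs (Pi.single 0 1) (by simp) (by
    intro i
    rw [Fin.fin_one_eq_zero i, hg, MvPolynomial.aeval_rename, hy0]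
    exact aeval_zero_of_isWeightedHomogeneous hN hgw)
  apply h1.ne_zero 0
  ext k
  change MvPolynomial.aeval (Pi.single 0 1 : Fin 4 → AlgebraicClosure F)
    (MvPolynomial.pderiv k (f 0)) = 0
  have hren : ∀ g : MvPolynomial (Fin 3) F, MvPolynomial.rename Fin.succ g =
      MvPolynomial.aeval (fun j : Fin 3 => (MvPolynomial.X j.succ : MvPolynomial (Fin 4) F)) g := by
    intro g
    have h3 := MvPolynomial.aeval_rename (R := F) Fin.succ
      (MvPolynomial.X : Fin 4 → MvPolynomial (Fin 4) F) g
    rw [MvPolynomial.aeval_X_left, AlgHom.id_apply] at h3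
    exact h3
  have h2 : MvPolynomial.pderiv k (f 0) = ∑ j, MvPolynomial.rename Fin.succ
      (MvPolynomial.pderiv j g) * MvPolynomial.pderiv k (MvPolynomial.X j.succ) := by
    rw [hg, hren, pderiv_aeval]
    exact Finset.sum_congr rfl fun j _ => by rw [hren]
  rw [h2, map_sum]
  refine Finset.sum_eq_zero fun j _ => ?_
  rw [map_mul, MvPolynomial.aeval_rename, hy0]
  have h4 : MvPolynomial.aeval (0 : Fin 3 → AlgebraicClosure F) (MvPolynomial.pderiv j g) = 0 := by
    rw [MvPolynomial.aeval_zero]
    have h5 : MvPolynomial.constantCoeff (MvPolynomial.pderiv j g) = 0 := by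
      by_contra h6
      change MvPolynomial.coeff 0 (MvPolynomial.pderiv j g) ≠ 0 at h6
      rw [MvPolynomial.coeff_pderiv] at h6
      have h7 : MvPolynomial.coeff (0 + Finsupp.single j 1) g ≠ 0 := by
        intro h8
        apply h6
        rw [h8, zero_mul]
      have h8 := hgw h7
      rw [zero_add, Finsupp.weight_single, one_smul] at h8
      exact hNwt j h8.symm
    rw [h5, map_zero]
  rw [h4, zero_mul]

/-- Double planes have degree of irrationality at most two. -/
theorem double_irr_le_two {wt : Fin 4 → ℕ} (h3 : wt 3 = 1) (hwt0 : 0 < wt 0)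
    (hNwt : ∀ j : Fin 3, 2 * wt 0 ≠ wt j.succ)
    {f : Fin 1 → MvPolynomial (Fin 4) F} (hf : (f 0).IsWeightedHomogeneous wt (2 * wt 0))
    (hs : IsSmoothIntersection f) [hI : (Ideal.span (Set.range f)).IsPrime] :
    0 < irr F (projFunctionField wt (Ideal.span (Set.range f))) ∧
      irr F (projFunctionField wt (Ideal.span (Set.range f))) ≤ 2 := by
  set I := Ideal.span (Set.range f) with hIdef
  have hI' : I = Ideal.span {f 0} := by
    rw [hIdef]
    congr 1
    ext g
    simp [Fin.exists_fin_one, eq_comm]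
  have hpos := natDegree_pos_of_smooth (by omega) hNwt hf hs
  have hf0 : f 0 ≠ 0 := by
    intro h
    rw [h] at hpos
    simp at hpos
  have hle : (MvPolynomial.finSuccEquiv F 3 (f 0)).natDegree ≤ 2 := by
    have := natDegree_mul_le hf hf0
    exact Nat.le_of_mul_le_mul_right this hwt0
  have hX : (MvPolynomial.X 3 : MvPolynomial (Fin 4) F) ∉ I := by
    intro h
    have h2 : (MvPolynomial.X 3 : MvPolynomial (Fin 4) F) =
      MvPolynomial.rename Fin.succ (MvPolynomial.X 2) := by simp
    rw [hI', h2, rename_succ_mem_span_iff hpos] at h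
    exact MvPolynomial.X_ne_zero _ h
  have htr : 2 ≤ Algebra.trdeg F (projFunctionField wt I) :=
    le_trdeg_projFunctionField wt (j := 3) h3 hX (m := 2)
      (three_le_trdeg {f 0} (by rw [Finset.coe_singleton]; exact hI') hI (by simp))
  obtain ⟨h4, h5⟩ := irr_le_of_natDegree_weighted (K := projFunctionField wt I) hf
    (x := genPt wt (I := I) (j := 3) h3)
    (fun n g hg => by rw [aeval_genPt_eq_zero_iff wt h3 hX hg, hI'])
    (genPt_self wt h3 hX) (adjoin_genPt wt h3 hX) htr hpos
  exact ⟨h4, h5.trans hle⟩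

/-- The value of a weighted form of degree six at a point of the line `X 2 = X 3 = 0`. -/
theorem aeval_sextic {g : MvPolynomial (Fin 4) F} (hg : g.IsWeightedHomogeneous ![3, 2, 1, 1] 6)
    (s t : F) : MvPolynomial.aeval ![s, t, 0, 0] g =
      g.coeff (Finsupp.single 0 2) * s ^ 2 + g.coeff (Finsupp.single 1 3) * t ^ 3 := by
  classical
  rw [MvPolynomial.aeval_def, MvPolynomial.eval₂_eq']
  have h1 : Finsupp.single (0 : Fin 4) 2 ≠ Finsupp.single 1 3 := by
    intro h
    have := congrArg (fun d => d 0) h
    simp at this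
  have hval : ∀ d : Fin 4 →₀ ℕ, ∏ i, (![s, t, 0, 0] : Fin 4 → F) i ^ d i =
      s ^ d 0 * t ^ d 1 * 0 ^ d 2 * 0 ^ d 3 := by
    intro d
    rw [Fin.prod_univ_four]
    simp
  rw [Finset.sum_eq_add (Finsupp.single (0 : Fin 4) 2) (Finsupp.single 1 3) h1]
  · rw [hval, hval]
    simp
  · rintro d hd ⟨hd1, hd2⟩
    rw [hval]
    have h2 : Finsupp.weight ![3, 2, 1, 1] d = 6 := hg (MvPolynomial.mem_support_iff.mp hd)
    rw [Finsupp.weight_apply, Finsupp.sum_fintype _ _ (fun _ => by simp), Fin.sum_univ_four] at h2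
    simp at h2
    by_cases h3 : d 2 = 0 ∧ d 3 = 0
    · exfalso
      obtain ⟨h4, h5⟩ := h3
      rw [h4, h5] at h2
      have h6 : (d 0 = 2 ∧ d 1 = 0) ∨ (d 0 = 0 ∧ d 1 = 3) := by omega
      rcases h6 with ⟨h6, h7⟩ | ⟨h6, h7⟩
      · apply hd1
        ext i
        fin_cases i <;> simp [h4, h5, h6, h7]
      · apply hd2
        ext i
        fin_cases i <;> simp [h4, h5, h6, h7]
    · rcases not_and_or.mp h3 with h4 | h4
      · rw [zero_pow h4]; ring
      · rw [zero_pow h4]; ring
  · intro h
    rw [MvPolynomial.notMem_support_iff.mp h]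
    simp
  · intro h
    rw [MvPolynomial.notMem_support_iff.mp h]
    simp

/-- The value of a weighted form of degree four at a point of the line `X 1 = X 2 = 0`. -/
theorem aeval_quartic {R : Type*} [CommRing R] [Algebra F R] {g : MvPolynomial (Fin 4) F}
    (hg : g.IsWeightedHomogeneous ![2, 1, 1, 1] 4)
    (s t : R) : MvPolynomial.aeval ![s, 0, 0, t] g =
      algebraMap F R (g.coeff (Finsupp.single 0 2)) * s ^ 2 +
      algebraMap F R (g.coeff (Finsupp.single 0 1 + Finsupp.single 3 2)) * (s * t ^ 2) +
      algebraMap F R (g.coeff (Finsupp.single 3 4)) * t ^ 4 := by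
  classical
  rw [MvPolynomial.aeval_def, MvPolynomial.eval₂_eq']
  have hval : ∀ d : Fin 4 →₀ ℕ, ∏ i, (![s, 0, 0, t] : Fin 4 → R) i ^ d i =
      s ^ d 0 * 0 ^ d 1 * 0 ^ d 2 * t ^ d 3 := by
    intro d
    rw [Fin.prod_univ_four]
    simp
  set S : Finset (Fin 4 →₀ ℕ) := {Finsupp.single 0 2, Finsupp.single 0 1 + Finsupp.single 3 2,
    Finsupp.single 3 4} with hS
  have hsum : ∑ d ∈ g.support, algebraMap F R (g.coeff d) *
      ∏ i, (![s, 0, 0, t] : Fin 4 → R) i ^ d i =
      ∑ d ∈ S, algebraMap F R (g.coeff d) * ∏ i, (![s, 0, 0, t] : Fin 4 → R) i ^ d i := by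
    have e1 : ∑ d ∈ g.support, algebraMap F R (g.coeff d) *
        ∏ i, (![s, 0, 0, t] : Fin 4 → R) i ^ d i =
        ∑ d ∈ g.support ∪ S, algebraMap F R (g.coeff d) *
        ∏ i, (![s, 0, 0, t] : Fin 4 → R) i ^ d i := by
      apply Finset.sum_subset Finset.subset_union_left
      intro d _ hd
      rw [MvPolynomial.notMem_support_iff.mp hd, map_zero, zero_mul]
    rw [e1]
    symm
    apply Finset.sum_subset Finset.subset_union_right
    intro d hd hdS
    rcases Finset.mem_union.mp hd with hd | hd
    · rw [hval]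
      have h2 : Finsupp.weight ![2, 1, 1, 1] d = 4 := hg (MvPolynomial.mem_support_iff.mp hd)
      rw [Finsupp.weight_apply, Finsupp.sum_fintype _ _ (fun _ => by simp),
        Fin.sum_univ_four] at h2
      simp at h2
      by_cases h3 : d 1 = 0 ∧ d 2 = 0
      · exfalso
        apply hdS
        obtain ⟨h4, h5⟩ := h3
        rw [h4, h5] at h2
        have h6 : (d 0 = 2 ∧ d 3 = 0) ∨ (d 0 = 1 ∧ d 3 = 2) ∨ (d 0 = 0 ∧ d 3 = 4) := by omega
        rw [hS, Finset.mem_insert, Finset.mem_insert, Finset.mem_singleton]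
        rcases h6 with ⟨h6, h7⟩ | ⟨h6, h7⟩ | ⟨h6, h7⟩
        · left
          ext i
          fin_cases i <;> simp [h4, h5, h6, h7]
        · right; left
          ext i
          fin_cases i <;> simp [h4, h5, h6, h7]
        · right; right
          ext i
          fin_cases i <;> simp [h4, h5, h6, h7]
      · rcases not_and_or.mp h3 with h4 | h4
        · rw [zero_pow h4]; ring
        · rw [zero_pow h4]; ring
    · exact absurd hd hdS
  rw [hsum, hS, Finset.sum_insert, Finset.sum_insert, Finset.sum_singleton, hval, hval, hval]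
  · simp
    ring
  · rw [Finset.mem_singleton]
    intro h
    have := congrArg (fun d => d 0) h
    simp at this
  · rw [Finset.mem_insert, Finset.mem_singleton, not_or]
    constructor
    · intro h
      have := congrArg (fun d => d 0) h
      simp at this
    · intro h
      have := congrArg (fun d => d 0) h
      simp at this

/-- Del Pezzo surfaces of degree one. -/
theorem degree_one_formula (f : Fin 1 → MvPolynomial (Fin 4) F)
    (hf : ∀ i, (f i).IsWeightedHomogeneous ![3, 2, 1, 1] 6)
    (hs : IsSmoothIntersection f) [hI : (Ideal.span (Set.range f)).IsPrime] :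
    (¬ IsRational F (projFunctionField ![3, 2, 1, 1] (Ideal.span (Set.range f))) →
      irr F (projFunctionField ![3, 2, 1, 1] (Ideal.span (Set.range f))) =
        max 2 (minDegree (Ideal.span (Set.range f)))) ∧
    minDegree (Ideal.span (Set.range f)) = 1 := by
  have hδ : minDegree (Ideal.span (Set.range f)) = 1 := by
    apply minDegree_eq_one
    rw [hasPoint_span]
    have key : ∀ s t : F, (f 0).coeff (Finsupp.single 0 2) * s ^ 2 +
        (f 0).coeff (Finsupp.single 1 3) * t ^ 3 = 0 → (s ≠ 0 ∨ t ≠ 0) →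
        ∃ y : Fin 4 → F, y ≠ 0 ∧ ∀ i, MvPolynomial.aeval y (f i) = 0 := by
      intro s t h hst
      refine ⟨![s, t, 0, 0], ?_, fun i => ?_⟩
      · intro h0
        have e0 := congrFun h0 0
        have e1 := congrFun h0 1
        simp at e0 e1
        rcases hst with h1 | h1
        · exact h1 e0
        · exact h1 e1
      · rw [Fin.fin_one_eq_zero i, aeval_sextic (hf 0), h]
    set c := (f 0).coeff (Finsupp.single 0 2) with hc
    set c' := (f 0).coeff (Finsupp.single 1 3) with hc'
    by_cases h0 : c = 0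
    · exact key 1 0 (by rw [h0]; ring) (Or.inl one_ne_zero)
    · by_cases h1 : c' = 0
      · exact key 0 1 (by rw [h1]; ring) (Or.inr one_ne_zero)
      · exact key (c * c' ^ 2) (-(c * c')) (by ring) (Or.inl (by positivity))
  refine ⟨fun hrat => ?_, hδ⟩
  obtain ⟨h4, h5⟩ : 0 < irr F (projFunctionField ![3, 2, 1, 1] (Ideal.span (Set.range f))) ∧
      irr F (projFunctionField ![3, 2, 1, 1] (Ideal.span (Set.range f))) ≤ 2 :=
    double_irr_le_two (wt := ![3, 2, 1, 1]) (by simp) (by simp) (by
      intro j; fin_cases j <;> simp) (hf 0) hs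
  have h6 : irr F (projFunctionField ![3, 2, 1, 1] (Ideal.span (Set.range f))) ≠ 1 :=
    fun h => hrat (isRational_of_irr_eq_one h)
  rw [hδ]
  omega

/-- Del Pezzo surfaces of degree two. -/
theorem degree_two_formula (f : Fin 1 → MvPolynomial (Fin 4) F)
    (hf : ∀ i, (f i).IsWeightedHomogeneous ![2, 1, 1, 1] 4)
    (hs : IsSmoothIntersection f) [hI : (Ideal.span (Set.range f)).IsPrime] :
    (¬ IsRational F (projFunctionField ![2, 1, 1, 1] (Ideal.span (Set.range f))) →
      irr F (projFunctionField ![2, 1, 1, 1] (Ideal.span (Set.range f))) =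
        max 2 (minDegree (Ideal.span (Set.range f)))) ∧
    (minDegree (Ideal.span (Set.range f)) = 1 ∨ minDegree (Ideal.span (Set.range f)) = 2) := by
  have hδ : minDegree (Ideal.span (Set.range f)) = 1 ∨
      minDegree (Ideal.span (Set.range f)) = 2 := by
    set c := (f 0).coeff (Finsupp.single 0 2) with hc
    set b := (f 0).coeff (Finsupp.single 0 1 + Finsupp.single 3 2) with hb
    set e := (f 0).coeff (Finsupp.single 3 4) with he
    by_cases h0 : c = 0
    · left
      apply minDegree_eq_one
      rw [hasPoint_span]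
      refine ⟨![1, 0, 0, 0], ?_, fun i => ?_⟩
      · intro h
        have := congrFun h 0
        simp at this
      · rw [Fin.fin_one_eq_zero i, aeval_quartic (hf 0), ← hc, h0]
        simp
    · obtain ⟨r, hr⟩ := IsAlgClosed.exists_root (k := AlgebraicClosure F)
        (Polynomial.C (algebraMap F (AlgebraicClosure F) c) * Polynomial.X ^ 2 +
          Polynomial.C (algebraMap F (AlgebraicClosure F) b) * Polynomial.X +
          Polynomial.C (algebraMap F (AlgebraicClosure F) e)) (by
          rw [Polynomial.degree_quadratic ((map_ne_zero _).mpr h0)]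
          norm_num)
      have hr' : algebraMap F (AlgebraicClosure F) c * r ^ 2 +
          algebraMap F (AlgebraicClosure F) b * r + algebraMap F (AlgebraicClosure F) e = 0 := by
        simpa [Polynomial.IsRoot] using hr
      obtain ⟨hfin, hle⟩ := finrank_adjoin_le_two_of_root r _ _ _ (Or.inl h0) hr'
      have hg : algebraMap F F⟮r⟯ c * (AdjoinSimple.gen F r) ^ 2 +
          algebraMap F F⟮r⟯ b * AdjoinSimple.gen F r + algebraMap F F⟮r⟯ e = 0 := by
        apply (algebraMap F⟮r⟯ (AlgebraicClosure F)).injective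
        simp only [map_add, map_mul, map_pow, ← IsScalarTower.algebraMap_apply,
          IntermediateField.AdjoinSimple.algebraMap_gen, map_zero]
        exact hr'
      have hpt : HasPoint (Ideal.span (Set.range f)) F⟮r⟯ := by
        rw [hasPoint_span]
        refine ⟨![AdjoinSimple.gen F r, 0, 0, 1], ?_, fun i => ?_⟩
        · intro h
          have := congrFun h 3
          simp at this
        · rw [Fin.fin_one_eq_zero i, aeval_quartic (hf 0)]
          linear_combination hg
      have h1 := (minDegree_le hpt).trans hle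
      have h2 := minDegree_pos hpt
      omega
  refine ⟨fun hrat => ?_, hδ⟩
  obtain ⟨h4, h5⟩ : 0 < irr F (projFunctionField ![2, 1, 1, 1] (Ideal.span (Set.range f))) ∧
      irr F (projFunctionField ![2, 1, 1, 1] (Ideal.span (Set.range f))) ≤ 2 :=
    double_irr_le_two (wt := ![2, 1, 1, 1]) (by simp) (by simp) (by
      intro j; fin_cases j <;> simp) (hf 0) hs
  have h6 : irr F (projFunctionField ![2, 1, 1, 1] (Ideal.span (Set.range f))) ≠ 1 :=
    fun h => hrat (isRational_of_irr_eq_one h)
  omega

end

end Pool.Agent.Helper17.Irr
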