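import Mathlib
import Pool.Agent.Helper17.Irr.LowDegree

/-!
# Severi-Brauer surfaces
-/

set_option linter.style.haveILetI false
set_option linter.deprecated false

namespace Pool.Agent.Helper17.Irr

open IntermediateField

universe u v w

/-- The norm form of a cubic algebra `M` with basis `b`, minus `a` times the cube of the first
variable: the equation `N(x₁ b₀ + x₂ b₁ + x₃ b₂) = a x₀³`. -/
noncomputable def normCubic {F : Type u} [Field F] {M : Type v} [CommRing M] [Algebra F M]
    (b : Module.Basis (Fin 3) F M) (a : F) : MvPolynomial (Fin 4) F :=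
  Matrix.det (∑ i : Fin 3, (MvPolynomial.X i.succ : MvPolynomial (Fin 4) F) •
    (Algebra.leftMulMatrix b (b i)).map MvPolynomial.C) -
    MvPolynomial.C a * MvPolynomial.X 0 ^ 3

section

variable {F : Type u} [Field F] {M : Type v} [CommRing M] [Algebra F M]
  (b : Module.Basis (Fin 3) F M) (a : F)

theorem isHomogeneous_normCubic : (normCubic b a).IsHomogeneous 3 := by
  unfold normCubic
  refine MvPolynomial.IsHomogeneous.sub ?_ ?_
  · rw [Matrix.det_apply]
    refine MvPolynomial.IsHomogeneous.sum _ _ _ fun σ _ => ?_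
    set A : Matrix (Fin 3) (Fin 3) (MvPolynomial (Fin 4) F) :=
      ∑ j : Fin 3, (MvPolynomial.X j.succ : MvPolynomial (Fin 4) F) •
        (Algebra.leftMulMatrix b (b j)).map MvPolynomial.C with hA
    have h1 : (∏ i, A (σ i) i).IsHomogeneous (∑ _i : Fin 3, 1) := by
      refine MvPolynomial.IsHomogeneous.prod _ _ _ fun i _ => ?_
      rw [hA, Matrix.sum_apply]
      refine MvPolynomial.IsHomogeneous.sum _ _ _ fun j _ => ?_
      rw [Matrix.smul_apply, Matrix.map_apply, smul_eq_mul, mul_comm]
      exact MvPolynomial.isHomogeneous_C_mul_X _ _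
    rw [Finset.sum_const, Finset.card_univ, Fintype.card_fin, smul_eq_mul, mul_one] at h1
    rw [Units.smul_def, zsmul_eq_mul]
    have h2 := h1.C_mul (((Equiv.Perm.sign σ : ℤˣ) : ℤ) : F)
    rw [map_intCast] at h2
    exact h2
  · have := (MvPolynomial.isHomogeneous_X F (0 : Fin 4)).pow 3
    exact this.C_mul a

theorem aeval_normCubic (y : Fin 4 → F) :
    MvPolynomial.aeval y (normCubic b a) =
      Algebra.norm F (∑ i : Fin 3, y i.succ • b i) - a * y 0 ^ 3 := by
  unfold normCubic
  rw [map_sub, map_mul, map_pow, MvPolynomial.aeval_C, MvPolynomial.aeval_X,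
    Algebra.algebraMap_self, RingHom.id_apply]
  congr 1
  rw [AlgHom.map_det, Algebra.norm_eq_matrix_det b]
  congr 1
  ext i j
  rw [AlgHom.mapMatrix_apply, Matrix.map_apply, Matrix.sum_apply, map_sum, map_sum,
    Matrix.sum_apply]
  refine Finset.sum_congr rfl fun k _ => ?_
  rw [Matrix.smul_apply, Matrix.map_apply, smul_eq_mul, map_mul, MvPolynomial.aeval_X,
    MvPolynomial.aeval_C, map_smul, Matrix.smul_apply, smul_eq_mul, Algebra.algebraMap_self,
    RingHom.id_apply]

end

/-- Cubic surfaces without rational points (not necessarily smooth). -/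
theorem cubic_formula_of_no_point {F : Type u} [Field F] (f : Fin 1 → MvPolynomial (Fin 4) F)
    (hf : ∀ i, (f i).IsHomogeneous 3) [hI : (Ideal.span (Set.range f)).IsPrime]
    (hpt : ¬ HasPoint (Ideal.span (Set.range f)) F) :
    irr F (projFunctionField (1 : Fin 4 → ℕ) (Ideal.span (Set.range f))) = 3 ∧
    minDegree (Ideal.span (Set.range f)) = 3 := by
  set I := Ideal.span (Set.range f) with hIdef
  have hI' : I = Ideal.span {f 0} := by
    rw [hIdef]
    congr 1
    ext g
    simp [Fin.exists_fin_one, eq_comm]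
  have hX : (MvPolynomial.X 3 : MvPolynomial (Fin 4) F) ∉ I := by
    intro h
    have h3 := coeff_eq_zero_of_mem_span (m := 3) (by
      rintro g ⟨i, rfl⟩
      exact hf i) h (d := Finsupp.single 3 1) (by simp)
    simp at h3
  have hgen := isGenericPoint_genPt (F := F) (I := I) (j := 3) rfl hX
  set K := projFunctionField (1 : Fin 4 → ℕ) I with hK
  set x := genPt (1 : Fin 4 → ℕ) (I := I) (j := 3) rfl with hx
  have htr : 2 ≤ Algebra.trdeg F K :=
    le_trdeg_projFunctionField (1 : Fin 4 → ℕ) (j := 3) rfl hX (m := 2)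
      (three_le_trdeg {f 0} (by rw [Finset.coe_singleton]; exact hI') hI (by simp))
  have hgen' : IsGenericPoint (Ideal.span {f 0}) x := hI' ▸ hgen
  have hno : ¬ ∃ p : Fin 4 → F, p ≠ 0 ∧ MvPolynomial.aeval p (f 0) = 0 := by
    rintro ⟨p, hp, hp0⟩
    apply hpt
    rw [hasPoint_span]
    exact ⟨p, hp, fun i => by rwa [Fin.fin_one_eq_zero i]⟩
  obtain ⟨h3, h4⟩ : 0 < irr F K ∧ irr F K ≤ 3 := cubic_irr_le_three (hf 0) hgen' htr hno
  have hthree : ∀ (L : Type u) [Field L] [Algebra F L], FiniteDimensional F L →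
      HasPoint I L → 3 ≤ Module.finrank F L := by
    intro L _ _ hfin hL
    have hpos : 0 < Module.finrank F L := Module.finrank_pos
    by_contra hlt
    have : Module.finrank F L = 1 ∨ Module.finrank F L = 2 := by omega
    rcases this with h | h
    · exact hpt (hL.of_finrank_one h)
    · obtain ⟨y, hy, hyf⟩ := hasPoint_span.mp hL
      exact hno (cubic_zero_of_quadratic (hf 0) h y hy (hyf 0))
  obtain ⟨L, i1, i2, hfin, hle, hL⟩ := minDegree_le_irr (d := fun _ => 3) hf hgen h3
  have hle' : Module.finrank F L ≤ irr F K := hle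
  have h5 := hthree L hfin hL
  have h6 : 3 ≤ minDegree I := le_minDegree hL hthree
  have h7 : minDegree I ≤ 3 := (minDegree_le hL).trans (hle.trans h4)
  have h8 : minDegree I = 3 := le_antisymm h7 h6
  refine ⟨?_, h8⟩
  change irr F K = _
  omega

/-- Severi-Brauer surfaces without rational points. -/
theorem severiBrauer_formula {F : Type u} [Field F] {M : Type v} [Field M] [Algebra F M]
    (b : Module.Basis (Fin 3) F M) (a : F) (ha : ∀ m : M, Algebra.norm F m ≠ a)
    [hI : (Ideal.span (Set.range fun _ : Fin 1 => normCubic b a)).IsPrime] :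
    irr F (projFunctionField (1 : Fin 4 → ℕ)
      (Ideal.span (Set.range fun _ : Fin 1 => normCubic b a))) = 3 ∧
    minDegree (Ideal.span (Set.range fun _ : Fin 1 => normCubic b a)) = 3 := by
  apply cubic_formula_of_no_point (fun _ : Fin 1 => normCubic b a)
    (fun _ => isHomogeneous_normCubic b a)
  intro h
  obtain ⟨y, hy, hyf⟩ := hasPoint_span.mp h
  have h1 := hyf 0
  rw [aeval_normCubic, sub_eq_zero] at h1
  by_cases h0 : y 0 = 0
  · rw [h0, zero_pow (by norm_num), mul_zero] at h1
    rw [Algebra.norm_eq_zero_iff_of_basis b] at h1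
    apply hy
    have h2 := Fintype.linearIndependent_iff.mp b.linearIndependent (fun i => y i.succ) h1
    ext i
    refine Fin.cases ?_ (fun j => ?_) i
    · exact h0
    · exact h2 j
  · apply ha ((y 0)⁻¹ • ∑ i : Fin 3, y i.succ • b i)
    haveI : Module.Finite F M := Module.Finite.of_basis b
    rw [Algebra.smul_def, map_mul, Algebra.norm_algebraMap, h1, Module.finrank_eq_card_basis b,
      Fintype.card_fin]
    field_simp

end Pool.Agent.Helper17.Irr
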