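import Mathlib
import Pool.Agent.Helper17.Irr.NormSurface

/-!
# Norm surfaces of cubic field extensions
-/

set_option linter.style.haveILetI false
set_option linter.deprecated false

namespace Pool.Agent.Helper17.Irr

open IntermediateField Polynomial

universe u v w

section

variable {F : Type u} [Field F]

/-- The chain rule along a line. -/
theorem derivative_aeval_line {σ : Type*} [Fintype σ] (ℓ : σ → F[X]) (g : MvPolynomial σ F) :
    derivative (MvPolynomial.aeval ℓ g) =
      ∑ j, MvPolynomial.aeval ℓ (MvPolynomial.pderiv j g) * derivative (ℓ j) := by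
  classical
  induction g using MvPolynomial.induction_on with
  | C a => simp
  | add p q hp hq => simp only [map_add, hp, hq, add_mul, Finset.sum_add_distrib]
  | mul_X p k hp =>
    rw [map_mul, MvPolynomial.aeval_X, derivative_mul, hp]
    simp only [MvPolynomial.pderiv_mul, map_add, map_mul, MvPolynomial.aeval_X, add_mul,
      Finset.sum_add_distrib, MvPolynomial.pderiv_X]
    congr 1
    · rw [Finset.sum_mul]
      exact Finset.sum_congr rfl fun j _ => by ring
    · rw [Finset.sum_eq_single k]
      · simp
      · intro j _ hj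
        simp [hj]
      · simp

theorem eval_aeval {σ : Type*} (ℓ : σ → F[X]) (c : F) (g : MvPolynomial σ F) :
    (MvPolynomial.aeval ℓ g).eval c = MvPolynomial.aeval (fun i => (ℓ i).eval c) g := by
  have h : (Polynomial.aeval c).comp (MvPolynomial.aeval ℓ : MvPolynomial σ F →ₐ[F] F[X]) =
      MvPolynomial.aeval (fun i => (ℓ i).eval c) := by
    ext i
    simp [Polynomial.aeval_def, Polynomial.eval₂_id]
  rw [← h]
  simp [Polynomial.aeval_def]

variable {M : Type v} [Field M] [Algebra F M] (b : Module.Basis (Fin 3) F M) (a : F)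

/-- The gradient of the equation of the norm surface at a point over `F` does not vanish. -/
theorem normCubic_smooth [Algebra.IsSeparable F M] (ha : a ≠ 0) {m : M}
    (hm : Algebra.norm F m = a) :
    ∃ i, MvPolynomial.aeval (Fin.cons 1 (fun j => b.repr m j) : Fin 4 → F)
      (MvPolynomial.pderiv i (normCubic b a)) ≠ 0 := by
  haveI : Module.Finite F M := Module.Finite.of_basis b
  by_contra hcon
  push Not at hcon
  set P : Fin 4 → F := Fin.cons 1 (fun j => b.repr m j) with hP
  apply Algebra.trace_ne_zero F M
  ext w
  rw [LinearMap.zero_apply]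
  set ℓ : Fin 4 → F[X] := Fin.cons 1 (fun j => C (b.repr m j) + X * C (b.repr (m * w) j)) with hℓ
  have h0 : ∀ i, (ℓ i).eval 0 = P i := by
    intro i
    refine Fin.cases ?_ (fun j => ?_) i
    · simp [hℓ, hP]
    · simp [hℓ, hP]
  have h1 : (derivative (MvPolynomial.aeval ℓ (normCubic b a))).eval 0 = 0 := by
    rw [derivative_aeval_line, Polynomial.eval_finset_sum]
    refine Finset.sum_eq_zero fun i _ => ?_
    rw [Polynomial.eval_mul, eval_aeval]
    simp only [h0]
    rw [hcon i, zero_mul]
  have hL : ∀ c : M, Algebra.leftMulMatrix b c = ∑ k, b.repr c k • Algebra.leftMulMatrix b (b k) := by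
    intro c
    conv_lhs => rw [← b.sum_repr c]
    rw [map_sum]
    simp only [map_smul]
  have h2 : MvPolynomial.aeval ℓ (normCubic b a) =
      C (Algebra.norm F m) * Matrix.det (1 + (X : F[X]) • (Algebra.leftMulMatrix b w).map C) -
        C a := by
    rw [normCubic, map_sub, map_mul, map_pow, MvPolynomial.aeval_C, MvPolynomial.aeval_X,
      AlgHom.map_det]
    have hℓ0 : ℓ 0 = 1 := rfl
    rw [hℓ0, one_pow, mul_one]
    congr 1
    rw [Algebra.norm_eq_matrix_det b, RingHom.map_det, ← Matrix.det_mul]
    congr 1
    have h3 : (C : F →+* F[X]).mapMatrix (Algebra.leftMulMatrix b m) *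
        (1 + (X : F[X]) • (Algebra.leftMulMatrix b w).map C) =
        (Algebra.leftMulMatrix b m).map C +
          (X : F[X]) • (Algebra.leftMulMatrix b (m * w)).map C := by
      rw [Matrix.mul_add, Matrix.mul_one, Matrix.mul_smul, map_mul (Algebra.leftMulMatrix b),
        Matrix.map_mul]
      rfl
    rw [h3]
    ext1 i j
    rw [AlgHom.mapMatrix_apply, Matrix.map_apply, Matrix.sum_apply, map_sum, Matrix.add_apply,
      Matrix.smul_apply, Matrix.map_apply, Matrix.map_apply, hL m, hL (m * w), Matrix.sum_apply,
      Matrix.sum_apply, map_sum, map_sum, smul_eq_mul, Finset.mul_sum, ← Finset.sum_add_distrib]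
    refine Finset.sum_congr rfl fun k _ => ?_
    rw [Matrix.smul_apply, Matrix.map_apply, smul_eq_mul, map_mul, MvPolynomial.aeval_X,
      MvPolynomial.aeval_C, Matrix.smul_apply, Matrix.smul_apply, smul_eq_mul, smul_eq_mul,
      map_mul, map_mul]
    change (C (b.repr m k) + X * C (b.repr (m * w) k)) * C _ = _
    ring
  rw [h2, derivative_sub, derivative_C, sub_zero, derivative_C_mul, Polynomial.eval_mul,
    Polynomial.eval_C, Matrix.derivative_det_one_add_X_smul, hm] at h1
  rw [Algebra.trace_eq_matrix_trace b]
  exact (mul_eq_zero.mp h1).resolve_left ha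

/-- The norm surface `N(x) = a` of a separable cubic field extension; for a cyclic extension this
is a model of the function field of a Severi-Brauer surface. -/
theorem norm_formula [Algebra.IsSeparable F M] (ha : a ≠ 0)
    [hI : (Ideal.span (Set.range fun _ : Fin 1 => normCubic b a)).IsPrime] :
    (¬ IsRational F (projFunctionField (1 : Fin 4 → ℕ)
        (Ideal.span (Set.range fun _ : Fin 1 => normCubic b a))) →
      irr F (projFunctionField (1 : Fin 4 → ℕ)
        (Ideal.span (Set.range fun _ : Fin 1 => normCubic b a))) =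
      max 2 (minDegree (Ideal.span (Set.range fun _ : Fin 1 => normCubic b a)))) ∧
    ((∃ m : M, Algebra.norm F m = a) →
      minDegree (Ideal.span (Set.range fun _ : Fin 1 => normCubic b a)) = 1) ∧
    ((¬ ∃ m : M, Algebra.norm F m = a) →
      minDegree (Ideal.span (Set.range fun _ : Fin 1 => normCubic b a)) = 3) := by
  by_cases hm : ∃ m : M, Algebra.norm F m = a
  · obtain ⟨m, hm⟩ := hm
    set f : Fin 1 → MvPolynomial (Fin 4) F := fun _ => normCubic b a with hf
    set I := Ideal.span (Set.range f) with hIdef
    have hf' : ∀ i, (f i).IsHomogeneous 3 := fun _ => isHomogeneous_normCubic b a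
    have hI' : I = Ideal.span {f 0} := by
      rw [hIdef]
      congr 1
      ext g
      simp [Fin.exists_fin_one, eq_comm]
    have hX : (MvPolynomial.X 3 : MvPolynomial (Fin 4) F) ∉ I := by
      intro h
      have h3 := coeff_eq_zero_of_mem_span (m := 3) (by
        rintro g ⟨i, rfl⟩
        exact hf' i) h (d := Finsupp.single 3 1) (by simp)
      simp at h3
    have hgen := isGenericPoint_genPt (F := F) (I := I) (j := 3) rfl hX
    set K := projFunctionField (1 : Fin 4 → ℕ) I with hK
    set x := genPt (1 : Fin 4 → ℕ) (I := I) (j := 3) rfl with hx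
    have htr : 2 ≤ Algebra.trdeg F K :=
      le_trdeg_projFunctionField (1 : Fin 4 → ℕ) (j := 3) rfl hX (m := 2)
        (three_le_trdeg {f 0} (by rw [Finset.coe_singleton]; exact hI') hI (by simp))
    have hgen' : IsGenericPoint (Ideal.span {f 0}) x := hI' ▸ hgen
    set P : Fin 4 → F := Fin.cons 1 (fun j => b.repr m j) with hP
    have hP0 : P ≠ 0 := by
      intro h
      have := congrFun h 0
      simp [hP] at this
    have hPf : MvPolynomial.aeval P (f 0) = 0 := by
      rw [hf]
      simp only
      rw [aeval_normCubic]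
      have h1 : ∑ i : Fin 3, P i.succ • b i = m := b.sum_repr m
      rw [h1, hm]
      simp [hP]
    have hδ : minDegree I = 1 := by
      apply minDegree_eq_one
      rw [hIdef, hasPoint_span]
      exact ⟨P, hP0, fun i => hPf⟩
    obtain ⟨h3, h4⟩ : 0 < irr F K ∧ irr F K ≤ 2 :=
      cubic_irr_le_two (hf' 0) hgen' htr P hP0 hPf (normCubic_smooth b a ha hm)
    refine ⟨fun hrat => ?_, fun _ => hδ, fun h => absurd ⟨m, hm⟩ h⟩
    have h5 : irr F K ≠ 1 := fun h => hrat (isRational_of_irr_eq_one h)
    rw [hδ]
    change irr F K = _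
    omega
  · have h1 := severiBrauer_formula b a (fun m h => hm ⟨m, h⟩)
    refine ⟨fun _ => ?_, fun h => absurd h hm, fun _ => h1.2⟩
    rw [h1.2, h1.1]
    rfl

end

end Pool.Agent.Helper17.Irr
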