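import Mathlib
import Pool.Agent.Helper17.Irr.Defs

/-!
# Function fields of geometrically integral varieties
-/

set_option linter.style.haveILetI false
set_option linter.deprecated false

namespace Pool.Agent.Helper17.Irr

universe u v w

section

variable {F : Type u} [Field F] {E : Type v} [Field E] [Algebra F E] {ι : Type}

/-- Apply a linear form to the coefficients of a polynomial. -/
noncomputable def coeffMap (φ : E →ₗ[F] F) (P : MvPolynomial ι E) : MvPolynomial ι F :=
  ∑ d ∈ P.support, MvPolynomial.monomial d (φ (P.coeff d))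

theorem coeff_coeffMap (φ : E →ₗ[F] F) (P : MvPolynomial ι E) (d : ι →₀ ℕ) :
    (coeffMap φ P).coeff d = φ (P.coeff d) := by
  classical
  rw [coeffMap, MvPolynomial.coeff_sum]
  simp only [MvPolynomial.coeff_monomial]
  rw [Finset.sum_ite_eq']
  by_cases h : d ∈ P.support
  · rw [if_pos h]
  · rw [if_neg h, MvPolynomial.notMem_support_iff.mp h, map_zero]

theorem coeffMap_add (φ : E →ₗ[F] F) (P Q : MvPolynomial ι E) :
    coeffMap φ (P + Q) = coeffMap φ P + coeffMap φ Q := by
  ext d
  simp only [coeff_coeffMap, MvPolynomial.coeff_add, map_add]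

theorem coeffMap_zero (φ : E →ₗ[F] F) : coeffMap φ (0 : MvPolynomial ι E) = 0 := by
  ext d
  simp only [coeff_coeffMap, MvPolynomial.coeff_zero, map_zero]

theorem coeffMap_mul_map (φ : E →ₗ[F] F) (P : MvPolynomial ι E) (g : MvPolynomial ι F) :
    coeffMap φ (P * MvPolynomial.map (algebraMap F E) g) = coeffMap φ P * g := by
  classical
  ext d
  rw [coeff_coeffMap, MvPolynomial.coeff_mul, MvPolynomial.coeff_mul, map_sum]
  refine Finset.sum_congr rfl fun x _ => ?_
  rw [MvPolynomial.coeff_map, mul_comm, ← Algebra.smul_def, map_smul, coeff_coeffMap, smul_eq_mul,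
    mul_comm]

theorem coeffMap_mem {s : Set (MvPolynomial ι F)} (φ : E →ₗ[F] F) {P : MvPolynomial ι E}
    (hP : P ∈ Ideal.span (MvPolynomial.map (algebraMap F E) '' s)) :
    coeffMap φ P ∈ Ideal.span s := by
  suffices h : ∀ A : MvPolynomial ι E, coeffMap φ (A * P) ∈ Ideal.span s by
    have := h 1
    rwa [one_mul] at this
  induction hP using Submodule.span_induction with
  | mem x hx =>
    obtain ⟨g, hg, rfl⟩ := hx
    intro A
    rw [coeffMap_mul_map]
    exact Ideal.mul_mem_left _ _ (Ideal.subset_span hg)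
  | zero =>
    intro A
    rw [mul_zero, coeffMap_zero]
    exact zero_mem _
  | add x y _ _ h1 h2 =>
    intro A
    rw [mul_add, coeffMap_add]
    exact add_mem (h1 A) (h2 A)
  | smul a x _ h =>
    intro A
    rw [smul_eq_mul, ← mul_assoc]
    exact h _

theorem exists_linear_retraction : ∃ φ : E →ₗ[F] F, φ 1 = 1 := by
  obtain ⟨φ, hφ⟩ := LinearMap.exists_leftInverse_of_injective (Algebra.linearMap F E)
    (LinearMap.ker_eq_bot.mpr (algebraMap F E).injective)
  refine ⟨φ, ?_⟩
  have := congrArg (fun ψ => ψ 1) hφ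
  simpa using this

theorem mem_of_map_mem {s : Set (MvPolynomial ι F)} {g : MvPolynomial ι F}
    (hg : MvPolynomial.map (algebraMap F E) g ∈
      Ideal.span (MvPolynomial.map (algebraMap F E) '' s)) : g ∈ Ideal.span s := by
  obtain ⟨φ, hφ⟩ := exists_linear_retraction (F := F) (E := E)
  have h1 := coeffMap_mem φ hg
  have h2 : coeffMap φ (MvPolynomial.map (algebraMap F E) g) = g := by
    ext d
    rw [coeff_coeffMap, MvPolynomial.coeff_map, Algebra.algebraMap_eq_smul_one, map_smul, hφ,
      smul_eq_mul, mul_one]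
  rwa [h2] at h1

/-- An element of `E` that is a quotient of two polynomials with coefficients in `F` modulo a
geometric ideal lies in `F`. -/
theorem exists_eq_of_sub_mem {s : Set (MvPolynomial ι F)} {g h : MvPolynomial ι F}
    (hh : h ∉ Ideal.span s) {ζ : E}
    (hz : MvPolynomial.map (algebraMap F E) g - MvPolynomial.C ζ *
      MvPolynomial.map (algebraMap F E) h ∈
      Ideal.span (MvPolynomial.map (algebraMap F E) '' s)) : ∃ a : F, ζ = algebraMap F E a := by
  by_contra hcon
  push Not at hcon
  -- a linear form killing `1` but not `ζ`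
  obtain ⟨φ, hφ1, hφζ⟩ : ∃ φ : E →ₗ[F] F, φ 1 = 0 ∧ φ ζ = -1 := by
    have hli : LinearIndependent F ![(1 : E), ζ] := by
      rw [LinearIndependent.pair_iff]
      intro a b hab
      have hb : b = 0 := by
        by_contra hb
        apply hcon (-a / b)
        have hb' : algebraMap F E b ≠ 0 := (map_ne_zero _).mpr hb
        rw [map_div₀, map_neg, eq_div_iff hb']
        rw [Algebra.smul_def, Algebra.smul_def, mul_one] at hab
        linear_combination hab
      refine ⟨?_, hb⟩
      rw [hb, zero_smul, add_zero, Algebra.smul_def, mul_one] at hab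
      exact (map_eq_zero _).mp hab
    obtain ⟨φ, hφ⟩ := LinearMap.exists_extend
      ((Module.Basis.span hli).constr F ![(0 : F), -1])
    have h0 : (1 : E) ∈ Submodule.span F (Set.range ![(1 : E), ζ]) :=
      Submodule.subset_span ⟨0, rfl⟩
    have h1 : ζ ∈ Submodule.span F (Set.range ![(1 : E), ζ]) := Submodule.subset_span ⟨1, rfl⟩
    refine ⟨φ, ?_, ?_⟩
    · have := congrArg (fun ψ => ψ ⟨1, h0⟩) hφ
      simp only [LinearMap.comp_apply, Submodule.subtype_apply] at this
      rw [this]
      have h2 : (⟨1, h0⟩ : Submodule.span F (Set.range ![(1 : E), ζ])) =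
        Module.Basis.span hli 0 := by
        apply Subtype.ext
        rw [Module.Basis.span_apply]
        rfl
      rw [h2, Module.Basis.constr_basis]
      rfl
    · have := congrArg (fun ψ => ψ ⟨ζ, h1⟩) hφ
      simp only [LinearMap.comp_apply, Submodule.subtype_apply] at this
      rw [this]
      have h2 : (⟨ζ, h1⟩ : Submodule.span F (Set.range ![(1 : E), ζ])) =
        Module.Basis.span hli 1 := by
        apply Subtype.ext
        rw [Module.Basis.span_apply]
        rfl
      rw [h2, Module.Basis.constr_basis]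
      rfl
  apply hh
  have h1 := coeffMap_mem φ hz
  have h2 : coeffMap φ (MvPolynomial.map (algebraMap F E) g - MvPolynomial.C ζ *
      MvPolynomial.map (algebraMap F E) h) = h := by
    ext d
    rw [coeff_coeffMap, MvPolynomial.coeff_sub, MvPolynomial.coeff_C_mul, MvPolynomial.coeff_map,
      MvPolynomial.coeff_map, map_sub, Algebra.algebraMap_eq_smul_one, map_smul, hφ1, smul_zero,
      mul_comm ζ, ← Algebra.smul_def, map_smul, hφζ, smul_eq_mul]
    ring
  rwa [h2] at h1

end

/-- The base field is algebraically closed in the function field of a geometrically integral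
variety. -/
theorem mem_range_of_isAlgebraic {F : Type u} [Field F] {ι : Type} {r : ℕ}
    (f : Fin r → MvPolynomial ι F) (hg : IsGeometricallyIntegral f)
    (I : Ideal (MvPolynomial ι F)) [hI : I.IsPrime] (hIdef : I = Ideal.span (Set.range f))
    (z : FractionRing (MvPolynomial ι F ⧸ I)) (hz : IsAlgebraic F z) :
    ∃ a : F, z = algebraMap F _ a := by
  set Fb := AlgebraicClosure F with hFb
  set J : Ideal (MvPolynomial ι Fb) := Ideal.span (MvPolynomial.map (algebraMap F Fb) '' Set.range f)
    with hJ
  have hJ' : J = Ideal.span (Set.range fun i =>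
      MvPolynomial.map (algebraMap F (AlgebraicClosure F)) (f i)) := by
    rw [hJ, ← Set.range_comp]
    rfl
  haveI hJp : J.IsPrime := by
    rw [hJ']
    exact hg
  have hmem : ∀ g : MvPolynomial ι F, MvPolynomial.map (algebraMap F Fb) g ∈ J ↔ g ∈ I := by
    intro g
    constructor
    · intro h
      rw [hIdef]
      exact mem_of_map_mem h
    · intro h
      have h1 : I ≤ J.comap (MvPolynomial.map (algebraMap F Fb)) := by
        rw [hIdef, Ideal.span_le]
        rintro _ ⟨i, rfl⟩
        exact Ideal.subset_span ⟨_, ⟨i, rfl⟩, rfl⟩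
      exact h1 h
  let ψ : (MvPolynomial ι F ⧸ I) →+* (MvPolynomial ι Fb ⧸ J) :=
    Ideal.quotientMap J (MvPolynomial.map (algebraMap F Fb)) (fun g hg => (hmem g).mpr hg)
  have hψ : Function.Injective ψ := by
    rw [injective_iff_map_eq_zero]
    intro a ha
    obtain ⟨a, rfl⟩ := Ideal.Quotient.mk_surjective a
    rw [Ideal.quotientMap_mk, Ideal.Quotient.eq_zero_iff_mem, hmem] at ha
    exact Ideal.Quotient.eq_zero_iff_mem.mpr ha
  let Kb := FractionRing (MvPolynomial ι Fb ⧸ J)
  have hinj : Function.Injective ((algebraMap (MvPolynomial ι Fb ⧸ J) Kb).comp ψ) := by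
    rw [RingHom.coe_comp]
    exact (IsFractionRing.injective (MvPolynomial ι Fb ⧸ J) Kb).comp hψ
  let j : FractionRing (MvPolynomial ι F ⧸ I) →+* Kb := IsFractionRing.lift hinj
  have hj : ∀ g : MvPolynomial ι F, j (algebraMap (MvPolynomial ι F ⧸ I) _ (Ideal.Quotient.mk I g))
      = algebraMap (MvPolynomial ι Fb ⧸ J) Kb
        (Ideal.Quotient.mk J (MvPolynomial.map (algebraMap F Fb) g)) := by
    intro g
    rw [IsFractionRing.lift_algebraMap]
    rfl
  have hjF : ∀ a : F, j (algebraMap F _ a) = algebraMap Fb Kb (algebraMap F Fb a) := by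
    intro a
    have h1 : algebraMap F (FractionRing (MvPolynomial ι F ⧸ I)) a =
        algebraMap (MvPolynomial ι F ⧸ I) _ (Ideal.Quotient.mk I (MvPolynomial.C a)) := rfl
    rw [h1, hj, MvPolynomial.map_C]
    rfl
  -- the image of `z` lies in the algebraic closure
  have hzalg : IsIntegral Fb (j z) := by
    obtain ⟨P, hP, hPz⟩ := hz
    have h1 : IsAlgebraic Fb (j z) := by
      refine ⟨P.map (algebraMap F Fb), (Polynomial.map_ne_zero_iff (algebraMap F Fb).injective).mpr hP, ?_⟩
      rw [Polynomial.aeval_def, Polynomial.eval₂_map]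
      have h2 : (algebraMap Fb Kb).comp (algebraMap F Fb) = j.comp (algebraMap F _) := by
        ext a
        exact (hjF a).symm
      rw [h2, ← Polynomial.hom_eval₂]
      have h3 : Polynomial.eval₂ (algebraMap F (FractionRing (MvPolynomial ι F ⧸ I))) z P = 0 := hPz
      rw [h3, map_zero]
    exact h1.isIntegral
  obtain ⟨ζ, hζ⟩ : ∃ ζ : Fb, algebraMap Fb Kb ζ = j z := by
    have h1 := IsAlgClosed.degree_eq_one_of_irreducible Fb (minpoly.irreducible hzalg)
    have h2 := minpoly.mem_range_of_degree_eq_one Fb (j z) h1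
    exact h2
  -- write `z` as a quotient
  obtain ⟨a, b, hb, rfl⟩ := IsFractionRing.div_surjective (A := MvPolynomial ι F ⧸ I) z
  obtain ⟨g, rfl⟩ := Ideal.Quotient.mk_surjective a
  obtain ⟨h, rfl⟩ := Ideal.Quotient.mk_surjective b
  have hh : h ∉ I := by
    intro h0
    have h1 := nonZeroDivisors.ne_zero hb
    exact h1 (Ideal.Quotient.eq_zero_iff_mem.mpr h0)
  have hh' : algebraMap (MvPolynomial ι F ⧸ I) (FractionRing (MvPolynomial ι F ⧸ I))
      (Ideal.Quotient.mk I h) ≠ 0 := by
    rw [Ne, map_eq_zero_iff _ (IsFractionRing.injective _ _)]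
    exact nonZeroDivisors.ne_zero hb
  have hsub : MvPolynomial.map (algebraMap F Fb) g - MvPolynomial.C ζ *
      MvPolynomial.map (algebraMap F Fb) h ∈ J := by
    rw [← Ideal.Quotient.eq_zero_iff_mem, ← map_eq_zero_iff _
      (IsFractionRing.injective (MvPolynomial ι Fb ⧸ J) Kb), map_sub, map_sub, map_mul, map_mul,
      ← hj, ← hj]
    have h1 : algebraMap (MvPolynomial ι Fb ⧸ J) Kb (Ideal.Quotient.mk J (MvPolynomial.C ζ)) =
        algebraMap Fb Kb ζ := rfl
    rw [h1, hζ, map_div₀]
    have h2 : j (algebraMap (MvPolynomial ι F ⧸ I) _ (Ideal.Quotient.mk I h)) ≠ 0 :=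
      (map_ne_zero j).mpr hh'
    rw [div_mul_cancel₀ _ h2, sub_self]
  obtain ⟨a, ha⟩ := exists_eq_of_sub_mem (hIdef ▸ hh) hsub
  refine ⟨a, ?_⟩
  rw [div_eq_iff hh']
  apply j.injective
  rw [map_mul, hjF, ← ha, hζ, map_div₀]
  have h2 : j (algebraMap (MvPolynomial ι F ⧸ I) _ (Ideal.Quotient.mk I h)) ≠ 0 :=
    (map_ne_zero j).mpr hh'
  rw [div_mul_cancel₀ _ h2]

end Pool.Agent.Helper17.Irr
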