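import Mathlib
import Pool.Agent.Helper17.Irr.Conic

/-!
# Computations for Weil restrictions of conics
-/

set_option linter.style.haveILetI false
set_option linter.deprecated false

namespace Pool.Agent.Helper17.Irr

open IntermediateField

universe u v w

section

variable {F : Type u} [Field F] {K : Type v} [Field K] [Algebra F K]

open scoped IntermediateField.algebraAdjoinAdjoin in
theorem trdeg_le_one (a : K) [FiniteDimensional F⟮a⟯ K] : Algebra.trdeg F K ≤ 1 := by
  have h1 : Algebra.IsAlgebraic F⟮a⟯ K := inferInstance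
  have halg : Algebra.IsAlgebraic (Algebra.adjoin F {a}) K := by
    constructor
    intro z
    exact (IsFractionRing.isAlgebraic_iff (Algebra.adjoin F {a}) F⟮a⟯ K).mpr (h1.isAlgebraic z)
  have := Algebra.IsAlgebraic.trdeg_le_cardinalMk F ({a} : Set K)
  simpa using this

/-- Elimination for `y ^ 2 + u y + w = 0` over a quadratic algebra. -/
theorem res_irr_le_four (htr : 2 ≤ Algebra.trdeg F K) (p q : F) (hpq : q ^ 2 + 4 * p ≠ 0)
    (x₁ x₂ y₁ y₂ : K) (htop : IntermediateField.adjoin F {x₁, x₂, y₁, y₂} = ⊤)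
    (u₁ u₂ w₁ w₂ : K) (hu₁ : u₁ ∈ IntermediateField.adjoin F {x₁, x₂})
    (hu₂ : u₂ ∈ IntermediateField.adjoin F {x₁, x₂})
    (hw₁ : w₁ ∈ IntermediateField.adjoin F {x₁, x₂})
    (hw₂ : w₂ ∈ IntermediateField.adjoin F {x₁, x₂})
    (h₁ : y₁ ^ 2 + algebraMap F K p * y₂ ^ 2 + (u₁ * y₁ + algebraMap F K p * u₂ * y₂) + w₁ = 0)
    (h₂ : 2 * y₁ * y₂ + algebraMap F K q * y₂ ^ 2 +
      (u₁ * y₂ + u₂ * y₁ + algebraMap F K q * u₂ * y₂) + w₂ = 0) :
    0 < irr F K ∧ irr F K ≤ 4 := by
  set k := IntermediateField.adjoin F {x₁, x₂} with hk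
  have htop' : IntermediateField.adjoin k {y₁, y₂} = ⊤ := by
    rw [← IntermediateField.restrictScalars_eq_top_iff (K := F), hk,
      IntermediateField.adjoin_adjoin_left, ← htop]
    congr 1
    ext z
    simp only [Set.mem_union, Set.mem_insert_iff, Set.mem_singleton_iff]
    tauto
  obtain ⟨hfin, hle⟩ := two_conics (k := k) y₁ y₂ htop' 1 0 (algebraMap F k p) ⟨u₁, hu₁⟩
    (algebraMap F k p * ⟨u₂, hu₂⟩) ⟨w₁, hw₁⟩ 2 (algebraMap F k q) ⟨u₂, hu₂⟩
    (⟨u₁, hu₁⟩ + algebraMap F k q * ⟨u₂, hu₂⟩) ⟨w₂, hw₂⟩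
    (by
      simp only [map_one, map_zero, map_mul, ← IsScalarTower.algebraMap_apply]
      have e1 : algebraMap k K ⟨u₁, hu₁⟩ = u₁ := rfl
      have e2 : algebraMap k K ⟨u₂, hu₂⟩ = u₂ := rfl
      have e3 : algebraMap k K ⟨w₁, hw₁⟩ = w₁ := rfl
      rw [e1, e2, e3]
      linear_combination h₁)
    (by
      simp only [map_ofNat, map_add, map_mul, ← IsScalarTower.algebraMap_apply]
      have e1 : algebraMap k K ⟨u₁, hu₁⟩ = u₁ := rfl
      have e2 : algebraMap k K ⟨u₂, hu₂⟩ = u₂ := rfl
      have e3 : algebraMap k K ⟨w₂, hw₂⟩ = w₂ := rfl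
      rw [e1, e2, e3]
      linear_combination h₂)
    one_ne_zero
    (by
      have h3 : algebraMap F k (q ^ 2 + 4 * p) ≠ 0 := (map_ne_zero _).mpr hpq
      simp only [map_add, map_mul, map_pow, map_ofNat] at h3
      intro h4
      apply h3
      linear_combination h4)
  haveI := hfin
  exact irr_le_of_finiteDimensional htr x₁ x₂ hle

/-- Elimination for `t ^ 2 - b s t - c s ^ 2 + l s + m t + n = 0` over a quadratic algebra. -/
theorem res_irr_le_two (htr : 2 ≤ Algebra.trdeg F K) (p q b c : F)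
    (s₁ s₂ t₁ t₂ : K) (htop : IntermediateField.adjoin F {s₁, s₂, t₁, t₂} = ⊤)
    (hn : ∀ x y : K, y ^ 2 - algebraMap F K b * x * y - algebraMap F K c * x ^ 2 = 0 →
      x = 0 ∧ y = 0)
    (l₁ l₂ m₁ m₂ n₁ n₂ : F)
    (hnd : b ^ 2 + 4 * c ≠ 0 ∨ (b = 0 ∧ (2 : F) = 0 ∧ (l₂ ≠ 0 ∨ m₂ ≠ 0)))
    (h₁ : (t₁ ^ 2 - algebraMap F K b * s₁ * t₁ - algebraMap F K c * s₁ ^ 2) +
      algebraMap F K p * (t₂ ^ 2 - algebraMap F K b * s₂ * t₂ - algebraMap F K c * s₂ ^ 2) +
      (algebraMap F K l₁ * s₁ + algebraMap F K p * algebraMap F K l₂ * s₂) +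
      (algebraMap F K m₁ * t₁ + algebraMap F K p * algebraMap F K m₂ * t₂) +
      algebraMap F K n₁ = 0)
    (h₂ : (2 * t₁ * t₂ - algebraMap F K b * (s₁ * t₂ + s₂ * t₁) -
        2 * algebraMap F K c * s₁ * s₂) +
      algebraMap F K q * (t₂ ^ 2 - algebraMap F K b * s₂ * t₂ - algebraMap F K c * s₂ ^ 2) +
      (algebraMap F K l₁ * s₂ + algebraMap F K l₂ * s₁ +
        algebraMap F K q * algebraMap F K l₂ * s₂) +
      (algebraMap F K m₁ * t₂ + algebraMap F K m₂ * t₁ +
        algebraMap F K q * algebraMap F K m₂ * t₂) +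
      algebraMap F K n₂ = 0) :
    0 < irr F K ∧ irr F K ≤ 2 := by
  set k := IntermediateField.adjoin F {s₂, t₂} with hk
  have hs : s₂ ∈ k := IntermediateField.subset_adjoin F _ (Set.mem_insert _ _)
  have ht : t₂ ∈ k :=
    IntermediateField.subset_adjoin F _ (Set.mem_insert_of_mem _ (Set.mem_singleton _))
  set s : k := ⟨s₂, hs⟩ with hsdef
  set t : k := ⟨t₂, ht⟩ with htdef
  have hsK : algebraMap k K s = s₂ := rfl
  have htK : algebraMap k K t = t₂ := rfl
  have htop' : IntermediateField.adjoin k {s₁, t₁} = ⊤ := by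
    rw [← IntermediateField.restrictScalars_eq_top_iff (K := F), hk,
      IntermediateField.adjoin_adjoin_left, ← htop]
    congr 1
    ext z
    simp only [Set.mem_union, Set.mem_insert_iff, Set.mem_singleton_iff]
    tauto
  set a := algebraMap F k with ha
  set l' : k := -(a b * t) - 2 * a c * s + a l₂ with hl'
  set m' : k := 2 * t - a b * s + a m₂ with hm'
  have haK : ∀ z : F, algebraMap k K (a z) = algebraMap F K z := fun z => rfl
  have hρ : -(a c) * m' ^ 2 - (-(a b)) * l' * m' + 1 * l' ^ 2 ≠ 0 := by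
    intro h0
    have h3 := congrArg (algebraMap k K) h0
    simp only [map_add, map_sub, map_mul, map_neg, map_pow, map_one, map_zero, haK] at h3
    obtain ⟨h4, h5⟩ := hn (-(algebraMap k K m')) (algebraMap k K l') (by linear_combination h3)
    have h6 : algebraMap k K m' = 0 := by linear_combination -h4
    rw [hl'] at h5
    rw [hm'] at h6
    simp only [map_add, map_sub, map_mul, map_neg, map_ofNat, haK, hsK, htK] at h5 h6
    rcases hnd with hD | ⟨hb, h2, hlm⟩
    · -- then `s₂` and `t₂` are constants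
      have hD' : algebraMap F K b ^ 2 + 4 * algebraMap F K c ≠ 0 := by
        have := (map_ne_zero (algebraMap F K)).mpr hD
        simpa only [map_add, map_mul, map_pow, map_ofNat] using this
      have es : s₂ = algebraMap F K ((2 * l₂ + b * m₂) / (b ^ 2 + 4 * c)) := by
        rw [map_div₀, eq_div_iff ((map_ne_zero _).mpr hD)]
        simp only [map_add, map_mul, map_pow, map_ofNat]
        linear_combination -2 * h5 - algebraMap F K b * h6
      have et : t₂ = algebraMap F K ((b * l₂ - 2 * c * m₂) / (b ^ 2 + 4 * c)) := by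
        rw [map_div₀, eq_div_iff ((map_ne_zero _).mpr hD)]
        simp only [map_add, map_sub, map_mul, map_pow, map_ofNat]
        linear_combination -algebraMap F K b * h5 + 2 * algebraMap F K c * h6
      set σ := (2 * l₂ + b * m₂) / (b ^ 2 + 4 * c) with hσ
      set τ := (b * l₂ - 2 * c * m₂) / (b ^ 2 + 4 * c) with hτ
      -- `K = F(s₁, t₁)` with one relation
      have htop2 : F⟮s₁⟯⟮t₁⟯ = ⊤ := by
        rw [← IntermediateField.restrictScalars_eq_top_iff (K := F),
          IntermediateField.adjoin_adjoin_left, eq_top_iff, ← htop,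
          IntermediateField.adjoin_le_iff]
        rintro z (rfl | rfl | rfl | rfl)
        · exact IntermediateField.subset_adjoin F _ (by simp)
        · rw [es]
          exact IntermediateField.algebraMap_mem _ _
        · exact IntermediateField.subset_adjoin F _ (by simp)
        · rw [et]
          exact IntermediateField.algebraMap_mem _ _
      have hfin : FiniteDimensional F⟮s₁⟯ K := by
        refine (finrank_le_two_of_root t₁ htop2 1
          (-(algebraMap F F⟮s₁⟯ b * AdjoinSimple.gen F s₁) + algebraMap F F⟮s₁⟯ m₁)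
          (-(algebraMap F F⟮s₁⟯ c * AdjoinSimple.gen F s₁ ^ 2) +
            algebraMap F F⟮s₁⟯ l₁ * AdjoinSimple.gen F s₁ +
            algebraMap F F⟮s₁⟯ (p * (τ ^ 2 - b * σ * τ - c * σ ^ 2) + p * l₂ * σ + p * m₂ * τ + n₁))
          (Or.inl one_ne_zero) ?_).1
        rw [es, et] at h₁
        simp only [map_add, map_sub, map_neg, map_mul, map_pow, map_one,
          ← IsScalarTower.algebraMap_apply, IntermediateField.AdjoinSimple.algebraMap_gen] at h₁ ⊢
        linear_combination h₁
      have h7 := trdeg_le_one (F := F) s₁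
      exact absurd (htr.trans h7) (by norm_num)
    · have hb' : algebraMap F K b = 0 := by rw [hb, map_zero]
      have h2' : (2 : K) = 0 := by
        have := congrArg (algebraMap F K) h2
        rwa [map_ofNat, map_zero] at this
      rw [hb', h2'] at h5
      rw [hb', h2'] at h6
      rcases hlm with h | h
      · apply h
        have : algebraMap F K l₂ = 0 := by linear_combination h5
        exact (map_eq_zero _).mp this
      · apply h
        have : algebraMap F K m₂ = 0 := by linear_combination h6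
        exact (map_eq_zero _).mp this
  obtain ⟨hfin, hle⟩ := conic_line (k := k) s₁ t₁ htop' (-(a c)) (-(a b)) 1 (a l₁) (a m₁)
    (a p * (t ^ 2 - a b * s * t - a c * s ^ 2) + a p * a l₂ * s + a p * a m₂ * t + a n₁)
    l' m' (a q * (t ^ 2 - a b * s * t - a c * s ^ 2) + (a l₁ + a q * a l₂) * s +
      (a m₁ + a q * a m₂) * t + a n₂)
    (by
      simp only [map_add, map_sub, map_mul, map_neg, map_pow, map_one, haK, hsK, htK]
      linear_combination h₁)
    (by
      rw [hl', hm']
      simp only [map_add, map_sub, map_mul, map_neg, map_pow, map_one, map_ofNat, haK, hsK, htK]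
      linear_combination h₂)
    hρ
  haveI := hfin
  exact irr_le_of_finiteDimensional htr s₂ t₂ hle

end

end Pool.Agent.Helper17.Irr
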