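import Mathlib
import Pool.Agent.Helper17.Irr.DefsRes
import Pool.Agent.Helper17.Irr.ResCore
import Pool.Agent.Helper17.Irr.Regular

/-!
# Weil restrictions of conics: basic facts
-/

set_option linter.style.haveILetI false
set_option linter.deprecated false

namespace Pool.Agent.Helper17.Irr

open IntermediateField

universe u v w

section

variable {F : Type u} [Field F] {p q : F}

@[simp] theorem QA.map_re {S : Type v} {T : Type w} [CommRing S] [CommRing T]
    [Algebra F S] [Algebra F T] (f : S →ₐ[F] T) (z : QA p q S) : (QA.map p q f z).re = f z.re := rfl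

@[simp] theorem QA.map_im {S : Type v} {T : Type w} [CommRing S] [CommRing T]
    [Algebra F S] [Algebra F T] (f : S →ₐ[F] T) (z : QA p q S) : (QA.map p q f z).im = f z.im := rfl

theorem QA.map_map_ofId {S : Type v} {T : Type w} [CommRing S] [CommRing T]
    [Algebra F S] [Algebra F T] (f : S →ₐ[F] T) (z : QA p q F) :
    QA.map p q f (QA.map p q (Algebra.ofId F S) z) = QA.map p q (Algebra.ofId F T) z := by
  ext
  · simp [Algebra.ofId_apply]
  · simp [Algebra.ofId_apply]

theorem conicVal_map (c : Fin 3 → Fin 3 → QA p q F) {S : Type v} {T : Type w} [CommRing S]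
    [CommRing T] [Algebra F S] [Algebra F T] (f : S →ₐ[F] T) (v : Fin 3 → QA p q S) :
    QA.map p q f (conicVal c S v) = conicVal c T (fun i => QA.map p q f (v i)) := by
  simp only [conicVal, map_sum, map_mul, QA.map_map_ofId]

theorem QA.isUnit_iff {L : Type v} [Field L] [Algebra F L] (z : QA p q L) :
    IsUnit z ↔ QuadraticAlgebra.norm z ≠ 0 := by
  rw [QuadraticAlgebra.isUnit_iff_norm_isUnit, isUnit_iff_ne_zero]

end

/-! ### The generic point -/

section

variable {F : Type u} [Field F] {p q : F} (c : Fin 3 → Fin 3 → QA p q F)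

/-- The data of a generic point of the Weil restriction of the conic. -/
structure IsResGeneric (K : Type v) [Field K] [Algebra F K] (x y : QA p q K) : Prop where
  trdeg : 2 ≤ Algebra.trdeg F K
  mem_range : ∀ z : K, IsAlgebraic F z → ∃ a : F, z = algebraMap F K a
  top : IntermediateField.adjoin F {x.re, x.im, y.re, y.im} = ⊤
  eq : conicVal c K ![x, y, 1] = 0

theorem le_trdeg_fractionRing {n : ℕ} {r : ℕ} (f : Fin r → MvPolynomial (Fin n) F)
    (I : Ideal (MvPolynomial (Fin n) F)) [hI : I.IsPrime] (hIf : I = Ideal.span (Set.range f))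
    {m : ℕ} (hm : r + m ≤ n) :
    (m : Cardinal) ≤ Algebra.trdeg F (FractionRing (MvPolynomial (Fin n) F ⧸ I)) := by
  classical
  have h1 : (m : Cardinal) ≤ Algebra.trdeg F (MvPolynomial (Fin n) F ⧸ I) := by
    have h2 : I = Ideal.span ((Finset.univ.image f : Finset (MvPolynomial (Fin n) F)) :
        Set (MvPolynomial (Fin n) F)) := by
      rw [hIf]
      congr 1
      simp
    subst h2
    refine le_trdeg_quotient (Finset.univ.image f) hI m ?_
    have := Finset.card_image_le (s := Finset.univ) (f := f)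
    rw [Finset.card_univ, Fintype.card_fin] at this
    omega
  exact h1.trans (_root_.trdeg_le_of_injective (IsScalarTower.toAlgHom F (MvPolynomial (Fin n) F ⧸ I)
    (FractionRing (MvPolynomial (Fin n) F ⧸ I))) (IsFractionRing.injective _ _))

/-- Coordinates of the generic point of an affine variety. -/
noncomputable def affPt {n : ℕ} (I : Ideal (MvPolynomial (Fin n) F)) [I.IsPrime] (i : Fin n) :
    FractionRing (MvPolynomial (Fin n) F ⧸ I) :=
  algebraMap (MvPolynomial (Fin n) F ⧸ I) _ (Ideal.Quotient.mk I (MvPolynomial.X i))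

theorem aeval_affPt {n : ℕ} (I : Ideal (MvPolynomial (Fin n) F)) [I.IsPrime]
    (g : MvPolynomial (Fin n) F) : MvPolynomial.aeval (affPt I) g =
      algebraMap (MvPolynomial (Fin n) F ⧸ I) _ (Ideal.Quotient.mk I g) := by
  have h : (MvPolynomial.aeval (affPt I) : MvPolynomial (Fin n) F →ₐ[F] _) =
      (IsScalarTower.toAlgHom F (MvPolynomial (Fin n) F ⧸ I)
        (FractionRing (MvPolynomial (Fin n) F ⧸ I))).comp (Ideal.Quotient.mkₐ F I) := by
    ext i
    simp [affPt]
  rw [h]
  rfl

theorem aeval_affPt_eq_zero {n : ℕ} (I : Ideal (MvPolynomial (Fin n) F)) [I.IsPrime]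
    (g : MvPolynomial (Fin n) F) (hg : g ∈ I) : MvPolynomial.aeval (affPt I) g = 0 := by
  rw [aeval_affPt, Ideal.Quotient.eq_zero_iff_mem.mpr hg, map_zero]

theorem adjoin_affPt {n : ℕ} (I : Ideal (MvPolynomial (Fin n) F)) [I.IsPrime] :
    IntermediateField.adjoin F (Set.range (affPt I)) = ⊤ := by
  rw [eq_top_iff]
  intro z _
  have hpoly : ∀ g : MvPolynomial (Fin n) F, MvPolynomial.aeval (affPt I) g ∈
      IntermediateField.adjoin F (Set.range (affPt I)) := by
    intro g
    have h6 : MvPolynomial.aeval (affPt I) g ∈ Algebra.adjoin F (Set.range (affPt I)) := by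
      rw [Algebra.adjoin_range_eq_range_aeval]
      exact ⟨g, rfl⟩
    exact IntermediateField.algebra_adjoin_le_adjoin _ _ h6
  obtain ⟨a, b, -, rfl⟩ := IsFractionRing.div_surjective (A := MvPolynomial (Fin n) F ⧸ I) z
  obtain ⟨a, rfl⟩ := Ideal.Quotient.mk_surjective a
  obtain ⟨b, rfl⟩ := Ideal.Quotient.mk_surjective b
  have ha := hpoly a
  have hb := hpoly b
  rw [aeval_affPt] at ha hb
  exact div_mem ha hb

theorem isResGeneric (hg : IsGeometricallyIntegral (resEquations c))
    [hI : (Ideal.span (Set.range (resEquations c))).IsPrime] :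
    IsResGeneric c (FractionRing (MvPolynomial (Fin 4) F ⧸ Ideal.span (Set.range (resEquations c))))
      ⟨affPt _ 0, affPt _ 1⟩ ⟨affPt _ 2, affPt _ 3⟩ where
  trdeg := le_trdeg_fractionRing (resEquations c) _ rfl (m := 2) (by norm_num)
  mem_range := mem_range_of_isAlgebraic _ hg _ rfl
  top := by
    rw [← adjoin_affPt]
    congr 1
    ext z
    simp only [Set.mem_insert_iff, Set.mem_singleton_iff, Set.mem_range, Fin.exists_fin_succ,
      Fin.exists_fin_zero]
    constructor
    · rintro (rfl | rfl | rfl | rfl)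
      · exact Or.inl rfl
      · exact Or.inr (Or.inl rfl)
      · exact Or.inr (Or.inr (Or.inl rfl))
      · exact Or.inr (Or.inr (Or.inr (Or.inl rfl)))
    · rintro (rfl | rfl | rfl | rfl | h)
      · exact Or.inl rfl
      · exact Or.inr (Or.inl rfl)
      · exact Or.inr (Or.inr (Or.inl rfl))
      · exact Or.inr (Or.inr (Or.inr rfl))
      · exact h.elim
  eq := by
    set I := Ideal.span (Set.range (resEquations c)) with hIdef
    have h1 := conicVal_map c (MvPolynomial.aeval (affPt I))
      ![⟨MvPolynomial.X 0, MvPolynomial.X 1⟩, ⟨MvPolynomial.X 2, MvPolynomial.X 3⟩, 1]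
    have h2 : (fun i => QA.map p q (MvPolynomial.aeval (affPt I))
        ((![⟨MvPolynomial.X 0, MvPolynomial.X 1⟩, ⟨MvPolynomial.X 2, MvPolynomial.X 3⟩, 1] :
          Fin 3 → QA p q (MvPolynomial (Fin 4) F)) i)) =
        ![⟨affPt I 0, affPt I 1⟩, ⟨affPt I 2, affPt I 3⟩, 1] := by
      ext i
      · fin_cases i <;> simp
      · fin_cases i <;> simp
    rw [h2] at h1
    rw [← h1]
    ext
    · exact aeval_affPt_eq_zero I _ (Ideal.subset_span ⟨0, rfl⟩)
    · exact aeval_affPt_eq_zero I _ (Ideal.subset_span ⟨1, rfl⟩)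

end

end Pool.Agent.Helper17.Irr
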