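import Mathlib
import Pool.Agent.Helper17.Irr.ResBasic

/-!
# Weil restrictions of conics: the lower bound
-/

set_option linter.style.haveILetI false
set_option linter.deprecated false

namespace Pool.Agent.Helper17.Irr

open IntermediateField QuadraticAlgebra

universe u v w

section

variable {F : Type u} [Field F] {p q : F}

theorem QA.map_star {S : Type v} {T : Type w} [CommRing S] [CommRing T]
    [Algebra F S] [Algebra F T] (f : S →ₐ[F] T) (z : QA p q S) :
    QA.map p q f (star z) = star (QA.map p q f z) := by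
  ext
  · simp
  · simp

/-- A pair of homogeneous polynomials. -/
def QHom {ι : Type} (n : ℕ) (z : QA p q (MvPolynomial ι F)) : Prop :=
  z.re.IsHomogeneous n ∧ z.im.IsHomogeneous n

theorem QHom.add {ι : Type} {n : ℕ} {z w : QA p q (MvPolynomial ι F)} (hz : QHom n z)
    (hw : QHom n w) : QHom n (z + w) :=
  ⟨hz.1.add hw.1, hz.2.add hw.2⟩

theorem QHom.sub {ι : Type} {n : ℕ} {z w : QA p q (MvPolynomial ι F)} (hz : QHom n z)
    (hw : QHom n w) : QHom n (z - w) :=
  ⟨hz.1.sub hw.1, hz.2.sub hw.2⟩

theorem QHom.star {ι : Type} {n : ℕ} {z : QA p q (MvPolynomial ι F)} (hz : QHom n z) :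
    QHom n (star z) := by
  refine ⟨?_, ?_⟩
  · rw [re_star]
    exact hz.1.add (hz.2.C_mul q)
  · rw [im_star]
    exact hz.2.neg

theorem QHom.mul {ι : Type} {n m : ℕ} {z w : QA p q (MvPolynomial ι F)} (hz : QHom n z)
    (hw : QHom m w) : QHom (n + m) (z * w) := by
  refine ⟨?_, ?_⟩
  · rw [re_mul]
    refine (hz.1.mul hw.1).add ?_
    rw [mul_assoc]
    exact (hz.2.mul hw.2).C_mul p
  · rw [im_mul]
    refine ((hz.1.mul hw.2).add (hz.2.mul hw.1)).add ?_
    rw [mul_assoc]
    exact (hz.2.mul hw.2).C_mul q

theorem QHom.base {ι : Type} (z : QA p q F) :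
    QHom 0 (QA.map p q (Algebra.ofId F (MvPolynomial ι F)) z) :=
  ⟨MvPolynomial.isHomogeneous_C _ _, MvPolynomial.isHomogeneous_C _ _⟩

theorem QHom.sum {ι κ : Type} (s : Finset κ) {n : ℕ} (z : κ → QA p q (MvPolynomial ι F))
    (hz : ∀ i ∈ s, QHom n (z i)) : QHom n (∑ i ∈ s, z i) := by
  classical
  induction s using Finset.induction_on with
  | empty =>
    rw [Finset.sum_empty]
    exact ⟨MvPolynomial.isHomogeneous_zero _ _ _, MvPolynomial.isHomogeneous_zero _ _ _⟩
  | insert a s ha ih =>
    rw [Finset.sum_insert ha]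
    exact (hz a (Finset.mem_insert_self _ _)).add
      (ih fun i hi => hz i (Finset.mem_insert_of_mem hi))

variable (c : Fin 3 → Fin 3 → QA p q F)

/-- The Hermitian matrix of variables. -/
noncomputable def herm (i j : Fin 3) : QA p q (MvPolynomial (Fin 3 × Fin 3 × Fin 2) F) :=
  ⟨MvPolynomial.X (i, j, 0), MvPolynomial.X (i, j, 1)⟩

theorem QHom.herm (i j : Fin 3) : QHom 1 (herm (F := F) (p := p) (q := q) i j) :=
  ⟨MvPolynomial.isHomogeneous_X _ _, MvPolynomial.isHomogeneous_X _ _⟩

/-- A rank one Hermitian matrix satisfying the equations gives a point of the conic. -/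
theorem exists_point_of_herm {L : Type v} [Field L] [Algebra F L] (hpq : q ^ 2 + 4 * p ≠ 0)
    (h : Fin 3 → Fin 3 → QA p q L) (hne : ∃ k l, h k l ≠ 0)
    (h1 : ∀ i j, star (h i j) = h j i) (_h2 : ∀ i j k l, h i j * h k l = h i l * h k j)
    (h3 : ∀ k l, ∑ i, ∑ j, QA.map p q (Algebra.ofId F L) (c i j) * (h i k * h j l) = 0) :
    HasResPoint c L := by
  obtain ⟨k, l, hkl⟩ := hne
  by_cases hN : QuadraticAlgebra.norm (h k l) = 0
  · -- a zero divisor
    set z := h k l with hz
    set T := 2 * z.re + algebraMap F L q * z.im with hT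
    have hpq' : algebraMap F L q ^ 2 + 4 * algebraMap F L p ≠ 0 := by
      have := (map_ne_zero (algebraMap F L)).mpr hpq
      simpa only [map_add, map_mul, map_pow, map_ofNat] using this
    have hT0 : T ≠ 0 := by
      intro hT0
      rw [norm_def] at hN
      have e1 : (algebraMap F L q ^ 2 + 4 * algebraMap F L p) * z.im ^ 2 = 0 := by
        rw [hT] at hT0
        linear_combination -4 * hN + (2 * z.re + algebraMap F L q * z.im) * hT0
      have e2 : z.im = 0 := by
        rcases mul_eq_zero.mp e1 with h | h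
        · exact absurd h hpq'
        · exact pow_eq_zero_iff (two_ne_zero) |>.mp h
      have e3 : z.re = 0 := by
        rw [e2] at hN
        have : z.re ^ 2 = 0 := by linear_combination hN
        exact pow_eq_zero_iff (two_ne_zero) |>.mp this
      exact hkl (by ext; exact e3; exact e2)
    have hstar : h l k = star z := (h1 k l).symm
    have hNz : z * star z = 0 := by
      rw [← algebraMap_norm_eq_mul_star, hN, map_zero]
    have hTz : algebraMap L (QA p q L) T = z + star z := by
      ext
      · simp [hT]; ring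
      · simp
    refine ⟨fun i => z * h i l + star z * h i k, ?_, ?_⟩
    · rw [Ideal.eq_top_iff_one]
      have h4 : z * (z * h k l + star z * h k k) + star z * (z * h l l + star z * h l k) =
          algebraMap L (QA p q L) (T ^ 3) := by
        rw [map_pow, hTz, hstar, ← hz]
        linear_combination (h k k + h l l - 3 * (z + star z)) * hNz
      have h5 : algebraMap L (QA p q L) (T ^ 3) ∈ Ideal.span (Set.range
          fun i => z * h i l + star z * h i k) := by
        rw [← h4]
        exact add_mem (Ideal.mul_mem_left _ _ (Ideal.subset_span ⟨k, rfl⟩))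
          (Ideal.mul_mem_left _ _ (Ideal.subset_span ⟨l, rfl⟩))
      have h6 : (1 : QA p q L) = algebraMap L (QA p q L) ((T ^ 3)⁻¹) *
          algebraMap L (QA p q L) (T ^ 3) := by
        rw [← map_mul, inv_mul_cancel₀ (pow_ne_zero 3 hT0), map_one]
      rw [h6]
      exact Ideal.mul_mem_left _ _ h5
    · have h4 : conicVal c L (fun i => z * h i l + star z * h i k) =
          z ^ 2 * (∑ i, ∑ j, QA.map p q (Algebra.ofId F L) (c i j) * (h i l * h j l)) +
          z * star z * (∑ i, ∑ j, QA.map p q (Algebra.ofId F L) (c i j) * (h i l * h j k)) +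
          z * star z * (∑ i, ∑ j, QA.map p q (Algebra.ofId F L) (c i j) * (h i k * h j l)) +
          (star z) ^ 2 * (∑ i, ∑ j, QA.map p q (Algebra.ofId F L) (c i j) * (h i k * h j k)) := by
        simp only [conicVal, Finset.mul_sum, ← Finset.sum_add_distrib]
        refine Finset.sum_congr rfl fun i _ => Finset.sum_congr rfl fun j _ => ?_
        ring
      rw [h4, h3, h3, h3, h3]
      ring
  · refine ⟨fun i => h i l, ?_, h3 l l⟩
    rw [Ideal.eq_top_iff_one]
    have h4 : IsUnit (h k l) := (QA.isUnit_iff _).mpr hN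
    obtain ⟨w, hw⟩ := h4.exists_left_inv
    rw [← hw]
    exact Ideal.mul_mem_left _ _ (Ideal.subset_span ⟨k, rfl⟩)

/-- The lower bound for the degree of irrationality of Weil restrictions of conics. -/
theorem exists_resPoint_of_irr_pos {K : Type v} [Field K] [Algebra F K] {x y : QA p q K}
    (hgen : IsResGeneric c K x y) (hpq : q ^ 2 + 4 * p ≠ 0) (hirr : 0 < irr F K) :
    ∃ (L : Type v) (_ : Field L) (_ : Algebra F L), FiniteDimensional F L ∧
      Module.finrank F L ≤ irr F K ∧ HasResPoint c L := by
  set v : Fin 3 → QA p q K := ![x, y, 1] with hv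
  let H : Fin 3 → Fin 3 → QA p q K := fun i j => v i * star (v j)
  let ξ : Fin 3 × Fin 3 × Fin 2 → K := fun t => ![(H t.1 t.2.1).re, (H t.1 t.2.1).im] t.2.2
  have hmapH : ∀ i j, QA.map p q (MvPolynomial.aeval ξ) (herm i j) = H i j := by
    intro i j
    ext
    · simp [herm, ξ]
    · simp [herm, ξ]
  have hξ : ξ ≠ 0 := by
    intro h0
    have := congrFun h0 (2, 2, 0)
    simp [ξ, H, hv] at this
  obtain ⟨L, i1, i2, hfin, hle, y', hy', hrel⟩ := exists_point_of_irr_pos hirr ξ hξ
  refine ⟨L, i1, i2, hfin, hle, ?_⟩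
  -- transport of relations
  have htr : ∀ (n : ℕ) (z : QA p q (MvPolynomial (Fin 3 × Fin 3 × Fin 2) F)), QHom n z →
      QA.map p q (MvPolynomial.aeval ξ) z = 0 → QA.map p q (MvPolynomial.aeval y') z = 0 := by
    intro n z hz h0
    ext
    · exact hrel n _ hz.1 (by simpa using congrArg QuadraticAlgebra.re h0)
    · exact hrel n _ hz.2 (by simpa using congrArg QuadraticAlgebra.im h0)
  let h : Fin 3 → Fin 3 → QA p q L := fun i j => ⟨y' (i, j, 0), y' (i, j, 1)⟩
  have hmaph : ∀ i j, QA.map p q (MvPolynomial.aeval y') (herm i j) = h i j := by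
    intro i j
    ext
    · simp [herm, h]
    · simp [herm, h]
  apply exists_point_of_herm c hpq h
  · by_contra hcon
    push Not at hcon
    apply hy'
    ext ⟨i, j, m⟩
    have h0 := hcon i j
    fin_cases m
    · simpa [h] using congrArg QuadraticAlgebra.re h0
    · simpa [h] using congrArg QuadraticAlgebra.im h0
  · intro i j
    have h4 := htr 1 (star (herm i j) - herm j i) ((QHom.herm i j).star.sub (QHom.herm j i)) (by
      rw [map_sub, QA.map_star, hmapH, hmapH]
      simp only [H, star_mul', star_star]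
      ring)
    rw [map_sub, QA.map_star, hmaph, hmaph, sub_eq_zero] at h4
    exact h4
  · intro i j k l
    have h4 := htr 2 (herm i j * herm k l - herm i l * herm k j)
      (((QHom.herm i j).mul (QHom.herm k l)).sub ((QHom.herm i l).mul (QHom.herm k j))) (by
      rw [map_sub, map_mul, map_mul, hmapH, hmapH, hmapH, hmapH]
      simp only [H]
      ring)
    rw [map_sub, map_mul, map_mul, hmaph, hmaph, hmaph, hmaph, sub_eq_zero] at h4
    exact h4
  · intro k l
    have h4 := htr 2 (∑ i, ∑ j, QA.map p q (Algebra.ofId F _) (c i j) * (herm i k * herm j l))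
      (QHom.sum _ _ fun i _ => QHom.sum _ _ fun j _ => by
        have := (QHom.base (c i j)).mul ((QHom.herm (F := F) (p := p) (q := q) i k).mul
          (QHom.herm j l))
        simpa using this) (by
      simp only [map_sum, map_mul, QA.map_map_ofId, hmapH]
      have h5 := hgen.eq
      have h6 : ∑ i, ∑ j, QA.map p q (Algebra.ofId F K) (c i j) * (H i k * H j l) =
          conicVal c K v * (star (v k) * star (v l)) := by
        simp only [conicVal, Finset.sum_mul]
        refine Finset.sum_congr rfl fun i _ => Finset.sum_congr rfl fun j _ => ?_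
        simp only [H]
        ring
      rw [h6, hv, h5, zero_mul])
    simp only [map_sum, map_mul, QA.map_map_ofId, hmaph] at h4
    exact h4

end

end Pool.Agent.Helper17.Irr
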