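import Mathlib
import Pool.Agent.Helper17.Irr.ResBasic
import Pool.Agent.Helper17.Irr.ConicNormal

/-!
# Weil restrictions of conics: upper bounds
-/

set_option linter.style.haveILetI false
set_option linter.deprecated false

namespace Pool.Agent.Helper17.Irr

open IntermediateField QuadraticAlgebra

universe u v w

section

variable {F : Type u} [Field F] {p q : F}

theorem QA.map_ofId_self (z : QA p q F) : QA.map p q (Algebra.ofId F F) z = z := by
  ext
  · simp [Algebra.ofId_apply]
  · simp [Algebra.ofId_apply]

variable {K : Type v} [Field K] [Algebra F K]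

/-- The components of `z` lie in `k`. -/
def QMem (k : IntermediateField F K) (z : QA p q K) : Prop := z.re ∈ k ∧ z.im ∈ k

variable {k : IntermediateField F K} {z w : QA p q K}

theorem QMem.add (hz : QMem k z) (hw : QMem k w) : QMem k (z + w) :=
  ⟨add_mem hz.1 hw.1, add_mem hz.2 hw.2⟩

theorem QMem.mul (hz : QMem k z) (hw : QMem k w) : QMem k (z * w) := by
  refine ⟨?_, ?_⟩
  · rw [re_mul]
    exact add_mem (mul_mem hz.1 hw.1)
      (mul_mem (mul_mem (IntermediateField.algebraMap_mem _ _) hz.2) hw.2)
  · rw [im_mul]
    exact add_mem (add_mem (mul_mem hz.1 hw.2) (mul_mem hz.2 hw.1))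
      (mul_mem (mul_mem (IntermediateField.algebraMap_mem _ _) hz.2) hw.2)

theorem QMem.base (a : QA p q F) : QMem k (QA.map p q (Algebra.ofId F K) a) :=
  ⟨IntermediateField.algebraMap_mem _ _, IntermediateField.algebraMap_mem _ _⟩

theorem QMem.of_mul_eq_one (hz : QMem k z) (h : z * w = 1) : QMem k w := by
  have hN : QuadraticAlgebra.norm z ∈ k := by
    rw [norm_def]
    exact sub_mem (add_mem (mul_mem hz.1 hz.1)
      (mul_mem (mul_mem (IntermediateField.algebraMap_mem _ _) hz.1) hz.2))
      (mul_mem (mul_mem (IntermediateField.algebraMap_mem _ _) hz.2) hz.2)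
  have hN0 : QuadraticAlgebra.norm z ≠ 0 := by
    intro h0
    have := congrArg QuadraticAlgebra.norm h
    rw [map_mul, h0, zero_mul, map_one] at this
    exact zero_ne_one this
  have hw : w = (QuadraticAlgebra.norm z)⁻¹ • star z := by
    have h1 : (QuadraticAlgebra.norm z) • w = star z := by
      rw [Algebra.smul_def, algebraMap_norm_eq_mul_star, mul_comm z, mul_assoc, h, mul_one]
    rw [← h1, smul_smul, inv_mul_cancel₀ hN0, one_smul]
  rw [hw]
  refine ⟨?_, ?_⟩
  · rw [re_smul, re_star, smul_eq_mul]
    exact mul_mem (inv_mem hN) (add_mem hz.1 (mul_mem (IntermediateField.algebraMap_mem _ _) hz.2))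
  · rw [im_smul, im_star, smul_eq_mul]
    exact mul_mem (inv_mem hN) (neg_mem hz.2)

variable {c : Fin 3 → Fin 3 → QA p q F}

/-- If the coefficient of `y²` is a unit, the degree of irrationality is at most four. -/
theorem res_le_four_of_unit {x y : QA p q K} (hgen : IsResGeneric c K x y)
    (hpq : q ^ 2 + 4 * p ≠ 0) (hu : IsUnit (c 1 1)) : 0 < irr F K ∧ irr F K ≤ 4 := by
  obtain ⟨d, hd⟩ := hu.exists_left_inv
  set β := QA.map p q (Algebra.ofId F K) with hβ
  have hβd : β d * β (c 1 1) = 1 := by rw [← map_mul, hd, map_one]
  set u : QA p q K := β (d * (c 0 1 + c 1 0)) * x + β (d * (c 1 2 + c 2 1)) with hu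
  set w : QA p q K := β (d * c 0 0) * (x * x) + β (d * (c 0 2 + c 2 0)) * x + β (d * c 2 2) with hw
  have heq : y * y + u * y + w = 0 := by
    have h1 := hgen.eq
    simp only [conicVal, Fin.sum_univ_three, Matrix.cons_val_zero, Matrix.cons_val_one,
      Matrix.cons_val] at h1
    rw [← hβ] at h1
    rw [hu, hw]
    simp only [map_add, map_mul]
    linear_combination β d * h1 - (y * y) * hβd
  have hxk : QMem (IntermediateField.adjoin F {x.re, x.im}) x :=
    ⟨IntermediateField.subset_adjoin F _ (Set.mem_insert _ _),
      IntermediateField.subset_adjoin F _ (Set.mem_insert_of_mem _ (Set.mem_singleton _))⟩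
  have huk : QMem (IntermediateField.adjoin F {x.re, x.im}) u :=
    ((QMem.base _).mul hxk).add (QMem.base _)
  have hwk : QMem (IntermediateField.adjoin F {x.re, x.im}) w :=
    (((QMem.base _).mul (hxk.mul hxk)).add ((QMem.base _).mul hxk)).add (QMem.base _)
  have h1 := congrArg QuadraticAlgebra.re heq
  have h2 := congrArg QuadraticAlgebra.im heq
  simp only [re_add, im_add, re_mul, im_mul, re_zero, im_zero] at h1 h2
  exact res_irr_le_four hgen.trdeg p q hpq x.re x.im y.re y.im hgen.top u.re u.im w.re w.im
    huk.1 huk.2 hwk.1 hwk.2 (by linear_combination h1) (by linear_combination h2)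

/-- From the normal form to the bound `2`. -/
theorem res_two_of_normal (htr : 2 ≤ Algebra.trdeg F K)
    (hcl : ∀ z : K, IsAlgebraic F z → ∃ a : F, z = algebraMap F K a) (b c₀ : F)
    (hirr : ∀ r : F, r ^ 2 ≠ c₀ + b * r) (s t : QA p q K) (l m n : QA p q F)
    (htop : IntermediateField.adjoin F {s.re, s.im, t.re, t.im} = ⊤)
    (heq : t * t - algebraMap F (QA p q K) b * (s * t) - algebraMap F (QA p q K) c₀ * (s * s) +
      QA.map p q (Algebra.ofId F K) l * s + QA.map p q (Algebra.ofId F K) m * t +
      QA.map p q (Algebra.ofId F K) n = 0)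
    (hnd : b = 0 → (2 : F) = 0 → l ≠ 0 ∨ m ≠ 0) : 0 < irr F K ∧ irr F K ≤ 2 := by
  have hn : ∀ x y : K, y ^ 2 - algebraMap F K b * x * y - algebraMap F K c₀ * x ^ 2 = 0 →
      x = 0 ∧ y = 0 := by
    intro x y h
    by_cases hx : x = 0
    · refine ⟨hx, ?_⟩
      rw [hx] at h
      have : y ^ 2 = 0 := by linear_combination h
      exact pow_eq_zero_iff (two_ne_zero) |>.mp this
    · exfalso
      have hρ : (y / x) ^ 2 - algebraMap F K b * (y / x) - algebraMap F K c₀ = 0 := by
        field_simp
        linear_combination h
      have halg : IsAlgebraic F (y / x) := by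
        refine ⟨Polynomial.X ^ 2 - Polynomial.C b * Polynomial.X - Polynomial.C c₀, ?_, ?_⟩
        · intro h5
          have := congrArg (fun P : Polynomial F => P.coeff 2) h5
          simp at this
        · simpa using hρ
      obtain ⟨r, hr⟩ := hcl _ halg
      apply hirr r
      apply (algebraMap F K).injective
      rw [hr] at hρ
      simp only [map_add, map_mul, map_pow]
      linear_combination hρ
  -- the case where the imaginary parts of the linear coefficients are good enough
  have key : ∀ (s t : QA p q K) (l m n : QA p q F),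
      IntermediateField.adjoin F {s.re, s.im, t.re, t.im} = ⊤ →
      t * t - algebraMap F (QA p q K) b * (s * t) - algebraMap F (QA p q K) c₀ * (s * s) +
      QA.map p q (Algebra.ofId F K) l * s + QA.map p q (Algebra.ofId F K) m * t +
      QA.map p q (Algebra.ofId F K) n = 0 →
      (b ^ 2 + 4 * c₀ ≠ 0 ∨ (b = 0 ∧ (2 : F) = 0 ∧ (l.im ≠ 0 ∨ m.im ≠ 0))) →
      0 < irr F K ∧ irr F K ≤ 2 := by
    intro s t l m n htop heq hnd
    have hb : ∀ a : F, algebraMap F (QA p q K) a = ⟨algebraMap F K a, 0⟩ := fun a => rfl
    have h1 := congrArg QuadraticAlgebra.re heq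
    have h2 := congrArg QuadraticAlgebra.im heq
    simp only [hb, re_add, im_add, re_sub, im_sub, re_mul, im_mul, re_zero, im_zero, QA.map_re,
      QA.map_im, Algebra.ofId_apply] at h1 h2
    exact res_irr_le_two htr p q b c₀ s.re s.im t.re t.im htop hn l.re l.im m.re m.im n.re n.im
      hnd (by linear_combination h1) (by linear_combination h2)
  by_cases hD : b ^ 2 + 4 * c₀ = 0
  · -- the inseparable case
    have h2 : (2 : F) = 0 := by
      by_contra h2
      apply hirr (b / 2)
      field_simp
      linear_combination -hD
    have hb : b = 0 := by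
      have h4 : (4 : F) = 0 := by linear_combination 2 * h2
      rw [h4, zero_mul, add_zero] at hD
      exact pow_eq_zero_iff (two_ne_zero) |>.mp hD
    by_cases hlm : l.im ≠ 0 ∨ m.im ≠ 0
    · exact key s t l m n htop heq (Or.inr ⟨hb, h2, hlm⟩)
    · push Not at hlm
      obtain ⟨hl, hm⟩ := hlm
      -- choose a unit `a + ω`
      obtain ⟨a, ha⟩ : ∃ a : F, a ^ 2 + q * a - p ≠ 0 := by
        by_contra hcon
        push Not at hcon
        have e0 := hcon 0
        have e1 := hcon 1
        have e2 := hcon c₀
        have hp : p = 0 := by linear_combination -e0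
        have hq : q = -1 := by linear_combination e1 + hp
        rw [hp, hq] at e2
        have e3 : c₀ * (c₀ - 1) = 0 := by linear_combination e2
        rcases mul_eq_zero.mp e3 with h | h
        · apply hirr 0
          rw [h]; ring
        · apply hirr 1
          rw [hb]
          linear_combination -h
      set ρ : QA p q F := ⟨a, 1⟩ with hρ
      have hρu : IsUnit ρ := by
        rw [QA.isUnit_iff, norm_def]
        intro h
        apply ha
        simp only [hρ, Algebra.algebraMap_self, RingHom.id_apply] at h
        linear_combination h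
      obtain ⟨ρ', hρ'⟩ := hρu.exists_left_inv
      set β := QA.map p q (Algebra.ofId F K) with hβ
      have hβρ : β ρ' * β ρ = 1 := by rw [← map_mul, hρ', map_one]
      refine key (β ρ * s) (β ρ * t) (ρ * l) (ρ * m) (ρ * ρ * n) ?_ ?_ (Or.inr ⟨hb, h2, ?_⟩)
      · rw [eq_top_iff, ← htop, IntermediateField.adjoin_le_iff]
        set k := IntermediateField.adjoin F
          {(β ρ * s).re, (β ρ * s).im, (β ρ * t).re, (β ρ * t).im} with hk
        have hs : QMem k (β ρ * s) :=
          ⟨IntermediateField.subset_adjoin F _ (by simp),
            IntermediateField.subset_adjoin F _ (by simp)⟩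
        have ht : QMem k (β ρ * t) :=
          ⟨IntermediateField.subset_adjoin F _ (by simp),
            IntermediateField.subset_adjoin F _ (by simp)⟩
        have hs' : QMem k s := by
          have := (QMem.base (k := k) ρ').mul hs
          rwa [← mul_assoc, ← hβ, hβρ, one_mul] at this
        have ht' : QMem k t := by
          have := (QMem.base (k := k) ρ').mul ht
          rwa [← mul_assoc, ← hβ, hβρ, one_mul] at this
        rintro z (rfl | rfl | rfl | rfl)
        · exact hs'.1
        · exact hs'.2
        · exact ht'.1
        · exact ht'.2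
      · simp only [map_mul]
        linear_combination (β ρ * β ρ) * heq
      · rcases hnd hb h2 with h | h
        · left
          intro h0
          apply h
          ext
          · simp only [hρ, im_mul, hl] at h0
            simp at h0
            simpa using h0
          · simpa using hl
        · right
          intro h0
          apply h
          ext
          · simp only [hρ, im_mul, hm] at h0
            simp at h0
            simpa using h0
          · simpa using hm
  · exact key s t l m n htop heq (Or.inl hD)

/-- Smoothness excludes forms with vanishing polar form. -/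
theorem IsSmoothConic.false_of_polar (hs : IsSmoothConic c) (r : AlgebraicClosure F)
    (hr : r ^ 2 = algebraMap F _ p + algebraMap F _ q * r)
    (h : ∀ i j, algebraMap F (AlgebraicClosure F) (c i j + c j i).re +
      algebraMap F (AlgebraicClosure F) (c i j + c j i).im * r = 0) : False := by
  set C : Fin 3 → Fin 3 → AlgebraicClosure F := fun i j =>
    algebraMap F _ (c i j).re + algebraMap F _ (c i j).im * r with hC
  obtain ⟨y, hy, hyC⟩ : ∃ y : Fin 3 → AlgebraicClosure F, y ≠ 0 ∧
      ∑ i, ∑ j, C i j * (y i * y j) = 0 := by
    by_cases h11 : C 1 1 = 0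
    · refine ⟨![0, 1, 0], ?_, ?_⟩
      · intro h0
        have := congrFun h0 1
        simp at this
      · simp [Fin.sum_univ_three, h11]
    · obtain ⟨z, hz⟩ := IsAlgClosed.exists_root (k := AlgebraicClosure F)
        (Polynomial.C (C 1 1) * Polynomial.X ^ 2 + Polynomial.C (C 0 1 + C 1 0) * Polynomial.X +
          Polynomial.C (C 0 0)) (by
          rw [Polynomial.degree_quadratic h11]
          norm_num)
      refine ⟨![1, z, 0], ?_, ?_⟩
      · intro h0
        have := congrFun h0 0
        simp at this
      · simp only [Polynomial.IsRoot, Polynomial.eval_add, Polynomial.eval_mul, Polynomial.eval_C,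
          Polynomial.eval_pow, Polynomial.eval_X] at hz
        simp only [Fin.sum_univ_three, Matrix.cons_val_zero, Matrix.cons_val_one,
          Matrix.cons_val]
        linear_combination hz
  obtain ⟨k, hk⟩ := hs r hr y hy hyC
  apply hk
  refine Finset.sum_eq_zero fun j _ => ?_
  rw [h k j, zero_mul]

end

end Pool.Agent.Helper17.Irr
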