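import Mathlib
import Pool.Agent.Helper17.Irr.ResUpper
import Pool.Agent.Helper17.Irr.ResLower
import Pool.Agent.Helper17.Irr.CubicPoint
import Pool.Agent.Helper17.Irr.QuadPoint

/-!
# Weil restrictions of conics from a quadratic field extension
-/

set_option linter.style.haveILetI false
set_option linter.deprecated false

namespace Pool.Agent.Helper17.Irr

open IntermediateField QuadraticAlgebra

universe u v w

section

variable {F : Type u} [Field F] {p q : F}

/-- Elements of `K[ω]` algebraic over `F` have algebraic components. -/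
theorem components_algebraic {K : Type v} [Field K] [Algebra F K] (hpq : q ^ 2 + 4 * p ≠ 0)
    [Fact (∀ r : K, r ^ 2 ≠ algebraMap F K p + algebraMap F K q * r)]
    (hcl : ∀ z : K, IsAlgebraic F z → ∃ a : F, z = algebraMap F K a) (z : QA p q K)
    (hz : IsAlgebraic F z) : ∃ a : QA p q F, z = QA.map p q (Algebra.ofId F K) a := by
  have hb : ∀ a : F, algebraMap F (QA p q K) a = ⟨algebraMap F K a, 0⟩ := fun a => rfl
  let σ : QA p q K →ₐ[F] QA p q K :=
    { starRingEnd (QA p q K) with
      commutes' := fun a => by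
        change star (algebraMap F (QA p q K) a) = algebraMap F (QA p q K) a
        rw [hb]
        ext
        · rw [QuadraticAlgebra.re_star]
          simp
        · rw [QuadraticAlgebra.im_star]
          simp }
  have hσ : ∀ z, σ z = star z := fun z => rfl
  have hz' : IsAlgebraic F (star z) := by
    rw [← hσ]
    exact hz.algHom σ
  set om : QA p q K := ⟨0, 1⟩ with hom
  have homalg : IsAlgebraic F om := by
    refine ⟨Polynomial.X ^ 2 - Polynomial.C q * Polynomial.X - Polynomial.C p, ?_, ?_⟩
    · intro h5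
      have := congrArg (fun P : Polynomial F => P.coeff 2) h5
      simp at this
    · simp only [map_sub, map_mul, map_pow, Polynomial.aeval_X, Polynomial.aeval_C, hb]
      ext
      · simp [hom, pow_two]
      · simp [hom, pow_two]
  have hom' : IsAlgebraic F (star om) := by
    rw [← hσ]
    exact homalg.algHom σ
  have hdiff : om - star om ≠ 0 := by
    intro h0
    have e1 := congrArg QuadraticAlgebra.re h0
    have e2 := congrArg QuadraticAlgebra.im h0
    simp [hom] at e1 e2
    have h2 : (1 : K) + 1 = 0 := e2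
    have h2' : (2 : K) = 0 := by rw [← one_add_one_eq_two]; exact h2
    have hq : q = 0 := by simpa using e1
    have h3 : (2 : F) = 0 := by
      apply (algebraMap F K).injective
      rw [map_ofNat, map_zero]
      exact h2'
    apply hpq
    rw [hq]
    linear_combination 2 * p * h3
  have him : algebraMap K (QA p q K) z.im = (z - star z) / (om - star om) := by
    rw [eq_div_iff hdiff]
    ext
    · simp [hom]
      ring
    · simp [hom]
      ring
  have hre : algebraMap K (QA p q K) z.re = z - algebraMap K (QA p q K) z.im * om := by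
    ext
    · simp [hom]
    · simp [hom]
  have halg_im' : IsAlgebraic F (algebraMap K (QA p q K) z.im) := by
    rw [him]
    exact (hz.sub hz').mul (homalg.sub hom').inv
  have halg_re' : IsAlgebraic F (algebraMap K (QA p q K) z.re) := by
    rw [hre]
    exact hz.sub (halg_im'.mul homalg)
  have hinj : Function.Injective (algebraMap K (QA p q K)) := (algebraMap K (QA p q K)).injective
  obtain ⟨a, ha⟩ := hcl _ ((isAlgebraic_algebraMap_iff hinj).mp halg_re')
  obtain ⟨b, hb⟩ := hcl _ ((isAlgebraic_algebraMap_iff hinj).mp halg_im')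
  refine ⟨⟨a, b⟩, ?_⟩
  ext
  · simpa [Algebra.ofId_apply] using ha
  · simpa [Algebra.ofId_apply] using hb

variable {c : Fin 3 → Fin 3 → QA p q F}

theorem conicVal_self [Fact (∀ r : F, r ^ 2 ≠ algebraMap F F p + algebraMap F F q * r)]
    (v : Fin 3 → QA p q F) :
    conicVal c F v = qv c (QA p q F) v := by
  simp only [conicVal, qv, QA.map_ofId_self, Algebra.algebraMap_self, RingHom.id_apply]

/-- A point over a quadratic extension gives the bound two, if `E` is a field. -/
theorem res_field_le_two {K : Type v} [Field K] [Algebra F K] {x y : QA p q K}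
    (hgen : IsResGeneric c K x y) (hpq : q ^ 2 + 4 * p ≠ 0) (hE : ∀ r : F, r ^ 2 ≠ p + q * r)
    (hsm : IsSmoothConic c) (hno : ¬ HasResPoint c F) {L : Type w} [Field L] [Algebra F L]
    [FiniteDimensional F L] (hL : Module.finrank F L = 2) (hpt : HasResPoint c L) :
    0 < irr F K ∧ irr F K ≤ 2 := by
  haveI hFE : Fact (∀ r : F, r ^ 2 ≠ algebraMap F F p + algebraMap F F q * r) := ⟨hE⟩
  haveI hFK : Fact (∀ r : K, r ^ 2 ≠ algebraMap F K p + algebraMap F K q * r) := by
    refine ⟨fun r hr => ?_⟩
    have halg : IsAlgebraic F r := by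
      refine ⟨Polynomial.X ^ 2 - Polynomial.C q * Polynomial.X - Polynomial.C p, ?_, ?_⟩
      · intro h5
        have := congrArg (fun P : Polynomial F => P.coeff 2) h5
        simp at this
      · simp only [map_sub, map_mul, map_pow, Polynomial.aeval_X, Polynomial.aeval_C]
        linear_combination hr
    obtain ⟨a, ha⟩ := hgen.mem_range r halg
    apply hE a
    apply (algebraMap F K).injective
    rw [ha] at hr
    simpa only [map_add, map_mul, map_pow] using hr
  have hnoE : ∀ a : Fin 3 → (QA p q F), a ≠ 0 → qv c (QA p q F) a ≠ 0 := by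
    intro a ha h0
    apply hno
    refine ⟨a, ?_, ?_⟩
    · obtain ⟨i, hi⟩ := Function.ne_iff.mp ha
      rw [Ideal.eq_top_iff_one]
      have h1 : (1 : (QA p q F)) = (a i)⁻¹ * a i := (inv_mul_cancel₀ hi).symm
      rw [h1]
      exact Ideal.mul_mem_left _ _ (Ideal.subset_span ⟨i, rfl⟩)
    · rw [conicVal_self]
      exact h0
  obtain ⟨η, hli, hspan⟩ := exists_quadratic_basis hL
  obtain ⟨v, hvtop, hv⟩ := hpt
  choose α₀ α₁ hα using fun i => hspan (v i).re
  choose β₀ β₁ hβ using fun i => hspan (v i).im
  obtain ⟨c₀, b, hη2⟩ := hspan (η ^ 2)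
  -- the algebra structures
  letI algL : Algebra (QA p q F) (QA p q L) := (QA.map p q (Algebra.ofId F L)).toAlgebra
  letI algK : Algebra (QA p q F) (QA p q K) := (QA.map p q (Algebra.ofId F K)).toAlgebra
  have hmapL : ∀ a : (QA p q F), algebraMap (QA p q F) (QA p q L) a = QA.map p q (Algebra.ofId F L) a := fun a => rfl
  have hmapK : ∀ a : (QA p q F), algebraMap (QA p q F) (QA p q K) a = QA.map p q (Algebra.ofId F K) a := fun a => rfl
  set ηR : QA p q L := ⟨η, 0⟩ with hηR
  have hvi : v = fun i => algebraMap (QA p q F) (QA p q L) (⟨α₀ i, β₀ i⟩ : (QA p q F)) +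
      algebraMap (QA p q F) (QA p q L) (⟨α₁ i, β₁ i⟩ : (QA p q F)) * ηR := by
    ext i
    · rw [hα i]
      simp [hmapL, hηR, Algebra.ofId_apply]
    · rw [hβ i]
      simp [hmapL, hηR, Algebra.ofId_apply]
  have hη : ∀ a b : (QA p q F), algebraMap (QA p q F) (QA p q L) a + algebraMap (QA p q F) (QA p q L) b * ηR = 0 →
      a = 0 ∧ b = 0 := by
    intro a b hab
    have e1 := congrArg QuadraticAlgebra.re hab
    have e2 := congrArg QuadraticAlgebra.im hab
    simp [hmapL, hηR, Algebra.ofId_apply] at e1 e2
    obtain ⟨h1, h2⟩ := hli _ _ e1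
    obtain ⟨h3, h4⟩ := hli _ _ e2
    exact ⟨by ext; exact h1; exact h3, by ext; exact h2; exact h4⟩
  have hηR2 : ηR ^ 2 = algebraMap (QA p q F) (QA p q L) (⟨c₀, 0⟩ : (QA p q F)) +
      algebraMap (QA p q F) (QA p q L) (⟨b, 0⟩ : (QA p q F)) * ηR := by
    ext
    · simp [hmapL, hηR, Algebra.ofId_apply, pow_two]
      rw [← pow_two, hη2]
    · simp [hmapL, hηR, Algebra.ofId_apply, pow_two]
  have hvtop' : Ideal.span (Set.range fun i => algebraMap (QA p q F) (QA p q L) (⟨α₀ i, β₀ i⟩ : (QA p q F)) +
      algebraMap (QA p q F) (QA p q L) (⟨α₁ i, β₁ i⟩ : (QA p q F)) * ηR) = ⊤ := by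
    rw [← hvi]
    exact hvtop
  have hv' : qv c (QA p q L) (fun i => algebraMap (QA p q F) (QA p q L) (⟨α₀ i, β₀ i⟩ : (QA p q F)) +
      algebraMap (QA p q F) (QA p q L) (⟨α₁ i, β₁ i⟩ : (QA p q F)) * ηR) = 0 := by
    rw [← hvi]
    exact hv
  obtain ⟨g1, g0, g01, gli⟩ := line_of_quadratic_point hnoE ηR hη (⟨b, 0⟩ : (QA p q F)) (⟨c₀, 0⟩ : (QA p q F))
    hηR2 (fun i => (⟨α₀ i, β₀ i⟩ : (QA p q F))) (fun i => (⟨α₁ i, β₁ i⟩ : (QA p q F))) hvtop' hv'
  have hclE : ∀ z : QA p q K, IsAlgebraic (QA p q F) z → ∃ a : (QA p q F), z = algebraMap (QA p q F) (QA p q K) a := by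
    intro z hz
    haveI : IsScalarTower F (QA p q F) (QA p q K) := by
      refine IsScalarTower.of_algebraMap_eq fun a => ?_
      ext
      · rfl
      · exact (map_zero (algebraMap F K)).symm
    have hz' : IsAlgebraic F z := by
      haveI : Algebra.IsAlgebraic F (QA p q F) := Algebra.IsAlgebraic.of_finite F (QA p q F)
      exact hz.restrictScalars F
    exact components_algebraic hpq hgen.mem_range z hz'
  obtain ⟨B, s, t, r, l, m, n, hX, heq, hsing⟩ := conic_normal_form hnoE g1 g0 g01 gli hclE
    ![x, y, 1] rfl hgen.eq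
  apply res_two_of_normal hgen.trdeg hgen.mem_range b c₀ ?_ s t l m n ?_ ?_ ?_
  · intro r hr
    have h1 : (algebraMap F L r - η) * (algebraMap F L (r - b) + η) = 0 := by
      have h2 := congrArg (algebraMap F L) hr
      simp only [map_add, map_mul, map_pow, map_sub] at h2 ⊢
      linear_combination h2 - hη2
    rcases mul_eq_zero.mp h1 with h | h
    · have := hli r (-1) (by rw [map_neg, map_one]; linear_combination h)
      exact one_ne_zero (neg_eq_zero.mp this.2)
    · have := hli (r - b) 1 (by rw [map_one]; linear_combination h)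
      exact one_ne_zero this.2
  · -- generation
    set k := IntermediateField.adjoin F {s.re, s.im, t.re, t.im} with hk
    have hs : QMem k s :=
      ⟨IntermediateField.subset_adjoin F _ (by simp), IntermediateField.subset_adjoin F _ (by simp)⟩
    have ht : QMem k t :=
      ⟨IntermediateField.subset_adjoin F _ (by simp), IntermediateField.subset_adjoin F _ (by simp)⟩
    have hlin : ∀ i, QMem k (algebraMap (QA p q F) (QA p q K) (B i 0) * s +
        algebraMap (QA p q F) (QA p q K) (B i 1) * t + algebraMap (QA p q F) (QA p q K) (B i 2)) := fun i =>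
      (((QMem.base _).mul hs).add ((QMem.base _).mul ht)).add (QMem.base _)
    have hr : QMem k r := by
      have h2 := hX 2
      have h3 : (![x, y, 1] : Fin 3 → QA p q K) 2 = 1 := rfl
      rw [h3, mul_comm] at h2
      exact (hlin 2).of_mul_eq_one h2.symm
    have hx : QMem k x := by
      have h2 := hX 0
      have h3 : (![x, y, 1] : Fin 3 → QA p q K) 0 = x := rfl
      rw [h3] at h2
      rw [h2]
      exact hr.mul (hlin 0)
    have hy : QMem k y := by
      have h2 := hX 1
      have h3 : (![x, y, 1] : Fin 3 → QA p q K) 1 = y := rfl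
      rw [h3] at h2
      rw [h2]
      exact hr.mul (hlin 1)
    rw [eq_top_iff, ← hgen.top, IntermediateField.adjoin_le_iff]
    rintro z (rfl | rfl | rfl | rfl)
    · exact hx.1
    · exact hx.2
    · exact hy.1
    · exact hy.2
  · have hbK : algebraMap (QA p q F) (QA p q K) (⟨b, 0⟩ : (QA p q F)) = algebraMap F (QA p q K) b := by
      ext
      · rfl
      · simp [hmapK]
        rfl
    have hcK : algebraMap (QA p q F) (QA p q K) (⟨c₀, 0⟩ : (QA p q F)) =
        algebraMap F (QA p q K) c₀ := by
      ext
      · rfl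
      · exact map_zero (algebraMap F K)
    rw [hbK, hcK] at heq
    exact heq
  · intro hb h2
    by_contra hcon
    push Not at hcon
    have hbE : (⟨b, 0⟩ : (QA p q F)) = 0 := by
      rw [hb]
      rfl
    have h2E : (2 : (QA p q F)) = 0 := by
      have : (2 : (QA p q F)) = algebraMap F (QA p q F) 2 := by rw [map_ofNat]
      rw [this, h2, map_zero]
    have hpol := hsing hcon.1 hcon.2 hbE h2E
    obtain ⟨r₀, hr₀⟩ := IsAlgClosed.exists_root (k := AlgebraicClosure F)
      (Polynomial.C 1 * Polynomial.X ^ 2 + Polynomial.C (-algebraMap F (AlgebraicClosure F) q) *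
        Polynomial.X + Polynomial.C (-algebraMap F (AlgebraicClosure F) p)) (by
        rw [Polynomial.degree_quadratic one_ne_zero]
        norm_num)
    refine hsm.false_of_polar r₀ ?_ ?_
    · simp only [Polynomial.IsRoot, Polynomial.eval_add, Polynomial.eval_mul, Polynomial.eval_C,
        Polynomial.eval_pow, Polynomial.eval_X] at hr₀
      linear_combination hr₀
    · intro i j
      rw [hpol i j]
      simp

/-- Springer's theorem for Weil restrictions, if `E` is a field. -/
theorem res_field_cubic (hE : ∀ r : F, r ^ 2 ≠ p + q * r)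
    {L : Type w} [Field L] [Algebra F L] [FiniteDimensional F L]
    (hL : Module.finrank F L = 3) (hpt : HasResPoint c L) : HasResPoint c F := by
  haveI hFE : Fact (∀ r : F, r ^ 2 ≠ algebraMap F F p + algebraMap F F q * r) := ⟨hE⟩
  haveI hFL : Fact (∀ r : L, r ^ 2 ≠ algebraMap F L p + algebraMap F L q * r) := by
    refine ⟨fun r hr => ?_⟩
    rcases cubic_element hL r with ⟨a, ha⟩ | h
    · apply hE a
      apply (algebraMap F L).injective
      rw [ha] at hr
      simpa only [map_add, map_mul, map_pow] using hr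
    · have := h (-p) (-q) 1 (by
        simp only [map_neg, map_one]
        linear_combination hr)
      exact one_ne_zero this.2.2
  letI algL : Algebra (QA p q F) (QA p q L) := (QA.map p q (Algebra.ofId F L)).toAlgebra
  have hmapL : ∀ a : (QA p q F), algebraMap (QA p q F) (QA p q L) a = QA.map p q (Algebra.ofId F L) a := fun a => rfl
  haveI : IsScalarTower F (QA p q F) (QA p q L) := by
    refine IsScalarTower.of_algebraMap_eq fun a => ?_
    ext
    · rfl
    · exact (map_zero (algebraMap F L)).symm
  haveI hfinFL : FiniteDimensional F (QA p q L) := Module.Finite.trans L (QA p q L)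
  haveI hfinEL : FiniteDimensional (QA p q F) (QA p q L) := Module.Finite.of_restrictScalars_finite F (QA p q F) _
  have hrank : Module.finrank (QA p q F) (QA p q L) = 3 := by
    have h1 : Module.finrank F (QA p q F) * Module.finrank (QA p q F) (QA p q L) = Module.finrank F (QA p q L) :=
      Module.finrank_mul_finrank F (QA p q F) (QA p q L)
    have h2 : Module.finrank F L * Module.finrank L (QA p q L) = Module.finrank F (QA p q L) :=
      Module.finrank_mul_finrank F L (QA p q L)
    have h3 : Module.finrank F (QA p q F) = 2 := QuadraticAlgebra.finrank_eq_two _ _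
    have h4 : Module.finrank L (QA p q L) = 2 := QuadraticAlgebra.finrank_eq_two _ _
    rw [h3] at h1
    rw [h4, hL] at h2
    omega
  obtain ⟨v, hvtop, hv⟩ := hpt
  set Q : MvPolynomial (Fin 3) (QA p q F) := ∑ i, ∑ j, MvPolynomial.C (c i j) *
    (MvPolynomial.X i * MvPolynomial.X j) with hQ
  have hQh : Q.IsHomogeneous 2 := by
    refine MvPolynomial.IsHomogeneous.sum _ _ _ fun i _ => MvPolynomial.IsHomogeneous.sum _ _ _
      fun j _ => ?_
    exact ((MvPolynomial.isHomogeneous_X _ _).mul (MvPolynomial.isHomogeneous_X _ _)).C_mul _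
  have hQv : ∀ (R : Type w) [CommRing R] [Algebra (QA p q F) R] (a : Fin 3 → R),
      MvPolynomial.aeval a Q = qv c R a := by
    intro R _ _ a
    simp [hQ, qv]
  have hvQ : MvPolynomial.aeval v Q = 0 := by
    rw [hQv]
    exact hv
  have hv0 : v ≠ 0 := by
    rintro rfl
    have h1 : (1 : QA p q L) ∈ Ideal.span (Set.range (0 : Fin 3 → QA p q L)) := by
      rw [hvtop]; trivial
    have h2 : Set.range (0 : Fin 3 → QA p q L) ⊆ {0} := by
      rintro _ ⟨i, rfl⟩
      rfl
    have h4 := Ideal.span_mono h2 h1
    rw [Ideal.mem_span_singleton, zero_dvd_iff] at h4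
    exact one_ne_zero h4
  obtain ⟨a, ha, ha0, -⟩ := rational_point_of_cubic_point hQh hQh hrank v hv0 hvQ hvQ
  refine ⟨a, ?_, ?_⟩
  · obtain ⟨i, hi⟩ := Function.ne_iff.mp ha
    rw [Ideal.eq_top_iff_one]
    have h1 : (1 : (QA p q F)) = (a i)⁻¹ * a i := (inv_mul_cancel₀ hi).symm
    rw [h1]
    exact Ideal.mul_mem_left _ _ (Ideal.subset_span ⟨i, rfl⟩)
  · rw [conicVal_self, ← ha0]
    simp [hQ, qv]

end

end Pool.Agent.Helper17.Irr
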