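import Mathlib
import Pool.Agent.Helper17.Irr.ResField
import Pool.Agent.Helper17.Irr.ConicParam

/-!
# Weil restrictions of conics with a rational point
-/

set_option linter.style.haveILetI false
set_option linter.deprecated false

namespace Pool.Agent.Helper17.Irr

open IntermediateField QuadraticAlgebra

universe u v w

theorem isRational_of_adjoin {F : Type u} [Field F] {K : Type v} [Field K] [Algebra F K]
    (htr : 2 ≤ Algebra.trdeg F K) (a b : K) (h : IntermediateField.adjoin F {a, b} = ⊤) :
    IsRational F K := by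
  have hfr : Module.finrank (IntermediateField.adjoin F {a, b}) K = 1 := by
    rw [h]
    exact IntermediateField.finrank_top
  haveI : FiniteDimensional (IntermediateField.adjoin F {a, b}) K :=
    FiniteDimensional.of_finrank_pos (by omega)
  obtain ⟨h1, h2⟩ := irr_le_of_finiteDimensional htr a b hfr.le
  exact isRational_of_irr_eq_one (by omega)

section

variable {F : Type u} [Field F] {p q : F} {c : Fin 3 → Fin 3 → QA p q F}

theorem HasResPoint.of_finrank_one {L : Type v} [Field L] [Algebra F L]
    (hL : Module.finrank F L = 1) (h : HasResPoint c L) : HasResPoint c F := by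
  haveI : FiniteDimensional F L := FiniteDimensional.of_finrank_pos (by omega)
  have hbij : Function.Bijective (algebraMap F L) := bijective_algebraMap_of_linearEquiv
    ((LinearEquiv.ofFinrankEq F L (by rw [hL, Module.finrank_self])))
  let e : F ≃ₐ[F] L := AlgEquiv.ofBijective (Algebra.ofId F L) hbij
  obtain ⟨v, hv, hvc⟩ := h
  refine ⟨fun i => QA.map p q (e.symm : L →ₐ[F] F) (v i), ?_, ?_⟩
  · have h1 := congrArg (Ideal.map (QA.map p q (e.symm : L →ₐ[F] F))) hv
    rw [Ideal.map_span, Ideal.map_top] at h1
    rw [← h1]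
    congr 1
    ext z
    simp
  · rw [← conicVal_map, hvc, map_zero]

theorem resMinDegree_le {L : Type u} [Field L] [Algebra F L] [hfin : FiniteDimensional F L]
    (h : HasResPoint c L) : resMinDegree c ≤ Module.finrank F L :=
  Nat.sInf_le ⟨L, ‹_›, ‹_›, hfin, rfl, h⟩

theorem exists_resMinDegree {L : Type u} [Field L] [Algebra F L] [hfin : FiniteDimensional F L]
    (h : HasResPoint c L) : ∃ (L : Type u) (_ : Field L) (_ : Algebra F L),
      FiniteDimensional F L ∧ Module.finrank F L = resMinDegree c ∧ HasResPoint c L :=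
  Nat.sInf_mem (s := {d : ℕ | ∃ (L : Type u) (_ : Field L) (_ : Algebra F L),
    FiniteDimensional F L ∧ Module.finrank F L = d ∧ HasResPoint c L})
    ⟨_, L, ‹_›, ‹_›, hfin, rfl, h⟩

/-- The logic of the formula. -/
theorem res_formula_aux {K : Type u} [Field K] [Algebra F K] {x y : QA p q K}
    (hgen : IsResGeneric c K x y) (hpq : q ^ 2 + 4 * p ≠ 0) (hno : ¬ HasResPoint c F)
    (h4 : 0 < irr F K ∧ irr F K ≤ 4)
    (h2 : ∀ (L : Type u) [Field L] [Algebra F L], FiniteDimensional F L →
      Module.finrank F L = 2 → HasResPoint c L → irr F K ≤ 2)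
    (h3 : ∀ (L : Type u) [Field L] [Algebra F L], FiniteDimensional F L →
      Module.finrank F L = 3 → ¬ HasResPoint c L) :
    irr F K = resMinDegree c ∧ (resMinDegree c = 2 ∨ resMinDegree c = 4) := by
  obtain ⟨L, i1, i2, hfin, hle, hL⟩ := exists_resPoint_of_irr_pos c hgen hpq h4.1
  have h5 : resMinDegree c ≤ irr F K := (resMinDegree_le hL).trans hle
  obtain ⟨L', j1, j2, hfin', hfr, hL'⟩ := exists_resMinDegree hL
  have hpos : 0 < Module.finrank F L' := Module.finrank_pos
  have n1 : resMinDegree c ≠ 1 := fun h => hno (HasResPoint.of_finrank_one (by omega) hL')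
  have n3 : resMinDegree c ≠ 3 := fun h => h3 L' hfin' (by omega) hL'
  by_cases h : resMinDegree c = 2
  · have := h2 L' hfin' (by omega) hL'
    omega
  · omega

/-! ### The field case -/

section

variable {K : Type v} [Field K] [Algebra F K]

theorem QMem.of_mem_adjoin [Fact (∀ r : F, r ^ 2 ≠ algebraMap F F p + algebraMap F F q * r)]
    [Fact (∀ r : K, r ^ 2 ≠ algebraMap F K p + algebraMap F K q * r)]
    [Algebra (QA p q F) (QA p q K)]
    (hmap : ∀ a, algebraMap (QA p q F) (QA p q K) a = QA.map p q (Algebra.ofId F K) a)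
    {k : IntermediateField F K} {κ z : QA p q K} (hκ : QMem k κ)
    (hz : z ∈ IntermediateField.adjoin (QA p q F) {κ}) : QMem k z := by
  induction hz using IntermediateField.adjoin_induction with
  | mem z hz =>
    rw [Set.mem_singleton_iff] at hz
    rwa [hz]
  | algebraMap a =>
    rw [hmap]
    exact QMem.base a
  | add z w _ _ hz hw => exact hz.add hw
  | inv z _ hz =>
    by_cases h0 : z = 0
    · rw [h0, inv_zero]
      exact ⟨zero_mem _, zero_mem _⟩
    · exact hz.of_mul_eq_one (mul_inv_cancel₀ h0)
  | mul z w _ _ hz hw => exact hz.mul hw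

theorem fact_of_mem_range (hE : ∀ r : F, r ^ 2 ≠ p + q * r)
    (hcl : ∀ z : K, IsAlgebraic F z → ∃ a : F, z = algebraMap F K a) (r : K) :
    r ^ 2 ≠ algebraMap F K p + algebraMap F K q * r := by
  intro hr
  have halg : IsAlgebraic F r := by
    refine ⟨Polynomial.X ^ 2 - Polynomial.C q * Polynomial.X - Polynomial.C p, ?_, ?_⟩
    · intro h5
      have := congrArg (fun P : Polynomial F => P.coeff 2) h5
      simp at this
    · simp only [map_sub, map_mul, map_pow, Polynomial.aeval_X, Polynomial.aeval_C]
      linear_combination hr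
  obtain ⟨a, ha⟩ := hcl r halg
  apply hE a
  apply (algebraMap F K).injective
  rw [ha] at hr
  simpa only [map_add, map_mul, map_pow] using hr

theorem res_field_rational {x y : QA p q K} (hgen : IsResGeneric c K x y)
    (hE : ∀ r : F, r ^ 2 ≠ p + q * r) (hsm : IsSmoothConic c) (hpt : HasResPoint c F) :
    IsRational F K := by
  haveI hFE : Fact (∀ r : F, r ^ 2 ≠ algebraMap F F p + algebraMap F F q * r) := ⟨hE⟩
  haveI hFK : Fact (∀ r : K, r ^ 2 ≠ algebraMap F K p + algebraMap F K q * r) :=
    ⟨fact_of_mem_range hE hgen.mem_range⟩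
  obtain ⟨a, hatop, ha⟩ := hpt
  rw [conicVal_self] at ha
  have ha0 : a ≠ 0 := by
    rintro rfl
    have h1 : (1 : QA p q F) ∈ Ideal.span (Set.range (0 : Fin 3 → QA p q F)) := by
      rw [hatop]; trivial
    have h2 : Set.range (0 : Fin 3 → QA p q F) ⊆ {0} := by
      rintro _ ⟨i, rfl⟩
      rfl
    have h4 := Ideal.span_mono h2 h1
    rw [Ideal.mem_span_singleton, zero_dvd_iff] at h4
    exact one_ne_zero h4
  -- an embedding of `QA p q F` into the algebraic closure
  obtain ⟨r₀, hr₀⟩ := IsAlgClosed.exists_root (k := AlgebraicClosure F)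
    (Polynomial.C 1 * Polynomial.X ^ 2 + Polynomial.C (-algebraMap F (AlgebraicClosure F) q) *
      Polynomial.X + Polynomial.C (-algebraMap F (AlgebraicClosure F) p)) (by
      rw [Polynomial.degree_quadratic one_ne_zero]
      norm_num)
  have hr₀' : r₀ ^ 2 = algebraMap F (AlgebraicClosure F) p + algebraMap F _ q * r₀ := by
    simp only [Polynomial.IsRoot, Polynomial.eval_add, Polynomial.eval_mul, Polynomial.eval_C,
      Polynomial.eval_pow, Polynomial.eval_X] at hr₀
    linear_combination hr₀
  let ψ : QA p q F →+* AlgebraicClosure F :=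
    { toFun := fun z => algebraMap F _ z.re + algebraMap F _ z.im * r₀
      map_one' := by simp [QuadraticAlgebra.re_one, QuadraticAlgebra.im_one]
      map_zero' := by simp
      map_add' := fun z w => by
        simp only [re_add, im_add, map_add]
        ring
      map_mul' := fun z w => by
        simp only [re_mul, im_mul, map_add, map_mul, Algebra.algebraMap_self, RingHom.id_apply]
        linear_combination (-(algebraMap F (AlgebraicClosure F) z.im *
          algebraMap F (AlgebraicClosure F) w.im)) * hr₀' }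
  have hψ : ∀ z, ψ z = algebraMap F _ z.re + algebraMap F _ z.im * r₀ := fun z => rfl
  have hψinj : Function.Injective ψ := ψ.injective
  have hsm' : ∃ k, ∑ j, (c k j + c j k) * a j ≠ 0 := by
    obtain ⟨k, hk⟩ := hsm r₀ hr₀' (fun i => ψ (a i)) (by
      intro h
      apply ha0
      ext i : 1
      apply hψinj
      rw [Pi.zero_apply, map_zero]
      exact congrFun h i) (by
      have h1 := congrArg ψ ha
      rw [map_zero] at h1
      rw [← h1]
      simp only [qv, map_sum, map_mul, Algebra.algebraMap_self, RingHom.id_apply, ← hψ])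
    refine ⟨k, fun h0 => hk ?_⟩
    have h1 := congrArg ψ h0
    rw [map_zero] at h1
    rw [← h1]
    simp only [map_sum, map_mul, ← hψ]
  letI algK : Algebra (QA p q F) (QA p q K) := (QA.map p q (Algebra.ofId F K)).toAlgebra
  obtain ⟨κ, hκ⟩ := conic_parametrization ha0 ha hsm' ![x, y, 1] rfl hgen.eq
  have hκm : QMem (IntermediateField.adjoin F {κ.re, κ.im}) κ :=
    ⟨IntermediateField.subset_adjoin F _ (Set.mem_insert _ _),
      IntermediateField.subset_adjoin F _ (Set.mem_insert_of_mem _ (Set.mem_singleton _))⟩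
  have hx : QMem (IntermediateField.adjoin F {κ.re, κ.im}) x :=
    QMem.of_mem_adjoin (fun _ => rfl) hκm (hκ 0)
  have hy : QMem (IntermediateField.adjoin F {κ.re, κ.im}) y :=
    QMem.of_mem_adjoin (fun _ => rfl) hκm (hκ 1)
  apply isRational_of_adjoin hgen.trdeg κ.re κ.im
  rw [eq_top_iff, ← hgen.top, IntermediateField.adjoin_le_iff]
  rintro z (rfl | rfl | rfl | rfl)
  · exact hx.1
  · exact hx.2
  · exact hy.1
  · exact hy.2

end

end

end Pool.Agent.Helper17.Irr
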