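import Mathlib
import Pool.Agent.Helper17.Irr.ResRat
import Pool.Agent.Helper17.Irr.RatPoint

/-!
# Products of two conics
-/

set_option linter.style.haveILetI false
set_option linter.deprecated false

namespace Pool.Agent.Helper17.Irr

open IntermediateField QuadraticAlgebra

universe u v w

section

variable {F : Type u} [Field F] {p q : F}

/-- Evaluation of `ω` at a root `r` of `X² = p + q X`. -/
def QA.ev (r : F) (hr : r ^ 2 = p + q * r) (S : Type v) [CommRing S] [Algebra F S] :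
    QA p q S →+* S where
  toFun z := z.re + algebraMap F S r * z.im
  map_one' := by simp [QuadraticAlgebra.re_one, QuadraticAlgebra.im_one]
  map_zero' := by simp
  map_add' z w := by
    simp only [re_add, im_add]
    ring
  map_mul' z w := by
    have h1 := congrArg (algebraMap F S) hr
    simp only [map_add, map_mul, map_pow] at h1
    simp only [re_mul, im_mul]
    linear_combination (-(z.im * w.im)) * h1

theorem QA.ev_apply (r : F) (hr : r ^ 2 = p + q * r) (S : Type v) [CommRing S] [Algebra F S]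
    (z : QA p q S) : QA.ev r hr S z = z.re + algebraMap F S r * z.im := rfl

theorem QA.ev_map (r : F) (hr : r ^ 2 = p + q * r) (S : Type v) [CommRing S] [Algebra F S]
    (z : QA p q F) : QA.ev r hr S (QA.map p q (Algebra.ofId F S) z) =
      algebraMap F S (QA.ev r hr F z) := by
  rw [QA.ev_apply, QA.ev_apply, QA.map_re, QA.map_im, map_add, map_mul]
  rfl

theorem QA.ev_algebraMap (r : F) (hr : r ^ 2 = p + q * r) (S : Type v) [CommRing S] [Algebra F S]
    (z : F) : QA.ev r hr S (algebraMap F (QA p q S) z) = algebraMap F S z := by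
  have hb : algebraMap F (QA p q S) z = ⟨algebraMap F S z, 0⟩ := rfl
  rw [hb, QA.ev_apply, mul_zero, add_zero]

/-- The first component of the conic. -/
def evConic (c : Fin 3 → Fin 3 → QA p q F) (r : F) (hr : r ^ 2 = p + q * r) :
    Fin 3 → Fin 3 → F := fun i j => QA.ev r hr F (c i j)

theorem QA.ev_conicVal (c : Fin 3 → Fin 3 → QA p q F) (r : F) (hr : r ^ 2 = p + q * r)
    (S : Type v) [CommRing S] [Algebra F S] (v : Fin 3 → QA p q S) :
    QA.ev r hr S (conicVal c S v) = qv (evConic c r hr) S (fun i => QA.ev r hr S (v i)) := by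
  simp only [conicVal, qv, map_sum, map_mul, QA.ev_map, evConic]

/-- The element with given evaluations. -/
def QA.comb (p q r₁ r₂ : F) {S : Type v} [CommRing S] [Algebra F S] (z₁ z₂ : S) : QA p q S :=
  ⟨z₁ - algebraMap F S (r₁ * (r₁ - r₂)⁻¹) * (z₁ - z₂), algebraMap F S (r₁ - r₂)⁻¹ * (z₁ - z₂)⟩

variable {r₁ r₂ : F} (h₁ : r₁ ^ 2 = p + q * r₁) (h₂ : r₂ ^ 2 = p + q * r₂)

theorem QA.ev_comb₁ {S : Type v} [CommRing S] [Algebra F S] (z₁ z₂ : S) :
    QA.ev r₁ h₁ S (QA.comb p q r₁ r₂ z₁ z₂) = z₁ := by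
  rw [QA.ev_apply, QA.comb]
  simp only [map_mul]
  ring

theorem QA.ev_comb₂ (hne : r₁ ≠ r₂) {S : Type v} [CommRing S] [Algebra F S] (z₁ z₂ : S) :
    QA.ev r₂ h₂ S (QA.comb p q r₁ r₂ z₁ z₂) = z₂ := by
  have h3 : (r₁ - r₂) * (r₁ - r₂)⁻¹ = 1 := mul_inv_cancel₀ (sub_ne_zero.mpr hne)
  have h4 := congrArg (algebraMap F S) h3
  simp only [map_mul, map_sub, map_one] at h4
  rw [QA.ev_apply, QA.comb]
  simp only [map_mul]
  linear_combination (z₂ - z₁) * h4

theorem QA.ev_ext (hne : r₁ ≠ r₂) {S : Type v} [CommRing S] [Algebra F S] {z w : QA p q S}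
    (e₁ : QA.ev r₁ h₁ S z = QA.ev r₁ h₁ S w) (e₂ : QA.ev r₂ h₂ S z = QA.ev r₂ h₂ S w) : z = w := by
  rw [QA.ev_apply, QA.ev_apply] at e₁ e₂
  have h3 : (r₁ - r₂) * (r₁ - r₂)⁻¹ = 1 := mul_inv_cancel₀ (sub_ne_zero.mpr hne)
  have h4 := congrArg (algebraMap F S) h3
  simp only [map_mul, map_sub, map_one] at h4
  have him : z.im = w.im := by
    linear_combination algebraMap F S (r₁ - r₂)⁻¹ * (e₁ - e₂) + (w.im - z.im) * h4
  ext
  · rw [him] at e₁
    linear_combination e₁
  · exact him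

theorem hasResPoint_iff (hne : r₁ ≠ r₂) {c : Fin 3 → Fin 3 → QA p q F} {L : Type v} [Field L]
    [Algebra F L] : HasResPoint c L ↔
      (∃ v : Fin 3 → L, v ≠ 0 ∧ qv (evConic c r₁ h₁) L v = 0) ∧
      (∃ v : Fin 3 → L, v ≠ 0 ∧ qv (evConic c r₂ h₂) L v = 0) := by
  constructor
  · rintro ⟨v, hv, hvc⟩
    have key : ∀ (r : F) (hr : r ^ 2 = p + q * r),
        ∃ v : Fin 3 → L, v ≠ 0 ∧ qv (evConic c r hr) L v = 0 := by
      intro r hr
      refine ⟨fun i => QA.ev r hr L (v i), ?_, ?_⟩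
      · intro h0
        have h3 : (1 : QA p q L) ∈ Ideal.span (Set.range v) := by rw [hv]; trivial
        have h4 := Ideal.mem_map_of_mem (QA.ev r hr L) h3
        rw [map_one, Ideal.map_span] at h4
        have h5 : (QA.ev r hr L) '' (Set.range v) ⊆ {0} := by
          rintro _ ⟨_, ⟨i, rfl⟩, rfl⟩
          exact congrFun h0 i
        have h6 := Ideal.span_mono h5 h4
        rw [Ideal.mem_span_singleton, zero_dvd_iff] at h6
        exact one_ne_zero h6
      · rw [← QA.ev_conicVal, hvc, map_zero]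
    exact ⟨key r₁ h₁, key r₂ h₂⟩
  · rintro ⟨⟨v₁, hv₁, e₁⟩, ⟨v₂, hv₂, e₂⟩⟩
    refine ⟨fun i => QA.comb p q r₁ r₂ (v₁ i) (v₂ i), ?_, ?_⟩
    · obtain ⟨i, hi⟩ := Function.ne_iff.mp hv₁
      obtain ⟨j, hj⟩ := Function.ne_iff.mp hv₂
      rw [Ideal.eq_top_iff_one]
      have h3 : (1 : QA p q L) = QA.comb p q r₁ r₂ (v₁ i)⁻¹ 0 * QA.comb p q r₁ r₂ (v₁ i) (v₂ i) +
          QA.comb p q r₁ r₂ 0 (v₂ j)⁻¹ * QA.comb p q r₁ r₂ (v₁ j) (v₂ j) := by
        apply QA.ev_ext h₁ h₂ hne
        · rw [map_one, map_add, map_mul, map_mul]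
          simp only [QA.ev_comb₁]
          rw [zero_mul, add_zero, inv_mul_cancel₀ hi]
        · rw [map_one, map_add, map_mul, map_mul]
          simp only [QA.ev_comb₂ h₂ hne]
          rw [zero_mul, zero_add, inv_mul_cancel₀ hj]
      rw [h3]
      exact add_mem (Ideal.mul_mem_left _ _ (Ideal.subset_span ⟨i, rfl⟩))
        (Ideal.mul_mem_left _ _ (Ideal.subset_span ⟨j, rfl⟩))
    · apply QA.ev_ext h₁ h₂ hne
      · rw [QA.ev_conicVal, map_zero]
        simp only [QA.ev_comb₁]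
        exact e₁
      · rw [QA.ev_conicVal, map_zero]
        simp only [QA.ev_comb₂ h₂ hne]
        exact e₂

theorem qv_single {E : Type u} [Field E] (c : Fin 3 → Fin 3 → E) (k : Fin 3) :
    qv c E (Pi.single k 1) = c k k := by
  simp only [qv]
  rw [Finset.sum_eq_single k, Finset.sum_eq_single k]
  · simp
  · intro j _ hj
    simp [hj]
  · simp
  · intro j _ hj
    simp [hj]
  · simp

/-- Springer's theorem for conics. -/
theorem conic_point_of_cubic_point {E : Type u} [Field E] (c : Fin 3 → Fin 3 → E)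
    {L : Type w} [Field L] [Algebra E L] [FiniteDimensional E L]
    (hL : Module.finrank E L = 3) (h : ∃ v : Fin 3 → L, v ≠ 0 ∧ qv c L v = 0) :
    ∃ v : Fin 3 → E, v ≠ 0 ∧ qv c E v = 0 := by
  obtain ⟨v, hv, hvc⟩ := h
  set Q : MvPolynomial (Fin 3) E := ∑ i, ∑ j, MvPolynomial.C (c i j) *
    (MvPolynomial.X i * MvPolynomial.X j) with hQ
  have hQh : Q.IsHomogeneous 2 := by
    refine MvPolynomial.IsHomogeneous.sum _ _ _ fun i _ => MvPolynomial.IsHomogeneous.sum _ _ _
      fun j _ => ?_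
    exact ((MvPolynomial.isHomogeneous_X _ _).mul (MvPolynomial.isHomogeneous_X _ _)).C_mul _
  have hvQ : MvPolynomial.aeval v Q = 0 := by
    rw [← hvc]
    simp [hQ, qv]
  obtain ⟨a, ha, ha0, -⟩ := rational_point_of_cubic_point hQh hQh hL v hv hvQ hvQ
  refine ⟨a, ha, ?_⟩
  rw [← ha0]
  simp [hQ, qv]

/-- The normal form of a conic without rational points having a point over a given quadratic
extension. -/
theorem conic_normal_form_of_point {c : Fin 3 → Fin 3 → F}
    (hno : ¬ ∃ a : Fin 3 → F, a ≠ 0 ∧ qv c F a = 0) {L : Type w} [Field L] [Algebra F L] (η : L)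
    (hli : ∀ s t : F, algebraMap F L s + algebraMap F L t * η = 0 → s = 0 ∧ t = 0)
    (hspan : ∀ z : L, ∃ a b : F, z = algebraMap F L a + algebraMap F L b * η) {b c₀ : F}
    (hη2 : η ^ 2 = algebraMap F L c₀ + algebraMap F L b * η)
    (hpt : ∃ v : Fin 3 → L, v ≠ 0 ∧ qv c L v = 0)
    {K : Type v} [Field K] [Algebra F K]
    (hcl : ∀ z : K, IsAlgebraic F z → ∃ a : F, z = algebraMap F K a)
    (X : Fin 3 → K) (hX2 : X 2 = 1) (hX : qv c K X = 0) :
    ∃ (B : Matrix (Fin 3) (Fin 3) F) (s t r : K) (l m n : F),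
      (∀ i, X i = r * (algebraMap F K (B i 0) * s + algebraMap F K (B i 1) * t +
        algebraMap F K (B i 2))) ∧
      t * t - algebraMap F K b * (s * t) - algebraMap F K c₀ * (s * s) + algebraMap F K l * s +
        algebraMap F K m * t + algebraMap F K n = 0 ∧
      (l = 0 → m = 0 → b = 0 → (2 : F) = 0 → ∀ i j, c i j + c j i = 0) := by
  obtain ⟨v, hv, hvc⟩ := hpt
  choose v₀ v₁ hv₀₁ using fun i => hspan (v i)
  have hvfun : v = fun i => algebraMap F L (v₀ i) + algebraMap F L (v₁ i) * η := funext hv₀₁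
  have hno' : ∀ a : Fin 3 → F, a ≠ 0 → qv c F a ≠ 0 := fun a ha h => hno ⟨a, ha, h⟩
  obtain ⟨g1, g0, g01, gli⟩ := line_of_quadratic_point hno' η hli b c₀ hη2 v₀ v₁
    (by
      rw [← hvfun]
      obtain ⟨i, hi⟩ := Function.ne_iff.mp hv
      rw [Ideal.eq_top_iff_one]
      have h1 : (1 : L) = (v i)⁻¹ * v i := (inv_mul_cancel₀ hi).symm
      rw [h1]
      exact Ideal.mul_mem_left _ _ (Ideal.subset_span ⟨i, rfl⟩))
    (by
      rw [← hvfun]
      exact hvc)
  exact conic_normal_form hno' g1 g0 g01 gli hcl X hX2 hX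

variable {c : Fin 3 → Fin 3 → QA p q F} {K : Type v} [Field K] [Algebra F K]

theorem IsResGeneric.ev_eq {x y : QA p q K} (hgen : IsResGeneric c K x y) (r : F)
    (hr : r ^ 2 = p + q * r) :
    qv (evConic c r hr) K ![QA.ev r hr K x, QA.ev r hr K y, 1] = 0 := by
  have h1 := congrArg (QA.ev r hr K) hgen.eq
  rw [QA.ev_conicVal, map_zero] at h1
  rw [← h1]
  congr 1
  ext i
  fin_cases i
  · rfl
  · rfl
  · simp

include h₁ h₂ in
/-- `K` is generated by the evaluations. -/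
theorem IsResGeneric.eq_top {x y : QA p q K} (hgen : IsResGeneric c K x y) (hne : r₁ ≠ r₂)
    {k : IntermediateField F K} (hx₁ : QA.ev r₁ h₁ K x ∈ k) (hx₂ : QA.ev r₂ h₂ K x ∈ k)
    (hy₁ : QA.ev r₁ h₁ K y ∈ k) (hy₂ : QA.ev r₂ h₂ K y ∈ k) : k = ⊤ := by
  have key : ∀ z : QA p q K, QA.ev r₁ h₁ K z ∈ k → QA.ev r₂ h₂ K z ∈ k → QMem k z := by
    intro z hz₁ hz₂
    have h3 : z = QA.comb p q r₁ r₂ (QA.ev r₁ h₁ K z) (QA.ev r₂ h₂ K z) := by
      apply QA.ev_ext h₁ h₂ hne
      · rw [QA.ev_comb₁]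
      · rw [QA.ev_comb₂ h₂ hne]
    rw [h3]
    exact ⟨sub_mem hz₁ (mul_mem (IntermediateField.algebraMap_mem _ _) (sub_mem hz₁ hz₂)),
      mul_mem (IntermediateField.algebraMap_mem _ _) (sub_mem hz₁ hz₂)⟩
  rw [eq_top_iff, ← hgen.top, IntermediateField.adjoin_le_iff]
  rintro z (rfl | rfl | rfl | rfl)
  · exact (key x hx₁ hx₂).1
  · exact (key x hx₁ hx₂).2
  · exact (key y hy₁ hy₂).1
  · exact (key y hy₁ hy₂).2

theorem QMem.ev {k : IntermediateField F K} {z : QA p q K} (hz : QMem k z) (r : F)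
    (hr : r ^ 2 = p + q * r) : QA.ev r hr K z ∈ k :=
  add_mem hz.1 (mul_mem (IntermediateField.algebraMap_mem _ _) hz.2)

include h₁ h₂ in
/-- Neither conic has a rational point, and both have a point over a quadratic extension. -/
theorem res_split_le_two {x y : QA p q K} (hgen : IsResGeneric c K x y) (hne : r₁ ≠ r₂)
    (hsm : IsSmoothConic c)
    (hno₁ : ¬ ∃ a : Fin 3 → F, a ≠ 0 ∧ qv (evConic c r₁ h₁) F a = 0)
    (hno₂ : ¬ ∃ a : Fin 3 → F, a ≠ 0 ∧ qv (evConic c r₂ h₂) F a = 0)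
    {L : Type w} [Field L] [Algebra F L]
    [FiniteDimensional F L] (hL : Module.finrank F L = 2) (hpt : HasResPoint c L) :
    0 < irr F K ∧ irr F K ≤ 2 := by
  obtain ⟨η, hli, hspan⟩ := exists_quadratic_basis hL
  obtain ⟨c₀, b, hη2⟩ := hspan (η ^ 2)
  obtain ⟨hpt₁, hpt₂⟩ := (hasResPoint_iff h₁ h₂ hne).mp hpt
  obtain ⟨B₁, s₁, t₁, ρ₁, l₁, m₁, n₁, hX₁, heq₁, hsing₁⟩ := conic_normal_form_of_point hno₁ η hli
    hspan hη2 hpt₁ hgen.mem_range _ rfl (hgen.ev_eq r₁ h₁)
  obtain ⟨B₂, s₂, t₂, ρ₂, l₂, m₂, n₂, hX₂, heq₂, hsing₂⟩ := conic_normal_form_of_point hno₂ η hli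
    hspan hη2 hpt₂ hgen.mem_range _ rfl (hgen.ev_eq r₂ h₂)
  apply res_two_of_normal hgen.trdeg hgen.mem_range b c₀ ?_ (QA.comb p q r₁ r₂ s₁ s₂)
    (QA.comb p q r₁ r₂ t₁ t₂) (QA.comb p q r₁ r₂ l₁ l₂) (QA.comb p q r₁ r₂ m₁ m₂)
    (QA.comb p q r₁ r₂ n₁ n₂) ?_ ?_ ?_
  · intro r hr
    have h1 : (algebraMap F L r - η) * (algebraMap F L (r - b) + η) = 0 := by
      have h2 := congrArg (algebraMap F L) hr
      simp only [map_add, map_mul, map_pow, map_sub] at h2 ⊢
      linear_combination h2 - hη2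
    rcases mul_eq_zero.mp h1 with h | h
    · have := hli r (-1) (by rw [map_neg, map_one]; linear_combination h)
      exact one_ne_zero (neg_eq_zero.mp this.2)
    · have := hli (r - b) 1 (by rw [map_one]; linear_combination h)
      exact one_ne_zero this.2
  · set s := QA.comb p q r₁ r₂ s₁ s₂ with hs
    set t := QA.comb p q r₁ r₂ t₁ t₂ with ht
    set k := IntermediateField.adjoin F {s.re, s.im, t.re, t.im} with hk
    have hsk : QMem k s :=
      ⟨IntermediateField.subset_adjoin F _ (by simp), IntermediateField.subset_adjoin F _ (by simp)⟩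
    have htk : QMem k t :=
      ⟨IntermediateField.subset_adjoin F _ (by simp), IntermediateField.subset_adjoin F _ (by simp)⟩
    have gen : ∀ (B : Matrix (Fin 3) (Fin 3) F) (s t ρ : K) (X : Fin 3 → K), X 2 = 1 → s ∈ k →
        t ∈ k → (∀ i, X i = ρ * (algebraMap F K (B i 0) * s + algebraMap F K (B i 1) * t +
        algebraMap F K (B i 2))) → ∀ i, X i ∈ k := by
      intro B s t ρ X hX2 hs ht hX
      have hlin : ∀ i, algebraMap F K (B i 0) * s + algebraMap F K (B i 1) * t +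
          algebraMap F K (B i 2) ∈ k := fun i =>
        add_mem (add_mem (mul_mem (IntermediateField.algebraMap_mem _ _) hs)
          (mul_mem (IntermediateField.algebraMap_mem _ _) ht))
          (IntermediateField.algebraMap_mem _ _)
      have hρ : ρ ∈ k := by
        have h3 := hX 2
        rw [hX2] at h3
        have h4 : ρ = (algebraMap F K (B 2 0) * s + algebraMap F K (B 2 1) * t +
            algebraMap F K (B 2 2))⁻¹ := by
          rw [← one_div, eq_div_iff]
          · exact h3.symm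
          · intro h5
            rw [h5, mul_zero] at h3
            exact one_ne_zero h3
        rw [h4]
        exact inv_mem (hlin 2)
      intro i
      rw [hX i]
      exact mul_mem hρ (hlin i)
    have e1 := hsk.ev r₁ h₁
    have e2 := hsk.ev r₂ h₂
    have e3 := htk.ev r₁ h₁
    have e4 := htk.ev r₂ h₂
    rw [hs, QA.ev_comb₁] at e1
    rw [hs, QA.ev_comb₂ h₂ hne] at e2
    rw [ht, QA.ev_comb₁] at e3
    rw [ht, QA.ev_comb₂ h₂ hne] at e4
    have g1 := gen B₁ s₁ t₁ ρ₁ _ rfl e1 e3 hX₁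
    have g2 := gen B₂ s₂ t₂ ρ₂ _ rfl e2 e4 hX₂
    exact hgen.eq_top h₁ h₂ hne (g1 0) (g2 0) (g1 1) (g2 1)
  · apply QA.ev_ext h₁ h₂ hne
    · simp only [map_add, map_sub, map_mul, QA.ev_map, QA.ev_algebraMap, QA.ev_comb₁, map_zero]
      exact heq₁
    · simp only [map_add, map_sub, map_mul, QA.ev_map, QA.ev_algebraMap, QA.ev_comb₂ h₂ hne,
        map_zero]
      exact heq₂
  · intro hb h2
    by_contra hcon
    push Not at hcon
    obtain ⟨hl, hm⟩ := hcon
    have hl' := congrArg (QA.ev r₁ h₁ F) hl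
    have hm' := congrArg (QA.ev r₁ h₁ F) hm
    rw [QA.ev_comb₁, map_zero] at hl' hm'
    have hpol := hsing₁ hl' hm' hb h2
    refine hsm.false_of_polar (algebraMap F _ r₁) ?_ ?_
    · have := congrArg (algebraMap F (AlgebraicClosure F)) h₁
      simpa only [map_add, map_mul, map_pow] using this
    · intro i j
      have h3 := congrArg (algebraMap F (AlgebraicClosure F)) (hpol i j)
      simp only [evConic, QA.ev_apply, Algebra.algebraMap_self, RingHom.id_apply, map_add,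
        map_mul, map_zero] at h3
      simp only [re_add, im_add, map_add]
      linear_combination h3

include h₁ h₂ in
theorem res_split_isUnit (hne : r₁ ≠ r₂) {z : QA p q F} (hz₁ : QA.ev r₁ h₁ F z ≠ 0)
    (hz₂ : QA.ev r₂ h₂ F z ≠ 0) : IsUnit z := by
  refine IsUnit.of_mul_eq_one (QA.comb p q r₁ r₂ (QA.ev r₁ h₁ F z)⁻¹ (QA.ev r₂ h₂ F z)⁻¹) ?_
  apply QA.ev_ext h₁ h₂ hne
  · rw [map_mul, map_one, QA.ev_comb₁, mul_inv_cancel₀ hz₁]
  · rw [map_mul, map_one, QA.ev_comb₂ h₂ hne, mul_inv_cancel₀ hz₂]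

theorem IsSmoothConic.gradient (hsm : IsSmoothConic c) (r : F) (hr : r ^ 2 = p + q * r)
    {a : Fin 3 → F} (ha : a ≠ 0) (hqa : qv (evConic c r hr) F a = 0) :
    ∃ k, ∑ j, (evConic c r hr k j + evConic c r hr j k) * a j ≠ 0 := by
  obtain ⟨k, hk⟩ := hsm (algebraMap F _ r) (by
    have := congrArg (algebraMap F (AlgebraicClosure F)) hr
    simpa only [map_add, map_mul, map_pow] using this) (fun i => algebraMap F _ (a i)) (by
    intro h0
    apply ha
    ext i
    apply (algebraMap F (AlgebraicClosure F)).injective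
    rw [Pi.zero_apply, map_zero]
    exact congrFun h0 i) (by
    have h3 := congrArg (algebraMap F (AlgebraicClosure F)) hqa
    rw [map_zero] at h3
    rw [← h3]
    simp only [qv, evConic, QA.ev_apply, Algebra.algebraMap_self, RingHom.id_apply, map_sum,
      map_add, map_mul]
    refine Finset.sum_congr rfl fun i _ => Finset.sum_congr rfl fun j _ => ?_
    ring)
  refine ⟨k, fun h0 => hk ?_⟩
  have h3 := congrArg (algebraMap F (AlgebraicClosure F)) h0
  rw [map_zero] at h3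
  rw [← h3]
  simp only [evConic, QA.ev_apply, Algebra.algebraMap_self, RingHom.id_apply, map_sum,
    map_add, map_mul, re_add, im_add]
  refine Finset.sum_congr rfl fun j _ => ?_
  ring

include h₁ h₂ in
/-- Only one of the conics has a rational point. -/
theorem res_split_le_two' {x y : QA p q K} (hgen : IsResGeneric c K x y) (hne : r₁ ≠ r₂)
    (hsm : IsSmoothConic c)
    (hno₁ : ¬ ∃ a : Fin 3 → F, a ≠ 0 ∧ qv (evConic c r₁ h₁) F a = 0)
    (hpt₂ : ∃ a : Fin 3 → F, a ≠ 0 ∧ qv (evConic c r₂ h₂) F a = 0) :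
    0 < irr F K ∧ irr F K ≤ 2 := by
  obtain ⟨a, ha, hqa⟩ := hpt₂
  obtain ⟨κ, hκ⟩ := conic_parametrization ha hqa (hsm.gradient r₂ h₂ ha hqa) _ rfl
    (hgen.ev_eq r₂ h₂)
  set x' := QA.ev r₁ h₁ K x with hx'
  set y' := QA.ev r₁ h₁ K y with hy'
  set c' := evConic c r₁ h₁ with hc'
  have h11 : c' 1 1 ≠ 0 := by
    intro h0
    apply hno₁
    refine ⟨Pi.single 1 1, ?_, ?_⟩
    · intro h
      have := congrFun h 1
      simp at this
    · rw [qv_single]
      exact h0
  have heq := hgen.ev_eq r₁ h₁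
  rw [← hx', ← hy', ← hc'] at heq
  have hxk : x' ∈ F⟮κ⟯⟮x'⟯ := IntermediateField.mem_adjoin_simple_self _ _
  set ξ : F⟮κ⟯⟮x'⟯ := ⟨x', hxk⟩ with hξ
  have hξK : algebraMap F⟮κ⟯⟮x'⟯ K ξ = x' := rfl
  have haK : ∀ a : F, algebraMap F⟮κ⟯⟮x'⟯ K (algebraMap F F⟮κ⟯⟮x'⟯ a) = algebraMap F K a :=
    fun a => rfl
  have htop : F⟮κ⟯⟮x'⟯⟮y'⟯ = ⊤ := by
    rw [← IntermediateField.restrictScalars_eq_top_iff (K := F⟮κ⟯),
      ← IntermediateField.restrictScalars_eq_top_iff (K := F)]
    have hκle : ∀ z ∈ F⟮κ⟯, z ∈ ((F⟮κ⟯⟮x'⟯⟮y'⟯).restrictScalars F⟮κ⟯).restrictScalars F := by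
      intro z hz
      exact IntermediateField.algebraMap_mem (F⟮κ⟯⟮x'⟯⟮y'⟯)
        (algebraMap F⟮κ⟯ F⟮κ⟯⟮x'⟯ ⟨z, hz⟩)
    refine hgen.eq_top h₁ h₂ hne ?_ (hκle _ (hκ 0)) ?_ (hκle _ (hκ 1))
    · exact IntermediateField.algebraMap_mem (F⟮κ⟯⟮x'⟯⟮y'⟯) ξ
    · exact IntermediateField.mem_adjoin_simple_self (F⟮κ⟯⟮x'⟯) y'
  obtain ⟨hfin, hle⟩ := finrank_le_two_of_root (k := F⟮κ⟯⟮x'⟯) y' htop
    (algebraMap F _ (c' 1 1))
    (algebraMap F _ (c' 0 1 + c' 1 0) * ξ + algebraMap F _ (c' 1 2 + c' 2 1))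
    (algebraMap F _ (c' 0 0) * ξ ^ 2 + algebraMap F _ (c' 0 2 + c' 2 0) * ξ +
      algebraMap F _ (c' 2 2))
    (Or.inl ((map_ne_zero _).mpr h11)) (by
      simp only [qv, Fin.sum_univ_three, Matrix.cons_val_zero, Matrix.cons_val_one,
        Matrix.cons_val] at heq
      simp only [map_add, map_mul, map_pow, hξK, haK]
      linear_combination heq)
  exact irr_le_of_tower hgen.trdeg κ x' hfin hle

include h₁ h₂ in
/-- Both conics have a rational point. -/
theorem res_split_rational {x y : QA p q K} (hgen : IsResGeneric c K x y) (hne : r₁ ≠ r₂)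
    (hsm : IsSmoothConic c) (hpt : HasResPoint c F) : IsRational F K := by
  obtain ⟨⟨a₁, ha₁, hqa₁⟩, ⟨a₂, ha₂, hqa₂⟩⟩ := (hasResPoint_iff h₁ h₂ hne).mp hpt
  obtain ⟨κ₁, hκ₁⟩ := conic_parametrization ha₁ hqa₁ (hsm.gradient r₁ h₁ ha₁ hqa₁) _ rfl
    (hgen.ev_eq r₁ h₁)
  obtain ⟨κ₂, hκ₂⟩ := conic_parametrization ha₂ hqa₂ (hsm.gradient r₂ h₂ ha₂ hqa₂) _ rfl
    (hgen.ev_eq r₂ h₂)
  apply isRational_of_adjoin hgen.trdeg κ₁ κ₂
  have hle₁ : F⟮κ₁⟯ ≤ IntermediateField.adjoin F {κ₁, κ₂} :=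
    IntermediateField.adjoin.mono _ _ _ (by simp)
  have hle₂ : F⟮κ₂⟯ ≤ IntermediateField.adjoin F {κ₁, κ₂} :=
    IntermediateField.adjoin.mono _ _ _ (by simp)
  exact hgen.eq_top h₁ h₂ hne (hle₁ (hκ₁ 0)) (hle₂ (hκ₂ 0)) (hle₁ (hκ₁ 1)) (hle₂ (hκ₂ 1))

end

/-- The formula for minimal surfaces of degree eight: the function field of the Weil restriction
of a smooth conic. -/
theorem res_formula {F : Type u} [Field F] {p q : F} (hpq : q ^ 2 + 4 * p ≠ 0)
    (c : Fin 3 → Fin 3 → QA p q F) (hsm : IsSmoothConic c) {K : Type u} [Field K] [Algebra F K]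
    {x y : QA p q K} (hgen : IsResGeneric c K x y) :
    (HasResPoint c F → IsRational F K) ∧
    (¬ HasResPoint c F → irr F K = resMinDegree c ∧ (resMinDegree c = 2 ∨ resMinDegree c = 4)) := by
  by_cases hE : ∀ r : F, r ^ 2 ≠ p + q * r
  · refine ⟨res_field_rational hgen hE hsm, fun hno => ?_⟩
    haveI hFE : Fact (∀ r : F, r ^ 2 ≠ algebraMap F F p + algebraMap F F q * r) := ⟨hE⟩
    have hu : IsUnit (c 1 1) := by
      rw [isUnit_iff_ne_zero]
      intro h0
      apply hno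
      refine ⟨Pi.single 1 1, ?_, ?_⟩
      · rw [Ideal.eq_top_iff_one]
        exact Ideal.subset_span ⟨1, by simp⟩
      · rw [conicVal_self, qv_single, h0]
    exact res_formula_aux hgen hpq hno (res_le_four_of_unit hgen hpq hu)
      (fun L _ _ hfin hL hpt => (res_field_le_two hgen hpq hE hsm hno hL hpt).2)
      (fun L _ _ hfin hL hpt => hno (res_field_cubic hE hL hpt))
  · push Not at hE
    obtain ⟨r₁, h₁⟩ := hE
    set r₂ := q - r₁ with hr₂
    have h₂ : r₂ ^ 2 = p + q * r₂ := by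
      rw [hr₂]
      linear_combination h₁
    have hne : r₁ ≠ r₂ := by
      intro h
      apply hpq
      have h3 : q = 2 * r₁ := by
        rw [hr₂] at h
        linear_combination -h
      rw [h3] at h₁ ⊢
      linear_combination -4 * h₁
    refine ⟨res_split_rational h₁ h₂ hgen hne hsm, fun hno => ?_⟩
    have hcub : ∀ (L : Type u) [Field L] [Algebra F L], FiniteDimensional F L →
        Module.finrank F L = 3 → ¬ HasResPoint c L := by
      intro L _ _ hfin hL hpt
      apply hno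
      rw [hasResPoint_iff h₁ h₂ hne] at hpt ⊢
      exact ⟨conic_point_of_cubic_point _ hL hpt.1, conic_point_of_cubic_point _ hL hpt.2⟩
    by_cases hp₁ : ∃ a : Fin 3 → F, a ≠ 0 ∧ qv (evConic c r₁ h₁) F a = 0
    · have hp₂ : ¬ ∃ a : Fin 3 → F, a ≠ 0 ∧ qv (evConic c r₂ h₂) F a = 0 := fun h =>
        hno ((hasResPoint_iff h₁ h₂ hne).mpr ⟨hp₁, h⟩)
      have h3 := res_split_le_two' h₂ h₁ hgen hne.symm hsm hp₂ hp₁
      exact res_formula_aux hgen hpq hno ⟨h3.1, by omega⟩ (fun _ _ _ _ _ _ => h3.2) hcub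
    · by_cases hp₂ : ∃ a : Fin 3 → F, a ≠ 0 ∧ qv (evConic c r₂ h₂) F a = 0
      · have h3 := res_split_le_two' h₁ h₂ hgen hne hsm hp₁ hp₂
        exact res_formula_aux hgen hpq hno ⟨h3.1, by omega⟩ (fun _ _ _ _ _ _ => h3.2) hcub
      · have hu : IsUnit (c 1 1) := by
          apply res_split_isUnit h₁ h₂ hne
          · intro h0
            apply hp₁
            refine ⟨Pi.single 1 1, ?_, ?_⟩
            · intro h
              have := congrFun h 1
              simp at this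
            · rw [qv_single]
              exact h0
          · intro h0
            apply hp₂
            refine ⟨Pi.single 1 1, ?_, ?_⟩
            · intro h
              have := congrFun h 1
              simp at this
            · rw [qv_single]
              exact h0
        exact res_formula_aux hgen hpq hno (res_le_four_of_unit hgen hpq hu)
          (fun L _ _ hfin hL hpt => (res_split_le_two h₁ h₂ hgen hne hsm hp₁ hp₂ hL hpt).2) hcub

end Pool.Agent.Helper17.Irr
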