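import Mathlib
import Pool.Agent.Helper17.Irr.DefsSix
import Pool.Agent.Helper17.Irr.ResUpper

/-!
# Coordinates over an algebraically closed field
-/

set_option linter.style.haveILetI false
set_option linter.deprecated false

namespace Pool.Agent.Helper17.Irr

open IntermediateField QuadraticAlgebra TensorProduct

universe u v w x y

section

variable {F : Type u} [Field F] {M : Type v} [CommRing M] [Algebra F M]
  (bM : Module.Basis (Fin 3) F M)

/-- An étale cubic algebra has three independent homomorphisms to every algebraically closed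
field. -/
theorem exists_etale_homs [Algebra.Etale F M] (Ω : Type w) [Field Ω] [IsAlgClosed Ω]
    [Algebra F Ω] : ∃ σ : Fin 3 → (M →ₐ[F] Ω), (Matrix.of fun i j => σ i (bM j)).det ≠ 0 := by
  classical
  let A := Ω ⊗[F] M
  let e : A ≃ₐ[Ω] (PrimeSpectrum A → Ω) := Algebra.FormallyEtale.equivPiOfIsSepClosed Ω A
  let bA : Module.Basis (Fin 3) Ω A := Algebra.TensorProduct.basis Ω bM
  haveI : Module.Finite Ω A := Module.Finite.of_basis bA
  haveI : Module.Finite Ω (PrimeSpectrum A → Ω) := Module.Finite.equiv e.toLinearEquiv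
  haveI : Finite (PrimeSpectrum A) := by
    by_contra h
    rw [not_finite_iff_infinite] at h
    have h1 : LinearIndependent Ω (fun i : PrimeSpectrum A => (Pi.single i 1 : PrimeSpectrum A → Ω)) :=
      Pi.linearIndependent_single_one _ _
    exact (h1.finite).false
  haveI := Fintype.ofFinite (PrimeSpectrum A)
  have hcard : Fintype.card (PrimeSpectrum A) = 3 := by
    have h1 := LinearEquiv.finrank_eq e.toLinearEquiv
    rw [Module.finrank_eq_card_basis bA, Fintype.card_fin, Module.finrank_fintype_fun_eq_card] at h1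
    exact h1.symm
  let e₃ : Fin 3 ≃ PrimeSpectrum A := (finCongr hcard.symm).trans (Fintype.equivFin _).symm
  refine ⟨fun i => ((Pi.evalAlgHom F (fun _ : PrimeSpectrum A => Ω) (e₃ i)).comp
    ((e : A →ₐ[Ω] (PrimeSpectrum A → Ω)).restrictScalars F)).comp
      Algebra.TensorProduct.includeRight, ?_⟩
  have h2 := LinearEquiv.isUnit_det e.toLinearEquiv bA ((Pi.basisFun Ω (PrimeSpectrum A)).reindex
    e₃.symm)
  have h3 : LinearMap.toMatrix bA ((Pi.basisFun Ω (PrimeSpectrum A)).reindex e₃.symm)
      (e.toLinearEquiv : A →ₗ[Ω] (PrimeSpectrum A → Ω)) = Matrix.of fun i j =>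
        ((Pi.evalAlgHom F (fun _ : PrimeSpectrum A => Ω) (e₃ i)).comp
    ((e : A →ₐ[Ω] (PrimeSpectrum A → Ω)).restrictScalars F)).comp
      Algebra.TensorProduct.includeRight (bM j) := by
    ext i j
    rw [LinearMap.toMatrix_apply]
    have h4 : bA j = 1 ⊗ₜ[F] bM j := Algebra.TensorProduct.basis_apply bM j
    rw [h4, Module.Basis.repr_reindex_apply, Equiv.symm_symm, Pi.basisFun_repr]
    rfl
  rw [h3] at h2
  exact h2.ne_zero

/-- The coordinate of a vector over `R` defined by homomorphisms `R → Ω` and `M → Ω`. -/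
noncomputable def cd {R : Type x} [CommRing R] [Algebra F R] {Ω : Type w} [Field Ω] [Algebra F Ω]
    (f : R →ₐ[F] Ω) (σ : M →ₐ[F] Ω) (z : Fin 3 → R) : Ω := ∑ j, f (z j) * σ (bM j)

section

variable {bM}
variable {R : Type x} [CommRing R] [Algebra F R] {Ω : Type w} [Field Ω] [Algebra F Ω]
    (f : R →ₐ[F] Ω) (σ : M →ₐ[F] Ω)

theorem cd_add (z w : Fin 3 → R) : cd bM f σ (z + w) = cd bM f σ z + cd bM f σ w := by
  simp only [cd, Pi.add_apply, map_add, add_mul, Finset.sum_add_distrib]

theorem cd_sub (z w : Fin 3 → R) : cd bM f σ (z - w) = cd bM f σ z - cd bM f σ w := by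
  simp only [cd, Pi.sub_apply, map_sub, sub_mul, Finset.sum_sub_distrib]

theorem cd_smul (r : R) (z : Fin 3 → R) : cd bM f σ (r • z) = f r * cd bM f σ z := by
  simp only [cd, Pi.smul_apply, smul_eq_mul, map_mul, Finset.mul_sum, mul_assoc]

theorem cd_mul_left (r : R) (z : Fin 3 → R) : cd bM f σ (fun i => r * z i) = f r * cd bM f σ z :=
  cd_smul f σ r z

theorem cd_zero : cd bM f σ (0 : Fin 3 → R) = 0 := by
  simp [cd]

theorem cd_coords (m : M) : cd bM f σ (coords bM R m) = σ m := by
  simp only [cd, coords, AlgHom.commutes]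
  conv_rhs => rw [← bM.sum_repr m]
  rw [map_sum]
  refine Finset.sum_congr rfl fun i _ => ?_
  rw [map_smul, Algebra.smul_def]

theorem cd_mulMat_row (z : Fin 3 → R) (j : Fin 3) :
    ∑ i, σ (bM i) * f (mulMat bM z i j) = cd bM f σ z * σ (bM j) := by
  have h1 : ∀ k, ∑ i, σ (bM i) * algebraMap F Ω (Algebra.leftMulMatrix bM (bM k) i j) =
      σ (bM k) * σ (bM j) := by
    intro k
    rw [← map_mul]
    conv_rhs => rw [← bM.sum_repr (bM k * bM j)]
    rw [map_sum]
    refine Finset.sum_congr rfl fun i _ => ?_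
    rw [map_smul, Algebra.smul_def, Algebra.leftMulMatrix_eq_repr_mul, mul_comm]
  simp only [mulMat, Matrix.sum_apply, Matrix.smul_apply, Matrix.map_apply, smul_eq_mul, map_sum,
    map_mul, AlgHom.commutes, Finset.mul_sum]
  rw [Finset.sum_comm, cd, Finset.sum_mul]
  refine Finset.sum_congr rfl fun k _ => ?_
  rw [mul_assoc, ← h1 k, Finset.mul_sum]
  refine Finset.sum_congr rfl fun i _ => ?_
  ring

theorem cd_mulVec (z w : Fin 3 → R) :
    cd bM f σ ((mulMat bM z).mulVec w) = cd bM f σ z * cd bM f σ w := by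
  have h1 : cd bM f σ ((mulMat bM z).mulVec w) = ∑ j, (∑ i, σ (bM i) * f (mulMat bM z i j)) *
      f (w j) := by
    simp only [cd, Matrix.mulVec, dotProduct, map_sum, map_mul, Finset.sum_mul]
    rw [Finset.sum_comm]
    refine Finset.sum_congr rfl fun j _ => Finset.sum_congr rfl fun i _ => ?_
    ring
  rw [h1]
  simp only [cd_mulMat_row]
  conv_rhs => rw [cd, cd, Finset.mul_sum]
  rw [cd]
  refine Finset.sum_congr rfl fun j _ => ?_
  ring

variable {σ' : Fin 3 → (M →ₐ[F] Ω)}

theorem homMat_mul (z : Fin 3 → R) :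
    (Matrix.of fun i j => σ' i (bM j)) * (mulMat bM z).map f =
      Matrix.diagonal (fun i => cd bM f (σ' i) z) * (Matrix.of fun i j => σ' i (bM j)) := by
  ext i j
  rw [Matrix.mul_apply, Matrix.diagonal_mul]
  exact cd_mulMat_row f (σ' i) z j

theorem map_det_mulMat (hσ : (Matrix.of fun i j => σ' i (bM j)).det ≠ 0) (z : Fin 3 → R) :
    f (mulMat bM z).det = ∏ i, cd bM f (σ' i) z := by
  have h1 := congrArg Matrix.det (homMat_mul (bM := bM) (σ' := σ') f z)
  rw [Matrix.det_mul, Matrix.det_mul, Matrix.det_diagonal, mul_comm] at h1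
  have h2 := mul_right_cancel₀ hσ h1
  rw [← h2]
  exact AlgHom.map_det f (mulMat bM z)

theorem map_trace_mulMat (hσ : (Matrix.of fun i j => σ' i (bM j)).det ≠ 0) (z : Fin 3 → R) :
    f (mulMat bM z).trace = ∑ i, cd bM f (σ' i) z := by
  set V : Matrix (Fin 3) (Fin 3) Ω := Matrix.of fun i j => σ' i (bM j) with hV
  have hVu : IsUnit V.det := isUnit_iff_ne_zero.mpr hσ
  have h1 : (mulMat bM z).map f = V⁻¹ * (Matrix.diagonal (fun i => cd bM f (σ' i) z) * V) := by
    rw [← homMat_mul, ← Matrix.mul_assoc, Matrix.nonsing_inv_mul _ hVu, Matrix.one_mul]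
  have h2 : f (mulMat bM z).trace = ((mulMat bM z).map f).trace := by
    simp [Matrix.trace, map_sum]
  rw [h2, h1, Matrix.trace_mul_comm, Matrix.mul_assoc, Matrix.mul_nonsing_inv _ hVu,
    Matrix.mul_one, Matrix.trace_diagonal]

theorem cd_adjugate (hσ : (Matrix.of fun i j => σ' i (bM j)).det ≠ 0) (z : Fin 3 → R) (i : Fin 3) :
    cd bM f (σ' i) ((mulMat bM z).adjugate.mulVec (coords bM R 1)) =
      ∏ j ∈ Finset.univ.erase i, cd bM f (σ' j) z := by
  set V : Matrix (Fin 3) (Fin 3) Ω := Matrix.of fun i j => σ' i (bM j) with hV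
  have hVu : IsUnit V.det := isUnit_iff_ne_zero.mpr hσ
  set D := Matrix.diagonal (fun i => cd bM f (σ' i) z) with hD
  have h1 := congrArg Matrix.adjugate (homMat_mul (bM := bM) (σ' := σ') f z)
  rw [← hV, ← hD, Matrix.adjugate_mul_distrib, Matrix.adjugate_mul_distrib] at h1
  have h2 : V * ((mulMat bM z).map f).adjugate = D.adjugate * V := by
    have h3 : V * (((mulMat bM z).map f).adjugate * V.adjugate) * V =
        V * (V.adjugate * D.adjugate) * V := by rw [h1]
    rw [← Matrix.mul_assoc, Matrix.mul_assoc, Matrix.adjugate_mul, ← Matrix.mul_assoc V,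
      Matrix.mul_adjugate, Matrix.mul_smul, Matrix.mul_one, Matrix.smul_mul, Matrix.one_mul,
      Matrix.smul_mul] at h3
    exact smul_right_injective _ hσ h3
  have h3 : ((mulMat bM z).map f).adjugate = (mulMat bM z).adjugate.map f :=
    (RingHom.map_adjugate (f : R →+* Ω) (mulMat bM z)).symm
  have h4 : ∀ w : Fin 3 → R, cd bM f (σ' i) w = V.mulVec (fun j => f (w j)) i := by
    intro w
    simp only [cd, Matrix.mulVec, dotProduct, hV, Matrix.of_apply]
    refine Finset.sum_congr rfl fun j _ => ?_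
    ring
  have h5 : (fun j => f ((mulMat bM z).adjugate.mulVec (coords bM R 1) j)) =
      ((mulMat bM z).adjugate.map f).mulVec (fun j => f (coords bM R 1 j)) := by
    ext j
    simp [Matrix.mulVec, dotProduct, map_sum, map_mul]
  rw [h4, h5, ← h3, Matrix.mulVec_mulVec, h2, ← Matrix.mulVec_mulVec, hD,
    Matrix.adjugate_diagonal, Matrix.mulVec_diagonal, ← h4, cd_coords, map_one, mul_one]

theorem cd_ext (hσ : (Matrix.of fun i j => σ' i (bM j)).det ≠ 0) {z w : Fin 3 → R}
    (h : ∀ i, cd bM f (σ' i) z = cd bM f (σ' i) w) (j : Fin 3) : f (z j) = f (w j) := by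
  set V : Matrix (Fin 3) (Fin 3) Ω := Matrix.of fun i j => σ' i (bM j) with hV
  have h4 : ∀ w : Fin 3 → R, ∀ i, V.mulVec (fun j => f (w j)) i = cd bM f (σ' i) w := by
    intro w i
    simp only [cd, Matrix.mulVec, dotProduct, hV, Matrix.of_apply]
    refine Finset.sum_congr rfl fun j _ => ?_
    ring
  have h5 : V.mulVec (fun j => f (z j)) = V.mulVec (fun j => f (w j)) := by
    ext i
    rw [h4, h4, h i]
  exact congrFun (Matrix.mulVec_injective_of_isUnit
    ((Matrix.isUnit_iff_isUnit_det _).mpr (isUnit_iff_ne_zero.mpr hσ)) h5) j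

end

/-! ### Frames -/

/-- Homomorphisms from `M` and `E` to an algebraically closed field. -/
structure SixFrame (p q : F) (Ω : Type w) [Field Ω] [Algebra F Ω] where
  /-- The homomorphisms from `M`. -/
  σ : Fin 3 → (M →ₐ[F] Ω)
  /-- The images of `ω`. -/
  r : Fin 2 → Ω
  det_ne : (Matrix.of fun i j => σ i (bM j)).det ≠ 0
  sum_r : r 0 + r 1 = algebraMap F Ω q
  mul_r : r 0 * r 1 = - algebraMap F Ω p
  r_ne : r 0 ≠ r 1

theorem exists_sixFrame [Algebra.Etale F M] (p q : F) (hpq : q ^ 2 + 4 * p ≠ 0) (Ω : Type w)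
    [Field Ω] [IsAlgClosed Ω] [Algebra F Ω] : Nonempty (SixFrame bM p q Ω) := by
  obtain ⟨σ, hσ⟩ := exists_etale_homs bM Ω
  obtain ⟨r, hr⟩ := IsAlgClosed.exists_root (k := Ω)
    (Polynomial.C 1 * Polynomial.X ^ 2 + Polynomial.C (-algebraMap F Ω q) *
      Polynomial.X + Polynomial.C (-algebraMap F Ω p)) (by
      rw [Polynomial.degree_quadratic one_ne_zero]
      norm_num)
  simp only [Polynomial.IsRoot, Polynomial.eval_add, Polynomial.eval_mul, Polynomial.eval_C,
    Polynomial.eval_pow, Polynomial.eval_X] at hr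
  refine ⟨⟨σ, ![r, algebraMap F Ω q - r], hσ, ?_, ?_, ?_⟩⟩
  · simp
  · simp only [Matrix.cons_val_zero, Matrix.cons_val_one]
    linear_combination -hr
  · simp only [Matrix.cons_val_zero, Matrix.cons_val_one]
    intro h
    have h1 : algebraMap F Ω (q ^ 2 + 4 * p) ≠ 0 := (map_ne_zero _).mpr hpq
    simp only [map_add, map_mul, map_pow, map_ofNat] at h1
    apply h1
    linear_combination (algebraMap F Ω q - 2 * r) * (-h) - 4 * hr

namespace SixFrame

variable {bM} {p q : F} {Ω : Type w} [Field Ω] [Algebra F Ω] (T : SixFrame bM p q Ω)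

theorem r_sq (s : Fin 2) : T.r s ^ 2 = algebraMap F Ω p + algebraMap F Ω q * T.r s := by
  have h1 := T.sum_r
  have h2 := T.mul_r
  fin_cases s
  · simp only [Fin.zero_eta]
    linear_combination T.r 0 * h1 - h2
  · simp only [Fin.mk_one]
    linear_combination T.r 1 * h1 - h2

variable {S : Type x} [CommRing S] [Algebra F S] [Algebra S Ω] [IsScalarTower F S Ω]

/-- The homomorphism from `E ⊗ S` to `Ω`. -/
noncomputable def ev (s : Fin 2) : QA p q S →ₐ[F] Ω where
  toFun z := algebraMap S Ω z.re + T.r s * algebraMap S Ω z.im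
  map_one' := by simp [QuadraticAlgebra.re_one, QuadraticAlgebra.im_one]
  map_zero' := by simp
  map_add' z w := by
    simp only [re_add, im_add, map_add]
    ring
  map_mul' z w := by
    have h1 := T.r_sq s
    simp only [re_mul, im_mul, map_add, map_mul, ← IsScalarTower.algebraMap_apply]
    linear_combination (-(algebraMap S Ω z.im * algebraMap S Ω w.im)) * h1
  commutes' a := by
    have hb : algebraMap F (QA p q S) a = ⟨algebraMap F S a, 0⟩ := rfl
    rw [hb]
    simp only [map_zero, mul_zero, add_zero, ← IsScalarTower.algebraMap_apply]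

theorem ev_apply (s : Fin 2) (z : QA p q S) :
    T.ev s z = algebraMap S Ω z.re + T.r s * algebraMap S Ω z.im := rfl

theorem ev_star (s : Fin 2) (z : QA p q S) : T.ev s (star z) = T.ev (1 - s) z := by
  have h1 := T.sum_r
  fin_cases s
  · simp only [ev_apply, re_star, im_star, map_add, map_mul, map_neg,
      ← IsScalarTower.algebraMap_apply, Fin.zero_eta, sub_zero]
    linear_combination (-(algebraMap S Ω z.im)) * h1
  · simp only [ev_apply, re_star, im_star, map_add, map_mul, map_neg,
      ← IsScalarTower.algebraMap_apply, Fin.mk_one, sub_self]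
    linear_combination (-(algebraMap S Ω z.im)) * h1

theorem ev_algebraMap (s : Fin 2) (z : S) :
    T.ev s (algebraMap S (QA p q S) z) = algebraMap S Ω z := by
  have hb : algebraMap S (QA p q S) z = ⟨z, 0⟩ := rfl
  rw [hb, ev_apply]
  simp

theorem ev_map (s : Fin 2) (z : QA p q F) :
    T.ev s (QA.map p q (Algebra.ofId F S) z) = T.ev s z := by
  rw [ev_apply, ev_apply, QA.map_re, QA.map_im, Algebra.ofId_apply, Algebra.ofId_apply,
    ← IsScalarTower.algebraMap_apply, ← IsScalarTower.algebraMap_apply]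

theorem ev_ext (hinj : Function.Injective (algebraMap S Ω)) {z w : QA p q S}
    (h : ∀ s, T.ev s z = T.ev s w) : z = w := by
  have h0 := h 0
  have h1 := h 1
  rw [ev_apply, ev_apply] at h0 h1
  have him : algebraMap S Ω z.im = algebraMap S Ω w.im := by
    have h2 : (T.r 0 - T.r 1) * (algebraMap S Ω z.im - algebraMap S Ω w.im) = 0 := by
      linear_combination h0 - h1
    rcases mul_eq_zero.mp h2 with h3 | h3
    · exact absurd (sub_eq_zero.mp h3) T.r_ne
    · exact sub_eq_zero.mp h3
  ext
  · apply hinj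
    rw [him] at h0
    linear_combination h0
  · exact hinj him

/-- The six coordinates of a vector over `E ⊗ S`. -/
noncomputable def x (s : Fin 2) (i : Fin 3) (z : Fin 3 → QA p q S) : Ω :=
  cd bM (T.ev s) (T.σ i) z

theorem x_mulVec (s : Fin 2) (i : Fin 3) (z w : Fin 3 → QA p q S) :
    T.x s i ((mulMat bM z).mulVec w) = T.x s i z * T.x s i w := cd_mulVec _ _ _ _

theorem x_coords (s : Fin 2) (i : Fin 3) (m : M) :
    T.x s i (coords bM (QA p q S) m) = T.σ i m := cd_coords _ _ _

theorem x_star (s : Fin 2) (i : Fin 3) (z : Fin 3 → QA p q S) :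
    T.x s i (fun j => star (z j)) = T.x (1 - s) i z := by
  simp only [x, cd, ev_star]

theorem x_adjugate (s : Fin 2) (i : Fin 3) (z : Fin 3 → QA p q S) :
    T.x s i ((mulMat bM z).adjugate.mulVec (coords bM (QA p q S) 1)) =
      ∏ j ∈ Finset.univ.erase i, T.x s j z := cd_adjugate _ T.det_ne _ _

theorem ev_det (s : Fin 2) (z : Fin 3 → QA p q S) :
    T.ev s (mulMat bM z).det = ∏ i, T.x s i z := map_det_mulMat _ T.det_ne _

theorem ev_trace (s : Fin 2) (z : Fin 3 → QA p q S) :
    T.ev s (mulMat bM z).trace = ∑ i, T.x s i z := map_trace_mulMat _ T.det_ne _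

theorem x_ext (hinj : Function.Injective (algebraMap S Ω)) {z w : Fin 3 → QA p q S}
    (h : ∀ s i, T.x s i z = T.x s i w) : z = w := by
  ext j : 1
  exact T.ev_ext hinj fun s => cd_ext _ T.det_ne (h s) j

end SixFrame

end

end Pool.Agent.Helper17.Irr
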