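import Mathlib
import Pool.Agent.Helper17.Irr.SixFrame
import Pool.Agent.Helper17.Irr.ResRat

/-!
# Transcendence of the coordinates of the generic point
-/

set_option linter.style.haveILetI false
set_option linter.deprecated false

namespace Pool.Agent.Helper17.Irr

open IntermediateField QuadraticAlgebra

universe u v w x y

section

variable {F : Type u} [Field F] {M : Type v} [CommRing M] [Algebra F M]
  (bM : Module.Basis (Fin 3) F M) {p q : F}

/-- The data of a generic point of the surface `z z̄ = b`, `N(z) = a`. -/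
structure IsTorGeneric (a : QA p q F) (b : M) (K : Type w) [Field K] [Algebra F K]
    (z : Fin 3 → QA p q K) : Prop where
  trdeg : 2 ≤ Algebra.trdeg F K
  gen : ∀ k : IntermediateField F K, (∀ j, QMem k (z j)) → k = ⊤
  conj : (mulMat bM z).mulVec (fun j => star (z j)) = coords bM (QA p q K) b
  det : (mulMat bM z).det = QA.map p q (Algebra.ofId F K) a

end

section

variable {F : Type u} [Field F] {M : Type v} [CommRing M] [Algebra F M]
  {bM : Module.Basis (Fin 3) F M} {p q : F}

theorem SixFrame.mem_of_x_mem {Ω : Type w} [Field Ω] [Algebra F Ω] (T : SixFrame bM p q Ω)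
    {S : Type x} [CommRing S] [Algebra F S] [Algebra S Ω] [IsScalarTower F S Ω]
    (B : IntermediateField F Ω) (hB : ∀ c : Ω, IsAlgebraic F c → c ∈ B) {z : Fin 3 → QA p q S}
    (hz : ∀ s i, T.x s i z ∈ B) (j : Fin 3) :
    algebraMap S Ω (z j).re ∈ B ∧ algebraMap S Ω (z j).im ∈ B := by
  haveI : Module.Finite F M := Module.Finite.of_basis bM
  have hr : ∀ s, T.r s ∈ B := by
    intro s
    apply hB
    refine ⟨Polynomial.X ^ 2 - Polynomial.C q * Polynomial.X - Polynomial.C p, ?_, ?_⟩
    · intro h5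
      have := congrArg (fun P : Polynomial F => P.coeff 2) h5
      simp at this
    · simp only [map_sub, map_mul, map_pow, Polynomial.aeval_X, Polynomial.aeval_C]
      linear_combination T.r_sq s
  have hσ : ∀ i m, T.σ i m ∈ B := by
    intro i m
    apply hB
    exact ((Algebra.IsIntegral.isIntegral (R := F) m).map (T.σ i)).isAlgebraic
  set V : Matrix (Fin 3) (Fin 3) Ω := Matrix.of fun i j => T.σ i (bM j) with hV
  let V' : Matrix (Fin 3) (Fin 3) B := Matrix.of fun i j => ⟨T.σ i (bM j), hσ _ _⟩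
  have hVV' : V = V'.map (algebraMap B Ω) := by
    ext i j
    rfl
  have hdet : V'.det ≠ 0 := by
    intro h0
    apply T.det_ne
    rw [← hV, hVV']
    have h1 := RingHom.map_det (algebraMap B Ω) V'
    rw [h0, map_zero] at h1
    exact h1.symm
  have hinv : (V'⁻¹).map (algebraMap B Ω) * V = 1 := by
    rw [hVV', ← Matrix.map_mul, Matrix.nonsing_inv_mul _ (isUnit_iff_ne_zero.mpr hdet),
      Matrix.map_one _ (map_zero _) (map_one _)]
  have hev : ∀ s, T.ev s (z j) ∈ B := by
    intro s
    have h1 : V.mulVec (fun j => T.ev s (z j)) = fun i => T.x s i z := by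
      ext i
      simp only [SixFrame.x, cd, Matrix.mulVec, dotProduct, hV, Matrix.of_apply]
      refine Finset.sum_congr rfl fun j _ => ?_
      ring
    have h2 : (fun j => T.ev s (z j)) =
        ((V'⁻¹).map (algebraMap B Ω)).mulVec (fun i => T.x s i z) := by
      rw [← h1, Matrix.mulVec_mulVec, hinv, Matrix.one_mulVec]
    have h3 : T.ev s (z j) = ((V'⁻¹).map (algebraMap B Ω)).mulVec (fun i => T.x s i z) j :=
      congrFun h2 j
    rw [h3]
    simp only [Matrix.mulVec, dotProduct, Matrix.map_apply]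
    exact sum_mem fun i _ => mul_mem (V'⁻¹ j i).2 (hz s i)
  have him : algebraMap S Ω (z j).im ∈ B := by
    have h1 : algebraMap S Ω (z j).im = (T.ev 0 (z j) - T.ev 1 (z j)) / (T.r 0 - T.r 1) := by
      rw [eq_div_iff (sub_ne_zero.mpr T.r_ne), SixFrame.ev_apply, SixFrame.ev_apply]
      ring
    rw [h1]
    exact div_mem (sub_mem (hev 0) (hev 1)) (sub_mem (hr 0) (hr 1))
  refine ⟨?_, him⟩
  have h1 : algebraMap S Ω (z j).re = T.ev 0 (z j) - T.r 0 * algebraMap S Ω (z j).im := by
    rw [SixFrame.ev_apply]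
    ring
  rw [h1]
  exact sub_mem (hev 0) (mul_mem (hr 0) him)

namespace IsTorGeneric

variable {a : QA p q F} {b : M} {K : Type w} [Field K] [Algebra F K] {z : Fin 3 → QA p q K}
  (h : IsTorGeneric bM a b K z) {Ω : Type w} [Field Ω] [Algebra F Ω] [Algebra K Ω]
  [IsScalarTower F K Ω] (T : SixFrame bM p q Ω)

include h

theorem x_mul (s : Fin 2) (i : Fin 3) : T.x s i z * T.x (1 - s) i z = T.σ i b := by
  have h1 := congrArg (T.x s i) h.conj
  rwa [T.x_mulVec, T.x_coords, T.x_star] at h1

theorem x_prod (s : Fin 2) : ∏ i, T.x s i z = T.ev (S := F) s a := by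
  have h1 := congrArg (T.ev s) h.det
  rwa [T.ev_det, T.ev_map] at h1

theorem x_ne_zero (hb : IsUnit b) (s : Fin 2) (i : Fin 3) : T.x s i z ≠ 0 := by
  intro h0
  have h1 := h.x_mul T s i
  rw [h0, zero_mul] at h1
  exact (hb.map (T.σ i)).ne_zero h1.symm

/-- The field of elements algebraic over `F(t)` does not contain all coordinates. -/
theorem false_of_x_mem (t : Ω)
    (hz : ∀ s i, IsAlgebraic F⟮t⟯ (T.x s i z)) : False := by
  let B := algebraicClosure F⟮t⟯ Ω
  have hB : ∀ c : Ω, c ∈ B.restrictScalars F ↔ IsAlgebraic F⟮t⟯ c := by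
    intro c
    rw [IntermediateField.mem_restrictScalars]
    exact mem_algebraicClosure_iff
  have hcoord := T.mem_of_x_mem (S := K) (B.restrictScalars F)
    (fun c hc => (hB c).mpr (hc.tower_top F⟮t⟯)) (z := z) (fun s i => (hB _).mpr (hz s i))
  have hk := h.gen ((B.restrictScalars F).comap (IsScalarTower.toAlgHom F K Ω))
    (fun j => hcoord j)
  have hK : ∀ c : K, algebraMap K Ω c ∈ B.restrictScalars F := by
    intro c
    have : c ∈ (B.restrictScalars F).comap (IsScalarTower.toAlgHom F K Ω) := by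
      rw [hk]
      trivial
    exact this
  let φ : K →ₐ[F] (B.restrictScalars F) :=
    AlgHom.codRestrict (IsScalarTower.toAlgHom F K Ω) (B.restrictScalars F).toSubalgebra hK
  have h1 : Algebra.trdeg F K ≤ Algebra.trdeg F B :=
    _root_.trdeg_le_of_injective φ φ.toRingHom.injective
  have h2 : Algebra.trdeg F F⟮t⟯ + Algebra.trdeg F⟮t⟯ B = Algebra.trdeg F B :=
    _root_.trdeg_add_eq F F⟮t⟯ (A := B)
  have h3 : Algebra.trdeg F⟮t⟯ B = 0 := trdeg_eq_zero
  have h4 : F⟮AdjoinSimple.gen F t⟯ = ⊤ := by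
    apply IntermediateField.lift_injective
    rw [IntermediateField.lift_top, IntermediateField.lift_adjoin_simple, AdjoinSimple.coe_gen]
  haveI : FiniteDimensional F⟮AdjoinSimple.gen F t⟯ F⟮t⟯ := by
    rw [h4]
    exact FiniteDimensional.of_finrank_pos (by rw [IntermediateField.finrank_top]; norm_num)
  have h5 : Algebra.trdeg F F⟮t⟯ ≤ 1 := trdeg_le_one (AdjoinSimple.gen F t)
  rw [h3, add_zero] at h2
  rw [← h2] at h1
  exact absurd (h.trdeg.trans (h1.trans h5)) (by norm_num)

/-- The coordinates at two places are algebraically independent. -/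
theorem not_isAlgebraic (hb : IsUnit b) (s : Fin 2) {i j : Fin 3} (hij : i ≠ j)
    (halg : IsAlgebraic F⟮T.x s j z⟯ (T.x s i z)) : False := by
  haveI : Module.Finite F M := Module.Finite.of_basis bM
  set t := T.x s j z with ht
  have hF : ∀ c : Ω, IsAlgebraic F c → IsAlgebraic F⟮t⟯ c := fun c hc => hc.tower_top F⟮t⟯
  have hσ : ∀ i m, IsAlgebraic F⟮t⟯ (T.σ i m) := fun i m =>
    hF _ ((Algebra.IsIntegral.isIntegral (R := F) m).map (T.σ i)).isAlgebraic
  have hr : ∀ s, IsAlgebraic F⟮t⟯ (T.r s) := by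
    intro s
    apply hF
    refine ⟨Polynomial.X ^ 2 - Polynomial.C q * Polynomial.X - Polynomial.C p, ?_, ?_⟩
    · intro h5
      have := congrArg (fun P : Polynomial F => P.coeff 2) h5
      simp at this
    · simp only [map_sub, map_mul, map_pow, Polynomial.aeval_X, Polynomial.aeval_C]
      linear_combination T.r_sq s
  have hj : IsAlgebraic F⟮t⟯ (T.x s j z) :=
    isAlgebraic_algebraMap (AdjoinSimple.gen F t)
  have hev : IsAlgebraic F⟮t⟯ (T.ev (S := F) s a) := by
    rw [SixFrame.ev_apply]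
    exact (hF _ (isAlgebraic_algebraMap _)).add ((hr s).mul (hF _ (isAlgebraic_algebraMap _)))
  -- the third index
  obtain ⟨l, hl⟩ : ∃ l : Fin 3, ∀ m, m = i ∨ m = j ∨ m = l := by
    fin_cases i <;> fin_cases j <;> first | exact absurd rfl hij | skip
    · exact ⟨2, by decide⟩
    · exact ⟨1, by decide⟩
    · exact ⟨2, by decide⟩
    · exact ⟨0, by decide⟩
    · exact ⟨1, by decide⟩
    · exact ⟨0, by decide⟩
  have hprod := h.x_prod T s
  have h0 : ∀ i, T.x s i z ≠ 0 := fun i => h.x_ne_zero T hb s i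
  have hlalg : IsAlgebraic F⟮t⟯ (T.x s l z) := by
    by_cases hli : l = i
    · rw [hli]
      exact halg
    by_cases hlj : l = j
    · rw [hlj]
      exact hj
    have h1 : ∏ m, T.x s m z = T.x s i z * T.x s j z * T.x s l z := by
      have h2 : (Finset.univ : Finset (Fin 3)) = {i, j, l} := by
        ext m
        simpa using hl m
      rw [h2, Finset.prod_insert, Finset.prod_insert, Finset.prod_singleton, mul_assoc]
      · simpa using fun h => hlj h.symm
      · simp only [Finset.mem_insert, Finset.mem_singleton, not_or]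
        exact ⟨hij, fun h => hli h.symm⟩
    rw [h1] at hprod
    have h2 : T.x s l z = T.ev (S := F) s a * (T.x s i z * T.x s j z)⁻¹ := by
      rw [← hprod]
      have := h0 i
      have := h0 j
      field_simp
    rw [h2]
    exact hev.mul (halg.mul hj).inv
  have hs : ∀ i, IsAlgebraic F⟮t⟯ (T.x s i z) := by
    intro m
    rcases hl m with rfl | rfl | rfl
    · exact halg
    · exact hj
    · exact hlalg
  have hs' : ∀ i, IsAlgebraic F⟮t⟯ (T.x (1 - s) i z) := by
    intro i
    have h2 : T.x (1 - s) i z = T.σ i b * (T.x s i z)⁻¹ := by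
      rw [← h.x_mul T s i]
      have := h0 i
      field_simp
    rw [h2]
    exact (hσ i b).mul (hs i).inv
  apply h.false_of_x_mem T t
  intro s' i
  have : s' = s ∨ s' = 1 - s := by
    fin_cases s <;> fin_cases s' <;> simp
  rcases this with rfl | rfl
  · exact hs i
  · exact hs' i

/-- The imaginary part of the generic point is invertible. -/
theorem sub_ne_zero (hb : IsUnit b) (i : Fin 3) : T.x 0 i z - T.x 1 i z ≠ 0 := by
  haveI : Module.Finite F M := Module.Finite.of_basis bM
  intro h0
  obtain ⟨j, hj⟩ : ∃ j : Fin 3, i ≠ j := ⟨i + 1, by fin_cases i <;> decide⟩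
  apply h.not_isAlgebraic T hb 0 hj
  have h1 : T.x 0 i z ^ 2 = T.σ i b := by
    rw [← h.x_mul T 0 i]
    have h2 : T.x (1 - 0) i z = T.x 1 i z := rfl
    rw [h2]
    linear_combination (T.x 0 i z) * h0
  have h2 : IsAlgebraic F (T.x 0 i z ^ 2) := by
    rw [h1]
    exact ((Algebra.IsIntegral.isIntegral (R := F) b).map (T.σ i)).isAlgebraic
  exact (h2.of_pow (by norm_num)).tower_top _

/-- The minors of the real and imaginary parts of the generic point do not vanish. -/
theorem minor_ne_zero (hb : IsUnit b) {i j : Fin 3} (hij : i ≠ j) :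
    T.x 0 i z * T.x 1 j z - T.x 0 j z * T.x 1 i z ≠ 0 := by
  haveI : Module.Finite F M := Module.Finite.of_basis bM
  intro h0
  apply h.not_isAlgebraic T hb 0 hij
  have hi := h.x_mul T 0 i
  have hj := h.x_mul T 0 j
  have e : (1 - 0 : Fin 2) = 1 := rfl
  rw [e] at hi hj
  have n : ∀ s i, T.x s i z ≠ 0 := fun s i => h.x_ne_zero T hb s i
  set t := T.x 0 j z with ht
  have hσ : ∀ i m, IsAlgebraic F⟮t⟯ (T.σ i m) := fun i m =>
    (((Algebra.IsIntegral.isIntegral (R := F) m).map (T.σ i)).isAlgebraic).tower_top _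
  have hσj : T.σ j b ≠ 0 := (hb.map (T.σ j)).ne_zero
  have h1 : T.x 0 i z ^ 2 = T.σ i b * (T.σ j b)⁻¹ * t ^ 2 := by
    rw [← hi, ← hj]
    have n1 := n 0 i
    have n2 := n 0 j
    have n3 := n 1 i
    have n4 := n 1 j
    rw [← ht] at n2
    field_simp
    linear_combination h0
  have hj' : IsAlgebraic F⟮t⟯ t := isAlgebraic_algebraMap (AdjoinSimple.gen F t)
  have h2 : IsAlgebraic F⟮t⟯ (T.x 0 i z ^ 2) := by
    rw [h1]
    exact ((hσ i b).mul (hσ j b).inv).mul (hj'.pow 2)
  exact h2.of_pow (by norm_num)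

end IsTorGeneric

end

end Pool.Agent.Helper17.Irr
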