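import Mathlib
import Pool.Agent.Helper17.Irr.SixTrans
import Pool.Agent.Helper17.Irr.Conic

/-!
# Fields of definition of vectors
-/

set_option linter.style.haveILetI false
set_option linter.deprecated false

namespace Pool.Agent.Helper17.Irr

open IntermediateField QuadraticAlgebra

universe u v w x y

theorem fin_three_cases (j₀ j : Fin 3) : j = j₀ ∨ j = j₀ + 1 ∨ j = j₀ + 2 := by
  revert j j₀
  decide

section

variable {F : Type u} [Field F] {M : Type v} [CommRing M] [Algebra F M]
  {bM : Module.Basis (Fin 3) F M}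

theorem map_mulMat {R : Type w} {R' : Type x} [CommRing R] [Algebra F R] [CommRing R']
    [Algebra F R'] (f : R →ₐ[F] R') (z : Fin 3 → R) :
    (mulMat bM z).map f = mulMat bM (fun i => f (z i)) := by
  ext i j
  simp only [mulMat, Matrix.map_apply, Matrix.sum_apply, Matrix.smul_apply, smul_eq_mul, map_sum,
    map_mul, AlgHom.commutes]

theorem map_mulVec {R : Type w} {R' : Type x} [CommRing R] [Algebra F R] [CommRing R']
    [Algebra F R'] (f : R →ₐ[F] R') (z w : Fin 3 → R) (i : Fin 3) :
    f ((mulMat bM z).mulVec w i) = (mulMat bM (fun i => f (z i))).mulVec (fun i => f (w i)) i := by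
  rw [← map_mulMat]
  simp [Matrix.mulVec, dotProduct, map_sum, map_mul]

theorem map_coords {R : Type w} {R' : Type x} [CommRing R] [Algebra F R] [CommRing R']
    [Algebra F R'] (f : R →ₐ[F] R') (m : M) (i : Fin 3) :
    f (coords bM R m i) = coords bM R' m i := by
  simp [coords]

theorem map_adj {R : Type w} {R' : Type x} [CommRing R] [Algebra F R] [CommRing R']
    [Algebra F R'] (f : R →ₐ[F] R') (z : Fin 3 → R) (i : Fin 3) :
    f ((mulMat bM z).adjugate.mulVec (coords bM R 1) i) =
      (mulMat bM (fun i => f (z i))).adjugate.mulVec (coords bM R' 1) i := by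
  have h1 : (mulMat bM (fun i => f (z i))).adjugate = (mulMat bM z).adjugate.map f := by
    rw [← map_mulMat]
    exact (RingHom.map_adjugate (f : R →+* R') (mulMat bM z)).symm
  rw [h1]
  simp [Matrix.mulVec, dotProduct, map_sum, map_mul, map_coords]

theorem map_det {R : Type w} {R' : Type x} [CommRing R] [Algebra F R] [CommRing R']
    [Algebra F R'] (f : R →ₐ[F] R') (z : Fin 3 → R) :
    f (mulMat bM z).det = (mulMat bM (fun i => f (z i))).det := by
  rw [← map_mulMat]
  exact AlgHom.map_det f _

theorem map_trace {R : Type w} {R' : Type x} [CommRing R] [Algebra F R] [CommRing R']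
    [Algebra F R'] (f : R →ₐ[F] R') (z : Fin 3 → R) :
    f (mulMat bM z).trace = (mulMat bM (fun i => f (z i))).trace := by
  rw [← map_mulMat]
  simp [Matrix.trace, map_sum]

section

variable {R : Type w} [CommRing R] [Algebra F R] (A : Subalgebra F R) {z w : Fin 3 → R}

theorem mulVec_mem (hz : ∀ j, z j ∈ A) (hw : ∀ j, w j ∈ A) (i : Fin 3) :
    (mulMat bM z).mulVec w i ∈ A := by
  have h1 := map_mulVec (bM := bM) A.val (fun j => ⟨z j, hz j⟩) (fun j => ⟨w j, hw j⟩) i
  exact h1 ▸ SetLike.coe_mem _

theorem adj_mem (hz : ∀ j, z j ∈ A) (i : Fin 3) :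
    (mulMat bM z).adjugate.mulVec (coords bM R 1) i ∈ A := by
  have h1 := map_adj (bM := bM) A.val (fun j => ⟨z j, hz j⟩) i
  exact h1 ▸ SetLike.coe_mem _

theorem det_mem (hz : ∀ j, z j ∈ A) : (mulMat bM z).det ∈ A := by
  have h1 := map_det (bM := bM) A.val (fun j => ⟨z j, hz j⟩)
  exact h1 ▸ SetLike.coe_mem _

theorem trace_mem (hz : ∀ j, z j ∈ A) : (mulMat bM z).trace ∈ A := by
  have h1 := map_trace (bM := bM) A.val (fun j => ⟨z j, hz j⟩)
  exact h1 ▸ SetLike.coe_mem _

theorem coords_mem (m : M) (i : Fin 3) : coords bM R m i ∈ A := A.algebraMap_mem _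

end

theorem cd_adj_div {R : Type w} [CommRing R] [Algebra F R] {Ω : Type y} [Field Ω] [Algebra F Ω]
    (f : R →ₐ[F] Ω) {σ' : Fin 3 → (M →ₐ[F] Ω)}
    (hσ : (Matrix.of fun i j => σ' i (bM j)).det ≠ 0) (z : Fin 3 → R) (i : Fin 3)
    (hne : cd bM f (σ' i) z ≠ 0) :
    cd bM f (σ' i) ((mulMat bM z).adjugate.mulVec (coords bM R 1)) =
      f (mulMat bM z).det / cd bM f (σ' i) z := by
  rw [eq_div_iff hne, cd_adjugate f hσ, map_det_mulMat f hσ,
    Finset.prod_erase_mul _ _ (Finset.mem_univ i)]

/-- The subalgebra of elements with components in `k`. -/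
def qSub {p q : F} {K : Type w} [Field K] [Algebra F K] (k : IntermediateField F K) :
    Subalgebra F (QA p q K) where
  carrier := {z | QMem k z}
  mul_mem' := fun ha hb => ha.mul hb
  add_mem' := fun ha hb => ha.add hb
  algebraMap_mem' := fun r => by
    have hb : algebraMap F (QA p q K) r = ⟨algebraMap F K r, 0⟩ := rfl
    rw [hb]
    exact ⟨IntermediateField.algebraMap_mem _ _, zero_mem _⟩

theorem mem_qSub {p q : F} {K : Type w} [Field K] [Algebra F K] {k : IntermediateField F K}
    {z : QA p q K} : z ∈ qSub k ↔ QMem k z := Iff.rfl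

/-- Elements of `E ⊗ K` with trace and norm in `k` have components in an extension of degree at
most two. -/
theorem quad_step {p q : F} (hpq : q ^ 2 + 4 * p ≠ 0) {K : Type w} [Field K] [Algebra F K]
    {k : Type x} [Field k] [Algebra F k] [Algebra k K] [IsScalarTower F k K] (θ s : K) (t n : k)
    (h₁ : 2 * θ + algebraMap F K q * s = algebraMap k K t)
    (h₂ : θ ^ 2 + algebraMap F K q * θ * s - algebraMap F K p * s ^ 2 = algebraMap k K n) :
    ∃ (c : K) (A B C : k), A ≠ 0 ∧
      algebraMap k K A * c ^ 2 + algebraMap k K B * c + algebraMap k K C = 0 ∧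
      θ ∈ k⟮c⟯ ∧ s ∈ k⟮c⟯ := by
  have hmap : ∀ a : F, algebraMap F K a = algebraMap k K (algebraMap F k a) := fun a =>
    IsScalarTower.algebraMap_apply F k K a
  by_cases hq : q = 0
  · have h2 : (2 : F) ≠ 0 := by
      intro h2
      apply hpq
      rw [hq]
      linear_combination 2 * p * h2
    have hp : p ≠ 0 := by
      intro hp
      apply hpq
      rw [hq, hp]
      ring
    have h2k : (2 : k) ≠ 0 := by
      have := (map_ne_zero (algebraMap F k)).mpr h2
      rwa [map_ofNat] at this
    have h2K : (2 : K) ≠ 0 := by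
      have := (map_ne_zero (algebraMap F K)).mpr h2
      rwa [map_ofNat] at this
    have hθ : θ = algebraMap k K (t / 2) := by
      rw [hq, map_zero, zero_mul, add_zero] at h₁
      rw [map_div₀, map_ofNat, eq_div_iff h2K]
      linear_combination h₁
    refine ⟨s, -algebraMap F k p, 0, (t / 2) ^ 2 - n, ?_, ?_, ?_, ?_⟩
    · exact neg_ne_zero.mpr ((map_ne_zero _).mpr hp)
    · rw [hq, map_zero, hθ] at h₂
      simp only [map_neg, map_sub, map_pow, ← hmap, map_zero]
      linear_combination h₂
    · rw [hθ]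
      exact IntermediateField.algebraMap_mem _ _
    · exact IntermediateField.mem_adjoin_simple_self k s
  · have hqK : algebraMap F K q ≠ 0 := (map_ne_zero _).mpr hq
    have hs : s = (algebraMap k K t - 2 * θ) / algebraMap F K q := by
      rw [eq_div_iff hqK]
      linear_combination h₁
    refine ⟨θ, algebraMap F k (-(q ^ 2 + 4 * p)), algebraMap F k (q ^ 2 + 4 * p) * t,
      -(algebraMap F k p * t ^ 2) - algebraMap F k q ^ 2 * n, ?_, ?_, ?_, ?_⟩
    · exact (map_ne_zero _).mpr (neg_ne_zero.mpr hpq)
    · rw [hs] at h₂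
      field_simp at h₂
      simp only [map_neg, map_sub, map_pow, map_mul, map_add, map_ofNat, ← hmap]
      linear_combination h₂
    · exact IntermediateField.mem_adjoin_simple_self k θ
    · rw [hs, hmap]
      exact div_mem (sub_mem (IntermediateField.algebraMap_mem _ _) (mul_mem (ofNat_mem _ 2)
        (IntermediateField.mem_adjoin_simple_self k θ))) (IntermediateField.algebraMap_mem _ _)

end

end Pool.Agent.Helper17.Irr
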