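import Mathlib
import Pool.Agent.Helper17.Irr.SixMem

/-!
# Surfaces `z z̄ = β`, `N(z) = 1`
-/

set_option linter.style.haveILetI false
set_option linter.deprecated false

namespace Pool.Agent.Helper17.Irr

open IntermediateField

universe u v w x y

/-- The computation in coordinates. -/
theorem two_aux {Ω : Type u} [Field Ω] (r₀ r₁ s : Ω) (x v β : Fin 3 → Ω) (hv : ∀ i, v i ≠ 0)
    (hβ : ∀ i, β i ≠ 0) (hs : s ≠ 0) (hr : r₀ ≠ r₁)
    (h₁ : ∀ i, (x i + r₀ * v i) * (x i + r₁ * v i) = β i)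
    (h₂ : ∏ i, (x i + r₀ * v i) = 1) (h₃ : ∏ i, (x i + r₁ * v i) = 1)
    (ω ξ l : Fin 3 → Ω) (θ : Ω) (hω : ∀ i, ω i = v i / s) (hξ : ∀ i, ξ i = x i / ω i)
    (hl : ∀ i, l i = ω i ^ 2 / (β i * (ω 0 * ω 1 * ω 2)))
    (hθ : θ = ξ 0 + ξ 1 + ξ 2 + (r₀ + r₁) * s) :
    (∀ i, ξ i = l i + θ) ∧ 2 * θ + (r₀ + r₁) * s = -(l 0 + l 1 + l 2) ∧
      θ ^ 2 + (r₀ + r₁) * θ * s + r₀ * r₁ * s ^ 2 = l 0 * l 1 + l 0 * l 2 + l 1 * l 2 := by
  have hω0 : ∀ i, ω i ≠ 0 := fun i => by
    rw [hω]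
    exact div_ne_zero (hv i) hs
  rw [Fin.prod_univ_three] at h₂ h₃
  have hr' : r₀ - r₁ ≠ 0 := sub_ne_zero.mpr hr
  -- the first relation
  have key : ∀ i j k : Fin 3, β i * ((x j + r₀ * v j) * (x k + r₀ * v k)) = x i + r₁ * v i →
      β i * ((x j + r₁ * v j) * (x k + r₁ * v k)) = x i + r₀ * v i →
      β i * (x j * v k + x k * v j + (r₀ + r₁) * (v j * v k)) + v i = 0 := by
    intro i j k e₁ e₂
    have : (r₀ - r₁) * (β i * (x j * v k + x k * v j + (r₀ + r₁) * (v j * v k)) + v i) = 0 := by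
      linear_combination e₁ - e₂
    exact (mul_eq_zero.mp this).resolve_left hr'
  have e0 : β 0 * ((x 1 + r₀ * v 1) * (x 2 + r₀ * v 2)) = x 0 + r₁ * v 0 := by
    rw [← h₁ 0]
    linear_combination (x 0 + r₁ * v 0) * h₂
  have e0' : β 0 * ((x 1 + r₁ * v 1) * (x 2 + r₁ * v 2)) = x 0 + r₀ * v 0 := by
    rw [← h₁ 0]
    linear_combination (x 0 + r₀ * v 0) * h₃
  have e1 : β 1 * ((x 0 + r₀ * v 0) * (x 2 + r₀ * v 2)) = x 1 + r₁ * v 1 := by
    rw [← h₁ 1]
    linear_combination (x 1 + r₁ * v 1) * h₂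
  have e1' : β 1 * ((x 0 + r₁ * v 0) * (x 2 + r₁ * v 2)) = x 1 + r₀ * v 1 := by
    rw [← h₁ 1]
    linear_combination (x 1 + r₀ * v 1) * h₃
  have e2 : β 2 * ((x 0 + r₀ * v 0) * (x 1 + r₀ * v 1)) = x 2 + r₁ * v 2 := by
    rw [← h₁ 2]
    linear_combination (x 2 + r₁ * v 2) * h₂
  have e2' : β 2 * ((x 0 + r₁ * v 0) * (x 1 + r₁ * v 1)) = x 2 + r₀ * v 2 := by
    rw [← h₁ 2]
    linear_combination (x 2 + r₀ * v 2) * h₃
  have k0 := key 0 1 2 e0 e0'
  have k1 := key 1 0 2 e1 e1'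
  have k2 := key 2 0 1 e2 e2'
  have hv0 := hv 0
  have hv1 := hv 1
  have hv2 := hv 2
  have hβ0 := hβ 0
  have hβ1 := hβ 1
  have hβ2 := hβ 2
  have hl0 : l 0 = s * v 0 / (β 0 * v 1 * v 2) := by
    rw [hl, hω, hω, hω]
    field_simp
  have hl1 : l 1 = s * v 1 / (β 1 * v 0 * v 2) := by
    rw [hl, hω, hω, hω]
    field_simp
  have hl2 : l 2 = s * v 2 / (β 2 * v 0 * v 1) := by
    rw [hl, hω, hω, hω]
    field_simp
  have hξ' : ∀ i, ξ i = s * x i / v i := by
    intro i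
    have := hv i
    rw [hξ, hω]
    field_simp
  have f0 : ξ 0 = l 0 + θ := by
    rw [hθ, hξ' 0, hξ' 1, hξ' 2, hl0]
    field_simp
    linear_combination (-(v 0)) * k0
  have f1 : ξ 1 = l 1 + θ := by
    rw [hθ, hξ' 0, hξ' 1, hξ' 2, hl1]
    field_simp
    linear_combination (-(v 1)) * k1
  have f2 : ξ 2 = l 2 + θ := by
    rw [hθ, hξ' 0, hξ' 1, hξ' 2, hl2]
    field_simp
    linear_combination (-(v 2)) * k2
  have g : 2 * θ + (r₀ + r₁) * s = -(l 0 + l 1 + l 2) := by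
    linear_combination -hθ - f0 - f1 - f2
  refine ⟨?_, g, ?_⟩
  · intro i
    fin_cases i
    · exact f0
    · exact f1
    · exact f2
  · -- the second relation
    have y1 : x 1 + r₀ * v 1 = ω 1 * (l 1 + θ + r₀ * s) := by
      rw [← f1, hξ 1, hω 1]
      field_simp
    have y2 : x 2 + r₀ * v 2 = ω 2 * (l 2 + θ + r₀ * s) := by
      rw [← f2, hξ 2, hω 2]
      field_simp
    have y0 : x 0 + r₁ * v 0 = ω 0 * (l 0 + θ + r₁ * s) := by
      rw [← f0, hξ 0, hω 0]
      field_simp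
    have m : l 0 * (β 0 * (ω 1 * ω 2)) = ω 0 := by
      rw [hl 0]
      have := hω0 0
      have := hω0 1
      have := hω0 2
      field_simp
    rw [y0, y1, y2] at e0
    have e3 : (l 1 + θ + r₀ * s) * (l 2 + θ + r₀ * s) = l 0 * (l 0 + θ + r₁ * s) := by
      have h4 : β 0 * (ω 1 * ω 2) * ((l 1 + θ + r₀ * s) * (l 2 + θ + r₀ * s) -
          l 0 * (l 0 + θ + r₁ * s)) = 0 := by
        linear_combination e0 - (l 0 + θ + r₁ * s) * m
      rcases mul_eq_zero.mp h4 with h5 | h5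
      · exact absurd h5 (mul_ne_zero hβ0 (mul_ne_zero (hω0 1) (hω0 2)))
      · exact sub_eq_zero.mp h5
    linear_combination (-1 : Ω) * e3 + (θ + r₀ * s - l 0) * g

section

variable {F : Type u} [Field F] {M : Type v} [CommRing M] [Algebra F M]
  {bM : Module.Basis (Fin 3) F M} {p q : F}

theorem SixFrame.x_eq {Ω : Type w} [Field Ω] [Algebra F Ω] (T : SixFrame bM p q Ω)
    {S : Type x} [CommRing S] [Algebra F S] [Algebra S Ω] [IsScalarTower F S Ω] (s : Fin 2)
    (i : Fin 3) (z : Fin 3 → QA p q S) :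
    T.x s i z = cd bM (IsScalarTower.toAlgHom F S Ω) (T.σ i) (fun j => (z j).re) +
      T.r s * cd bM (IsScalarTower.toAlgHom F S Ω) (T.σ i) (fun j => (z j).im) := by
  simp only [SixFrame.x, cd, SixFrame.ev_apply, Finset.mul_sum, ← Finset.sum_add_distrib]
  refine Finset.sum_congr rfl fun j _ => ?_
  change (algebraMap S Ω (z j).re + T.r s * algebraMap S Ω (z j).im) * T.σ i (bM j) =
    algebraMap S Ω (z j).re * T.σ i (bM j) + T.r s * (algebraMap S Ω (z j).im * T.σ i (bM j))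
  ring

theorem IsTorGeneric.irr_le_two_aux (hpq : q ^ 2 + 4 * p ≠ 0) {β : M}
    (hβ : IsUnit β) {K : Type w} [Field K] [Algebra F K] {z : Fin 3 → QA p q K}
    (h : IsTorGeneric bM (1 : QA p q F) β K z) {Ω : Type w} [Field Ω] [Algebra F Ω] [Algebra K Ω]
    [IsScalarTower F K Ω] (T : SixFrame bM p q Ω) : 0 < irr F K ∧ irr F K ≤ 2 := by
  classical
  let g : K →ₐ[F] Ω := IsScalarTower.toAlgHom F K Ω
  have hg : ∀ c, g c = algebraMap K Ω c := fun c => rfl
  set xv : Fin 3 → K := fun j => (z j).re with hxv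
  set v : Fin 3 → K := fun j => (z j).im with hv
  have hx : ∀ s i, T.x s i z = cd bM g (T.σ i) xv + T.r s * cd bM g (T.σ i) v := fun s i =>
    T.x_eq s i z
  have hvi : ∀ i, cd bM g (T.σ i) v ≠ 0 := by
    intro i h0
    apply h.sub_ne_zero T hβ i
    rw [hx, hx, h0]
    ring
  obtain ⟨j₀, hj₀⟩ : ∃ j, v j ≠ 0 := by
    by_contra hcon
    push Not at hcon
    apply hvi 0
    have : v = 0 := funext hcon
    rw [this, cd_zero]
  set s := v j₀ with hs
  set ω : Fin 3 → K := fun j => s⁻¹ * v j with hω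
  have hω₀ : ω j₀ = 1 := inv_mul_cancel₀ hj₀
  have hωi : ∀ i, cd bM g (T.σ i) ω = cd bM g (T.σ i) v / algebraMap K Ω s := by
    intro i
    rw [hω, cd_mul_left, hg, map_inv₀]
    field_simp
  have hsΩ : algebraMap K Ω s ≠ 0 := (map_ne_zero _).mpr hj₀
  have hωne : ∀ i, cd bM g (T.σ i) ω ≠ 0 := by
    intro i
    rw [hωi]
    exact div_ne_zero (hvi i) hsΩ
  -- norms
  set Nω : K := (mulMat bM ω).det with hNω
  have hNωi : algebraMap K Ω Nω = cd bM g (T.σ 0) ω * cd bM g (T.σ 1) ω * cd bM g (T.σ 2) ω := by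
    rw [← hg, map_det_mulMat g T.det_ne, Fin.prod_univ_three]
  have hNω0 : Nω ≠ 0 := by
    intro h0
    rw [h0, map_zero] at hNωi
    exact mul_ne_zero (mul_ne_zero (hωne 0) (hωne 1)) (hωne 2) hNωi.symm
  set Nβ : K := (mulMat bM (coords bM K β)).det with hNβ
  have hβi : ∀ i, T.σ i β ≠ 0 := fun i => (hβ.map (T.σ i)).ne_zero
  have hNβi : algebraMap K Ω Nβ = T.σ 0 β * T.σ 1 β * T.σ 2 β := by
    rw [← hg, map_det_mulMat g T.det_ne, Fin.prod_univ_three, cd_coords, cd_coords, cd_coords]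
  have hNβ0 : Nβ ≠ 0 := by
    intro h0
    rw [h0, map_zero] at hNβi
    exact mul_ne_zero (mul_ne_zero (hβi 0) (hβi 1)) (hβi 2) hNβi.symm
  -- the vectors `λ'` and `ξ`
  set adjβ : Fin 3 → K := (mulMat bM (coords bM K β)).adjugate.mulVec (coords bM K 1) with hadjβ
  set adjω : Fin 3 → K := (mulMat bM ω).adjugate.mulVec (coords bM K 1) with hadjω
  have hprodE : ∀ (c : Fin 3 → Ω), (∏ j ∈ Finset.univ.erase (0 : Fin 3), c j) = c 1 * c 2 ∧
      (∏ j ∈ Finset.univ.erase (1 : Fin 3), c j) = c 0 * c 2 ∧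
      (∏ j ∈ Finset.univ.erase (2 : Fin 3), c j) = c 0 * c 1 := by
    intro c
    refine ⟨?_, ?_, ?_⟩
    · rw [show (Finset.univ.erase (0 : Fin 3)) = {1, 2} by decide, Finset.prod_pair (by decide)]
    · rw [show (Finset.univ.erase (1 : Fin 3)) = {0, 2} by decide, Finset.prod_pair (by decide)]
    · rw [show (Finset.univ.erase (2 : Fin 3)) = {0, 1} by decide, Finset.prod_pair (by decide)]
  have hadjβi : ∀ i, cd bM g (T.σ i) adjβ = algebraMap K Ω Nβ / T.σ i β := by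
    intro i
    have h1 := cd_adj_div g T.det_ne (coords bM K β) i (by rw [cd_coords]; exact hβi i)
    rwa [cd_coords] at h1
  have hadjωi : ∀ i, cd bM g (T.σ i) adjω = algebraMap K Ω Nω / cd bM g (T.σ i) ω := fun i =>
    cd_adj_div g T.det_ne ω i (hωne i)
  set l : Fin 3 → K := fun j => (Nβ * Nω)⁻¹ * (mulMat bM ((mulMat bM ω).mulVec ω)).mulVec adjβ j
    with hl
  have hli : ∀ i, cd bM g (T.σ i) l = cd bM g (T.σ i) ω ^ 2 / (T.σ i β *
      (cd bM g (T.σ 0) ω * cd bM g (T.σ 1) ω * cd bM g (T.σ 2) ω)) := by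
    intro i
    have e := hβi i
    have e' : algebraMap K Ω Nω ≠ 0 := (map_ne_zero _).mpr hNω0
    have e'' : algebraMap K Ω Nβ ≠ 0 := (map_ne_zero _).mpr hNβ0
    rw [← hNωi, hl, cd_mul_left, cd_mulVec, cd_mulVec, hadjβi, hg, map_inv₀, map_mul]
    field_simp
  set ξ : Fin 3 → K := fun j => Nω⁻¹ * (mulMat bM xv).mulVec adjω j with hξ
  have hξi : ∀ i, cd bM g (T.σ i) ξ = cd bM g (T.σ i) xv / cd bM g (T.σ i) ω := by
    intro i
    have e := hωne i
    have e' : algebraMap K Ω Nω ≠ 0 := (map_ne_zero _).mpr hNω0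
    rw [hξ, cd_mul_left, cd_mulVec, hadjωi, hg, map_inv₀]
    field_simp
  set θ : K := (mulMat bM ξ).trace + algebraMap F K q * s with hθ
  have hθi : algebraMap K Ω θ = cd bM g (T.σ 0) ξ + cd bM g (T.σ 1) ξ + cd bM g (T.σ 2) ξ +
      (T.r 0 + T.r 1) * algebraMap K Ω s := by
    rw [hθ, map_add, ← hg (mulMat bM ξ).trace, map_trace_mulMat g T.det_ne, Fin.sum_univ_three,
      T.sum_r, map_mul, ← IsScalarTower.algebraMap_apply]
  have hx1 : ∀ i, (cd bM g (T.σ i) xv + T.r 0 * cd bM g (T.σ i) v) *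
      (cd bM g (T.σ i) xv + T.r 1 * cd bM g (T.σ i) v) = T.σ i β := by
    intro i
    rw [← hx, ← hx]
    exact h.x_mul T 0 i
  have hx2 : ∀ s, ∏ i, (cd bM g (T.σ i) xv + T.r s * cd bM g (T.σ i) v) = 1 := by
    intro s
    simp only [← hx]
    rw [h.x_prod T s, map_one]
  obtain ⟨r1, r2, r3⟩ := two_aux (T.r 0) (T.r 1) (algebraMap K Ω s)
    (fun i => cd bM g (T.σ i) xv) (fun i => cd bM g (T.σ i) v) (fun i => T.σ i β) hvi hβi hsΩ
    T.r_ne hx1 (hx2 0) (hx2 1) (fun i => cd bM g (T.σ i) ω) (fun i => cd bM g (T.σ i) ξ)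
    (fun i => cd bM g (T.σ i) l) (algebraMap K Ω θ) hωi hξi hli hθi
  -- the field of definition of `ω`
  obtain ⟨a₁, a₂, ha⟩ : ∃ a₁ a₂ : K, ∀ j, ω j ∈ IntermediateField.adjoin F {a₁, a₂} := by
    refine ⟨ω (j₀ + 1), ω (j₀ + 2), fun j => ?_⟩
    rcases fin_three_cases j₀ j with rfl | rfl | rfl
    · rw [hω₀]
      exact one_mem _
    · exact IntermediateField.subset_adjoin F _ (Set.mem_insert _ _)
    · exact IntermediateField.subset_adjoin F _ (Set.mem_insert_of_mem _ (Set.mem_singleton _))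
  set k := IntermediateField.adjoin F {a₁, a₂} with hk
  have hNωk : Nω ∈ k := det_mem k.toSubalgebra ha
  have hNβk : Nβ ∈ k := det_mem k.toSubalgebra (fun j => coords_mem k.toSubalgebra β j)
  have hlk : ∀ j, l j ∈ k := by
    intro j
    exact mul_mem (inv_mem (mul_mem hNβk hNωk)) (mulVec_mem k.toSubalgebra
      (mulVec_mem k.toSubalgebra ha ha)
      (adj_mem k.toSubalgebra (fun j => coords_mem k.toSubalgebra β j)) j)
  -- trace and norm
  set t : K := -(mulMat bM l).trace with ht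
  have htk : t ∈ k := neg_mem (trace_mem k.toSubalgebra hlk)
  set adjl : Fin 3 → K := (mulMat bM l).adjugate.mulVec (coords bM K 1) with hadjl
  set n : K := (mulMat bM adjl).trace with hn
  have hnk : n ∈ k := trace_mem k.toSubalgebra (adj_mem k.toSubalgebra hlk)
  have hinj : Function.Injective (algebraMap K Ω) := (algebraMap K Ω).injective
  have q1 : 2 * θ + algebraMap F K q * s = algebraMap k K ⟨t, htk⟩ := by
    change 2 * θ + algebraMap F K q * s = t
    apply hinj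
    rw [map_add, map_mul, map_mul, map_ofNat, ← IsScalarTower.algebraMap_apply, ← T.sum_r, r2, ht,
      map_neg, ← hg (mulMat bM l).trace, map_trace_mulMat g T.det_ne, Fin.sum_univ_three]
  have q2 : θ ^ 2 + algebraMap F K q * θ * s - algebraMap F K p * s ^ 2 =
      algebraMap k K ⟨n, hnk⟩ := by
    change θ ^ 2 + algebraMap F K q * θ * s - algebraMap F K p * s ^ 2 = n
    apply hinj
    have h5 : algebraMap K Ω n = cd bM g (T.σ 0) l * cd bM g (T.σ 1) l +
        cd bM g (T.σ 0) l * cd bM g (T.σ 2) l + cd bM g (T.σ 1) l * cd bM g (T.σ 2) l := by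
      rw [hn, ← hg (mulMat bM adjl).trace, map_trace_mulMat g T.det_ne, Fin.sum_univ_three, hadjl,
        cd_adjugate g T.det_ne, cd_adjugate g T.det_ne, cd_adjugate g T.det_ne]
      obtain ⟨w1, w2, w3⟩ := hprodE (fun j => cd bM g (T.σ j) l)
      rw [w1, w2, w3]
      ring
    rw [h5]
    simp only [map_add, map_sub, map_mul, map_pow, ← IsScalarTower.algebraMap_apply]
    rw [← T.sum_r]
    linear_combination r3 - (algebraMap K Ω s) ^ 2 * T.mul_r
  obtain ⟨c, A, B, C, hA, hc, hθc, hsc⟩ := quad_step hpq θ s _ _ q1 q2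
  -- generation
  have htop : k⟮c⟯ = ⊤ := by
    rw [← IntermediateField.restrictScalars_eq_top_iff (K := F)]
    apply h.gen
    set k' := k⟮c⟯.restrictScalars F with hk'
    have hkk' : ∀ y ∈ k, y ∈ k' := fun y hy =>
      IntermediateField.algebraMap_mem k⟮c⟯ (⟨y, hy⟩ : k)
    have hz : z = (mulMat bM (fun j => algebraMap K (QA p q K) (ω j))).mulVec
        (fun j => algebraMap K (QA p q K) (l j) + (⟨θ, s⟩ : QA p q K) *
          coords bM (QA p q K) 1 j) := by
      apply T.x_ext hinj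
      intro s' i
      have hb : ∀ w : Fin 3 → K, T.x s' i (fun j => algebraMap K (QA p q K) (w j)) =
          cd bM g (T.σ i) w := by
        intro w
        simp only [SixFrame.x, cd, SixFrame.ev_algebraMap]
        rfl
      have hadd : T.x s' i (fun j => algebraMap K (QA p q K) (l j) + (⟨θ, s⟩ : QA p q K) *
          coords bM (QA p q K) 1 j) = T.x s' i (fun j => algebraMap K (QA p q K) (l j)) +
          T.x s' i (fun j => (⟨θ, s⟩ : QA p q K) * coords bM (QA p q K) 1 j) :=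
        cd_add _ _ _ _
      rw [T.x_mulVec, hadd, hb, hb]
      have hm : T.x s' i (fun j => (⟨θ, s⟩ : QA p q K) * coords bM (QA p q K) 1 j) =
          T.ev s' ⟨θ, s⟩ := by
        have h6 := cd_mul_left (bM := bM) (T.ev s') (T.σ i) (⟨θ, s⟩ : QA p q K)
          (coords bM (QA p q K) 1)
        rw [cd_coords, map_one, mul_one] at h6
        exact h6
      rw [hm, SixFrame.ev_apply, hx]
      have h7 : cd bM g (T.σ i) ξ = cd bM g (T.σ i) l + algebraMap K Ω θ := r1 i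
      have h8 := hξi i
      have h9 := hωi i
      have h10 := hωne i
      rw [h7, eq_div_iff h10] at h8
      rw [eq_div_iff hsΩ] at h9
      linear_combination (-1 : Ω) * h8 - T.r s' * h9
    rw [hz]
    intro j
    have hmem := mulVec_mem (bM := bM) (qSub (p := p) (q := q) k')
      (z := fun j => algebraMap K (QA p q K) (ω j))
      (w := fun j => algebraMap K (QA p q K) (l j) + (⟨θ, s⟩ : QA p q K) *
          coords bM (QA p q K) 1 j)
      (fun j => ⟨hkk' _ (ha j), zero_mem _⟩)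
      (fun j => add_mem (s := qSub k') ⟨hkk' _ (hlk j), zero_mem _⟩
        (mul_mem (s := qSub k') ⟨hθc, hsc⟩ (coords_mem _ 1 j))) j
    exact hmem
  obtain ⟨hfin, hle⟩ := finrank_le_two_of_root (k := k) c htop A B C (Or.inl hA) hc
  haveI := hfin
  exact irr_le_of_finiteDimensional h.trdeg a₁ a₂ hle

/-- The upper bound for classes of order two. -/
theorem IsTorGeneric.irr_le_two [Algebra.Etale F M] (hpq : q ^ 2 + 4 * p ≠ 0) {β : M}
    (hβ : IsUnit β) {K : Type w} [Field K] [Algebra F K] {z : Fin 3 → QA p q K}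
    (h : IsTorGeneric bM (1 : QA p q F) β K z) : 0 < irr F K ∧ irr F K ≤ 2 := by
  obtain ⟨T⟩ := exists_sixFrame bM p q hpq (AlgebraicClosure K)
  exact h.irr_le_two_aux hpq hβ T

end

end Pool.Agent.Helper17.Irr
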