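import Mathlib
import Pool.Agent.Helper17.Irr.SixTwo

/-!
# Surfaces `z z̄ = b`, `N(z) = a`: the general upper bound
-/

set_option linter.style.haveILetI false
set_option linter.deprecated false

namespace Pool.Agent.Helper17.Irr

open IntermediateField

universe u v w x y

/-- A field generated by two elements whose squares and product are linear combinations of `1` and
these elements has degree at most three. -/
theorem finrank_le_three_of_span {k : Type u} {K : Type v} [Field k] [Field K] [Algebra k K]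
    (s t : K) (htop : IntermediateField.adjoin k {s, t} = ⊤)
    (h₁ : s * s ∈ Submodule.span k ({1, s, t} : Set K))
    (h₂ : s * t ∈ Submodule.span k ({1, s, t} : Set K))
    (h₃ : t * t ∈ Submodule.span k ({1, s, t} : Set K)) :
    FiniteDimensional k K ∧ Module.finrank k K ≤ 3 := by
  classical
  set N : Submodule k K := Submodule.span k ({1, s, t} : Set K) with hN
  have h1 : (1 : K) ∈ N := Submodule.subset_span (by simp)
  have hs : s ∈ N := Submodule.subset_span (by simp)
  have ht : t ∈ N := Submodule.subset_span (by simp)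
  have hNN : N * N ≤ N := by
    rw [hN, Submodule.span_mul_span, Submodule.span_le]
    rintro _ ⟨x, hx, y, hy, rfl⟩
    simp only [Set.mem_insert_iff, Set.mem_singleton_iff] at hx hy
    rcases hx with rfl | rfl | rfl <;> rcases hy with rfl | rfl | rfl
    · simpa using h1
    · simpa using hs
    · simpa using ht
    · simpa using hs
    · exact h₁
    · exact h₂
    · simpa using ht
    · simpa [mul_comm] using h₂
    · exact h₃
  let A : Subalgebra k K := N.toSubalgebra h1 (fun x y hx hy => hNN (Submodule.mul_mem_mul hx hy))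
  have hA : ∀ x, x ∈ A ↔ x ∈ N := fun x => Iff.rfl
  haveI hfinN : Module.Finite k N := Module.Finite.span_of_finite k (by simp)
  haveI hfinA : Module.Finite k A := hfinN
  have halg : ∀ x ∈ A, IsAlgebraic k x := by
    intro x hx
    have : IsIntegral k (⟨x, hx⟩ : A) := Algebra.IsIntegral.isIntegral _
    exact (this.map A.val).isAlgebraic
  have hAtop : A = ⊤ := by
    rw [eq_top_iff]
    have h4 : (IntermediateField.adjoin k {s, t}).toSubalgebra = Algebra.adjoin k {s, t} :=
      IntermediateField.adjoin_toSubalgebra_of_isAlgebraic (by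
        rintro x (rfl | rfl)
        · exact halg _ hs
        · exact halg _ ht)
    rw [htop, IntermediateField.top_toSubalgebra] at h4
    rw [h4, Algebra.adjoin_le_iff]
    rintro x (rfl | rfl)
    · exact hs
    · exact ht
  have hNtop : N = ⊤ := by
    rw [eq_top_iff]
    intro x _
    rw [← hA, hAtop]
    trivial
  have hfin : FiniteDimensional k K := by
    rw [hNtop] at hfinN
    exact Module.Finite.equiv (Submodule.topEquiv (R := k) (M := K))
  refine ⟨hfin, ?_⟩
  have h5 : Module.finrank k N ≤ 3 := by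
    have h6 := finrank_span_finset_le_card (R := k) ({1, s, t} : Finset K)
    have h7 : (({1, s, t} : Finset K) : Set K) = {1, s, t} := by simp
    rw [Set.finrank, h7] at h6
    exact h6.trans Finset.card_le_three
  rw [hNtop, finrank_top] at h5
  exact h5

section

variable {F : Type u} [Field F] {M : Type v} [CommRing M] [Algebra F M]
  {bM : Module.Basis (Fin 3) F M} {p q : F}

theorem IsTorGeneric.finrank_le_six (hpq : q ^ 2 + 4 * p ≠ 0) {a : QA p q F} (ha : IsUnit a)
    {b : M} (hb : IsUnit b) {K : Type w} [Field K] [Algebra F K] {z : Fin 3 → QA p q K}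
    (h : IsTorGeneric bM a b K z) {Ω : Type w} [Field Ω] [Algebra F Ω] [Algebra K Ω]
    [IsScalarTower F K Ω] (T : SixFrame bM p q Ω) (k : IntermediateField F K)
    (ζ₁ ζ₂ : QA p q K) (w₁ w₂ : Fin 3 → K) (hw₁ : ∀ i, w₁ i ∈ k) (hw₂ : ∀ i, w₂ i ∈ k)
    (hz : ∀ i, z i = ζ₁ * algebraMap K _ (w₁ i) + ζ₂ * algebraMap K _ (w₂ i))
    (hA0 : QuadraticAlgebra.norm ζ₁ ≠ 0) : FiniteDimensional k K ∧ Module.finrank k K ≤ 6 := by
  classical
  let g : K →ₐ[F] Ω := IsScalarTower.toAlgHom F K Ω
  have hg : ∀ c, g c = algebraMap K Ω c := fun c => rfl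
  have hinj : Function.Injective (algebraMap K Ω) := (algebraMap K Ω).injective
  set u : Fin 3 → Ω := fun i => cd bM g (T.σ i) w₁ with hu
  set t : Fin 3 → Ω := fun i => cd bM g (T.σ i) w₂ with ht
  have hXi : ∀ s i, T.x s i z = T.ev s ζ₁ * u i + T.ev s ζ₂ * t i := by
    intro s i
    have h1 : z = fun i => ζ₁ * algebraMap K _ (w₁ i) + ζ₂ * algebraMap K _ (w₂ i) := funext hz
    rw [h1]
    simp only [SixFrame.x, cd, hu, ht, map_add, map_mul, SixFrame.ev_algebraMap, Finset.mul_sum,
      ← Finset.sum_add_distrib]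
    refine Finset.sum_congr rfl fun j _ => ?_
    rw [hg, hg]
    ring
  -- the minors of `w₁`, `w₂`
  have hminor : ∀ i j, i ≠ j → u i * t j - u j * t i ≠ 0 := by
    intro i j hij h0
    apply h.minor_ne_zero T hb hij
    rw [hXi, hXi, hXi, hXi]
    linear_combination (T.ev 0 ζ₁ * T.ev 1 ζ₂ - T.ev 0 ζ₂ * T.ev 1 ζ₁) * h0
  -- the coefficients
  have hnorm : ∀ ζ : QA p q K, algebraMap K Ω (QuadraticAlgebra.norm ζ) = T.ev 0 ζ * T.ev 1 ζ := by
    intro ζ
    have h1 := congrArg (T.ev 0) (QuadraticAlgebra.algebraMap_norm_eq_mul_star ζ)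
    rw [map_mul, T.ev_star, T.ev_algebraMap] at h1
    exact h1
  set A : K := QuadraticAlgebra.norm ζ₁ with hA
  set C : K := QuadraticAlgebra.norm ζ₂ with hC
  set B : K := 2 * (ζ₁ * star ζ₂).re + algebraMap F K q * (ζ₁ * star ζ₂).im with hB
  have hBi : algebraMap K Ω B = T.ev 0 ζ₁ * T.ev 1 ζ₂ + T.ev 1 ζ₁ * T.ev 0 ζ₂ := by
    have h1 : T.ev 0 (ζ₁ * star ζ₂) = T.ev 0 ζ₁ * T.ev 1 ζ₂ := by
      rw [map_mul, T.ev_star]
      rfl
    have h2 : T.ev 1 (ζ₁ * star ζ₂) = T.ev 1 ζ₁ * T.ev 0 ζ₂ := by
      rw [map_mul, T.ev_star]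
      rfl
    rw [← h1, ← h2, T.ev_apply, T.ev_apply, hB]
    simp only [map_add, map_mul, map_ofNat, ← IsScalarTower.algebraMap_apply, ← T.sum_r]
    ring
  set G : Matrix (Fin 3) (Fin 3) K := Matrix.of fun i j =>
    (![(mulMat bM w₁).mulVec w₁ i, (mulMat bM w₁).mulVec w₂ i, (mulMat bM w₂).mulVec w₂ i] :
      Fin 3 → K) j with hG
  have hGb : G.mulVec ![A, B, C] = coords bM K b := by
    ext i
    have h1 : ∀ i, g ((mulMat bM w₁).mulVec w₁ i * A + (mulMat bM w₁).mulVec w₂ i * B +
        (mulMat bM w₂).mulVec w₂ i * C) = g (coords bM K b i) := by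
      refine cd_ext g T.det_ne (z := fun i => (mulMat bM w₁).mulVec w₁ i * A +
        (mulMat bM w₁).mulVec w₂ i * B + (mulMat bM w₂).mulVec w₂ i * C) ?_
      intro i
      have e1 : (fun i => (mulMat bM w₁).mulVec w₁ i * A + (mulMat bM w₁).mulVec w₂ i * B +
          (mulMat bM w₂).mulVec w₂ i * C) = (A • (mulMat bM w₁).mulVec w₁ +
            B • (mulMat bM w₁).mulVec w₂) + C • (mulMat bM w₂).mulVec w₂ := by
        ext i
        simp only [Pi.add_apply, Pi.smul_apply, smul_eq_mul]
        ring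
      rw [e1, cd_add, cd_add, cd_smul, cd_smul, cd_smul, cd_mulVec, cd_mulVec, cd_mulVec,
        cd_coords, hg, hg, hg, hnorm, hnorm, hBi]
      have h3 := h.x_mul T 0 i
      have e : (1 - 0 : Fin 2) = 1 := rfl
      rw [e, hXi, hXi] at h3
      rw [← h3]
      simp only [hu, ht]
      ring
    have h2 := (g : K →+* Ω).injective (h1 i)
    rw [← h2]
    simp only [hG, Matrix.mulVec, dotProduct, Matrix.of_apply, Fin.sum_univ_three,
      Matrix.cons_val_zero, Matrix.cons_val_one, Matrix.cons_val]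
  have hGdet : G.det ≠ 0 := by
    intro h0
    have h1 : (Matrix.of fun i j => T.σ i (bM j)) * G.map (algebraMap K Ω) =
        Matrix.of fun i j => (![u i ^ 2, u i * t i, t i ^ 2] : Fin 3 → Ω) j := by
      ext i j
      have h2 : ∀ w : Fin 3 → K, ∑ l, T.σ i (bM l) * algebraMap K Ω (w l) =
          cd bM g (T.σ i) w := by
        intro w
        simp only [cd]
        refine Finset.sum_congr rfl fun l _ => ?_
        rw [hg]
        ring
      rw [Matrix.mul_apply]
      simp only [Matrix.of_apply, Matrix.map_apply, hG]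
      fin_cases j
      · simp only [Fin.zero_eta, Matrix.cons_val_zero]
        rw [h2, cd_mulVec, pow_two]
      · exact (h2 ((mulMat bM w₁).mulVec w₂)).trans (cd_mulVec _ _ _ _)
      · simp only [Fin.reduceFinMk, Matrix.cons_val]
        rw [h2, cd_mulVec, pow_two]
    have h2 := congrArg Matrix.det h1
    rw [Matrix.det_mul] at h2
    have h3 : (G.map (algebraMap K Ω)).det = 0 := by
      have := RingHom.map_det (algebraMap K Ω) G
      rw [h0, map_zero] at this
      exact this.symm
    rw [h3, mul_zero, Matrix.det_fin_three] at h2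
    simp only [Matrix.of_apply, Matrix.cons_val_zero, Matrix.cons_val_one, Matrix.cons_val] at h2
    have h4 : (u 0 * t 1 - u 1 * t 0) * (u 0 * t 2 - u 2 * t 0) * (u 1 * t 2 - u 2 * t 1) = 0 := by
      linear_combination -h2
    rcases mul_eq_zero.mp h4 with h5 | h5
    · rcases mul_eq_zero.mp h5 with h6 | h6
      · exact hminor 0 1 (by decide) h6
      · exact hminor 0 2 (by decide) h6
    · exact hminor 1 2 (by decide) h5
  -- the coefficients lie in `k`
  have hABC : A ∈ k ∧ B ∈ k ∧ C ∈ k := by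
    have hGk : ∀ i j, G i j ∈ k := by
      intro i j
      simp only [hG, Matrix.of_apply]
      fin_cases j
      · exact mulVec_mem k.toSubalgebra hw₁ hw₁ i
      · exact mulVec_mem k.toSubalgebra hw₁ hw₂ i
      · exact mulVec_mem k.toSubalgebra hw₂ hw₂ i
    let G' : Matrix (Fin 3) (Fin 3) k := Matrix.of fun i j => ⟨G i j, hGk i j⟩
    have hG' : G = G'.map (algebraMap k K) := by
      ext i j
      rfl
    have hdet' : G'.det ≠ 0 := by
      intro h0
      apply hGdet
      have h1 := RingHom.map_det (algebraMap k K) G'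
      rw [h0, map_zero] at h1
      rw [hG']
      exact h1.symm
    have hinv : (G'⁻¹).map (algebraMap k K) * G = 1 := by
      rw [hG', ← Matrix.map_mul, Matrix.nonsing_inv_mul _ (isUnit_iff_ne_zero.mpr hdet'),
        Matrix.map_one _ (map_zero _) (map_one _)]
    have h1 : ![A, B, C] = ((G'⁻¹).map (algebraMap k K)).mulVec (coords bM K b) := by
      rw [← hGb, Matrix.mulVec_mulVec, hinv, Matrix.one_mulVec]
    have h2 : ∀ j, (![A, B, C] : Fin 3 → K) j ∈ k := by
      intro j
      rw [h1]
      simp only [Matrix.mulVec, dotProduct, Matrix.map_apply]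
      exact sum_mem fun i _ => mul_mem (G'⁻¹ j i).2 (coords_mem k.toSubalgebra b i)
    exact ⟨h2 0, h2 1, h2 2⟩
  obtain ⟨hAk, hBk, hCk⟩ := hABC
  have hAΩ : algebraMap K Ω A ≠ 0 := (map_ne_zero _).mpr hA0
  -- the quotient
  set κ : QA p q K := algebraMap K _ A⁻¹ * (ζ₂ * star ζ₁) with hκ
  have hκi : ∀ s, T.ev s κ * T.ev s ζ₁ = T.ev s ζ₂ := by
    intro s
    have h1 : algebraMap K Ω A = T.ev s ζ₁ * T.ev (1 - s) ζ₁ := by
      rw [hA, hnorm]
      fin_cases s
      · rfl
      · exact mul_comm _ _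
    rw [hκ, map_mul, map_mul, T.ev_star, T.ev_algebraMap, map_inv₀]
    field_simp
    rw [h1]
    ring
  have hE0 : ∀ s, T.ev s ζ₁ ≠ 0 := by
    intro s h0
    apply hAΩ
    rw [hA, hnorm]
    fin_cases s
    · rw [Fin.zero_eta] at h0
      rw [h0, zero_mul]
    · rw [Fin.mk_one] at h0
      rw [h0, mul_zero]
  have hκζ : κ * ζ₁ = ζ₂ := T.ev_ext hinj fun s => by rw [map_mul, hκi]
  have hκs : ∀ s, T.ev s κ = T.ev s ζ₂ / T.ev s ζ₁ := fun s => by
    rw [eq_div_iff (hE0 s), hκi]
  have q1 : 2 * κ.re + algebraMap F K q * κ.im =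
      algebraMap k K (⟨B, hBk⟩ / ⟨A, hAk⟩) := by
    rw [map_div₀]
    change 2 * κ.re + algebraMap F K q * κ.im = B / A
    apply hinj
    have h1 : algebraMap K Ω (2 * κ.re + algebraMap F K q * κ.im) = T.ev 0 κ + T.ev 1 κ := by
      rw [T.ev_apply, T.ev_apply]
      simp only [map_add, map_mul, map_ofNat, ← IsScalarTower.algebraMap_apply, ← T.sum_r]
      ring
    have e0 := hE0 0
    have e1 := hE0 1
    rw [h1, hκs, hκs, map_div₀, hA, hnorm, hBi]
    field_simp
    ring
  have q2 : κ.re ^ 2 + algebraMap F K q * κ.re * κ.im - algebraMap F K p * κ.im ^ 2 =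
      algebraMap k K (⟨C, hCk⟩ / ⟨A, hAk⟩) := by
    rw [map_div₀]
    change κ.re ^ 2 + algebraMap F K q * κ.re * κ.im - algebraMap F K p * κ.im ^ 2 = C / A
    apply hinj
    have h1 : algebraMap K Ω (κ.re ^ 2 + algebraMap F K q * κ.re * κ.im -
        algebraMap F K p * κ.im ^ 2) = T.ev 0 κ * T.ev 1 κ := by
      rw [T.ev_apply, T.ev_apply]
      simp only [map_add, map_sub, map_mul, map_pow, ← IsScalarTower.algebraMap_apply, ← T.sum_r]
      linear_combination (-(algebraMap K Ω κ.im ^ 2)) * T.mul_r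
    have e0 := hE0 0
    have e1 := hE0 1
    rw [h1, hκs, hκs, map_div₀, hA, hC, hnorm, hnorm]
    field_simp
  obtain ⟨c, A', B', C', hA', hc, hθc, hsc⟩ := quad_step hpq κ.re κ.im _ _ q1 q2
  obtain ⟨hfin₁, hle₁⟩ := finrank_adjoin_le_two_of_root c A' B' C' (Or.inl hA') hc
  -- the cubic step
  set k' : IntermediateField F K := k⟮c⟯.restrictScalars F with hk'
  have hkk' : ∀ y ∈ k, y ∈ k' := fun y hy =>
    IntermediateField.algebraMap_mem k⟮c⟯ (⟨y, hy⟩ : k)
  have hκk : QMem k' κ := ⟨hθc, hsc⟩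
  have hkalg : ∀ y ∈ k, QMem k' (algebraMap K (QA p q K) y) := fun y hy =>
    ⟨hkk' y hy, zero_mem _⟩
  set yv : Fin 3 → QA p q K := fun i => algebraMap K _ (w₁ i) + κ * algebraMap K _ (w₂ i) with hyv
  have hyk : ∀ i, yv i ∈ qSub (p := p) (q := q) k' := fun i =>
    (hkalg _ (hw₁ i)).add (hκk.mul (hkalg _ (hw₂ i)))
  have hzy : ∀ i, z i = ζ₁ * yv i := by
    intro i
    rw [hz i, hyv]
    linear_combination (-(algebraMap K (QA p q K) (w₂ i))) * hκζ
  set d : QA p q K := (mulMat bM yv).det with hd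
  have hdk : QMem k' d := det_mem (qSub k') hyk
  have hda : ζ₁ ^ 3 * d = QA.map p q (Algebra.ofId F K) a := by
    rw [← h.det]
    have h1 : z = fun i => ζ₁ * yv i := funext hzy
    apply T.ev_ext hinj
    intro s
    rw [map_mul, map_pow, T.ev_det, T.ev_det, h1]
    have h2 : ∀ i, T.x s i (fun i => ζ₁ * yv i) = T.ev s ζ₁ * T.x s i yv := fun i =>
      cd_mul_left _ _ _ _
    simp only [h2, Finset.prod_mul_distrib, Finset.prod_const, Finset.card_univ, Fintype.card_fin]
  obtain ⟨a', ha'⟩ := ha.exists_right_inv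
  have haa : QA.map p q (Algebra.ofId F K) a * QA.map p q (Algebra.ofId F K) a' = 1 := by
    rw [← map_mul, ha', map_one]
  have hdinv : d * (ζ₁ ^ 3 * QA.map p q (Algebra.ofId F K) a') = 1 := by
    linear_combination (QA.map p q (Algebra.ofId F K) a') * hda + haa
  have hdinvk := hdk.of_mul_eq_one hdinv
  set G₀ : QA p q K := algebraMap K _ A⁻¹ * (QA.map p q (Algebra.ofId F K) a *
    (ζ₁ ^ 3 * QA.map p q (Algebra.ofId F K) a')) with hG₀
  have hG₀k : QMem k' G₀ := by
    have h1 : QMem k' (algebraMap K (QA p q K) A⁻¹) := ⟨inv_mem (hkk' A hAk), zero_mem _⟩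
    exact h1.mul ((QMem.base a).mul hdinvk)
  have hAA : algebraMap K (QA p q K) A⁻¹ * algebraMap K (QA p q K) A = 1 := by
    rw [← map_mul, inv_mul_cancel₀ hA0, map_one]
  have hζ2 : ζ₁ ^ 2 = G₀ * star ζ₁ := by
    have h1 := QuadraticAlgebra.algebraMap_norm_eq_mul_star ζ₁
    rw [← hA] at h1
    rw [hG₀]
    linear_combination (-(ζ₁ ^ 2)) * hAA + (algebraMap K (QA p q K) A⁻¹ * ζ₁ ^ 2) * h1 -
      (algebraMap K (QA p q K) A⁻¹ * ζ₁ ^ 3 * star ζ₁) * haa
  set s := ζ₁.re with hs
  set t' := ζ₁.im with ht'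
  set P := algebraMap F K p with hP
  set Q := algebraMap F K q with hQ
  have E1 : s ^ 2 + P * t' ^ 2 = G₀.re * s + (Q * G₀.re - P * G₀.im) * t' := by
    have h1 := congrArg QuadraticAlgebra.re hζ2
    simp only [pow_two, QuadraticAlgebra.re_mul, QuadraticAlgebra.re_star,
      QuadraticAlgebra.im_star] at h1
    linear_combination h1
  have E2 : 2 * (s * t') + Q * t' ^ 2 = G₀.im * s - G₀.re * t' := by
    have h1 := congrArg QuadraticAlgebra.im hζ2
    simp only [pow_two, QuadraticAlgebra.im_mul, QuadraticAlgebra.re_star,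
      QuadraticAlgebra.im_star] at h1
    linear_combination h1
  have E3 : s ^ 2 + Q * (s * t') - P * t' ^ 2 = A := by
    rw [hA, QuadraticAlgebra.norm_def]
    ring
  have hD0 : Q ^ 2 + 4 * P ≠ 0 := by
    have := (map_ne_zero (algebraMap F K)).mpr hpq
    simpa only [map_add, map_mul, map_pow, map_ofNat] using this
  have hD0k : Q ^ 2 + 4 * P ∈ k' := by
    have : Q ^ 2 + 4 * P = algebraMap F K (q ^ 2 + 4 * p) := by
      simp only [map_add, map_mul, map_pow, map_ofNat, hP, hQ]
    rw [this]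
    exact IntermediateField.algebraMap_mem _ _
  have hPk : P ∈ k' := IntermediateField.algebraMap_mem _ _
  have hQk : Q ∈ k' := IntermediateField.algebraMap_mem _ _
  have hspan : ∀ c₀ c₁ c₂ y : K, c₀ ∈ k' → c₁ ∈ k' → c₂ ∈ k' → y = c₀ + c₁ * s + c₂ * t' →
      y ∈ Submodule.span k⟮c⟯ ({1, s, t'} : Set K) := by
    intro c₀ c₁ c₂ y h0 h1 h2 hy
    rw [hy]
    refine add_mem (add_mem ?_ ?_) ?_
    · have : c₀ = (⟨c₀, h0⟩ : k⟮c⟯) • (1 : K) := by
        rw [Algebra.smul_def, mul_one]
        rfl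
      rw [this]
      exact Submodule.smul_mem _ _ (Submodule.subset_span (by simp))
    · have : c₁ * s = (⟨c₁, h1⟩ : k⟮c⟯) • s := by
        rw [Algebra.smul_def]
        rfl
      rw [this]
      exact Submodule.smul_mem _ _ (Submodule.subset_span (by simp))
    · have : c₂ * t' = (⟨c₂, h2⟩ : k⟮c⟯) • t' := by
        rw [Algebra.smul_def]
        rfl
      rw [this]
      exact Submodule.smul_mem _ _ (Submodule.subset_span (by simp))
  have n2 : (2 : K) ∈ k' := ofNat_mem _ 2
  have hAk' : A ∈ k' := hkk' A hAk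
  have htt : t' * t' = (-2 * A / (Q ^ 2 + 4 * P)) +
      ((Q * G₀.im + 2 * G₀.re) / (Q ^ 2 + 4 * P)) * s +
      ((-(Q * G₀.re) + 2 * (Q * G₀.re - P * G₀.im)) / (Q ^ 2 + 4 * P)) * t' := by
    field_simp
    linear_combination Q * E2 + 2 * E1 - 2 * E3
  have hst : s * t' = (Q * A / (Q ^ 2 + 4 * P)) +
      ((2 * P * G₀.im - Q * G₀.re) / (Q ^ 2 + 4 * P)) * s +
      ((-(2 * P * G₀.re) - Q * (Q * G₀.re - P * G₀.im)) / (Q ^ 2 + 4 * P)) * t' := by
    field_simp
    linear_combination 2 * P * E2 - Q * (E1 - E3)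
  have hss : s * s = (2 * P * A / (Q ^ 2 + 4 * P)) +
      (G₀.re - P * ((Q * G₀.im + 2 * G₀.re) / (Q ^ 2 + 4 * P))) * s +
      ((Q * G₀.re - P * G₀.im) -
        P * ((-(Q * G₀.re) + 2 * (Q * G₀.re - P * G₀.im)) / (Q ^ 2 + 4 * P))) * t' := by
    have h1 : s * s = G₀.re * s + (Q * G₀.re - P * G₀.im) * t' - P * (t' * t') := by
      linear_combination E1
    rw [h1, htt]
    ring
  obtain ⟨hG1, hG2⟩ := hG₀k
  obtain ⟨hfin₂, hle₂⟩ := finrank_le_three_of_span (k := k⟮c⟯) s t' (by
      rw [← IntermediateField.restrictScalars_eq_top_iff (K := k),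
        ← IntermediateField.restrictScalars_eq_top_iff (K := F)]
      apply h.gen
      intro i
      rw [hzy i]
      set k'' := ((IntermediateField.adjoin k⟮c⟯ {s, t'}).restrictScalars k).restrictScalars F
      have h1 : QMem k'' ζ₁ := by
        constructor
        · exact IntermediateField.subset_adjoin k⟮c⟯ _ (Set.mem_insert _ _)
        · exact IntermediateField.subset_adjoin k⟮c⟯ _
            (Set.mem_insert_of_mem _ (Set.mem_singleton _))
      have h2 : QMem k'' (yv i) := by
        have h3 : ∀ y ∈ k', y ∈ k'' := fun y hy =>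
          IntermediateField.algebraMap_mem (IntermediateField.adjoin k⟮c⟯ {s, t'})
            (⟨y, hy⟩ : k⟮c⟯)
        exact ⟨h3 _ (hyk i).1, h3 _ (hyk i).2⟩
      exact h1.mul h2)
    (hspan _ _ _ _ (div_mem (mul_mem (mul_mem n2 hPk) hAk') hD0k)
      (sub_mem hG1 (mul_mem hPk (div_mem (add_mem (mul_mem hQk hG2) (mul_mem n2 hG1)) hD0k)))
      (sub_mem (sub_mem (mul_mem hQk hG1) (mul_mem hPk hG2)) (mul_mem hPk (div_mem (add_mem
        (neg_mem (mul_mem hQk hG1)) (mul_mem n2 (sub_mem (mul_mem hQk hG1) (mul_mem hPk hG2))))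
        hD0k))) hss)
    (hspan _ _ _ _ (div_mem (mul_mem hQk hAk') hD0k)
      (div_mem (sub_mem (mul_mem (mul_mem n2 hPk) hG2) (mul_mem hQk hG1)) hD0k)
      (div_mem (sub_mem (neg_mem (mul_mem (mul_mem n2 hPk) hG1)) (mul_mem hQk (sub_mem
        (mul_mem hQk hG1) (mul_mem hPk hG2)))) hD0k) hst)
    (hspan _ _ _ _ (div_mem (mul_mem (neg_mem n2) hAk') hD0k)
      (div_mem (add_mem (mul_mem hQk hG2) (mul_mem n2 hG1)) hD0k)
      (div_mem (add_mem (neg_mem (mul_mem hQk hG1)) (mul_mem n2 (sub_mem (mul_mem hQk hG1)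
        (mul_mem hPk hG2)))) hD0k) htt)
  exact finrank_le_mul (d₁ := 2) (d₂ := 3) hfin₁ hle₁ hfin₂ hle₂

/-- The general upper bound, given a frame. -/
theorem IsTorGeneric.irr_le_six_aux (hpq : q ^ 2 + 4 * p ≠ 0) {a : QA p q F} (ha : IsUnit a)
    {b : M} (hb : IsUnit b) {K : Type w} [Field K] [Algebra F K] {z : Fin 3 → QA p q K}
    (h : IsTorGeneric bM a b K z) {Ω : Type w} [Field Ω] [Algebra F Ω] [Algebra K Ω]
    [IsScalarTower F K Ω] (T : SixFrame bM p q Ω) : 0 < irr F K ∧ irr F K ≤ 6 := by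
  classical
  let g : K →ₐ[F] Ω := IsScalarTower.toAlgHom F K Ω
  have hg : ∀ c, g c = algebraMap K Ω c := fun c => rfl
  have hinj : Function.Injective (algebraMap K Ω) := (algebraMap K Ω).injective
  set xv : Fin 3 → K := fun j => (z j).re with hxv
  set v : Fin 3 → K := fun j => (z j).im with hv
  have hx : ∀ s i, T.x s i z = cd bM g (T.σ i) xv + T.r s * cd bM g (T.σ i) v := fun s i =>
    T.x_eq s i z
  -- a nonvanishing minor
  obtain ⟨j, l, hjl⟩ : ∃ j l, xv j * v l - xv l * v j ≠ 0 := by
    by_contra hcon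
    push Not at hcon
    apply h.minor_ne_zero T hb (i := 0) (j := 1) (by decide)
    have h1 : ∀ i i', cd bM g (T.σ i) xv * cd bM g (T.σ i') v -
        cd bM g (T.σ i') xv * cd bM g (T.σ i) v = 0 := by
      intro i i'
      have h2 : cd bM g (T.σ i) xv * cd bM g (T.σ i') v = ∑ j, ∑ l, g (xv j * v l) *
          (T.σ i (bM j) * T.σ i' (bM l)) := by
        simp only [cd, Finset.sum_mul_sum, map_mul]
        refine Finset.sum_congr rfl fun j _ => Finset.sum_congr rfl fun l _ => ?_
        ring
      have h3 : cd bM g (T.σ i') xv * cd bM g (T.σ i) v = ∑ j, ∑ l, g (xv l * v j) *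
          (T.σ i (bM j) * T.σ i' (bM l)) := by
        rw [Finset.sum_comm]
        simp only [cd, Finset.sum_mul_sum, map_mul]
        refine Finset.sum_congr rfl fun j _ => Finset.sum_congr rfl fun l _ => ?_
        ring
      rw [h2, h3, ← Finset.sum_sub_distrib]
      refine Finset.sum_eq_zero fun j _ => ?_
      rw [← Finset.sum_sub_distrib]
      refine Finset.sum_eq_zero fun l _ => ?_
      rw [← sub_mul, ← map_sub, hcon j l, map_zero, zero_mul]
    rw [hx, hx, hx, hx]
    linear_combination (T.r 1 - T.r 0) * h1 0 1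
  have hne : j ≠ l := by
    rintro rfl
    apply hjl
    ring
  obtain ⟨m, hm⟩ : ∃ m : Fin 3, ∀ i, i = j ∨ i = l ∨ i = m := by
    rcases fin_three_cases j l with h1 | h1 | h1
    · exact absurd h1.symm hne
    · refine ⟨j + 2, fun i => ?_⟩
      rw [h1]
      exact fin_three_cases j i
    · refine ⟨j + 1, fun i => ?_⟩
      rw [h1]
      rcases fin_three_cases j i with h2 | h2 | h2
      · exact Or.inl h2
      · exact Or.inr (Or.inr h2)
      · exact Or.inr (Or.inl h2)
  set D := xv j * v l - xv l * v j with hD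
  set α := (v l * xv m - xv l * v m) / D with hα
  set β := (xv j * v m - v j * xv m) / D with hβ
  set k := IntermediateField.adjoin F {α, β} with hk
  have hαk : α ∈ k := IntermediateField.subset_adjoin F _ (Set.mem_insert _ _)
  have hβk : β ∈ k :=
    IntermediateField.subset_adjoin F _ (Set.mem_insert_of_mem _ (Set.mem_singleton _))
  set w₁ : Fin 3 → K := fun i => if i = j then 1 else if i = l then 0 else α with hw₁
  set w₂ : Fin 3 → K := fun i => if i = j then 0 else if i = l then 1 else β with hw₂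
  have hw₁k : ∀ i, w₁ i ∈ k := by
    intro i
    simp only [hw₁]
    split_ifs
    · exact one_mem _
    · exact zero_mem _
    · exact hαk
  have hw₂k : ∀ i, w₂ i ∈ k := by
    intro i
    simp only [hw₂]
    split_ifs
    · exact zero_mem _
    · exact one_mem _
    · exact hβk
  have hz : ∀ i, z i = z j * algebraMap K _ (w₁ i) + z l * algebraMap K _ (w₂ i) := by
    intro i
    by_cases hij : i = j
    · simp [hw₁, hw₂, hij]
    by_cases hil : i = l
    · simp [hw₁, hw₂, hil, hne.symm]
    have him : i = m := by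
      rcases hm i with h1 | h1 | h1
      · exact absurd h1 hij
      · exact absurd h1 hil
      · exact h1
    have e1 : w₁ i = α := by simp [hw₁, hij, hil]
    have e2 : w₂ i = β := by simp [hw₂, hij, hil]
    rw [e1, e2, him]
    have hb1 : ∀ y : K, algebraMap K (QA p q K) y = ⟨y, 0⟩ := fun y => rfl
    rw [hb1, hb1]
    ext
    · simp only [QuadraticAlgebra.re_add, QuadraticAlgebra.re_mul, mul_zero, add_zero]
      change xv m = xv j * α + xv l * β
      rw [hα, hβ]
      field_simp
      rw [hD]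
      ring
    · simp only [QuadraticAlgebra.im_add, QuadraticAlgebra.im_mul, mul_zero, add_zero, zero_add]
      change v m = v j * α + v l * β
      rw [hα, hβ]
      field_simp
      rw [hD]
      ring
  have hfinal : FiniteDimensional k K ∧ Module.finrank k K ≤ 6 := by
    by_cases h1 : QuadraticAlgebra.norm (z j) = 0
    · by_cases h2 : QuadraticAlgebra.norm (z l) = 0
      · refine h.finrank_le_six hpq ha hb T k (z j + z l) (z l) w₁ (fun i => w₂ i - w₁ i) hw₁k
          (fun i => sub_mem (hw₂k i) (hw₁k i)) (fun i => ?_) ?_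
        · rw [hz i, map_sub]
          ring
        · intro h3
          have hnorm : ∀ ζ : QA p q K, algebraMap K Ω (QuadraticAlgebra.norm ζ) =
              T.ev 0 ζ * T.ev 1 ζ := by
            intro ζ
            have h1 := congrArg (T.ev 0) (QuadraticAlgebra.algebraMap_norm_eq_mul_star ζ)
            rw [map_mul, T.ev_star, T.ev_algebraMap] at h1
            exact h1
          have e1 := hnorm (z j)
          have e2 := hnorm (z l)
          have e3 := hnorm (z j + z l)
          rw [h1, map_zero] at e1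
          rw [h2, map_zero] at e2
          rw [h3, map_zero, map_add, map_add] at e3
          -- then the norm of `z` vanishes
          have h4 := h.x_mul T 0 0
          have e : (1 - 0 : Fin 2) = 1 := rfl
          have hXi : ∀ s i, T.x s i z = T.ev s (z j) * cd bM g (T.σ i) w₁ +
              T.ev s (z l) * cd bM g (T.σ i) w₂ := by
            intro s i
            have h1 : z = fun i => z j * algebraMap K _ (w₁ i) + z l * algebraMap K _ (w₂ i) :=
              funext hz
            conv_lhs => rw [h1]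
            simp only [SixFrame.x, cd, map_add, map_mul, SixFrame.ev_algebraMap, Finset.mul_sum,
              ← Finset.sum_add_distrib]
            refine Finset.sum_congr rfl fun j _ => ?_
            rw [hg, hg]
            ring
          rw [e, hXi, hXi] at h4
          apply (hb.map (T.σ 0)).ne_zero
          rw [← h4]
          set u := cd bM g (T.σ 0) w₁
          set t := cd bM g (T.σ 0) w₂
          linear_combination (u * t - u ^ 2) * e1 + (u * t - t ^ 2) * e2 - (u * t) * e3
      · exact h.finrank_le_six hpq ha hb T k (z l) (z j) w₂ w₁ hw₂k hw₁k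
          (fun i => by rw [hz i]; ring) h2
    · exact h.finrank_le_six hpq ha hb T k (z j) (z l) w₁ w₂ hw₁k hw₂k hz h1
  obtain ⟨hfin, hle⟩ := hfinal
  haveI := hfin
  exact irr_le_of_finiteDimensional h.trdeg α β hle

/-- The general upper bound. -/
theorem IsTorGeneric.irr_le_six [Algebra.Etale F M] (hpq : q ^ 2 + 4 * p ≠ 0) {a : QA p q F}
    (ha : IsUnit a) {b : M} (hb : IsUnit b) {K : Type w} [Field K] [Algebra F K]
    {z : Fin 3 → QA p q K} (h : IsTorGeneric bM a b K z) : 0 < irr F K ∧ irr F K ≤ 6 := by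
  obtain ⟨T⟩ := exists_sixFrame bM p q hpq (AlgebraicClosure K)
  exact h.irr_le_six_aux hpq ha hb T

end

end Pool.Agent.Helper17.Irr
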