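import Mathlib
import Pool.Agent.Helper17.Irr.SixSix

/-!
# Surfaces `z z̄ = 1`, `N(z) = a`
-/

set_option linter.style.haveILetI false
set_option linter.deprecated false

namespace Pool.Agent.Helper17.Irr

open IntermediateField

universe u v w x y

section

variable {F : Type u} [Field F] {M : Type v} [CommRing M] [Algebra F M]
  {bM : Module.Basis (Fin 3) F M} {p q : F}

theorem SixFrame.algebraMap_norm {Ω : Type w} [Field Ω] [Algebra F Ω] (T : SixFrame bM p q Ω)
    {S : Type x} [CommRing S] [Algebra F S] [Algebra S Ω] [IsScalarTower F S Ω]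
    (ζ : QA p q S) : algebraMap S Ω (QuadraticAlgebra.norm ζ) = T.ev 0 ζ * T.ev 1 ζ := by
  have h1 := congrArg (T.ev 0) (QuadraticAlgebra.algebraMap_norm_eq_mul_star ζ)
  rw [map_mul, T.ev_star, T.ev_algebraMap] at h1
  exact h1

/-- The upper bound for classes of order three. -/
theorem IsTorGeneric.irr_le_three_aux {a ρ : QA p q F} (haρ : a * star ρ = ρ) (hρ : ρ.im ≠ 0)
    {K : Type w} [Field K] [Algebra F K] {z : Fin 3 → QA p q K}
    (h : IsTorGeneric bM a (1 : M) K z) {Ω : Type w} [Field Ω] [Algebra F Ω] [Algebra K Ω]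
    [IsScalarTower F K Ω] (T : SixFrame bM p q Ω) : 0 < irr F K ∧ irr F K ≤ 3 := by
  classical
  let g : K →ₐ[F] Ω := IsScalarTower.toAlgHom F K Ω
  have hg : ∀ c, g c = algebraMap K Ω c := fun c => rfl
  have hinj : Function.Injective (algebraMap K Ω) := (algebraMap K Ω).injective
  have h1u : IsUnit (1 : M) := isUnit_one
  set xv : Fin 3 → K := fun j => (z j).re with hxv
  set v : Fin 3 → K := fun j => (z j).im with hv
  have hx : ∀ s i, T.x s i z = cd bM g (T.σ i) xv + T.r s * cd bM g (T.σ i) v := fun s i =>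
    T.x_eq s i z
  have hvi : ∀ i, cd bM g (T.σ i) v ≠ 0 := by
    intro i h0
    apply h.sub_ne_zero T h1u i
    rw [hx, hx, h0]
    ring
  have hXX : ∀ i, T.x 0 i z * T.x 1 i z = 1 := by
    intro i
    have h1 := h.x_mul T 0 i
    rwa [map_one] at h1
  have hX1 : ∀ s i, 1 + T.x s i z ≠ 0 := by
    intro s i h0
    have hj : ∃ j, i ≠ j := ⟨i + 1, by fin_cases i <;> decide⟩
    obtain ⟨j, hj⟩ := hj
    apply h.not_isAlgebraic T h1u s hj
    have h2 : T.x s i z = -1 := by linear_combination h0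
    rw [h2]
    exact isAlgebraic_one.neg
  -- norms
  set Nv : K := (mulMat bM v).det with hNv
  have hNvi : algebraMap K Ω Nv = cd bM g (T.σ 0) v * cd bM g (T.σ 1) v * cd bM g (T.σ 2) v := by
    rw [← hg, map_det_mulMat g T.det_ne, Fin.prod_univ_three]
  have hNvΩ : algebraMap K Ω Nv ≠ 0 := by
    rw [hNvi]
    exact mul_ne_zero (mul_ne_zero (hvi 0) (hvi 1)) (hvi 2)
  set adjv : Fin 3 → K := (mulMat bM v).adjugate.mulVec (coords bM K 1) with hadjv
  have hadjvi : ∀ i, cd bM g (T.σ i) adjv = algebraMap K Ω Nv / cd bM g (T.σ i) v := fun i =>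
    cd_adj_div g T.det_ne v i (hvi i)
  set num : Fin 3 → K := coords bM K 1 + xv + (algebraMap F K q) • v with hnum
  set u : Fin 3 → K := (-Nv⁻¹) • (mulMat bM num).mulVec adjv with hu
  have hui : ∀ i, cd bM g (T.σ i) u * cd bM g (T.σ i) v = -(1 + cd bM g (T.σ i) xv +
      (T.r 0 + T.r 1) * cd bM g (T.σ i) v) := by
    intro i
    have e := hvi i
    rw [hu, cd_smul, cd_mulVec, hadjvi, hnum, cd_add, cd_add, cd_smul, cd_coords, map_one, hg, hg,
      map_neg, map_inv₀, ← IsScalarTower.algebraMap_apply, T.sum_r]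
    field_simp
  -- the point `y = u + ω`
  have hy0 : ∀ i, cd bM g (T.σ i) u + T.r 0 ≠ 0 := by
    intro i h0
    apply hX1 1 i
    rw [hx]
    linear_combination (-(cd bM g (T.σ i) v)) * h0 - (-1 : Ω) * hui i
  have hy1 : ∀ i, cd bM g (T.σ i) u + T.r 1 ≠ 0 := by
    intro i h0
    apply hX1 0 i
    rw [hx]
    linear_combination (-(cd bM g (T.σ i) v)) * h0 - (-1 : Ω) * hui i
  have hz0 : ∀ i, T.x 0 i z * (cd bM g (T.σ i) u + T.r 0) = cd bM g (T.σ i) u + T.r 1 := by
    intro i
    have e := hvi i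
    have h1 : cd bM g (T.σ i) v * (T.x 0 i z * (cd bM g (T.σ i) u + T.r 0) -
        (cd bM g (T.σ i) u + T.r 1)) = 0 := by
      have h2 := hXX i
      rw [hx 1 i] at h2
      rw [hx 0 i] at h2 ⊢
      linear_combination (cd bM g (T.σ i) xv + T.r 0 * cd bM g (T.σ i) v - 1) * hui i - h2
    exact sub_eq_zero.mp ((mul_eq_zero.mp h1).resolve_left e)
  have hz1 : ∀ i, T.x 1 i z * (cd bM g (T.σ i) u + T.r 1) = cd bM g (T.σ i) u + T.r 0 := by
    intro i
    have h1 := hz0 i
    have h2 := hXX i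
    linear_combination (cd bM g (T.σ i) u + T.r 0) * h2 - T.x 1 i z * h1
  -- the coordinates
  have hM : (bM.repr (1 : M)) ≠ 0 := by
    intro h0
    have h1 : (1 : M) = 0 := by
      rw [← bM.repr.map_eq_zero_iff]
      exact h0
    have h2 := (T.σ 0).toRingHom.map_one
    have h3 : T.σ 0 (1 : M) = 0 := by rw [h1, map_zero]
    rw [map_one] at h3
    exact one_ne_zero h3
  obtain ⟨j₀, hj₀⟩ : ∃ j₀, bM.repr (1 : M) j₀ ≠ 0 := by
    by_contra hcon
    push Not at hcon
    exact hM (Finsupp.ext hcon)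
  set e : Fin 3 → F := fun i => bM.repr (1 : M) i with he
  set u' : K := u j₀ / algebraMap F K (e j₀) with hu'
  set u'' : Fin 3 → K := u - u' • coords bM K 1 with hu''
  have hej₀ : algebraMap F K (e j₀) ≠ 0 := (map_ne_zero _).mpr hj₀
  have hu''j₀ : u'' j₀ = 0 := by
    rw [hu'']
    simp only [Pi.sub_apply, Pi.smul_apply, smul_eq_mul, coords, hu']
    change u j₀ - u j₀ / algebraMap F K (e j₀) * algebraMap F K (e j₀) = 0
    field_simp
    ring
  obtain ⟨a₁, a₂, hak⟩ : ∃ a₁ a₂ : K, ∀ j, u'' j ∈ IntermediateField.adjoin F {a₁, a₂} := by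
    refine ⟨u'' (j₀ + 1), u'' (j₀ + 2), fun j => ?_⟩
    rcases fin_three_cases j₀ j with rfl | rfl | rfl
    · rw [hu''j₀]
      exact zero_mem _
    · exact IntermediateField.subset_adjoin F _ (Set.mem_insert _ _)
    · exact IntermediateField.subset_adjoin F _ (Set.mem_insert_of_mem _ (Set.mem_singleton _))
  set k := IntermediateField.adjoin F {a₁, a₂} with hk
  have hui'' : ∀ i, cd bM g (T.σ i) u = cd bM g (T.σ i) u'' + algebraMap K Ω u' := by
    intro i
    have e2 : cd bM g (T.σ i) u'' = cd bM g (T.σ i) u -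
        cd bM g (T.σ i) (u' • coords bM K 1) := cd_sub _ _ _ _
    have e3 : cd bM g (T.σ i) (u' • coords bM K 1) = algebraMap K Ω u' := by
      have e4 := cd_smul (bM := bM) g (T.σ i) u' (coords bM K 1)
      rw [cd_coords, map_one, mul_one] at e4
      exact e4
    rw [e2, e3]
    ring
  -- the characteristic polynomial
  set c₁ : K := (mulMat bM u'').trace with hc₁
  set adju : Fin 3 → K := (mulMat bM u'').adjugate.mulVec (coords bM K 1) with hadju
  set c₂ : K := (mulMat bM adju).trace with hc₂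
  set c₃ : K := (mulMat bM u'').det with hc₃
  have hc₁k : c₁ ∈ k := trace_mem k.toSubalgebra hak
  have hc₂k : c₂ ∈ k := trace_mem k.toSubalgebra (adj_mem k.toSubalgebra hak)
  have hc₃k : c₃ ∈ k := det_mem k.toSubalgebra hak
  set U : Fin 3 → Ω := fun i => cd bM g (T.σ i) u'' with hU
  have hc₁i : algebraMap K Ω c₁ = U 0 + U 1 + U 2 := by
    rw [← hg, hc₁, map_trace_mulMat g T.det_ne, Fin.sum_univ_three]
  have hc₃i : algebraMap K Ω c₃ = U 0 * U 1 * U 2 := by
    rw [← hg, hc₃, map_det_mulMat g T.det_ne, Fin.prod_univ_three]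
  have hc₂i : algebraMap K Ω c₂ = U 0 * U 1 + U 0 * U 2 + U 1 * U 2 := by
    rw [← hg, hc₂, map_trace_mulMat g T.det_ne, Fin.sum_univ_three, hadju,
      cd_adjugate g T.det_ne, cd_adjugate g T.det_ne, cd_adjugate g T.det_ne]
    rw [show (Finset.univ.erase (0 : Fin 3)) = {1, 2} by decide,
      show (Finset.univ.erase (1 : Fin 3)) = {0, 2} by decide,
      show (Finset.univ.erase (2 : Fin 3)) = {0, 1} by decide,
      Finset.prod_pair (by decide), Finset.prod_pair (by decide), Finset.prod_pair (by decide)]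
    ring
  -- the vector `y`
  set yv : Fin 3 → QA p q K := fun i => algebraMap K _ (u'' i) +
    (⟨u', 1⟩ : QA p q K) * coords bM (QA p q K) 1 i with hyv
  have hyi : ∀ s i, T.x s i yv = cd bM g (T.σ i) u + T.r s := by
    intro s' i
    have hb : ∀ w : Fin 3 → K, T.x s' i (fun j => algebraMap K (QA p q K) (w j)) =
        cd bM g (T.σ i) w := by
      intro w
      simp only [SixFrame.x, cd, SixFrame.ev_algebraMap]
      rfl
    have hadd : T.x s' i yv = T.x s' i (fun j => algebraMap K (QA p q K) (u'' j)) +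
        T.x s' i (fun j => (⟨u', 1⟩ : QA p q K) * coords bM (QA p q K) 1 j) :=
      cd_add _ _ _ _
    have hm : T.x s' i (fun j => (⟨u', 1⟩ : QA p q K) * coords bM (QA p q K) 1 j) =
        T.ev s' ⟨u', 1⟩ := by
      have h6 := cd_mul_left (bM := bM) (T.ev s') (T.σ i) (⟨u', 1⟩ : QA p q K)
        (coords bM (QA p q K) 1)
      rw [cd_coords, map_one, mul_one] at h6
      exact h6
    rw [hadd, hb, hm, T.ev_apply, hui'', map_one]
    ring
  set d : QA p q K := (mulMat bM yv).det with hd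
  have hdi : ∀ s, T.ev s d = (U 0 + algebraMap K Ω u' + T.r s) * (U 1 + algebraMap K Ω u' + T.r s) *
      (U 2 + algebraMap K Ω u' + T.r s) := by
    intro s
    rw [hd, T.ev_det, Fin.prod_univ_three, hyi, hyi, hyi, hui'', hui'', hui'']
  have hd0 : ∀ s, T.ev s d ≠ 0 := by
    intro s
    rw [hd, T.ev_det]
    refine Finset.prod_ne_zero_iff.mpr fun i _ => ?_
    rw [hyi]
    fin_cases s
    · exact hy0 i
    · exact hy1 i
  set t : QA p q K := ⟨u', 1⟩ with ht
  have hdt : d = t ^ 3 + algebraMap K _ c₁ * t ^ 2 + algebraMap K _ c₂ * t +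
      algebraMap K _ c₃ := by
    apply T.ev_ext hinj
    intro s
    have hti : T.ev s t = algebraMap K Ω u' + T.r s := by
      rw [ht, T.ev_apply, map_one, mul_one]
    rw [hdi, map_add, map_add, map_add, map_mul, map_mul, map_pow, map_pow, T.ev_algebraMap,
      T.ev_algebraMap, T.ev_algebraMap, hti, hc₁i, hc₂i, hc₃i]
    ring
  -- the relation
  set ρK : QA p q K := QA.map p q (Algebra.ofId F K) ρ with hρK
  have hprod : ∀ s, ∏ i, T.x s i z = T.ev (S := F) s a := fun s => h.x_prod T s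
  have hrel : T.ev 0 (ρK * d) = T.ev 1 (ρK * d) := by
    have h1 : T.ev (S := F) 0 a * T.ev (S := F) 1 ρ = T.ev (S := F) 0 ρ := by
      have := congrArg (T.ev (S := F) 0) haρ
      rw [map_mul, T.ev_star] at this
      exact this
    have h2 : T.ev (S := F) 0 a * T.ev 0 d = T.ev 1 d := by
      rw [← hprod 0, hd, T.ev_det, T.ev_det, ← Finset.prod_mul_distrib]
      refine Finset.prod_congr rfl fun i _ => ?_
      rw [hyi, hyi]
      exact hz0 i
    rw [map_mul, map_mul, hρK, T.ev_map, T.ev_map, ← h1, ← h2]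
    ring
  have him : (ρK * d).im = 0 := by
    rw [T.ev_apply, T.ev_apply] at hrel
    have h1 : (T.r 0 - T.r 1) * algebraMap K Ω (ρK * d).im = 0 := by linear_combination hrel
    rcases mul_eq_zero.mp h1 with h2 | h2
    · exact absurd (sub_eq_zero.mp h2) T.r_ne
    · exact (map_eq_zero _).mp h2
  -- the polynomial
  set P := algebraMap F K p with hP
  set Q := algebraMap F K q with hQ
  set ρ₀ := algebraMap F K ρ.re with hρ₀
  set ρ₁ := algebraMap F K ρ.im with hρ₁
  have hb1 : ∀ y : K, algebraMap K (QA p q K) y = ⟨y, 0⟩ := fun y => rfl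
  have hdre : d.re = u' ^ 3 + 3 * P * u' + P * Q + c₁ * (u' ^ 2 + P) + c₂ * u' + c₃ := by
    rw [hdt, hb1, hb1, hb1, ht]
    simp only [pow_succ, pow_zero, one_mul, QuadraticAlgebra.re_add, QuadraticAlgebra.re_mul,
      QuadraticAlgebra.im_mul, mul_zero, zero_mul, add_zero, mul_one]
    ring
  have hdim : d.im = 3 * u' ^ 2 + 3 * Q * u' + P + Q ^ 2 + c₁ * (2 * u' + Q) + c₂ := by
    rw [hdt, hb1, hb1, hb1, ht]
    simp only [pow_succ, pow_zero, one_mul, QuadraticAlgebra.im_add, QuadraticAlgebra.re_mul,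
      QuadraticAlgebra.im_mul, mul_zero, zero_mul, add_zero, mul_one, zero_add]
    ring
  have hpoly : ρ₁ * u' ^ 3 + (ρ₁ * c₁ + 3 * (ρ₀ + Q * ρ₁)) * u' ^ 2 +
      (ρ₁ * (3 * P + c₂) + (ρ₀ + Q * ρ₁) * (3 * Q + 2 * c₁)) * u' +
      (ρ₁ * (P * Q + c₁ * P + c₃) + (ρ₀ + Q * ρ₁) * (P + Q ^ 2 + c₁ * Q + c₂)) = 0 := by
    have h1 : ρ₀ * d.im + ρ₁ * d.re + Q * ρ₁ * d.im = 0 := by
      rw [QuadraticAlgebra.im_mul] at him
      exact him
    rw [hdre, hdim] at h1
    linear_combination h1
  have hPk : ∀ c : F, algebraMap F K c ∈ k := fun c => IntermediateField.algebraMap_mem _ _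
  have h3k : (3 : K) ∈ k := ofNat_mem _ 3
  have h2k : (2 : K) ∈ k := ofNat_mem _ 2
  have hm2 : ρ₁ * c₁ + 3 * (ρ₀ + Q * ρ₁) ∈ k :=
    add_mem (mul_mem (hPk _) hc₁k) (mul_mem h3k (add_mem (hPk _) (mul_mem (hPk _) (hPk _))))
  have hm1 : ρ₁ * (3 * P + c₂) + (ρ₀ + Q * ρ₁) * (3 * Q + 2 * c₁) ∈ k :=
    add_mem (mul_mem (hPk _) (add_mem (mul_mem h3k (hPk _)) hc₂k))
      (mul_mem (add_mem (hPk _) (mul_mem (hPk _) (hPk _))) (add_mem (mul_mem h3k (hPk _))
        (mul_mem h2k hc₁k)))
  have hm0 : ρ₁ * (P * Q + c₁ * P + c₃) + (ρ₀ + Q * ρ₁) * (P + Q ^ 2 + c₁ * Q + c₂) ∈ k :=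
    add_mem (mul_mem (hPk _) (add_mem (add_mem (mul_mem (hPk _) (hPk _)) (mul_mem hc₁k (hPk _)))
      hc₃k)) (mul_mem (add_mem (hPk _) (mul_mem (hPk _) (hPk _))) (add_mem (add_mem (add_mem
        (hPk _) (pow_mem (hPk _) 2)) (mul_mem hc₁k (hPk _))) hc₂k))
  -- generation
  have htop : k⟮u'⟯ = ⊤ := by
    rw [← IntermediateField.restrictScalars_eq_top_iff (K := F)]
    apply h.gen
    set k' := k⟮u'⟯.restrictScalars F with hk'
    have hkk' : ∀ y ∈ k, y ∈ k' := fun y hy =>
      IntermediateField.algebraMap_mem k⟮u'⟯ (⟨y, hy⟩ : k)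
    have hu'k : u' ∈ k' := IntermediateField.mem_adjoin_simple_self k u'
    have hyk : ∀ i, yv i ∈ qSub (p := p) (q := q) k' := fun i =>
      add_mem (s := qSub k') ⟨hkk' _ (hak i), zero_mem _⟩
        (mul_mem (s := qSub k') ⟨hu'k, one_mem _⟩ (coords_mem _ 1 i))
    have hstark : ∀ i, star (yv i) ∈ qSub (p := p) (q := q) k' := by
      intro i
      refine ⟨?_, ?_⟩
      · rw [QuadraticAlgebra.re_star]
        exact add_mem (hyk i).1 (mul_mem (IntermediateField.algebraMap_mem _ _) (hyk i).2)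
      · rw [QuadraticAlgebra.im_star]
        exact neg_mem (hyk i).2
    have hdu : IsUnit d := by
      rw [QA.isUnit_iff]
      intro h0
      have h1 := T.algebraMap_norm d
      rw [h0, map_zero] at h1
      exact mul_ne_zero (hd0 0) (hd0 1) h1.symm
    obtain ⟨d', hd'⟩ := hdu.exists_right_inv
    have hdk : QMem k' d := det_mem (qSub k') hyk
    have hd'k : d' ∈ qSub (p := p) (q := q) k' := hdk.of_mul_eq_one hd'
    have hzeq : z = fun i => d' * (mulMat bM (fun i => star (yv i))).mulVec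
        ((mulMat bM yv).adjugate.mulVec (coords bM (QA p q K) 1)) i := by
      apply T.x_ext hinj
      intro s i
      have hy : T.x s i yv ≠ 0 := by
        rw [hyi]
        fin_cases s
        · exact hy0 i
        · exact hy1 i
      have h1 : T.x s i (fun i => d' * (mulMat bM (fun i => star (yv i))).mulVec
          ((mulMat bM yv).adjugate.mulVec (coords bM (QA p q K) 1)) i) =
          T.ev s d' * (T.x (1 - s) i yv * (T.ev s d / T.x s i yv)) := by
        have e1 := cd_mul_left (bM := bM) (T.ev s) (T.σ i) d'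
          ((mulMat bM (fun i => star (yv i))).mulVec
            ((mulMat bM yv).adjugate.mulVec (coords bM (QA p q K) 1)))
        refine e1.trans ?_
        congr 1
        have e2 := T.x_mulVec s i (fun i => star (yv i))
          ((mulMat bM yv).adjugate.mulVec (coords bM (QA p q K) 1))
        refine e2.trans ?_
        rw [T.x_star]
        congr 1
        have hy' : cd bM (T.ev s) (T.σ i) yv ≠ 0 := hy
        exact cd_adj_div (T.ev s) T.det_ne yv i hy'
      have h2 : T.ev s d' * T.ev s d = 1 := by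
        rw [← map_mul, mul_comm, hd', map_one]
      rw [h1]
      have h3 : T.x s i z * T.x s i yv = T.x (1 - s) i yv := by
        rw [hyi, hyi]
        fin_cases s
        · exact hz0 i
        · exact hz1 i
      rw [← h3]
      field_simp
      linear_combination (-(T.x s i z)) * h2
    rw [hzeq]
    intro i
    exact mul_mem (s := qSub k') hd'k (mulVec_mem (qSub k') hstark (adj_mem (qSub k') hyk) i)
  obtain ⟨hfin, hle⟩ := finrank_le_of_root' (k := k) u' htop
    (Polynomial.C (algebraMap F k ρ.im) * Polynomial.X ^ 3 +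
      Polynomial.C (⟨_, hm2⟩ : k) * Polynomial.X ^ 2 +
      Polynomial.C (⟨_, hm1⟩ : k) * Polynomial.X + Polynomial.C (⟨_, hm0⟩ : k)) (D := 3)
    (by
      intro h0
      have h1 := congrArg (fun P : Polynomial k => P.coeff 3) h0
      simp only [Polynomial.coeff_add, Polynomial.coeff_C_mul, Polynomial.coeff_X_pow,
        Polynomial.coeff_X, Polynomial.coeff_C] at h1
      simp at h1
      exact hρ h1)
    (by
      simp only [map_add, map_mul, map_pow, Polynomial.aeval_X, Polynomial.aeval_C]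
      exact hpoly)
    (Polynomial.natDegree_cubic_le)
  haveI := hfin
  exact irr_le_of_finiteDimensional h.trdeg a₁ a₂ hle

/-- The upper bound for classes of order three. -/
theorem IsTorGeneric.irr_le_three [Algebra.Etale F M] (hpq : q ^ 2 + 4 * p ≠ 0) {a ρ : QA p q F}
    (haρ : a * star ρ = ρ) (hρ : ρ.im ≠ 0)
    {K : Type w} [Field K] [Algebra F K] {z : Fin 3 → QA p q K}
    (h : IsTorGeneric bM a (1 : M) K z) : 0 < irr F K ∧ irr F K ≤ 3 := by
  obtain ⟨T⟩ := exists_sixFrame bM p q hpq (AlgebraicClosure K)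
  exact h.irr_le_three_aux haρ hρ T

end

end Pool.Agent.Helper17.Irr
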