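import Mathlib
import Pool.Agent.Helper17.Irr.SixThree

/-!
# Points of the surface: boundary points
-/

set_option linter.style.haveILetI false
set_option linter.deprecated false

namespace Pool.Agent.Helper17.Irr

open IntermediateField

universe u v w x y

section

variable {F : Type u} [Field F] {M : Type v} [CommRing M] [Algebra F M]
  {bM : Module.Basis (Fin 3) F M} {p q : F}

theorem mulMat_coords {R : Type w} [CommRing R] [Algebra F R] (m : M) :
    mulMat bM (coords bM R m) = (Algebra.leftMulMatrix bM m).map (algebraMap F R) := by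
  ext i j
  have h1 : Algebra.leftMulMatrix bM m = ∑ k, bM.repr m k • Algebra.leftMulMatrix bM (bM k) := by
    conv_lhs => rw [← bM.sum_repr m]
    rw [map_sum]
    simp only [map_smul]
  rw [h1]
  simp only [mulMat, coords, Matrix.sum_apply, Matrix.smul_apply, Matrix.map_apply, smul_eq_mul,
    map_sum, map_mul]

theorem SixFrame.norm_b {Ω : Type w} [Field Ω] [Algebra F Ω] (T : SixFrame bM p q Ω) (b : M) :
    algebraMap F Ω (Algebra.norm F b) = ∏ i, T.σ i b := by
  have h1 := map_det_mulMat (Algebra.ofId F Ω) T.det_ne (coords bM F b)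
  simp only [cd_coords] at h1
  rw [← h1, mulMat_coords, Algebra.norm_eq_matrix_det bM, Algebra.ofId_apply]
  congr 2

theorem SixFrame.x_mul_left {Ω : Type w} [Field Ω] [Algebra F Ω] (T : SixFrame bM p q Ω)
    {S : Type x} [CommRing S] [Algebra F S] [Algebra S Ω] [IsScalarTower F S Ω] (s : Fin 2)
    (i : Fin 3) (c : QA p q S) (z : Fin 3 → QA p q S) :
    T.x s i (fun j => c * z j) = T.ev s c * T.x s i z := cd_mul_left _ _ _ _

theorem SixFrame.x_add {Ω : Type w} [Field Ω] [Algebra F Ω] (T : SixFrame bM p q Ω)
    {S : Type x} [CommRing S] [Algebra F S] [Algebra S Ω] [IsScalarTower F S Ω] (s : Fin 2)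
    (i : Fin 3) (z w : Fin 3 → QA p q S) :
    T.x s i (z + w) = T.x s i z + T.x s i w := cd_add _ _ _ _

theorem SixFrame.x_sub {Ω : Type w} [Field Ω] [Algebra F Ω] (T : SixFrame bM p q Ω)
    {S : Type x} [CommRing S] [Algebra F S] [Algebra S Ω] [IsScalarTower F S Ω] (s : Fin 2)
    (i : Fin 3) (z w : Fin 3 → QA p q S) :
    T.x s i (z - w) = T.x s i z - T.x s i w := cd_sub _ _ _ _

/-- The conditions for a point of the torsor can be checked on coordinates. -/
theorem SixFrame.isPoint {Ω : Type w} [Field Ω] [Algebra F Ω] (T : SixFrame bM p q Ω)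
    {L : Type x} [Field L] [Algebra F L] [Algebra L Ω] [IsScalarTower F L Ω] {a : QA p q F} {b : M}
    {x : Fin 3 → QA p q L} (h₁ : ∀ i, T.x 0 i x * T.x 1 i x = T.σ i b)
    (h₂ : ∀ s, ∏ i, T.x s i x = T.ev (S := F) s a) :
    (mulMat bM x).mulVec (fun j => star (x j)) = coords bM (QA p q L) b ∧
      (mulMat bM x).det = QA.map p q (Algebra.ofId F L) a := by
  have hinj : Function.Injective (algebraMap L Ω) := (algebraMap L Ω).injective
  constructor
  · apply T.x_ext hinj
    intro s i
    rw [T.x_mulVec, T.x_coords, T.x_star]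
    fin_cases s
    · exact h₁ i
    · rw [← h₁ i]
      exact mul_comm _ _
  · apply T.ev_ext hinj
    intro s
    rw [T.ev_det, T.ev_map, h₂]

theorem exists_interior_aux {a : QA p q F} {b : M} (ha : IsUnit a)
    (hb : IsUnit b) (hab : Algebra.norm F b = QuadraticAlgebra.norm a) {L : Type w} [Field L]
    [Algebra F L] (z : Fin 3 → QA p q L) (w : L) (hzw : z ≠ 0 ∨ w ≠ 0)
    (hA : sixEqA bM b z w = 0) (hB : sixEqB bM a b z w = 0)
    {Ω : Type x} [Field Ω] [Algebra F Ω] [Algebra L Ω]
    [IsScalarTower F L Ω] (T : SixFrame bM p q Ω) :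
    ∃ x : Fin 3 → QA p q L, (mulMat bM x).mulVec (fun j => star (x j)) = coords bM (QA p q L) b ∧
      (mulMat bM x).det = QA.map p q (Algebra.ofId F L) a := by
  classical
  have hinj : Function.Injective (algebraMap L Ω) := (algebraMap L Ω).injective
  let g : L →ₐ[F] Ω := IsScalarTower.toAlgHom F L Ω
  have hg : ∀ c, g c = algebraMap L Ω c := fun c => rfl
  have hbi : ∀ i, T.σ i b ≠ 0 := fun i => (hb.map (T.σ i)).ne_zero
  have hai : ∀ s, T.ev (S := F) s a ≠ 0 := fun s => (ha.map (T.ev (S := F) s)).ne_zero
  have hnorm : T.σ 0 b * T.σ 1 b * T.σ 2 b = T.ev (S := F) 0 a * T.ev (S := F) 1 a := by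
    rw [← T.algebraMap_norm, ← hab, T.norm_b, Fin.prod_univ_three]
  -- the equations
  have hA' : ∀ s i, T.x s i z * T.x (1 - s) i z = algebraMap L Ω w ^ 2 * T.σ i b := by
    intro s i
    have h1 := congrArg (T.x s i) (sub_eq_zero.mp hA)
    rw [T.x_mulVec, T.x_star] at h1
    rw [h1]
    have h2 := T.x_mul_left s i (algebraMap L (QA p q L) (w ^ 2)) (coords bM (QA p q L) b)
    rw [T.ev_algebraMap, T.x_coords] at h2
    refine h2.trans ?_
    rw [map_pow]
  have hB' : ∀ s i, T.σ i b * ∏ j ∈ Finset.univ.erase i, T.x s j z =
      T.ev (S := F) s a * algebraMap L Ω w * T.x (1 - s) i z := by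
    intro s i
    have h1 := congrArg (T.x s i) (sub_eq_zero.mp hB)
    rw [T.x_mulVec, T.x_coords, T.x_adjugate] at h1
    rw [h1]
    have h2 := T.x_mul_left s i (QA.map p q (Algebra.ofId F L) a * algebraMap L (QA p q L) w)
      (fun i => star (z i))
    rw [map_mul, T.ev_map, T.ev_algebraMap, T.x_star] at h2
    exact h2
  by_cases hw : w = 0
  · have hz : z ≠ 0 := hzw.resolve_right (fun h => h hw)
    rw [hw] at hA' hB'
    simp only [map_zero, mul_zero, zero_mul, ne_eq, OfNat.ofNat_ne_zero, not_false_eq_true,
      zero_pow] at hA' hB'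
    obtain ⟨s₀, i₀, hsi⟩ : ∃ s i, T.x s i z ≠ 0 := by
      by_contra hcon
      push Not at hcon
      apply hz
      apply T.x_ext hinj
      intro s i
      rw [hcon]
      exact (cd_zero _ _).symm
    -- at most one coordinate for each `s`
    have hone : ∀ s i j, i ≠ j → T.x s i z ≠ 0 → T.x s j z = 0 := by
      intro s i j hij hi
      obtain ⟨l, hl⟩ : ∃ l : Fin 3, Finset.univ.erase l = {i, j} := by
        fin_cases i <;> fin_cases j <;> first | exact absurd rfl hij | skip
        · exact ⟨2, by decide⟩
        · exact ⟨1, by decide⟩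
        · exact ⟨2, by decide⟩
        · exact ⟨0, by decide⟩
        · exact ⟨1, by decide⟩
        · exact ⟨0, by decide⟩
      have h1 := hB' s l
      rw [hl, Finset.prod_pair hij] at h1
      rcases mul_eq_zero.mp h1 with h2 | h2
      · exact absurd h2 (hbi l)
      · exact (mul_eq_zero.mp h2).resolve_left hi
    by_cases hroot : ∃ r : L, r ^ 2 = algebraMap F L p + algebraMap F L q * r
    · -- the split case
      obtain ⟨ρ, hρ⟩ : ∃ ρ : Fin 2 → L, ∀ s, algebraMap L Ω (ρ s) = T.r s := by
        obtain ⟨r, hr⟩ := hroot
        have h1 := congrArg (algebraMap L Ω) hr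
        simp only [map_add, map_mul, map_pow, ← IsScalarTower.algebraMap_apply] at h1
        have h2 : (algebraMap L Ω r - T.r 0) * (algebraMap L Ω r - T.r 1) = 0 := by
          linear_combination h1 - (algebraMap L Ω r) * T.sum_r + T.mul_r
        have hsum := T.sum_r
        rcases mul_eq_zero.mp h2 with h3 | h3
        · refine ⟨![r, algebraMap F L q - r], fun s => ?_⟩
          fin_cases s
          · exact sub_eq_zero.mp h3
          · change algebraMap L Ω (algebraMap F L q - r) = T.r 1
            rw [map_sub, ← IsScalarTower.algebraMap_apply]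
            linear_combination -hsum - h3
        · refine ⟨![algebraMap F L q - r, r], fun s => ?_⟩
          fin_cases s
          · change algebraMap L Ω (algebraMap F L q - r) = T.r 0
            rw [map_sub, ← IsScalarTower.algebraMap_apply]
            linear_combination -hsum - h3
          · exact sub_eq_zero.mp h3
      -- the component
      set zs : Fin 3 → L := fun j => (z j).re + ρ s₀ * (z j).im with hzs
      have hzsi : ∀ i, cd bM g (T.σ i) zs = T.x s₀ i z := by
        intro i
        simp only [SixFrame.x, cd, SixFrame.ev_apply, hzs, map_add, map_mul, hg, hρ]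
      set c : L := (mulMat bM zs).trace with hc
      have hci : algebraMap L Ω c = T.x s₀ i₀ z := by
        rw [hc, ← hg, map_trace_mulMat g T.det_ne, Finset.sum_eq_single i₀]
        · exact hzsi i₀
        · intro j _ hj
          rw [hzsi]
          exact hone s₀ i₀ j hj.symm hsi
        · intro h
          exact absurd (Finset.mem_univ _) h
      have hc0 : algebraMap L Ω c ≠ 0 := by
        rw [hci]
        exact hsi
      set ε : Fin 3 → L := c⁻¹ • zs with hε
      have hεi : ∀ i, cd bM g (T.σ i) ε = if i = i₀ then 1 else 0 := by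
        intro i
        rw [hε, cd_smul, hzsi, hg, map_inv₀]
        split_ifs with h1
        · rw [h1, ← hci, inv_mul_cancel₀ hc0]
        · rw [hone s₀ i₀ i (Ne.symm h1) hsi, mul_zero]
      set as : L := (QA.map p q (Algebra.ofId F L) a).re +
        ρ s₀ * (QA.map p q (Algebra.ofId F L) a).im with has
      have hasi : algebraMap L Ω as = T.ev (S := F) s₀ a := by
        rw [← T.ev_map (S := L), T.ev_apply, has, map_add, map_mul, hρ]
      set y₁ : Fin 3 → L := as • ε + (coords bM L 1 - ε) with hy₁
      set y₂ : Fin 3 → L := (mulMat bM (coords bM L b)).mulVec (as⁻¹ • ε + (coords bM L 1 - ε))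
        with hy₂
      have hy₁i : ∀ i, cd bM g (T.σ i) y₁ = if i = i₀ then T.ev (S := F) s₀ a else 1 := by
        intro i
        rw [hy₁, cd_add, cd_smul g (T.σ i) as ε, cd_sub, cd_coords, map_one, hεi, hg, hasi]
        split_ifs
        · ring
        · ring
      have hy₂i : ∀ i, cd bM g (T.σ i) y₂ =
          T.σ i b * (if i = i₀ then (T.ev (S := F) s₀ a)⁻¹ else 1) := by
        intro i
        rw [hy₂, cd_mulVec, cd_coords, cd_add, cd_smul g (T.σ i) as⁻¹ ε, cd_sub, cd_coords, map_one, hεi, hg,
          map_inv₀, hasi]
        split_ifs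
        · ring
        · ring
      set d : L := (ρ s₀ - ρ (1 - s₀))⁻¹ with hd
      have hd1 : (T.r s₀ - T.r (1 - s₀)) * algebraMap L Ω d = 1 := by
        have h1 : T.r s₀ - T.r (1 - s₀) ≠ 0 := by
          have h2 := sub_ne_zero.mpr T.r_ne
          have h3 := sub_ne_zero.mpr T.r_ne.symm
          fin_cases s₀
          · exact h2
          · exact h3
        rw [hd, map_inv₀, map_sub, hρ, hρ, mul_inv_cancel₀ h1]
      set xx : Fin 3 → QA p q L := fun j => ⟨y₁ j - ρ s₀ * d * (y₁ j - y₂ j),
        d * (y₁ j - y₂ j)⟩ with hxx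
      have hxs : ∀ i, T.x s₀ i xx = cd bM g (T.σ i) y₁ := by
        intro i
        simp only [SixFrame.x, cd, SixFrame.ev_apply, hxx, hg]
        refine Finset.sum_congr rfl fun j _ => ?_
        simp only [map_sub, map_mul, hρ]
        ring
      have hxs' : ∀ i, T.x (1 - s₀) i xx = cd bM g (T.σ i) y₂ := by
        intro i
        simp only [SixFrame.x, cd, SixFrame.ev_apply, hxx, hg]
        refine Finset.sum_congr rfl fun j _ => ?_
        simp only [map_sub, map_mul, hρ]
        linear_combination ((algebraMap L Ω (y₂ j) - algebraMap L Ω (y₁ j)) * T.σ i (bM j)) * hd1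
      have hprod₁ : ∏ i, cd bM g (T.σ i) y₁ = T.ev (S := F) s₀ a := by
        simp only [hy₁i]
        rw [Finset.prod_ite_eq' Finset.univ i₀]
        simp
      have hprod₂ : ∏ i, cd bM g (T.σ i) y₂ = T.ev (S := F) (1 - s₀) a := by
        simp only [hy₂i, Finset.prod_mul_distrib]
        rw [Finset.prod_ite_eq' Finset.univ i₀, Fin.prod_univ_three, hnorm]
        simp only [Finset.mem_univ, if_true]
        have h1 := hai s₀
        fin_cases s₀
        · simp only [Fin.zero_eta] at h1 ⊢
          field_simp
          rfl
        · simp only [Fin.mk_one] at h1 ⊢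
          field_simp
          rfl
      have hxx12 : ∀ i, cd bM g (T.σ i) y₁ * cd bM g (T.σ i) y₂ = T.σ i b := by
        intro i
        rw [hy₁i, hy₂i]
        have h1 := hai s₀
        split_ifs
        · field_simp
        · ring
      refine ⟨xx, T.isPoint (fun i => ?_) (fun s => ?_)⟩
      · fin_cases s₀
        · have e1 := hxs i
          have e2 := hxs' i
          have e3 : (1 - (⟨0, by norm_num⟩ : Fin 2)) = 1 := rfl
          rw [e3] at e2
          rw [← hxx12 i, ← e1, ← e2]
          rfl
        · have e1 := hxs i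
          have e2 := hxs' i
          have e3 : (1 - (⟨1, by norm_num⟩ : Fin 2)) = 0 := rfl
          rw [e3] at e2
          rw [← hxx12 i, ← e1, ← e2, mul_comm]
          rfl
      · have hs : s = s₀ ∨ s = 1 - s₀ := by
          revert s s₀
          intro s₀
          fin_cases s₀ <;> intros <;> rename_i s <;> fin_cases s <;> simp
        rcases hs with rfl | rfl
        · simp only [hxs]
          exact hprod₁
        · simp only [hxs']
          exact hprod₂
    · -- the field case
      push Not at hroot
      haveI hFL : Fact (∀ r : L, r ^ 2 ≠ algebraMap F L p + algebraMap F L q * r) := ⟨hroot⟩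
      set c : QA p q L := (mulMat bM z).trace with hc
      have hcsum : ∀ s, T.ev s c = ∑ i, T.x s i z := fun s => T.ev_trace s z
      have hcs₀ : T.ev s₀ c ≠ 0 := by
        rw [hcsum, Finset.sum_eq_single i₀]
        · exact hsi
        · intro j _ hj
          exact hone s₀ i₀ j hj.symm hsi
        · intro h
          exact absurd (Finset.mem_univ _) h
      have hcne : c ≠ 0 := by
        intro h
        rw [h, map_zero] at hcs₀
        exact hcs₀ rfl
      have hunit : ∀ y : QA p q L, y ≠ 0 → ∃ y', y * y' = 1 := fun y hy =>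
        ⟨y⁻¹, mul_inv_cancel₀ hy⟩
      obtain ⟨c', hc'⟩ := hunit c hcne
      have hcs : ∀ s, T.ev s c * T.ev s c' = 1 := fun s => by rw [← map_mul, hc', map_one]
      have hex : ∀ s, ∃ i, T.x s i z ≠ 0 := by
        intro s
        by_contra hcon
        push Not at hcon
        have h1 := hcs s
        rw [hcsum] at h1
        simp only [hcon, Finset.sum_const_zero, zero_mul] at h1
        exact zero_ne_one h1
      obtain ⟨i₁, hi₁⟩ := hex 0
      obtain ⟨j₁, hj₁⟩ := hex 1
      have hij : i₁ ≠ j₁ := by
        rintro rfl
        have h1 := hA' 0 i₁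
        exact (mul_ne_zero hi₁ hj₁) h1
      set ε : Fin 3 → QA p q L := fun j => c' * z j with hε
      have hε0 : ∀ i, T.x 0 i ε = if i = i₁ then 1 else 0 := by
        intro i
        rw [hε, T.x_mul_left]
        split_ifs with h1
        · rw [h1, ← hcs 0, hcsum, Finset.sum_eq_single i₁, mul_comm]
          · intro j _ hj
            exact hone 0 i₁ j hj.symm hi₁
          · intro h
            exact absurd (Finset.mem_univ _) h
        · rw [hone 0 i₁ i (Ne.symm h1) hi₁, mul_zero]
      have hε1 : ∀ i, T.x 1 i ε = if i = j₁ then 1 else 0 := by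
        intro i
        rw [hε, T.x_mul_left]
        split_ifs with h1
        · rw [h1, ← hcs 1, hcsum, Finset.sum_eq_single j₁, mul_comm]
          · intro j _ hj
            exact hone 1 j₁ j hj.symm hj₁
          · intro h
            exact absurd (Finset.mem_univ _) h
        · rw [hone 1 j₁ i (Ne.symm h1) hj₁, mul_zero]
      set β : QA p q L := (mulMat bM ((mulMat bM (coords bM (QA p q L) b)).mulVec ε)).trace with hβ
      have hβ0 : T.ev 0 β = T.σ i₁ b := by
        rw [hβ, T.ev_trace]
        simp only [T.x_mulVec, T.x_coords, hε0]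
        rw [Finset.sum_eq_single i₁]
        · simp
        · intro j _ hj
          simp [hj]
        · intro h
          exact absurd (Finset.mem_univ _) h
      have hβ1 : T.ev 1 β = T.σ j₁ b := by
        rw [hβ, T.ev_trace]
        simp only [T.x_mulVec, T.x_coords, hε1]
        rw [Finset.sum_eq_single j₁]
        · simp
        · intro j _ hj
          simp [hj]
        · intro h
          exact absurd (Finset.mem_univ _) h
      have hβne : star β ≠ 0 := by
        intro h
        have h1 := congrArg (T.ev 0) h
        rw [T.ev_star, map_zero] at h1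
        exact hbi j₁ (hβ1 ▸ h1)
      obtain ⟨β', hβ'⟩ := hunit (star β) hβne
      have hβ'0 : T.ev 0 β' = (T.σ j₁ b)⁻¹ := by
        have h1 := congrArg (T.ev 0) hβ'
        rw [map_mul, T.ev_star, map_one] at h1
        have h2 : T.ev (1 - 0) β = T.σ j₁ b := hβ1
        rw [h2] at h1
        have := hbi j₁
        field_simp
        linear_combination h1
      have hβ'1 : T.ev 1 β' = (T.σ i₁ b)⁻¹ := by
        have h1 := congrArg (T.ev 1) hβ'
        rw [map_mul, T.ev_star, map_one] at h1
        have h2 : T.ev (1 - 1) β = T.σ i₁ b := hβ0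
        rw [h2] at h1
        have := hbi i₁
        field_simp
        linear_combination h1
      set εs : Fin 3 → QA p q L := fun j => star (ε j) with hεs
      have hεs0 : ∀ i, T.x 0 i εs = if i = j₁ then 1 else 0 := by
        intro i
        rw [hεs, T.x_star]
        exact hε1 i
      have hεs1 : ∀ i, T.x 1 i εs = if i = i₁ then 1 else 0 := by
        intro i
        rw [hεs, T.x_star]
        exact hε0 i
      set xx : Fin 3 → QA p q L := ε + (mulMat bM (coords bM (QA p q L) b)).mulVec εs +
        fun j => (QA.map p q (Algebra.ofId F L) a * β') *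
          (coords bM (QA p q L) 1 - ε - εs) j with hxx
      have hxxs : ∀ s i, T.x s i xx = T.x s i ε + T.σ i b * T.x s i εs +
          T.ev (S := F) s a * T.ev s β' * (1 - T.x s i ε - T.x s i εs) := by
        intro s i
        have e1 := T.x_add s i (ε + (mulMat bM (coords bM (QA p q L) b)).mulVec εs)
          (fun j => (QA.map p q (Algebra.ofId F L) a * β') * (coords bM (QA p q L) 1 - ε - εs) j)
        have e2 := T.x_add s i ε ((mulMat bM (coords bM (QA p q L) b)).mulVec εs)
        have e3 := T.x_mul_left s i (QA.map p q (Algebra.ofId F L) a * β')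
          (coords bM (QA p q L) 1 - ε - εs)
        have e4 := T.x_sub s i (coords bM (QA p q L) 1 - ε) εs
        have e5 := T.x_sub s i (coords bM (QA p q L) 1) ε
        rw [T.x_coords, map_one] at e5
        rw [e5] at e4
        rw [e4, map_mul, T.ev_map] at e3
        rw [T.x_mulVec, T.x_coords] at e2
        rw [e2, e3] at e1
        exact e1
      have hx0 : ∀ i, T.x 0 i xx = (if i = i₁ then 1 else 0) + T.σ i b * (if i = j₁ then 1 else 0) +
          T.ev (S := F) 0 a * (T.σ j₁ b)⁻¹ *
            (1 - (if i = i₁ then 1 else 0) - (if i = j₁ then 1 else 0)) := by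
        intro i
        rw [hxxs, hε0, hεs0, hβ'0]
      have hx1 : ∀ i, T.x 1 i xx = (if i = j₁ then 1 else 0) + T.σ i b * (if i = i₁ then 1 else 0) +
          T.ev (S := F) 1 a * (T.σ i₁ b)⁻¹ *
            (1 - (if i = j₁ then 1 else 0) - (if i = i₁ then 1 else 0)) := by
        intro i
        rw [hxxs, hε1, hεs1, hβ'1]
      have b0 := hbi 0
      have b1 := hbi 1
      have b2 := hbi 2
      refine ⟨xx, T.isPoint (fun i => ?_) (fun s => ?_)⟩
      · rw [hx0, hx1]
        have hnorm' := hnorm
        fin_cases i₁ <;> fin_cases j₁ <;> first | exact absurd rfl hij | skip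
        all_goals
          fin_cases i <;> simp
        all_goals
          first
          | (field_simp; linear_combination hnorm')
          | (field_simp; linear_combination -hnorm')
      · fin_cases s
        · simp only [Fin.zero_eta, hx0, Fin.prod_univ_three]
          fin_cases i₁ <;> fin_cases j₁ <;> first | exact absurd rfl hij | skip
          all_goals
            simp
          all_goals
            field_simp
        · simp only [Fin.mk_one, hx1, Fin.prod_univ_three]
          fin_cases i₁ <;> fin_cases j₁ <;> first | exact absurd rfl hij | skip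
          all_goals
            simp
          all_goals
            field_simp
  · -- the point is in the open part
    have hw' : algebraMap L Ω w ≠ 0 := (map_ne_zero _).mpr hw
    refine ⟨fun j => algebraMap L (QA p q L) w⁻¹ * z j, T.isPoint (fun i => ?_) (fun s => ?_)⟩
    · rw [T.x_mul_left, T.x_mul_left, T.ev_algebraMap, T.ev_algebraMap, map_inv₀]
      have h1 := hA' 0 i
      have e : (1 - 0 : Fin 2) = 1 := rfl
      rw [e] at h1
      field_simp
      linear_combination h1
    · simp only [T.x_mul_left, T.ev_algebraMap, map_inv₀]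
      rw [Finset.prod_mul_distrib, Finset.prod_const, Finset.card_univ, Fintype.card_fin]
      have h1 := hB' s 0
      have h2 := hA' s 0
      have h3 := Finset.prod_erase_mul Finset.univ (fun j => T.x s j z) (Finset.mem_univ (0 : Fin 3))
      rw [← h3]
      have h4 := hbi 0
      have h5 : T.σ 0 b * ((∏ j ∈ Finset.univ.erase (0 : Fin 3), T.x s j z) * T.x s 0 z) =
          T.σ 0 b * (T.ev (S := F) s a * algebraMap L Ω w ^ 3) := by
        linear_combination T.x s 0 z * h1 + T.ev (S := F) s a * algebraMap L Ω w * h2
      have h6 := mul_left_cancel₀ h4 h5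
      rw [h6]
      field_simp

end

end Pool.Agent.Helper17.Irr
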