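import Mathlib
import Pool.Agent.Helper17.Irr.SixBoundary

/-!
# Norms of points over finite extensions
-/

set_option linter.style.haveILetI false
set_option linter.deprecated false

namespace Pool.Agent.Helper17.Irr

open IntermediateField

universe u v w x y

section

variable {F : Type u} [Field F] {p q : F}

theorem QA.re_sum {S : Type v} [CommRing S] [Algebra F S] {ι : Type*} (s : Finset ι)
    (f : ι → QA p q S) : (∑ i ∈ s, f i).re = ∑ i ∈ s, (f i).re := by
  classical
  induction s using Finset.induction_on with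
  | empty => simp
  | insert a s ha ih => rw [Finset.sum_insert ha, Finset.sum_insert ha, QuadraticAlgebra.re_add, ih]

theorem QA.im_sum {S : Type v} [CommRing S] [Algebra F S] {ι : Type*} (s : Finset ι)
    (f : ι → QA p q S) : (∑ i ∈ s, f i).im = ∑ i ∈ s, (f i).im := by
  classical
  induction s using Finset.induction_on with
  | empty => simp
  | insert a s ha ih => rw [Finset.sum_insert ha, Finset.sum_insert ha, QuadraticAlgebra.im_add, ih]

/-- Extension of scalars of a matrix representation. -/
def matExt {A : Type v} [CommRing A] [Algebra F A] {n : Type w} [Fintype n] [DecidableEq n]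
    (θ : A →ₐ[F] Matrix n n F) : QA p q A →+* Matrix n n (QA p q F) where
  toFun ξ := Matrix.of fun i j => ⟨θ ξ.re i j, θ ξ.im i j⟩
  map_one' := by
    ext i j
    · simp only [QuadraticAlgebra.re_one, map_one, Matrix.of_apply, Matrix.one_apply]
      split_ifs
      · rfl
      · rfl
    · simp only [QuadraticAlgebra.im_one, map_zero, Matrix.of_apply, Matrix.one_apply,
        Matrix.zero_apply]
      split_ifs
      · rfl
      · rfl
  map_zero' := by
    ext i j
    · simp
    · simp
  map_add' x y := by
    ext i j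
    · simp
    · simp
  map_mul' x y := by
    have hA : ∀ c : F, ∀ a : A, θ (algebraMap F A c * a) = c • θ a := fun c a => by
      rw [← Algebra.smul_def, map_smul]
    ext i j
    · rw [Matrix.mul_apply, QA.re_sum]
      simp only [QuadraticAlgebra.re_mul, map_add, Matrix.of_apply, Matrix.add_apply, mul_assoc,
        hA, map_mul, Matrix.smul_apply, smul_eq_mul, Matrix.mul_apply, Finset.mul_sum,
        ← Finset.sum_add_distrib, Algebra.algebraMap_self, RingHom.id_apply]
    · rw [Matrix.mul_apply, QA.im_sum]
      simp only [QuadraticAlgebra.im_mul, map_add, Matrix.of_apply, Matrix.add_apply, mul_assoc,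
        hA, map_mul, Matrix.smul_apply, smul_eq_mul, Matrix.mul_apply, Finset.mul_sum,
        ← Finset.sum_add_distrib, Algebra.algebraMap_self, RingHom.id_apply]

theorem matExt_apply {A : Type v} [CommRing A] [Algebra F A] {n : Type w} [Fintype n]
    [DecidableEq n] (θ : A →ₐ[F] Matrix n n F) (ξ : QA p q A) (i j : n) :
    matExt θ ξ i j = ⟨θ ξ.re i j, θ ξ.im i j⟩ := rfl

theorem matExt_mul_algebraMap {A : Type v} [CommRing A] [Algebra F A] {n : Type w} [Fintype n]
    [DecidableEq n] (θ : A →ₐ[F] Matrix n n F) (ξ : QA p q A) (c : F) (i j : n) :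
    matExt θ (ξ * algebraMap F (QA p q A) c) i j =
      matExt θ ξ i j * algebraMap F (QA p q F) c := by
  have hA : ∀ a : A, θ (a * algebraMap F A c) = c • θ a := fun a => by
    rw [mul_comm, ← Algebra.smul_def, map_smul]
  have h1 : algebraMap F (QA p q A) c = ⟨algebraMap F A c, 0⟩ := rfl
  have h2 : algebraMap F (QA p q F) c = ⟨c, 0⟩ := rfl
  rw [h1, h2, matExt_apply, matExt_apply]
  ext
  · simp [hA, mul_comm]
  · simp [hA, mul_comm]

theorem matExt_star {A : Type v} [CommRing A] [Algebra F A] {n : Type w} [Fintype n]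
    [DecidableEq n] (θ : A →ₐ[F] Matrix n n F) (ξ : QA p q A) (i j : n) :
    matExt θ (star ξ) i j = star (matExt θ ξ i j) := by
  have hA : ∀ c : F, ∀ a : A, θ (algebraMap F A c * a) = c • θ a := fun c a => by
    rw [← Algebra.smul_def, map_smul]
  rw [matExt_apply, matExt_apply]
  ext
  · simp [hA]
  · simp

theorem matExt_map {A : Type v} [CommRing A] [Algebra F A] {n : Type w} [Fintype n]
    [DecidableEq n] (θ : A →ₐ[F] Matrix n n F) (a : QA p q F) :
    matExt θ (QA.map p q (Algebra.ofId F A) a) = a • (1 : Matrix n n (QA p q F)) := by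
  ext i j
  · rw [matExt_apply]
    simp only [QA.map_re, Algebra.ofId_apply, AlgHom.commutes, Matrix.smul_apply,
      Matrix.algebraMap_matrix_apply, Matrix.one_apply, smul_eq_mul]
    split_ifs
    · simp
    · simp
  · rw [matExt_apply]
    simp only [QA.map_im, Algebra.ofId_apply, AlgHom.commutes, Matrix.smul_apply,
      Matrix.algebraMap_matrix_apply, Matrix.one_apply, smul_eq_mul]
    split_ifs
    · simp
    · simp

end

section

variable {F : Type u} [Field F] {M : Type v} [CommRing M] [Algebra F M]
  (bM : Module.Basis (Fin 3) F M) {p q : F}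

/-- The coordinates of an element of `E ⊗ M`. -/
noncomputable def vecF (y : QA p q M) : Fin 3 → QA p q F :=
  fun i => ⟨bM.repr y.re i, bM.repr y.im i⟩

variable {bM}

theorem matExt_leftMul (y : QA p q M) :
    matExt (Algebra.leftMulMatrix bM) y = mulMat bM (vecF bM y) := by
  have h1 : ∀ m : M, Algebra.leftMulMatrix bM m =
      ∑ k, bM.repr m k • Algebra.leftMulMatrix bM (bM k) := by
    intro m
    conv_lhs => rw [← bM.sum_repr m]
    rw [map_sum]
    simp only [map_smul]
  have hb : ∀ c : F, algebraMap F (QA p q F) c = ⟨c, 0⟩ := fun c => rfl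
  ext i j
  · rw [matExt_apply, mulMat, Matrix.sum_apply, QA.re_sum]
    simp only [Matrix.smul_apply, Matrix.map_apply, smul_eq_mul, hb, QuadraticAlgebra.re_mul,
      mul_zero, add_zero, vecF]
    rw [h1 y.re, Matrix.sum_apply]
    simp only [Matrix.smul_apply, smul_eq_mul]
  · rw [matExt_apply, mulMat, Matrix.sum_apply, QA.im_sum]
    simp only [Matrix.smul_apply, Matrix.map_apply, smul_eq_mul, hb, QuadraticAlgebra.im_mul,
      mul_zero, add_zero, zero_add, vecF]
    rw [h1 y.im, Matrix.sum_apply]
    simp only [Matrix.smul_apply, smul_eq_mul]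

/-- The norm from `E ⊗ M` to `E`. -/
noncomputable def nrm (bM : Module.Basis (Fin 3) F M) (y : QA p q M) : QA p q F :=
  (matExt (Algebra.leftMulMatrix bM) y).det

theorem nrm_mul (y y' : QA p q M) : nrm bM (y * y') = nrm bM y * nrm bM y' := by
  rw [nrm, map_mul, Matrix.det_mul]
  rfl

theorem QA.map_ofId_star (ξ : QA p q F) :
    QA.map p q (Algebra.ofId F M) (star ξ) = star (QA.map p q (Algebra.ofId F M) ξ) := by
  have e1 : (QA.map p q (Algebra.ofId F M) ξ).re = algebraMap F M ξ.re := rfl
  have e2 : (QA.map p q (Algebra.ofId F M) ξ).im = algebraMap F M ξ.im := rfl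
  refine QuadraticAlgebra.ext ?_ ?_
  · rw [QuadraticAlgebra.re_star, e1, e2]
    change algebraMap F M (star ξ).re = _
    rw [QuadraticAlgebra.re_star, map_add, map_mul]
    rfl
  · rw [QuadraticAlgebra.im_star, e2]
    change algebraMap F M (star ξ).im = _
    rw [QuadraticAlgebra.im_star, map_neg]

theorem QA.ofId_algebraMap_mul (c : F) (m : M) :
    QA.map p q (Algebra.ofId F M) (algebraMap F (QA p q F) c) * algebraMap M (QA p q M) m =
      algebraMap M (QA p q M) (c • m) := by
  have e1 : QA.map p q (Algebra.ofId F M) (algebraMap F (QA p q F) c) =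
      algebraMap M (QA p q M) (algebraMap F M c) := by
    refine QuadraticAlgebra.ext rfl ?_
    change algebraMap F M 0 = 0
    exact map_zero _
  rw [e1, Algebra.smul_def]
  exact ((algebraMap M (QA p q M)).map_mul _ _).symm

section

variable {L : Type w} [Field L] [Algebra F L] {n : Type} [Fintype n] [DecidableEq n]
  (B : Module.Basis n F L)

/-- The matrix over `E ⊗ M` of the multiplication by an element of `E ⊗ M ⊗ L`. -/
noncomputable def wMat (bM : Module.Basis (Fin 3) F M) (x : Fin 3 → QA p q L) :
    Matrix n n (QA p q M) :=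
  Matrix.of fun i j => ∑ k, QA.map p q (Algebra.ofId F M)
    (matExt (Algebra.leftMulMatrix B) (x k) i j) * algebraMap M (QA p q M) (bM k)

theorem wMat_star (x : Fin 3 → QA p q L) :
    wMat B bM (fun j => star (x j)) = (wMat B bM x).map (starRingEnd (QA p q M)) := by
  refine Matrix.ext fun i j => ?_
  simp only [wMat, Matrix.of_apply, Matrix.map_apply, map_sum, map_mul]
  refine Finset.sum_congr rfl fun k _ => ?_
  rw [matExt_star, starRingEnd_apply, starRingEnd_apply]
  have h1 : ∀ m : M, star (algebraMap M (QA p q M) m) = algebraMap M (QA p q M) m := by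
    intro m
    have hb : algebraMap M (QA p q M) m = ⟨m, 0⟩ := rfl
    rw [hb]
    exact QuadraticAlgebra.ext (by simp) (by simp)
  rw [h1, QA.map_ofId_star]

theorem wMat_coords (m : M) :
    wMat B bM (coords bM (QA p q L) m) = (algebraMap M (QA p q M) m) • (1 : Matrix n n (QA p q M)) := by
  refine Matrix.ext fun i j => ?_
  have h1 : ∀ k, matExt (Algebra.leftMulMatrix B) (coords bM (QA p q L) m k) i j =
      algebraMap F (QA p q F) (bM.repr m k) * (1 : Matrix n n (QA p q F)) i j := by
    intro k
    have h2 := matExt_mul_algebraMap (Algebra.leftMulMatrix B) (1 : QA p q L) (bM.repr m k) i j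
    rw [one_mul, map_one] at h2
    rw [mul_comm]
    exact h2
  simp only [wMat, Matrix.of_apply, h1, Matrix.smul_apply, smul_eq_mul, Matrix.one_apply]
  split_ifs
  · simp only [mul_one]
    have h3 : ∀ k, QA.map p q (Algebra.ofId F M) (algebraMap F (QA p q F) (bM.repr m k)) *
        algebraMap M (QA p q M) (bM k) = algebraMap M (QA p q M) (bM.repr m k • bM k) := by
      intro k
      exact QA.ofId_algebraMap_mul _ _
    simp only [h3]
    rw [← map_sum, bM.sum_repr]
  · simp

theorem wMat_mul (x x' : Fin 3 → QA p q L) :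
    wMat B bM ((mulMat bM x).mulVec x') = wMat B bM x * wMat B bM x' := by
  refine Matrix.ext fun i j => ?_
  set ι := QA.map p q (Algebra.ofId F M) with hι
  set α := algebraMap M (QA p q M) with hα
  set R := matExt (p := p) (q := q) (Algebra.leftMulMatrix B) with hR
  -- the left-hand side
  have h1 : ∀ c, R ((mulMat bM x).mulVec x' c) i j = ∑ k', ∑ k, R (x k * x' k') i j *
      algebraMap F (QA p q F) (Algebra.leftMulMatrix bM (bM k) c k') := by
    intro c
    have e1 : (mulMat bM x).mulVec x' c = ∑ k', ∑ k, (x k * x' k') *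
        algebraMap F (QA p q L) (Algebra.leftMulMatrix bM (bM k) c k') := by
      simp only [Matrix.mulVec, dotProduct, mulMat, Matrix.sum_apply, Matrix.smul_apply,
        Matrix.map_apply, smul_eq_mul, Finset.sum_mul]
      refine Finset.sum_congr rfl fun k' _ => Finset.sum_congr rfl fun k _ => ?_
      ring
    rw [e1, map_sum, Matrix.sum_apply]
    refine Finset.sum_congr rfl fun k' _ => ?_
    rw [map_sum, Matrix.sum_apply]
    exact Finset.sum_congr rfl fun k _ => matExt_mul_algebraMap _ _ _ _ _
  have h2 : ∀ k k', α (bM k) * α (bM k') = ∑ c, ι (algebraMap F (QA p q F)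
      (Algebra.leftMulMatrix bM (bM k) c k')) * α (bM c) := by
    intro k k'
    have e1 : ∀ c, ι (algebraMap F (QA p q F) (Algebra.leftMulMatrix bM (bM k) c k')) * α (bM c) =
        α (bM.repr (bM k * bM k') c • bM c) := by
      intro c
      rw [Algebra.leftMulMatrix_eq_repr_mul]
      exact QA.ofId_algebraMap_mul _ _
    simp only [e1]
    rw [← map_sum, bM.sum_repr]
    exact ((algebraMap M (QA p q M)).map_mul _ _).symm
  have h3 : ∀ k k', ∑ l, ι (R (x k) i l) * ι (R (x' k') l j) = ι (R (x k * x' k') i j) := by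
    intro k k'
    rw [map_mul, Matrix.mul_apply, map_sum]
    simp only [map_mul]
  have lhs : wMat B bM ((mulMat bM x).mulVec x') i j = ∑ c, ∑ k', ∑ k, ι (R (x k * x' k') i j) *
      (ι (algebraMap F (QA p q F) (Algebra.leftMulMatrix bM (bM k) c k')) * α (bM c)) := by
    simp only [wMat, Matrix.of_apply]
    refine Finset.sum_congr rfl fun c _ => ?_
    rw [← hR, h1 c, map_sum, Finset.sum_mul]
    refine Finset.sum_congr rfl fun k' _ => ?_
    rw [map_sum, Finset.sum_mul]
    refine Finset.sum_congr rfl fun k _ => ?_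
    rw [map_mul, mul_assoc]
  have rhs : (wMat B bM x * wMat B bM x') i j = ∑ k, ∑ k', ι (R (x k * x' k') i j) *
      (α (bM k) * α (bM k')) := by
    simp only [Matrix.mul_apply, wMat, Matrix.of_apply, Finset.sum_mul_sum]
    rw [Finset.sum_comm]
    refine Finset.sum_congr rfl fun k _ => ?_
    rw [Finset.sum_comm]
    refine Finset.sum_congr rfl fun k' _ => ?_
    rw [← h3 k k', Finset.sum_mul]
    refine Finset.sum_congr rfl fun l _ => ?_
    ring
  rw [lhs, rhs]
  have e2 : ∀ k k', ι (R (x k * x' k') i j) * (α (bM k) * α (bM k')) =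
      ∑ c, ι (R (x k * x' k') i j) *
      (ι (algebraMap F (QA p q F) (Algebra.leftMulMatrix bM (bM k) c k')) * α (bM c)) := by
    intro k k'
    rw [h2, Finset.mul_sum]
  simp only [e2]
  calc ∑ c, ∑ k', ∑ k, ι (R (x k * x' k') i j) *
      (ι (algebraMap F (QA p q F) (Algebra.leftMulMatrix bM (bM k) c k')) * α (bM c))
      = ∑ c, ∑ k, ∑ k', ι (R (x k * x' k') i j) *
      (ι (algebraMap F (QA p q F) (Algebra.leftMulMatrix bM (bM k) c k')) * α (bM c)) :=
        Finset.sum_congr rfl fun c _ => Finset.sum_comm
    _ = ∑ k, ∑ c, ∑ k', ι (R (x k * x' k') i j) *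
      (ι (algebraMap F (QA p q F) (Algebra.leftMulMatrix bM (bM k) c k')) * α (bM c)) :=
        Finset.sum_comm
    _ = _ := Finset.sum_congr rfl fun k _ => Finset.sum_comm

include B in
/-- The norm of a point over a finite extension. -/
theorem exists_norm_point {a : QA p q F} {b : M} (x : Fin 3 → QA p q L)
    (h₁ : (mulMat bM x).mulVec (fun j => star (x j)) = coords bM (QA p q L) b)
    (h₂ : (mulMat bM x).det = QA.map p q (Algebra.ofId F L) a) :
    ∃ y : QA p q M, y * star y = algebraMap M (QA p q M) b ^ Fintype.card n ∧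
      nrm bM y = a ^ Fintype.card n := by
  refine ⟨(wMat B bM x).det, ?_, ?_⟩
  · have h3 : star (wMat B bM x).det = (wMat B bM (fun j => star (x j))).det := by
      rw [wMat_star]
      exact RingHom.map_det (starRingEnd (QA p q M)) (wMat B bM x)
    rw [h3, ← Matrix.det_mul, ← wMat_mul, h₁, wMat_coords, Matrix.det_smul, Matrix.det_one,
      mul_one]
  · have h3 := Matrix.det_det (wMat B bM x) (matExt (Algebra.leftMulMatrix bM))
    have h4 := Matrix.det_det (mulMat bM x) (matExt (p := p) (q := q) (Algebra.leftMulMatrix B))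
    rw [nrm, h3]
    rw [h₂, matExt_map, Matrix.det_smul, Matrix.det_one, mul_one] at h4
    rw [h4, ← Matrix.det_reindex_self (Equiv.prodComm n (Fin 3))]
    congr 1
    refine Matrix.ext fun ci cj => ?_
    obtain ⟨c, i⟩ := ci
    obtain ⟨c', j⟩ := cj
    simp only [Matrix.reindex_apply, Matrix.submatrix_apply, Matrix.comp_apply, Matrix.map_apply,
      Equiv.prodComm_symm, Equiv.prodComm_apply, Prod.swap_prod_mk]
    have e1 : mulMat bM x c c' = ∑ k, x k *
        algebraMap F (QA p q L) (Algebra.leftMulMatrix bM (bM k) c c') := by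
      simp only [mulMat, Matrix.sum_apply, Matrix.smul_apply, Matrix.map_apply, smul_eq_mul]
    rw [e1, map_sum, Matrix.sum_apply]
    simp only [matExt_mul_algebraMap]
    simp only [wMat, Matrix.of_apply]
    rw [map_sum, Matrix.sum_apply]
    refine Finset.sum_congr rfl fun k _ => ?_
    rw [map_mul, matExt_map, Matrix.smul_mul, Matrix.one_mul, Matrix.smul_apply, smul_eq_mul]
    congr 1
    have hb : algebraMap M (QA p q M) (bM k) = ⟨bM k, 0⟩ := rfl
    rw [hb, matExt_apply]
    ext
    · rfl
    · simp only [map_zero, Matrix.zero_apply]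
      rfl

end

end

end Pool.Agent.Helper17.Irr
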