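import Mathlib
import Pool.Agent.Helper17.Irr.SixNorm

/-!
# The group of classes of torsors
-/

set_option linter.style.haveILetI false
set_option linter.deprecated false

namespace Pool.Agent.Helper17.Irr

open IntermediateField

universe u v w x y

section

variable {F : Type u} [Field F] {M : Type v} [CommRing M] [Algebra F M]
  {bM : Module.Basis (Fin 3) F M} {p q : F}

namespace SixFrame

variable {Ω : Type w} [Field Ω] [Algebra F Ω] (T : SixFrame bM p q Ω)

/-- The homomorphisms from `E ⊗ M`. -/
noncomputable def pe (s : Fin 2) (i : Fin 3) : QA p q M →+* Ω where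
  toFun y := T.σ i y.re + T.r s * T.σ i y.im
  map_one' := by simp [QuadraticAlgebra.re_one, QuadraticAlgebra.im_one]
  map_zero' := by simp
  map_add' z w := by
    simp only [QuadraticAlgebra.re_add, QuadraticAlgebra.im_add, map_add]
    ring
  map_mul' z w := by
    have h1 := T.r_sq s
    simp only [QuadraticAlgebra.re_mul, QuadraticAlgebra.im_mul, map_add, map_mul,
      AlgHom.commutes]
    linear_combination (-(T.σ i z.im * T.σ i w.im)) * h1

theorem pe_apply (s : Fin 2) (i : Fin 3) (y : QA p q M) :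
    T.pe s i y = T.σ i y.re + T.r s * T.σ i y.im := rfl

theorem pe_star (s : Fin 2) (i : Fin 3) (y : QA p q M) : T.pe s i (star y) = T.pe (1 - s) i y := by
  have h1 := T.sum_r
  fin_cases s
  · simp only [pe_apply, QuadraticAlgebra.re_star, QuadraticAlgebra.im_star, map_add, map_mul,
      map_neg, AlgHom.commutes, Fin.zero_eta, sub_zero]
    linear_combination (-(T.σ i y.im)) * h1
  · simp only [pe_apply, QuadraticAlgebra.re_star, QuadraticAlgebra.im_star, map_add, map_mul,
      map_neg, AlgHom.commutes, Fin.mk_one, sub_self]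
    linear_combination (-(T.σ i y.im)) * h1

theorem pe_algebraMap (s : Fin 2) (i : Fin 3) (m : M) :
    T.pe s i (algebraMap M (QA p q M) m) = T.σ i m := by
  have hb : algebraMap M (QA p q M) m = ⟨m, 0⟩ := rfl
  rw [hb, pe_apply]
  simp

theorem pe_map (s : Fin 2) (i : Fin 3) (e : QA p q F) :
    T.pe s i (QA.map p q (Algebra.ofId F M) e) = T.ev (S := F) s e := by
  rw [pe_apply, ev_apply, QA.map_re, QA.map_im, Algebra.ofId_apply, Algebra.ofId_apply,
    AlgHom.commutes, AlgHom.commutes]

theorem x_vecF {S : Type x} [CommRing S] [Algebra F S] [Algebra S Ω] [IsScalarTower F S Ω]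
    (s : Fin 2) (i : Fin 3) (y : QA p q M) :
    T.x s i (fun j => QA.map p q (Algebra.ofId F S) (vecF bM y j)) = T.pe s i y := by
  have h0 : T.x s i (fun j => QA.map p q (Algebra.ofId F S) (vecF bM y j)) =
      ∑ j, T.ev (S := F) s (vecF bM y j) * T.σ i (bM j) := by
    rw [x, cd]
    exact Finset.sum_congr rfl fun j _ => by rw [T.ev_map]
  rw [h0]
  simp only [ev_apply, vecF, pe_apply]
  conv_rhs => rw [← bM.sum_repr y.re, ← bM.sum_repr y.im]
  rw [map_sum, map_sum, Finset.mul_sum, ← Finset.sum_add_distrib]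
  refine Finset.sum_congr rfl fun j _ => ?_
  rw [map_smul, map_smul, Algebra.smul_def, Algebra.smul_def]
  ring

theorem x_vecF_self (s : Fin 2) (i : Fin 3) (y : QA p q M) :
    T.x (S := F) s i (vecF bM y) = T.pe s i y := by
  rw [← T.x_vecF (S := F)]
  simp only [x, cd, ev_map]

theorem prod_pe (s : Fin 2) (y : QA p q M) :
    ∏ i, T.pe s i y = T.ev (S := F) s (nrm bM y) := by
  rw [nrm, matExt_leftMul, T.ev_det]
  simp only [x_vecF_self]

theorem pe_ext {y y' : QA p q M} (h : ∀ s i, T.pe s i y = T.pe s i y') : y = y' := by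
  have h1 : vecF bM y = vecF bM y' := by
    apply T.x_ext (algebraMap F Ω).injective
    intro s i
    rw [x_vecF_self, x_vecF_self, h]
  refine QuadraticAlgebra.ext ?_ ?_
  · apply bM.repr.injective
    ext j
    exact congrArg QuadraticAlgebra.re (congrFun h1 j)
  · apply bM.repr.injective
    ext j
    exact congrArg QuadraticAlgebra.im (congrFun h1 j)

include T in
theorem nrm_star (y : QA p q M) : nrm bM (star y) = star (nrm bM y) := by
  apply T.ev_ext (algebraMap F Ω).injective
  intro s
  rw [← T.prod_pe, T.ev_star, ← T.prod_pe]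
  simp only [pe_star]

include T in
theorem nrm_algebraMap (m : M) :
    nrm bM (algebraMap M (QA p q M) m) = algebraMap F (QA p q F) (Algebra.norm F m) := by
  apply T.ev_ext (algebraMap F Ω).injective
  intro s
  rw [← T.prod_pe, T.ev_algebraMap, T.norm_b]
  simp only [pe_algebraMap]

include T in
theorem nrm_map (e : QA p q F) : nrm bM (QA.map p q (Algebra.ofId F M) e) = e ^ 3 := by
  apply T.ev_ext (algebraMap F Ω).injective
  intro s
  rw [← T.prod_pe, map_pow]
  simp only [pe_map, Finset.prod_const, Finset.card_univ, Fintype.card_fin]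

end SixFrame

theorem nrm_one : nrm bM (1 : QA p q M) = 1 := by
  simp [nrm]

/-- Multiplication of a generic point by an element of `E ⊗ M`. -/
theorem IsTorGeneric.twist {a : QA p q F} {b : M} {K : Type w} [Field K] [Algebra F K]
    {z : Fin 3 → QA p q K} (h : IsTorGeneric bM a b K z) {Ω : Type w} [Field Ω] [Algebra F Ω]
    [Algebra K Ω] [IsScalarTower F K Ω] (T : SixFrame bM p q Ω) {y y' : QA p q M}
    (hy : y * y' = 1) :
    IsTorGeneric bM (a * nrm bM y) (b * QuadraticAlgebra.norm y) K
      ((mulMat bM (fun i => QA.map p q (Algebra.ofId F K) (vecF bM y i))).mulVec z) where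
  trdeg := h.trdeg
  gen := by
    intro k hk
    apply h.gen
    have h1 : z = (mulMat bM (fun i => QA.map p q (Algebra.ofId F K) (vecF bM y' i))).mulVec
        ((mulMat bM (fun i => QA.map p q (Algebra.ofId F K) (vecF bM y i))).mulVec z) := by
      apply T.x_ext (algebraMap K Ω).injective
      intro s i
      rw [T.x_mulVec, T.x_mulVec, T.x_vecF, T.x_vecF, ← mul_assoc, ← map_mul, mul_comm y' y, hy,
        map_one, one_mul]
    intro j
    rw [h1]
    refine mem_qSub.mp (mulVec_mem (qSub k) (fun j => ?_) hk j)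
    exact ⟨IntermediateField.algebraMap_mem _ _, IntermediateField.algebraMap_mem _ _⟩
  conj := by
    apply T.x_ext (algebraMap K Ω).injective
    intro s i
    have h1 := h.x_mul T s i
    have h2 : T.σ i (QuadraticAlgebra.norm y) = T.pe s i y * T.pe (1 - s) i y := by
      rw [← T.pe_algebraMap s i, QuadraticAlgebra.algebraMap_norm_eq_mul_star, map_mul, T.pe_star]
    rw [T.x_mulVec, T.x_star, T.x_mulVec, T.x_mulVec, T.x_vecF, T.x_vecF, T.x_coords, map_mul, h2,
      ← h1]
    ring
  det := by
    apply T.ev_ext (algebraMap K Ω).injective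
    intro s
    have h1 := h.x_prod T s
    rw [T.ev_det, T.ev_map, map_mul, ← T.prod_pe, ← h1, ← Finset.prod_mul_distrib]
    refine Finset.prod_congr rfl fun i _ => ?_
    rw [T.x_mulVec, T.x_vecF, mul_comm]

theorem IsTorGeneric.norm_eq {a : QA p q F} {b : M} {K : Type w} [Field K] [Algebra F K]
    {z : Fin 3 → QA p q K} (h : IsTorGeneric bM a b K z) {Ω : Type w} [Field Ω] [Algebra F Ω]
    [Algebra K Ω] [IsScalarTower F K Ω] (T : SixFrame bM p q Ω) :
    Algebra.norm F b = QuadraticAlgebra.norm a := by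
  apply (algebraMap F Ω).injective
  rw [T.norm_b, T.algebraMap_norm, ← h.x_prod T 0, ← h.x_prod T 1, ← Finset.prod_mul_distrib]
  refine Finset.prod_congr rfl fun i _ => ?_
  rw [← h.x_mul T 0 i]
  rfl

/-! ### The group of classes -/

/-- The norm as a homomorphism. -/
noncomputable def nrmHom (bM : Module.Basis (Fin 3) F M) : QA p q M →* QA p q F where
  toFun := nrm bM
  map_one' := nrm_one
  map_mul' := nrm_mul

/-- The homomorphism `y ↦ (N(y), y ȳ)`. -/
noncomputable def torHom (bM : Module.Basis (Fin 3) F M) : (QA p q M)ˣ →* (QA p q F)ˣ × Mˣ :=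
  (Units.map (nrmHom bM)).prod (Units.map QuadraticAlgebra.norm)

theorem pow_gcd_mem {G : Type*} [Group G] (H : Subgroup G) (g : G) (m n : ℕ) (hm : g ^ m ∈ H)
    (hn : g ^ n ∈ H) : g ^ Nat.gcd m n ∈ H := by
  have h1 : g ^ Nat.gcd m n = (g ^ m) ^ Nat.gcdA m n * (g ^ n) ^ Nat.gcdB m n := by
    rw [← zpow_natCast g m, ← zpow_natCast g n, ← zpow_mul, ← zpow_mul, ← zpow_add,
      ← zpow_natCast, Nat.gcd_eq_gcd_ab]
  rw [h1]
  exact mul_mem (Subgroup.zpow_mem _ hm _) (Subgroup.zpow_mem _ hn _)

/-- The class of `(a, b)` is killed by `n`. -/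
def TorPow (bM : Module.Basis (Fin 3) F M) (a : QA p q F) (b : M) (n : ℕ) : Prop :=
  ∃ y : QA p q M, y * star y = algebraMap M (QA p q M) b ^ n ∧ nrm bM y = a ^ n

theorem algebraMap_QA_injective : Function.Injective (algebraMap M (QA p q M)) := fun _ _ h =>
  congrArg QuadraticAlgebra.re h

theorem TorPow.norm_eq {b : M} {n : ℕ} {y : QA p q M}
    (hy : y * star y = algebraMap M (QA p q M) b ^ n) : QuadraticAlgebra.norm y = b ^ n := by
  apply algebraMap_QA_injective (p := p) (q := q)
  rw [QuadraticAlgebra.algebraMap_norm_eq_mul_star, hy, map_pow]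

theorem torPow_iff (ua : (QA p q F)ˣ) (ub : Mˣ) (n : ℕ) :
    TorPow bM (ua : QA p q F) (ub : M) n ↔ (ua, ub) ^ n ∈ (torHom (p := p) (q := q) bM).range := by
  constructor
  · rintro ⟨y, hy₁, hy₂⟩
    have h1 := TorPow.norm_eq hy₁
    have h2 : IsUnit y := by
      rw [QuadraticAlgebra.isUnit_iff_norm_isUnit, h1]
      exact ub.isUnit.pow n
    refine ⟨h2.unit, ?_⟩
    refine Prod.ext ?_ ?_
    · exact Units.ext hy₂
    · exact Units.ext h1
  · rintro ⟨y, hy⟩
    have h1 := congrArg (fun g : (QA p q F)ˣ × Mˣ => (g.1 : QA p q F)) hy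
    have h2 := congrArg (fun g : (QA p q F)ˣ × Mˣ => (g.2 : M)) hy
    refine ⟨y, ?_, h1⟩
    rw [← QuadraticAlgebra.algebraMap_norm_eq_mul_star, ← map_pow]
    exact congrArg _ h2

theorem TorPow.gcd {a : QA p q F} {b : M} (ha : IsUnit a) (hb : IsUnit b) {m n : ℕ}
    (hm : TorPow bM a b m) (hn : TorPow bM a b n) : TorPow bM a b (Nat.gcd m n) := by
  obtain ⟨ua, rfl⟩ := ha
  obtain ⟨ub, rfl⟩ := hb
  rw [torPow_iff] at hm hn ⊢
  exact pow_gcd_mem _ _ _ _ hm hn

theorem star_algebraMap_QA {S : Type v} [CommRing S] [Algebra F S] (m : S) :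
    star (algebraMap S (QA p q S) m) = algebraMap S (QA p q S) m := by
  have hb : algebraMap S (QA p q S) m = ⟨m, 0⟩ := rfl
  rw [hb]
  exact QuadraticAlgebra.ext (by simp) (by simp)

/-- Every class is killed by six. -/
theorem torPow_six {a : QA p q F} {b : M} (ha : IsUnit a)
    (hab : Algebra.norm F b = QuadraticAlgebra.norm a)
    {Ω : Type x} [Field Ω] [Algebra F Ω] (T : SixFrame bM p q Ω) : TorPow bM a b 6 := by
  obtain ⟨a', ha'⟩ := ha.exists_right_inv
  have hs : star a * star a' = 1 := by
    rw [← star_mul, mul_comm, ha', star_one]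
  refine ⟨algebraMap M (QA p q M) b ^ 3 * QA.map p q (Algebra.ofId F M) (a * star a'), ?_, ?_⟩
  · have h1 : QA.map p q (Algebra.ofId F M) (a * star a') *
        QA.map p q (Algebra.ofId F M) (star (a * star a')) = 1 := by
      rw [← map_mul, star_mul, star_star]
      have h2 : a * star a' * (a' * star a) = 1 := by
        linear_combination (star a * star a') * ha' + hs
      rw [h2, map_one]
    rw [star_mul, star_pow, star_algebraMap_QA, ← QA.map_ofId_star]
    linear_combination (algebraMap M (QA p q M) b ^ 6) * h1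
  · have h1 : algebraMap F (QA p q F) (Algebra.norm F b) = a * star a := by
      rw [hab, QuadraticAlgebra.algebraMap_norm_eq_mul_star]
    have h2 : nrm bM (algebraMap M (QA p q M) b ^ 3) =
        nrm bM (algebraMap M (QA p q M) b) ^ 3 := map_pow (nrmHom (p := p) (q := q) bM) _ 3
    rw [nrm_mul, h2, T.nrm_algebraMap, T.nrm_map, h1]
    have h3 : (star a * star a') ^ 3 = 1 := by rw [hs, one_pow]
    linear_combination (a ^ 6) * h3

/-! ### Hilbert's Theorem 90 -/

/-- In a reduced Artinian ring every element divides itself twice. -/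
theorem exists_sq_mul_eq [IsArtinianRing M] [IsReduced M] (n : M) : ∃ m : M, n ^ 2 * m = n := by
  obtain ⟨k, c, hc⟩ := IsArtinian.exists_pow_succ_smul_dvd n (1 : M)
  refine ⟨c, ?_⟩
  have h1 : n ^ k * (1 - n * c) = 0 := by
    simp only [smul_eq_mul, mul_one, Nat.succ_eq_add_one] at hc
    linear_combination -hc
  have h2 : (n * (1 - n * c)) ^ (k + 1) = 0 := by
    rw [mul_pow, pow_succ n, pow_succ (1 - n * c)]
    linear_combination (n * (1 - n * c) ^ k) * h1
  have h3 : n * (1 - n * c) = 0 := eq_zero_of_pow_eq_zero h2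
  linear_combination -h3

/-- Hilbert's Theorem 90 for the quadratic algebra `E ⊗ M` over `M`. -/
theorem hilbert90 (hpq : q ^ 2 + 4 * p ≠ 0) [IsArtinianRing M] [IsReduced M] {t : QA p q M}
    (ht : t * star t = 1) : ∃ x : QA p q M, IsUnit x ∧ t * star x = x := by
  set α := algebraMap M (QA p q M) with hα
  obtain ⟨m, hm⟩ := exists_sq_mul_eq (QuadraticAlgebra.norm (1 + t))
  set n := QuadraticAlgebra.norm (1 + t) with hn
  have hn1 : α n = (1 + t) * (1 + star t) := by
    rw [hn, hα, QuadraticAlgebra.algebraMap_norm_eq_mul_star, star_add, star_one]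
  have hn2 : α n = 2 + t + star t := by
    rw [hn1]
    linear_combination ht
  obtain ⟨ε, hε⟩ : ∃ ε, ε = n * m := ⟨_, rfl⟩
  have hε1 : ε * n = n := by
    rw [hε]
    linear_combination hm
  have hε2 : ε * ε = ε := by
    rw [hε]
    linear_combination m * hm
  -- the element `(1 - ε)(1 + t)` vanishes
  have hs : α (1 - ε) * (1 + t) = 0 := by
    set s := α (1 - ε) * (1 + t) with hs
    have hzero : (1 - ε) * n = 0 := by
      rw [sub_mul, one_mul, hε1, sub_self]
    have hss : s + star s = 0 := by
      have h1 : s + star s = α ((1 - ε) * n) := by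
        rw [hs, star_mul, star_add, star_one, hα, star_algebraMap_QA, ← hα, map_mul, hn2]
        ring
      rw [h1, hzero, map_zero]
    have hsn : QuadraticAlgebra.norm s = 0 := by
      rw [hs, map_mul, ← hn, hα, QuadraticAlgebra.norm_algebraMap]
      linear_combination (1 - ε) * hzero
    have hre := congrArg QuadraticAlgebra.re hss
    rw [QuadraticAlgebra.re_add, QuadraticAlgebra.re_star, QuadraticAlgebra.re_zero] at hre
    rw [QuadraticAlgebra.norm_def] at hsn
    have him : (algebraMap F M (q ^ 2 + 4 * p)) * s.im ^ 2 = 0 := by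
      rw [map_add, map_mul, map_pow, map_ofNat]
      linear_combination (2 * s.re + algebraMap F M q * s.im) * hre - 4 * hsn
    have him2 : s.im = 0 := by
      have h1 : algebraMap F M (q ^ 2 + 4 * p)⁻¹ * algebraMap F M (q ^ 2 + 4 * p) = 1 := by
        rw [← map_mul, inv_mul_cancel₀ hpq, map_one]
      have h2 : s.im ^ 2 = 0 := by
        linear_combination (-s.im ^ 2) * h1 + algebraMap F M (q ^ 2 + 4 * p)⁻¹ * him
      exact eq_zero_of_pow_eq_zero h2
    have hre2 : s.re = 0 := by
      rw [him2] at hsn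
      have h2 : s.re ^ 2 = 0 := by linear_combination hsn
      exact eq_zero_of_pow_eq_zero h2
    exact QuadraticAlgebra.ext hre2 him2
  set δ : QA p q M := ⟨-algebraMap F M q, 2⟩ with hδ
  have hδs : star δ = -δ := by
    refine QuadraticAlgebra.ext ?_ ?_
    · rw [QuadraticAlgebra.re_star, QuadraticAlgebra.re_neg, hδ]
      ring
    · rw [QuadraticAlgebra.im_star, QuadraticAlgebra.im_neg]
  have hδn : QuadraticAlgebra.norm δ = -algebraMap F M (q ^ 2 + 4 * p) := by
    rw [QuadraticAlgebra.norm_def, hδ, map_add, map_mul, map_pow, map_ofNat]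
    ring
  have hαε : α ε * α ε = α ε := by rw [← map_mul, hε2]
  have hαε' : star (α ε) = α ε := star_algebraMap_QA ε
  rw [map_sub, map_one] at hs
  refine ⟨α ε * (1 + t) + (1 - α ε) * δ, ?_, ?_⟩
  · rw [QuadraticAlgebra.isUnit_iff_norm_isUnit]
    have h1 : QuadraticAlgebra.norm (α ε * (1 + t) + (1 - α ε) * δ) =
        ε * n + (1 - ε) * QuadraticAlgebra.norm δ := by
      apply algebraMap_QA_injective (p := p) (q := q)
      rw [QuadraticAlgebra.algebraMap_norm_eq_mul_star, map_add, map_mul, map_mul, map_sub,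
        map_one, QuadraticAlgebra.algebraMap_norm_eq_mul_star δ, star_add, star_mul, star_mul,
        star_sub, star_one, ← hα, hαε', hn1, star_add, star_one]
      linear_combination ((1 + t) * (1 + star t) - (1 + t) * star δ - δ * (1 + star t) +
        δ * star δ) * hαε
    rw [h1, hδn]
    have h2 : algebraMap F M (q ^ 2 + 4 * p)⁻¹ * algebraMap F M (q ^ 2 + 4 * p) = 1 := by
      rw [← map_mul, inv_mul_cancel₀ hpq, map_one]
    refine IsUnit.of_mul_eq_one (ε * m - (1 - ε) * algebraMap F M (q ^ 2 + 4 * p)⁻¹) ?_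
    set A := algebraMap F M (q ^ 2 + 4 * p)
    set B := algebraMap F M (q ^ 2 + 4 * p)⁻¹
    have h3 : n * m = ε := hε.symm
    linear_combination (n * m + A * m + n * B + A * B) * hε2 + ε * h3 + hε2 + (1 - ε) * h2
  · rw [star_add, star_mul, star_mul, star_sub, star_one, hαε', hδs, star_add, star_one]
    linear_combination (α ε) * ht - δ * hs

theorem im_eq_zero_of_star_eq (hpq : q ^ 2 + 4 * p ≠ 0) {c : QA p q F} (hc : star c = c) :
    c.im = 0 := by
  have h1 := congrArg QuadraticAlgebra.re hc
  have h2 := congrArg QuadraticAlgebra.im hc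
  rw [QuadraticAlgebra.re_star] at h1
  rw [QuadraticAlgebra.im_star] at h2
  have h3 : c.re + q * c.im = c.re := h1
  have h4 : (q ^ 2 + 4 * p) * c.im = 0 := by linear_combination q * h3 - 2 * p * h2
  exact (mul_eq_zero.mp h4).resolve_left hpq

/-- The upper bound in terms of the order of the class. -/
theorem IsTorGeneric.irr_le_of_torPow [Algebra.Etale F M] (hpq : q ^ 2 + 4 * p ≠ 0)
    {a : QA p q F} {b : M} (ha : IsUnit a) (hb : IsUnit b)
    (hab : Algebra.norm F b = QuadraticAlgebra.norm a) {K : Type w} [Field K] [Algebra F K]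
    {z : Fin 3 → QA p q K} (h : IsTorGeneric bM a b K z) {n : ℕ} (hn : TorPow bM a b n) :
    0 < irr F K ∧ irr F K ≤ max 2 (Nat.gcd n 6) := by
  obtain ⟨T⟩ := exists_sixFrame bM p q hpq (AlgebraicClosure K)
  haveI : Module.Finite F M := Module.Finite.of_basis bM
  haveI : IsArtinianRing M := isArtinian_of_tower F inferInstance
  haveI : IsReduced M := Algebra.FormallyUnramified.isReduced_of_field F M
  have hd := hn.gcd ha hb (torPow_six ha hab T)
  have hdvd : Nat.gcd n 6 ∣ 6 := Nat.gcd_dvd_right n 6
  set d := Nat.gcd n 6 with hdd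
  have hnorm : algebraMap F (QA p q F) (Algebra.norm F b) = a * star a := by
    rw [hab, QuadraticAlgebra.algebraMap_norm_eq_mul_star]
  have hcases : d = 1 ∨ d = 2 ∨ d = 3 ∨ d = 6 := by
    clear_value d
    have h1 : d ≤ 6 := Nat.le_of_dvd (by norm_num) hdvd
    clear hd hdd
    revert hdvd
    interval_cases d
    · decide
    · simp
    · simp
    · simp
    · decide
    · decide
    · simp
  obtain ⟨y, hy₁, hy₂⟩ := hd
  have hyn := TorPow.norm_eq hy₁
  have hyu : IsUnit y := by
    rw [QuadraticAlgebra.isUnit_iff_norm_isUnit, hyn]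
    exact hb.pow d
  obtain ⟨y', hyy'⟩ := hyu.exists_right_inv
  have hnn : QuadraticAlgebra.norm y * QuadraticAlgebra.norm y' = 1 := by
    rw [← map_mul, hyy', map_one]
  have hNN : nrm bM y * nrm bM y' = 1 := by
    rw [← nrm_mul, hyy', nrm_one]
  rcases hcases with h1 | h1 | h1 | h1
  · -- trivial classes
    rw [h1] at hy₂ hyn ⊢
    rw [pow_one] at hy₂ hyn
    rw [hyn] at hnn
    rw [hy₂] at hNN
    have h2 := h.twist T (y := y') (y' := y) (by rw [mul_comm, hyy'])
    rw [hnn, hNN] at h2
    have h3 := h2.irr_le_two hpq isUnit_one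
    exact ⟨h3.1, h3.2.trans (le_max_left _ _)⟩
  · -- classes of order two
    rw [h1] at hy₁ hy₂ hyn ⊢
    obtain ⟨b', hb'⟩ := hb.exists_right_inv
    have hbb : algebraMap M (QA p q M) b * algebraMap M (QA p q M) b' = 1 := by
      rw [← map_mul, hb', map_one]
    set α := algebraMap M (QA p q M) with hα
    have ht : (y * α b') * star (y * α b') = 1 := by
      rw [star_mul, hα, star_algebraMap_QA, ← hα]
      linear_combination (α b') ^ 2 * hy₁ + (α b * α b' + 1) * hbb
    obtain ⟨x, hx, hxt⟩ := hilbert90 hpq ht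
    obtain ⟨x', hxx'⟩ := hx.exists_right_inv
    have hNx : nrm bM x * nrm bM x' = 1 := by
      rw [← nrm_mul, hxx', nrm_one]
    have hnx : QuadraticAlgebra.norm x * QuadraticAlgebra.norm x' = 1 := by
      rw [← map_mul, hxx', map_one]
    obtain ⟨a', ha'⟩ := ha.exists_right_inv
    -- the element `a / N(x)` is in `F`
    have hlam : star (a * nrm bM x') = a * nrm bM x' := by
      have e1 : nrm bM y * nrm bM (α b') * star (nrm bM x) = nrm bM x := by
        rw [← nrm_mul, ← T.nrm_star, ← nrm_mul, hxt]
      have e2 : nrm bM (α b) * nrm bM (α b') = 1 := by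
        rw [← nrm_mul, hbb, nrm_one]
      rw [hα, T.nrm_algebraMap b, hnorm, ← hα] at e2
      have e3 : star (nrm bM x) * star (nrm bM x') = 1 := by
        rw [← star_mul, mul_comm, hNx, star_one]
      rw [hy₂] at e1
      rw [star_mul]
      linear_combination -(nrm bM x' * star (nrm bM x') * star a) * e1 -
        (star (nrm bM x') * star a) * hNx +
        (a ^ 2 * nrm bM (α b') * nrm bM x' * star a) * e3 + (a * nrm bM x') * e2
    obtain ⟨lam, hlam'⟩ : ∃ lam : F, algebraMap F (QA p q F) lam = a * nrm bM x' := by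
      refine ⟨(a * nrm bM x').re, ?_⟩
      exact QuadraticAlgebra.ext rfl (im_eq_zero_of_star_eq hpq hlam).symm
    have h2 := h.twist T (y := x') (y' := x) (by rw [mul_comm, hxx'])
    rw [← hlam'] at h2
    set b₁ : M := b * QuadraticAlgebra.norm x' with hb₁
    have hb₁u : IsUnit b₁ := by
      rw [hb₁]
      exact hb.mul (IsUnit.of_mul_eq_one _ (by rw [mul_comm]; exact hnx))
    have hlam0 : lam ≠ 0 := by
      rintro rfl
      rw [map_zero] at hlam'
      have e1 : a * nrm bM x' * (nrm bM x * a') = 1 := by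
        linear_combination (a * a') * hNx + ha'
      rw [← hlam', zero_mul] at e1
      exact zero_ne_one e1
    have hN := h2.norm_eq T
    rw [QuadraticAlgebra.norm_algebraMap] at hN
    set m : M := b₁ * algebraMap F M lam⁻¹ with hm
    have hmN : Algebra.norm F m = lam⁻¹ := by
      rw [hm, map_mul, hN, Algebra.norm_algebraMap, Module.finrank_eq_card_basis bM,
        Fintype.card_fin]
      field_simp
    have hmu : IsUnit m := hb₁u.mul ((isUnit_iff_ne_zero.mpr (inv_ne_zero hlam0)).map _)
    obtain ⟨m', hm'⟩ := hmu.exists_right_inv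
    have h3 := h2.twist T (y := α m) (y' := α m') (by rw [← map_mul, hm', map_one])
    rw [hα, T.nrm_algebraMap, hmN, ← map_mul, mul_inv_cancel₀ hlam0, map_one,
      QuadraticAlgebra.norm_algebraMap] at h3
    have h4 := h3.irr_le_two hpq (hb₁u.mul (hmu.pow 2))
    exact ⟨h4.1, h4.2.trans (le_max_left _ _)⟩
  · -- classes of order three
    rw [h1] at hy₁ hy₂ hyn ⊢
    obtain ⟨b', hb'⟩ := hb.exists_right_inv
    obtain ⟨a', ha'⟩ := ha.exists_right_inv
    set α := algebraMap M (QA p q M) with hα
    have hu : α b * y' * (y * α b') = 1 := by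
      have e1 : α b * α b' = 1 := by rw [← map_mul, hb', map_one]
      linear_combination (α b * α b') * hyy' + e1
    have h2 := h.twist T hu
    have e1 : b * QuadraticAlgebra.norm (α b * y') = 1 := by
      rw [map_mul, hα, QuadraticAlgebra.norm_algebraMap, ← hnn, hyn]
      ring
    rw [e1] at h2
    set A := a * nrm bM (α b * y') with hA
    have e2 : A * star (star a) = star a := by
      rw [star_star, hA, nrm_mul, hα, T.nrm_algebraMap, hnorm]
      rw [hy₂] at hNN
      linear_combination (star a) * hNN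
    by_cases him : (star a).im = 0
    · have e3 : star a = a := by
        refine QuadraticAlgebra.ext ?_ ?_
        · rw [QuadraticAlgebra.im_star, neg_eq_zero] at him
          rw [QuadraticAlgebra.re_star, him, mul_zero, add_zero]
        · rw [him]
          rw [QuadraticAlgebra.im_star, neg_eq_zero] at him
          exact him.symm
      rw [star_star, e3] at e2
      have e4 : A = 1 := by linear_combination a' * e2 + (1 - A) * ha'
      rw [e4] at h2
      have h3 := h2.irr_le_two hpq isUnit_one
      exact ⟨h3.1, h3.2.trans (le_max_left _ _)⟩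
    · have h3 := h2.irr_le_three hpq e2 him
      exact ⟨h3.1, h3.2.trans (le_max_right _ _)⟩
  · rw [h1]
    have h3 := h.irr_le_six hpq ha hb
    exact ⟨h3.1, h3.2.trans (le_max_right _ _)⟩

end

end Pool.Agent.Helper17.Irr
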