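import Mathlib
import Pool.Agent.Helper17.Irr.SixGroup
import Pool.Agent.Helper17.Irr.Low

/-!
# The projective model of the surfaces
-/

set_option linter.style.haveILetI false
set_option linter.deprecated false

namespace Pool.Agent.Helper17.Irr

open IntermediateField

universe u v w x y

section

variable {F : Type u} [Field F] {M : Type v} [CommRing M] [Algebra F M]
  {bM : Module.Basis (Fin 3) F M} {p q : F}

/-! ### Base change of the equations -/

/-- The homomorphism `E ⊗ S → E ⊗ T` induced by `S → T`, as an algebra homomorphism. -/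
def QA.mapₐ {S : Type w} {T : Type x} [CommRing S] [CommRing T] [Algebra F S] [Algebra F T]
    (f : S →ₐ[F] T) : QA p q S →ₐ[F] QA p q T where
  toRingHom := QA.map p q f
  commutes' r := by
    refine QuadraticAlgebra.ext ?_ ?_
    · exact f.commutes r
    · exact map_zero f

theorem QA.mapₐ_apply {S : Type w} {T : Type x} [CommRing S] [CommRing T] [Algebra F S]
    [Algebra F T] (f : S →ₐ[F] T) (z : QA p q S) : QA.mapₐ f z = QA.map p q f z := rfl

theorem QA.map_algebraMap {S : Type w} {T : Type x} [CommRing S] [CommRing T] [Algebra F S]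
    [Algebra F T] (f : S →ₐ[F] T) (s : S) :
    QA.map p q f (algebraMap S (QA p q S) s) = algebraMap T (QA p q T) (f s) := by
  refine QuadraticAlgebra.ext rfl ?_
  exact map_zero f

theorem map_sixEqA (b : M) {S : Type w} {T : Type x} [CommRing S] [CommRing T] [Algebra F S]
    [Algebra F T] (f : S →ₐ[F] T) (z : Fin 3 → QA p q S) (c : S) (i : Fin 3) :
    QA.map p q f (sixEqA bM b z c i) = sixEqA bM b (fun i => QA.map p q f (z i)) (f c) i := by
  have h1 := map_mulVec (bM := bM) (QA.mapₐ (p := p) (q := q) f) z (fun i => star (z i)) i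
  have h2 := map_coords (bM := bM) (QA.mapₐ (p := p) (q := q) f) b i
  simp only [QA.mapₐ_apply, QA.map_star] at h1 h2
  simp only [sixEqA, Pi.sub_apply, map_sub, map_mul, h1, h2, QA.map_algebraMap, map_pow]

theorem map_sixEqB (a : QA p q F) (b : M) {S : Type w} {T : Type x} [CommRing S] [CommRing T]
    [Algebra F S] [Algebra F T] (f : S →ₐ[F] T) (z : Fin 3 → QA p q S) (c : S) (i : Fin 3) :
    QA.map p q f (sixEqB bM a b z c i) = sixEqB bM a b (fun i => QA.map p q f (z i)) (f c) i := by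
  have h1 := map_mulVec (bM := bM) (QA.mapₐ (p := p) (q := q) f) (coords bM (QA p q S) b)
    ((mulMat bM z).adjugate.mulVec (coords bM (QA p q S) 1)) i
  have h2 : ∀ i, QA.mapₐ f ((mulMat bM z).adjugate.mulVec (coords bM (QA p q S) 1) i) = _ :=
    map_adj (bM := bM) (QA.mapₐ (p := p) (q := q) f) z
  simp only [h2, map_coords] at h1
  simp only [QA.mapₐ_apply] at h1
  simp only [sixEqB, Pi.sub_apply, map_sub, map_mul, h1, QA.map_algebraMap, QA.map_star,
    QA.map_map_ofId]

/-- The vector with given components. -/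
def ptVec (p q : F) {S : Type w} [CommRing S] [Algebra F S] (y : Option (Fin 3 × Fin 2) → S) :
    Fin 3 → QA p q S := fun i => ⟨y (some (i, 0)), y (some (i, 1))⟩

theorem map_genVec {S : Type w} [CommRing S] [Algebra F S] (y : Option (Fin 3 × Fin 2) → S)
    (i : Fin 3) : QA.map p q (MvPolynomial.aeval y) (genVec p q i) = ptVec p q y i := by
  refine QuadraticAlgebra.ext ?_ ?_
  · exact MvPolynomial.aeval_X _ _
  · exact MvPolynomial.aeval_X _ _

theorem aeval_sixEqA (b : M) {S : Type w} [CommRing S] [Algebra F S]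
    (y : Option (Fin 3 × Fin 2) → S) (i : Fin 3) :
    QA.map p q (MvPolynomial.aeval y) (sixEqA bM b (genVec p q) (MvPolynomial.X none) i) =
      sixEqA bM b (ptVec p q y) (y none) i := by
  rw [map_sixEqA, MvPolynomial.aeval_X]
  simp only [map_genVec]

theorem aeval_sixEqB (a : QA p q F) (b : M) {S : Type w} [CommRing S] [Algebra F S]
    (y : Option (Fin 3 × Fin 2) → S) (i : Fin 3) :
    QA.map p q (MvPolynomial.aeval y) (sixEqB bM a b (genVec p q) (MvPolynomial.X none) i) =
      sixEqB bM a b (ptVec p q y) (y none) i := by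
  rw [map_sixEqB, MvPolynomial.aeval_X]
  simp only [map_genVec]

/-- The generators of the ideal. -/
def sixGens (bM : Module.Basis (Fin 3) F M) {p q : F} (a : QA p q F) (b : M) :
    Set (MvPolynomial (Option (Fin 3 × Fin 2)) F) :=
  (Set.range fun i => (sixEqA bM b (genVec p q) (MvPolynomial.X none) i).re) ∪
    (Set.range fun i => (sixEqA bM b (genVec p q) (MvPolynomial.X none) i).im) ∪
    (Set.range fun i => (sixEqB bM a b (genVec p q) (MvPolynomial.X none) i).re) ∪
    (Set.range fun i => (sixEqB bM a b (genVec p q) (MvPolynomial.X none) i).im)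

theorem sixIdeal_eq (a : QA p q F) (b : M) :
    sixIdeal bM a b = Ideal.span (sixGens bM a b) := rfl

theorem sixGens_zero_iff (a : QA p q F) (b : M) {S : Type w} [CommRing S] [Algebra F S]
    (y : Option (Fin 3 × Fin 2) → S) :
    (∀ g ∈ sixGens bM a b, MvPolynomial.aeval y g = 0) ↔
      sixEqA bM b (ptVec p q y) (y none) = 0 ∧ sixEqB bM a b (ptVec p q y) (y none) = 0 := by
  constructor
  · intro h
    constructor
    · ext i : 1
      rw [← aeval_sixEqA]
      refine QuadraticAlgebra.ext ?_ ?_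
      · exact h _ (Or.inl (Or.inl (Or.inl ⟨i, rfl⟩)))
      · exact h _ (Or.inl (Or.inl (Or.inr ⟨i, rfl⟩)))
    · ext i : 1
      rw [← aeval_sixEqB]
      refine QuadraticAlgebra.ext ?_ ?_
      · exact h _ (Or.inl (Or.inr ⟨i, rfl⟩))
      · exact h _ (Or.inr ⟨i, rfl⟩)
  · rintro ⟨hA, hB⟩
    have hA' : ∀ i, QA.map p q (MvPolynomial.aeval y)
        (sixEqA bM b (genVec p q) (MvPolynomial.X none) i) = 0 := by
      intro i
      rw [aeval_sixEqA, hA]
      rfl
    have hB' : ∀ i, QA.map p q (MvPolynomial.aeval y)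
        (sixEqB bM a b (genVec p q) (MvPolynomial.X none) i) = 0 := by
      intro i
      rw [aeval_sixEqB, hB]
      rfl
    rintro g (((⟨i, rfl⟩ | ⟨i, rfl⟩) | ⟨i, rfl⟩) | ⟨i, rfl⟩)
    · exact congrArg QuadraticAlgebra.re (hA' i)
    · exact congrArg QuadraticAlgebra.im (hA' i)
    · exact congrArg QuadraticAlgebra.re (hB' i)
    · exact congrArg QuadraticAlgebra.im (hB' i)

theorem sixIdeal_zero_iff (a : QA p q F) (b : M) {S : Type w} [CommRing S] [Algebra F S]
    (y : Option (Fin 3 × Fin 2) → S) :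
    (∀ g ∈ sixIdeal bM a b, MvPolynomial.aeval y g = 0) ↔
      sixEqA bM b (ptVec p q y) (y none) = 0 ∧ sixEqB bM a b (ptVec p q y) (y none) = 0 := by
  rw [← sixGens_zero_iff, sixIdeal_eq]
  constructor
  · intro h g hg
    exact h g (Ideal.subset_span hg)
  · intro h g hg
    have h1 : Ideal.span (sixGens bM a b) ≤ RingHom.ker (MvPolynomial.aeval y :
        MvPolynomial (Option (Fin 3 × Fin 2)) F →ₐ[F] S) := by
      rw [Ideal.span_le]
      exact h
    exact h1 hg

/-! ### Homogeneity -/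

/-- Both components are homogeneous of degree `n`. -/
def HomQ {ι : Type} (n : ℕ) (ξ : QA p q (MvPolynomial ι F)) : Prop :=
  ξ.re.IsHomogeneous n ∧ ξ.im.IsHomogeneous n

section

variable {ι : Type} {m n : ℕ} {ξ η : QA p q (MvPolynomial ι F)}

theorem HomQ.add (h : HomQ n ξ) (h' : HomQ n η) : HomQ n (ξ + η) :=
  ⟨h.1.add h'.1, h.2.add h'.2⟩

theorem HomQ.neg (h : HomQ n ξ) : HomQ n (-ξ) := ⟨h.1.neg, h.2.neg⟩

theorem HomQ.sub (h : HomQ n ξ) (h' : HomQ n η) : HomQ n (ξ - η) := by
  rw [sub_eq_add_neg]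
  exact h.add h'.neg

theorem HomQ.sum {κ : Type*} (s : Finset κ) (f : κ → QA p q (MvPolynomial ι F))
    (h : ∀ i ∈ s, HomQ n (f i)) : HomQ n (∑ i ∈ s, f i) := by
  constructor
  · rw [QA.re_sum]
    exact MvPolynomial.IsHomogeneous.sum _ _ _ fun i hi => (h i hi).1
  · rw [QA.im_sum]
    exact MvPolynomial.IsHomogeneous.sum _ _ _ fun i hi => (h i hi).2

theorem HomQ.mul (h : HomQ m ξ) (h' : HomQ n η) : HomQ (m + n) (ξ * η) := by
  have hC : ∀ (c : F) (g : MvPolynomial ι F), g.IsHomogeneous (m + n) →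
      (algebraMap F (MvPolynomial ι F) c * g).IsHomogeneous (m + n) := by
    intro c g hg
    have := (MvPolynomial.isHomogeneous_C ι c).mul hg
    rwa [zero_add] at this
  constructor
  · rw [QuadraticAlgebra.re_mul, mul_assoc]
    exact (h.1.mul h'.1).add (hC _ _ (h.2.mul h'.2))
  · rw [QuadraticAlgebra.im_mul, mul_assoc]
    exact ((h.1.mul h'.2).add (h.2.mul h'.1)).add (hC _ _ (h.2.mul h'.2))

theorem HomQ.star (h : HomQ n ξ) : HomQ n (star ξ) := by
  have hC : ∀ (c : F) (g : MvPolynomial ι F), g.IsHomogeneous n →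
      (algebraMap F (MvPolynomial ι F) c * g).IsHomogeneous n := by
    intro c g hg
    have := (MvPolynomial.isHomogeneous_C ι c).mul hg
    rwa [zero_add] at this
  constructor
  · rw [QuadraticAlgebra.re_star]
    exact h.1.add (hC _ _ h.2)
  · rw [QuadraticAlgebra.im_star]
    exact h.2.neg

theorem HomQ.algMap {g : MvPolynomial ι F} (hg : g.IsHomogeneous n) :
    HomQ (p := p) (q := q) n (algebraMap (MvPolynomial ι F) (QA p q (MvPolynomial ι F)) g) :=
  ⟨hg, MvPolynomial.isHomogeneous_zero _ _ _⟩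

theorem homQ_scalar (c : F) :
    HomQ (p := p) (q := q) 0 (algebraMap F (QA p q (MvPolynomial ι F)) c) :=
  ⟨MvPolynomial.isHomogeneous_C _ _, MvPolynomial.isHomogeneous_zero _ _ _⟩

theorem homQ_map (c : QA p q F) :
    HomQ (p := p) (q := q) 0 (QA.map p q (Algebra.ofId F (MvPolynomial ι F)) c) :=
  ⟨MvPolynomial.isHomogeneous_C _ _, MvPolynomial.isHomogeneous_C _ _⟩

theorem homQ_mulMat {z : Fin 3 → QA p q (MvPolynomial ι F)} (hz : ∀ i, HomQ n (z i))
    (i j : Fin 3) : HomQ n (mulMat bM z i j) := by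
  rw [mulMat, Matrix.sum_apply]
  refine HomQ.sum _ _ fun k _ => ?_
  rw [Matrix.smul_apply, Matrix.map_apply, smul_eq_mul]
  exact (hz k).mul (homQ_scalar _)

theorem homQ_mulVec {A : Matrix (Fin 3) (Fin 3) (QA p q (MvPolynomial ι F))}
    {z : Fin 3 → QA p q (MvPolynomial ι F)} (hA : ∀ i j, HomQ m (A i j))
    (hz : ∀ i, HomQ n (z i)) (i : Fin 3) : HomQ (m + n) (A.mulVec z i) := by
  rw [Matrix.mulVec, dotProduct]
  exact HomQ.sum _ _ fun k _ => (hA i k).mul (hz k)

theorem homQ_adjugate {A : Matrix (Fin 3) (Fin 3) (QA p q (MvPolynomial ι F))}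
    (hA : ∀ i j, HomQ m (A i j)) (i j : Fin 3) : HomQ (m + m) (A.adjugate i j) := by
  rw [Matrix.adjugate_fin_three]
  have h1 : ∀ a b c d e f g h : Fin 3, HomQ (m + m) (A a b * A c d - A e f * A g h) :=
    fun a b c d e f g h => ((hA a b).mul (hA c d)).sub ((hA e f).mul (hA g h))
  have h2 : ∀ a b c d e f g h : Fin 3, HomQ (m + m) (-(A a b * A c d) + A e f * A g h) :=
    fun a b c d e f g h => ((hA a b).mul (hA c d)).neg.add ((hA e f).mul (hA g h))
  fin_cases i <;> fin_cases j
  · exact h1 _ _ _ _ _ _ _ _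
  · exact h2 _ _ _ _ _ _ _ _
  · exact h1 _ _ _ _ _ _ _ _
  · exact h2 _ _ _ _ _ _ _ _
  · exact h1 _ _ _ _ _ _ _ _
  · exact h2 _ _ _ _ _ _ _ _
  · exact h1 _ _ _ _ _ _ _ _
  · exact h2 _ _ _ _ _ _ _ _
  · exact h1 _ _ _ _ _ _ _ _

theorem homQ_coords (m : M) (i : Fin 3) :
    HomQ (p := p) (q := q) 0 (coords bM (QA p q (MvPolynomial ι F)) m i) := homQ_scalar _

end

theorem homQ_genVec (i : Fin 3) : HomQ 1 (genVec p q i) :=
  ⟨MvPolynomial.isHomogeneous_X _ _, MvPolynomial.isHomogeneous_X _ _⟩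

theorem homQ_sixEqA (b : M) (i : Fin 3) :
    HomQ (p := p) (q := q) 2 (sixEqA bM b (genVec p q) (MvPolynomial.X none) i) := by
  rw [sixEqA, Pi.sub_apply]
  refine HomQ.sub ?_ ?_
  · exact homQ_mulVec (m := 1) (n := 1) (homQ_mulMat homQ_genVec) (fun j => (homQ_genVec j).star) i
  · have h1 : HomQ (p := p) (q := q) 2 (algebraMap (MvPolynomial (Option (Fin 3 × Fin 2)) F) (QA p q
        (MvPolynomial (Option (Fin 3 × Fin 2)) F)) (MvPolynomial.X none ^ 2)) :=
      HomQ.algMap ((MvPolynomial.isHomogeneous_X F none).pow 2)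
    exact h1.mul (homQ_coords b i)

theorem homQ_sixEqB (a : QA p q F) (b : M) (i : Fin 3) :
    HomQ (p := p) (q := q) 2 (sixEqB bM a b (genVec p q) (MvPolynomial.X none) i) := by
  rw [sixEqB, Pi.sub_apply]
  refine HomQ.sub ?_ ?_
  · have h1 := homQ_mulVec (m := 1 + 1) (n := 0) (homQ_adjugate (homQ_mulMat (bM := bM)
      (homQ_genVec (p := p) (q := q)))) (homQ_coords (bM := bM) (1 : M))
    have h2 := homQ_mulVec (m := 0) (homQ_mulMat (bM := bM) (homQ_coords (p := p) (q := q)
      (ι := Option (Fin 3 × Fin 2)) (bM := bM) b)) h1 i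
    exact h2
  · have h1 : HomQ (p := p) (q := q) 1 (algebraMap (MvPolynomial (Option (Fin 3 × Fin 2)) F) (QA p q
        (MvPolynomial (Option (Fin 3 × Fin 2)) F)) (MvPolynomial.X none)) :=
      HomQ.algMap (MvPolynomial.isHomogeneous_X F none)
    exact ((homQ_map a).mul h1).mul (homQ_genVec i).star

theorem isHomogeneous_sixGens (a : QA p q F) (b : M) :
    ∀ g ∈ sixGens bM a b, g.IsHomogeneous 2 := by
  rintro g (((⟨i, rfl⟩ | ⟨i, rfl⟩) | ⟨i, rfl⟩) | ⟨i, rfl⟩)
  · exact (homQ_sixEqA b i).1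
  · exact (homQ_sixEqA b i).2
  · exact (homQ_sixEqB a b i).1
  · exact (homQ_sixEqB a b i).2

theorem X_notMem_sixIdeal (a : QA p q F) (b : M) (j : Option (Fin 3 × Fin 2)) :
    MvPolynomial.X j ∉ sixIdeal bM a b := by
  intro h
  have h3 := coeff_eq_zero_of_mem_span (m := 2) (isHomogeneous_sixGens a b) h
    (d := Finsupp.single j 1) (by simp)
  simp at h3

end

end Pool.Agent.Helper17.Irr
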