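import Mathlib
import Pool.Agent.Helper17.Irr.SixModel

/-!
# The dimension of the cone
-/

set_option linter.style.haveILetI false
set_option linter.deprecated false

namespace Pool.Agent.Helper17.Irr

open IntermediateField

universe u v w x y

section

variable {F : Type u} [Field F] {M : Type v} [CommRing M] [Algebra F M]
  {bM : Module.Basis (Fin 3) F M} {p q : F}

/-- The equations can be checked on coordinates. -/
theorem SixFrame.eq_zero {Ω : Type w} [Field Ω] [Algebra F Ω] (T : SixFrame bM p q Ω)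
    {L : Type x} [Field L] [Algebra F L] [Algebra L Ω] [IsScalarTower F L Ω] {a : QA p q F} {b : M}
    {z : Fin 3 → QA p q L} {w : L}
    (h₁ : ∀ s i, T.x s i z * T.x (1 - s) i z = algebraMap L Ω w ^ 2 * T.σ i b)
    (h₂ : ∀ s i, T.σ i b * ∏ j ∈ Finset.univ.erase i, T.x s j z =
      T.ev (S := F) s a * algebraMap L Ω w * T.x (1 - s) i z) :
    sixEqA bM b z w = 0 ∧ sixEqB bM a b z w = 0 := by
  have hinj : Function.Injective (algebraMap L Ω) := (algebraMap L Ω).injective
  constructor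
  · apply T.x_ext hinj
    intro s i
    have h0 : T.x (S := L) s i (0 : Fin 3 → QA p q L) = 0 := cd_zero _ _
    have h2 : T.x s i (fun j => algebraMap L (QA p q L) (w ^ 2) * coords bM (QA p q L) b j) =
        algebraMap L Ω w ^ 2 * T.σ i b := by
      rw [T.x_mul_left, T.ev_algebraMap, T.x_coords, map_pow (algebraMap L Ω)]
    rw [h0, sixEqA, T.x_sub, T.x_mulVec, T.x_star, h₁]
    refine sub_eq_zero.mpr ?_
    exact h2.symm
  · apply T.x_ext hinj
    intro s i
    have h0 : T.x (S := L) s i (0 : Fin 3 → QA p q L) = 0 := cd_zero _ _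
    have h2 := T.x_mul_left s i (QA.map p q (Algebra.ofId F L) a * algebraMap L (QA p q L) w)
      (fun i => star (z i))
    rw [map_mul, T.ev_map, T.ev_algebraMap, T.x_star] at h2
    rw [h0, sixEqB, T.x_sub, T.x_mulVec, T.x_coords, T.x_adjugate, h₂]
    refine sub_eq_zero.mpr ?_
    exact h2.symm

/-- Points with arbitrary coordinates. -/
theorem SixFrame.exists_x {Ω : Type w} [Field Ω] [Algebra F Ω] (T : SixFrame bM p q Ω)
    (c : Fin 2 → Fin 3 → Ω) : ∃ z : Fin 3 → QA p q Ω, ∀ s i, T.x (S := Ω) s i z = c s i := by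
  set V : Matrix (Fin 3) (Fin 3) Ω := Matrix.of fun i j => T.σ i (bM j) with hV
  have hVu : IsUnit V.det := isUnit_iff_ne_zero.mpr T.det_ne
  set e : Fin 2 → Fin 3 → Ω := fun s => V⁻¹.mulVec (c s) with he
  have he1 : ∀ s i, ∑ j, e s j * T.σ i (bM j) = c s i := by
    intro s i
    have h1 : V.mulVec (e s) i = c s i := by
      rw [he]
      simp only
      rw [Matrix.mulVec_mulVec, Matrix.mul_nonsing_inv _ hVu, Matrix.one_mulVec]
    rw [← h1]
    simp only [Matrix.mulVec, dotProduct, hV, Matrix.of_apply]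
    exact Finset.sum_congr rfl fun j _ => mul_comm _ _
  have hr : T.r 0 - T.r 1 ≠ 0 := sub_ne_zero.mpr T.r_ne
  set d : Ω := (T.r 0 - T.r 1)⁻¹ with hd
  have hd1 : (T.r 0 - T.r 1) * d = 1 := mul_inv_cancel₀ hr
  refine ⟨fun j => ⟨e 0 j - T.r 0 * (d * (e 0 j - e 1 j)), d * (e 0 j - e 1 j)⟩, fun s i => ?_⟩
  rw [← he1]
  simp only [SixFrame.x, cd]
  refine Finset.sum_congr rfl fun j _ => ?_
  rw [T.ev_apply]
  simp only [Algebra.algebraMap_self, RingHom.id_apply]
  fin_cases s
  · simp only [Fin.zero_eta]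
    ring
  · simp only [Fin.mk_one]
    linear_combination (-(e 0 j - e 1 j) * T.σ i (bM j)) * hd1

open scoped IntermediateField.algebraAdjoinAdjoin in
theorem trdeg_adjoin_eq {Ω : Type u} [Field Ω] [Algebra F Ω] (S : Set Ω) :
    Algebra.trdeg F (Algebra.adjoin F S) = Algebra.trdeg F (IntermediateField.adjoin F S) := by
  have h3 : Algebra.trdeg F (Algebra.adjoin F S) +
      Algebra.trdeg (Algebra.adjoin F S) (IntermediateField.adjoin F S) =
      Algebra.trdeg F (IntermediateField.adjoin F S) :=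
    _root_.trdeg_add_eq F (Algebra.adjoin F S) (A := IntermediateField.adjoin F S)
  have h4 : Algebra.trdeg (Algebra.adjoin F S) (IntermediateField.adjoin F S) = 0 := trdeg_eq_zero
  rw [← h3, h4, add_zero]

theorem three_le_trdeg_six_aux {a : QA p q F} {b : M} (ha : IsUnit a) (hb : IsUnit b)
    (hab : Algebra.norm F b = QuadraticAlgebra.norm a) {Ω : Type u} [Field Ω] [Algebra F Ω]
    (T : SixFrame bM p q Ω) (t : Fin 3 → Ω) (ht : AlgebraicIndependent F t) :
    ((2 + 1 : ℕ) : Cardinal) ≤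
      Algebra.trdeg F (MvPolynomial (Option (Fin 3 × Fin 2)) F ⧸ sixIdeal bM a b) := by
  classical
  haveI : Module.Finite F M := Module.Finite.of_basis bM
  have hbi : ∀ i, T.σ i b ≠ 0 := fun i => (hb.map (T.σ i)).ne_zero
  have hai : ∀ s, T.ev (S := F) s a ≠ 0 := fun s => (ha.map (T.ev (S := F) s)).ne_zero
  have hnorm : T.σ 0 b * T.σ 1 b * T.σ 2 b = T.ev (S := F) 0 a * T.ev (S := F) 1 a := by
    rw [← T.algebraMap_norm, ← hab, T.norm_b, Fin.prod_univ_three]
  have htn : ∀ i, t i ≠ 0 := fun i => ht.ne_zero i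
  -- the point
  set c₀ : Fin 3 → Ω := ![t 0, t 1, T.ev (S := F) 0 a * t 2 ^ 3 / (t 0 * t 1)] with hc₀
  have hc₀n : ∀ i, c₀ i ≠ 0 := by
    intro i
    have h0 := htn 0
    have h1 := htn 1
    have h2 := htn 2
    have h3 := hai 0
    fin_cases i
    · exact h0
    · exact h1
    · exact div_ne_zero (mul_ne_zero h3 (pow_ne_zero _ h2)) (mul_ne_zero h0 h1)
  have hc₀p : c₀ 0 * c₀ 1 * c₀ 2 = T.ev (S := F) 0 a * t 2 ^ 3 := by
    have h0 := htn 0
    have h1 := htn 1
    change t 0 * t 1 * (T.ev (S := F) 0 a * t 2 ^ 3 / (t 0 * t 1)) = _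
    field_simp
  obtain ⟨z, hz⟩ := T.exists_x ![c₀, fun i => T.σ i b * t 2 ^ 2 / c₀ i]
  have hz0 : ∀ i, T.x (S := Ω) 0 i z = c₀ i := fun i => hz 0 i
  have hz1 : ∀ i, T.x (S := Ω) 1 i z = T.σ i b * t 2 ^ 2 / c₀ i := fun i => hz 1 i
  have hmul : ∀ i, T.x (S := Ω) 0 i z * T.x (S := Ω) 1 i z = t 2 ^ 2 * T.σ i b := by
    intro i
    have := hc₀n i
    rw [hz0, hz1]
    field_simp
  have hp0 : ∏ i, T.x (S := Ω) 0 i z = T.ev (S := F) 0 a * t 2 ^ 3 := by
    rw [Fin.prod_univ_three, hz0, hz0, hz0, hc₀p]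
  have hp1 : ∏ i, T.x (S := Ω) 1 i z = T.ev (S := F) 1 a * t 2 ^ 3 := by
    have h1 : (∏ i, T.x (S := Ω) 0 i z) * ∏ i, T.x (S := Ω) 1 i z =
        T.ev (S := F) 0 a * t 2 ^ 3 * (T.ev (S := F) 1 a * t 2 ^ 3) := by
      rw [← Finset.prod_mul_distrib]
      simp only [hmul]
      rw [Fin.prod_univ_three]
      linear_combination (t 2 ^ 6) * hnorm
    rw [hp0] at h1
    exact mul_left_cancel₀ (mul_ne_zero (hai 0) (pow_ne_zero _ (htn 2))) h1
  have hxn : ∀ s i, T.x (S := Ω) s i z ≠ 0 := by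
    intro s i h0
    have h1 := hmul i
    have h2 : t 2 ^ 2 * T.σ i b ≠ 0 := mul_ne_zero (pow_ne_zero _ (htn 2)) (hbi i)
    fin_cases s
    · rw [show T.x (S := Ω) 0 i z = 0 from h0, zero_mul] at h1
      exact h2 h1.symm
    · rw [show T.x (S := Ω) 1 i z = 0 from h0, mul_zero] at h1
      exact h2 h1.symm
  obtain ⟨hA, hB⟩ := T.eq_zero (L := Ω) (a := a) (b := b) (z := z) (w := t 2) (by
      intro s i
      fin_cases s
      · exact hmul i
      · exact (mul_comm _ _).trans (hmul i)) (by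
      intro s i
      have h1 : ∏ i, T.x (S := Ω) s i z = T.ev (S := F) s a * t 2 ^ 3 := by
        fin_cases s
        · exact hp0
        · exact hp1
      have h2 : T.x (S := Ω) s i z * T.x (S := Ω) (1 - s) i z = t 2 ^ 2 * T.σ i b := by
        fin_cases s
        · exact hmul i
        · exact (mul_comm _ _).trans (hmul i)
      have h3 := Finset.prod_erase_mul Finset.univ (fun j => T.x (S := Ω) s j z)
        (Finset.mem_univ i)
      rw [h1] at h3
      apply mul_right_cancel₀ (hxn s i)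
      simp only [Algebra.algebraMap_self, RingHom.id_apply]
      linear_combination T.σ i b * h3 - T.ev (S := F) s a * t 2 * h2)
  -- the homomorphism
  set pt : Option (Fin 3 × Fin 2) → Ω := fun o => match o with
    | none => t 2
    | some (i, 0) => (z i).re
    | some (i, 1) => (z i).im with hpt
  have hptz : ptVec p q pt = z := rfl
  have hI := (sixIdeal_zero_iff (bM := bM) a b pt).mpr ⟨by rw [hptz]; exact hA,
    by rw [hptz]; exact hB⟩
  set R := Algebra.adjoin F (Set.range pt) with hR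
  have hφ : ∀ g : MvPolynomial (Option (Fin 3 × Fin 2)) F, MvPolynomial.aeval pt g ∈ R := by
    intro g
    rw [hR, Algebra.adjoin_range_eq_range_aeval]
    exact ⟨g, rfl⟩
  let φ₀ : (MvPolynomial (Option (Fin 3 × Fin 2)) F ⧸ sixIdeal bM a b) →ₐ[F] Ω :=
    Ideal.Quotient.liftₐ _ (MvPolynomial.aeval pt) hI
  have hφ₀ : ∀ c, φ₀ c ∈ R := by
    intro c
    obtain ⟨g, rfl⟩ := Ideal.Quotient.mk_surjective c
    exact hφ g
  let φ : (MvPolynomial (Option (Fin 3 × Fin 2)) F ⧸ sixIdeal bM a b) →ₐ[F] R :=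
    φ₀.codRestrict R hφ₀
  have hφs : Function.Surjective φ := by
    rintro ⟨c, hc⟩
    rw [hR, Algebra.adjoin_range_eq_range_aeval] at hc
    obtain ⟨g, rfl⟩ := hc
    exact ⟨Ideal.Quotient.mk _ g, rfl⟩
  have h1 : Algebra.trdeg F R ≤
      Algebra.trdeg F (MvPolynomial (Option (Fin 3 × Fin 2)) F ⧸ sixIdeal bM a b) := by
    have := lift_trdeg_le_of_surjective φ hφs
    simpa using this
  refine le_trans ?_ h1
  set k := IntermediateField.adjoin F (Set.range pt) with hk
  have h2 : Algebra.trdeg F R = Algebra.trdeg F k := trdeg_adjoin_eq _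
  rw [h2]
  set B := algebraicClosure k Ω with hBdef
  have h3 : Algebra.trdeg F k = Algebra.trdeg F B := by
    have h4 : Algebra.trdeg F k + Algebra.trdeg k B = Algebra.trdeg F B :=
      _root_.trdeg_add_eq F k (A := B)
    have h5 : Algebra.trdeg k B = 0 := trdeg_eq_zero
    rw [← h4, h5, add_zero]
  rw [h3]
  -- the elements are in `B`
  have hBF : ∀ c : Ω, IsAlgebraic F c → c ∈ B := by
    intro c hc
    exact mem_algebraicClosure_iff.mpr (hc.tower_top k)
  have hBk : ∀ c : Ω, c ∈ k → c ∈ B := by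
    intro c hc
    exact IntermediateField.algebraMap_mem B (⟨c, hc⟩ : k)
  have hr : ∀ s, T.r s ∈ B := by
    intro s
    apply hBF
    refine ⟨Polynomial.X ^ 2 - Polynomial.C q * Polynomial.X - Polynomial.C p, ?_, ?_⟩
    · intro h5
      have := congrArg (fun P : Polynomial F => P.coeff 2) h5
      simp at this
    · simp only [map_sub, map_mul, map_pow, Polynomial.aeval_X, Polynomial.aeval_C]
      linear_combination T.r_sq s
  have hσ : ∀ i m, T.σ i m ∈ B := by
    intro i m
    apply hBF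
    exact ((Algebra.IsIntegral.isIntegral (R := F) m).map (T.σ i)).isAlgebraic
  have hzk : ∀ j, (z j).re ∈ k ∧ (z j).im ∈ k := fun j =>
    ⟨IntermediateField.subset_adjoin F _ ⟨some (j, 0), rfl⟩,
      IntermediateField.subset_adjoin F _ ⟨some (j, 1), rfl⟩⟩
  have hxB : ∀ s i, T.x (S := Ω) s i z ∈ B := by
    intro s i
    simp only [SixFrame.x, cd, SixFrame.ev_apply, Algebra.algebraMap_self, RingHom.id_apply]
    exact sum_mem fun j _ => mul_mem (add_mem (hBk _ (hzk j).1) (mul_mem (hr s) (hBk _ (hzk j).2)))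
      (hσ i _)
  have htB : ∀ i, t i ∈ B := by
    intro i
    fin_cases i
    · have := hxB 0 0
      rw [hz0] at this
      exact this
    · have := hxB 0 1
      rw [hz0] at this
      exact this
    · exact hBk _ (IntermediateField.subset_adjoin F _ ⟨none, rfl⟩)
  have h4 : AlgebraicIndependent F (fun i => (⟨t i, htB i⟩ : B)) :=
    AlgebraicIndependent.of_comp (B.val.restrictScalars F) ht
  have h5 := h4.lift_cardinalMk_le_trdeg
  simpa using h5

theorem three_le_trdeg_six [Algebra.Etale F M] (hpq : q ^ 2 + 4 * p ≠ 0) {a : QA p q F} {b : M}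
    (ha : IsUnit a) (hb : IsUnit b) (hab : Algebra.norm F b = QuadraticAlgebra.norm a) :
    ((2 + 1 : ℕ) : Cardinal) ≤
      Algebra.trdeg F (MvPolynomial (Option (Fin 3 × Fin 2)) F ⧸ sixIdeal bM a b) := by
  let C := FractionRing (MvPolynomial (Fin 3) F)
  let Ω := AlgebraicClosure C
  obtain ⟨T⟩ := exists_sixFrame bM p q hpq Ω
  have h1 : AlgebraicIndependent F (MvPolynomial.X : Fin 3 → MvPolynomial (Fin 3) F) :=
    MvPolynomial.algebraicIndependent_X _ _
  let ψ : MvPolynomial (Fin 3) F →ₐ[F] Ω :=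
    (IsScalarTower.toAlgHom F C Ω).comp (IsScalarTower.toAlgHom F (MvPolynomial (Fin 3) F) C)
  have hψ : Function.Injective ψ :=
    (algebraMap C Ω).injective.comp (IsFractionRing.injective (MvPolynomial (Fin 3) F) C)
  exact three_le_trdeg_six_aux ha hb hab T _ (h1.map' hψ)

end

end Pool.Agent.Helper17.Irr
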