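import Mathlib
import Pool.Agent.Helper17.Irr.SixDim

/-!
# The degree of irrationality of del Pezzo surfaces of degree six
-/

set_option linter.style.haveILetI false
set_option linter.deprecated false

namespace Pool.Agent.Helper17.Irr

open IntermediateField

universe u v w x y

section

variable {F : Type u} [Field F] {M : Type v} [CommRing M] [Algebra F M]
  {bM : Module.Basis (Fin 3) F M} {p q : F}

theorem adj_mul_self {R : Type w} [CommRing R] [Algebra F R] (z : Fin 3 → R) :
    (mulMat bM z).mulVec ((mulMat bM z).adjugate.mulVec (coords bM R 1)) =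
      (mulMat bM z).det • coords bM R 1 := by
  rw [Matrix.mulVec_mulVec, Matrix.mul_adjugate, Matrix.smul_mulVec, Matrix.one_mulVec]

/-- Interior points satisfy the equations of the torsor. -/
theorem SixFrame.interior {Ω : Type w} [Field Ω] [Algebra F Ω] (T : SixFrame bM p q Ω)
    {L : Type x} [Field L] [Algebra F L] [Algebra L Ω] [IsScalarTower F L Ω] {a : QA p q F} {b : M}
    (hb : IsUnit b) {z : Fin 3 → QA p q L} (hA : sixEqA bM b z 1 = 0)
    (hB : sixEqB bM a b z 1 = 0) :
    (mulMat bM z).mulVec (fun j => star (z j)) = coords bM (QA p q L) b ∧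
      (mulMat bM z).det = QA.map p q (Algebra.ofId F L) a := by
  have hbi : ∀ i, T.σ i b ≠ 0 := fun i => (hb.map (T.σ i)).ne_zero
  have hA' : ∀ s i, T.x s i z * T.x (1 - s) i z = T.σ i b := by
    intro s i
    have h1 := congrArg (T.x s i) (sub_eq_zero.mp hA)
    rw [T.x_mulVec, T.x_star] at h1
    rw [h1]
    have h2 : T.x s i (fun j => algebraMap L (QA p q L) (1 ^ 2) * coords bM (QA p q L) b j) =
        T.σ i b := by
      rw [T.x_mul_left, T.ev_algebraMap, T.x_coords, one_pow, map_one, one_mul]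
    exact h2
  refine T.isPoint (hA' 0) (fun s => ?_)
  have h1 := congrArg (T.x s 0) (sub_eq_zero.mp hB)
  rw [T.x_mulVec, T.x_coords, T.x_adjugate] at h1
  have h2 : T.x s 0 (fun i => QA.map p q (Algebra.ofId F L) a * algebraMap L (QA p q L) 1 *
      star (z i)) = T.ev (S := F) s a * T.x (1 - s) 0 z := by
    rw [T.x_mul_left, map_mul, T.ev_map, map_one, map_one, mul_one, T.x_star]
  have h3 := Finset.prod_erase_mul Finset.univ (fun j => T.x s j z) (Finset.mem_univ (0 : Fin 3))
  have h4 := hA' s 0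
  have h5 : T.σ 0 b * ∏ i, T.x s i z = T.σ 0 b * T.ev (S := F) s a := by
    rw [← h3]
    linear_combination T.x s 0 z * (h1.trans h2) + T.ev (S := F) s a * h4
  exact mul_left_cancel₀ (hbi 0) h5

variable [Algebra.Etale F M]

/-- The generic point of the projective model. -/
theorem isTorGeneric_genPt (hpq : q ^ 2 + 4 * p ≠ 0) {a : QA p q F} {b : M}
    (ha : IsUnit a) (hb : IsUnit b) (hab : Algebra.norm F b = QuadraticAlgebra.norm a)
    [hI : (sixIdeal bM a b).IsPrime] :
    IsTorGeneric bM a b (projFunctionField (1 : Option (Fin 3 × Fin 2) → ℕ) (sixIdeal bM a b))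
      (ptVec p q (genPt (1 : Option (Fin 3 × Fin 2) → ℕ) (I := sixIdeal bM a b) (j := none)
        rfl)) := by
  set I := sixIdeal bM a b with hIdef
  have hX : (MvPolynomial.X none : MvPolynomial (Option (Fin 3 × Fin 2)) F) ∉ I :=
    X_notMem_sixIdeal a b none
  set K := projFunctionField (1 : Option (Fin 3 × Fin 2) → ℕ) I with hK
  set x := genPt (1 : Option (Fin 3 × Fin 2) → ℕ) (I := I) (j := none) rfl with hx
  have hx1 : x none = 1 := genPt_self (1 : Option (Fin 3 × Fin 2) → ℕ) (I := I) rfl hX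
  have hzero : ∀ g ∈ sixGens bM a b, MvPolynomial.aeval x g = 0 := by
    intro g hg
    rw [hx, aeval_genPt_eq_zero_iff (1 : Option (Fin 3 × Fin 2) → ℕ) (I := I) rfl hX
      (n := 2) (isHomogeneous_sixGens a b g hg)]
    exact Ideal.subset_span hg
  obtain ⟨hA, hB⟩ := (sixGens_zero_iff a b x).mp hzero
  rw [hx1] at hA hB
  obtain ⟨T⟩ := exists_sixFrame bM p q hpq (AlgebraicClosure K)
  obtain ⟨h1, h2⟩ := T.interior hb hA hB
  refine ⟨?_, ?_, h1, h2⟩
  · exact le_trdeg_projFunctionField (1 : Option (Fin 3 × Fin 2) → ℕ) (j := none) rfl hX (m := 2)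
      (three_le_trdeg_six hpq ha hb hab)
  · intro k hk
    rw [eq_top_iff, ← adjoin_genPt (1 : Option (Fin 3 × Fin 2) → ℕ) (I := I) (j := none) rfl hX,
      IntermediateField.adjoin_le_iff]
    rintro _ ⟨o, rfl⟩
    rcases o with _ | ⟨i, c⟩
    · change x none ∈ k
      rw [hx1]
      exact one_mem k
    · have h3 := hk i
      fin_cases c
      · exact h3.1
      · exact h3.2

/-- A point over a field of degree `n` gives a relation of order `n`. -/
theorem torPow_of_hasPoint (hpq : q ^ 2 + 4 * p ≠ 0) {a : QA p q F} {b : M}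
    (ha : IsUnit a) (hb : IsUnit b) (hab : Algebra.norm F b = QuadraticAlgebra.norm a)
    {L : Type w} [Field L] [Algebra F L] [FiniteDimensional F L]
    (hL : HasPoint (sixIdeal bM a b) L) : TorPow bM a b (Module.finrank F L) := by
  obtain ⟨y, hy, hyI⟩ := hL
  obtain ⟨hA, hB⟩ := (sixIdeal_zero_iff a b y).mp hyI
  obtain ⟨T⟩ := exists_sixFrame bM p q hpq (AlgebraicClosure L)
  obtain ⟨x, hx₁, hx₂⟩ := exists_interior_aux ha hb hab (ptVec p q y) (y none) (by
    by_contra hcon
    push Not at hcon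
    obtain ⟨h1, h2⟩ := hcon
    apply hy
    ext o
    rcases o with _ | ⟨i, c⟩
    · exact h2
    · have h3 := congrFun h1 i
      fin_cases c
      · exact congrArg QuadraticAlgebra.re h3
      · exact congrArg QuadraticAlgebra.im h3) hA hB T
  have h1 := exists_norm_point (Module.finBasis F L) x hx₁ hx₂
  rwa [Fintype.card_fin] at h1

/-- Del Pezzo surfaces of degree six. -/
theorem six_formula (hpq : q ^ 2 + 4 * p ≠ 0) {a : QA p q F} {b : M}
    (ha : IsUnit a) (hb : IsUnit b) (hab : Algebra.norm F b = QuadraticAlgebra.norm a)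
    [hI : (sixIdeal bM a b).IsPrime] :
    (¬ IsRational F (projFunctionField (1 : Option (Fin 3 × Fin 2) → ℕ) (sixIdeal bM a b)) →
      irr F (projFunctionField (1 : Option (Fin 3 × Fin 2) → ℕ) (sixIdeal bM a b)) =
        max 2 (minDegree (sixIdeal bM a b))) ∧
    (minDegree (sixIdeal bM a b) = 1 ∨ minDegree (sixIdeal bM a b) = 2 ∨
      minDegree (sixIdeal bM a b) = 3 ∨ minDegree (sixIdeal bM a b) = 6) := by
  have hgen := isTorGeneric_genPt (bM := bM) hpq ha hb hab
  set I := sixIdeal bM a b with hIdef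
  set K := projFunctionField (1 : Option (Fin 3 × Fin 2) → ℕ) I with hK
  have hX : (MvPolynomial.X none : MvPolynomial (Option (Fin 3 × Fin 2)) F) ∉ I :=
    X_notMem_sixIdeal a b none
  set x := genPt (1 : Option (Fin 3 × Fin 2) → ℕ) (I := I) (j := none) rfl with hx
  have hx1 : x none = 1 := genPt_self (1 : Option (Fin 3 × Fin 2) → ℕ) (I := I) rfl hX
  have hx0 : x ≠ 0 := by
    intro h0
    rw [h0] at hx1
    exact zero_ne_one hx1
  have hzero : ∀ g ∈ sixGens bM a b, MvPolynomial.aeval x g = 0 := by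
    intro g hg
    rw [hx, aeval_genPt_eq_zero_iff (1 : Option (Fin 3 × Fin 2) → ℕ) (I := I) rfl hX
      (n := 2) (isHomogeneous_sixGens a b g hg)]
    exact Ideal.subset_span hg
  have hpos : 0 < irr F K := (hgen.irr_le_six hpq ha hb).1
  obtain ⟨L, i1, i2, hfin, hle, y, hy, hyg⟩ := exists_point_of_irr_pos hpos x hx0
  have hle' : Module.finrank F L ≤ irr F K := hle
  have hL : HasPoint I L := ⟨y, hy, (sixIdeal_zero_iff a b y).mpr ((sixGens_zero_iff a b y).mp
    fun g hg => hyg 2 g (isHomogeneous_sixGens a b g hg) (hzero g hg))⟩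
  have h1 : minDegree I ≤ irr F K := (minDegree_le hL).trans hle'
  have h2 : 0 < minDegree I := minDegree_pos hL
  obtain ⟨L', j1, j2, hfin', hr, hL'⟩ := exists_minDegree hL
  have h3 := torPow_of_hasPoint hpq ha hb hab hL'
  rw [hr] at h3
  have h4 : irr F K ≤ max 2 (Nat.gcd (minDegree I) 6) :=
    (hgen.irr_le_of_torPow hpq ha hb hab h3).2
  generalize minDegree I = δ at *
  have hd6 : Nat.gcd δ 6 ≤ 6 := Nat.le_of_dvd (by norm_num) (Nat.gcd_dvd_right δ 6)
  have hdδ : Nat.gcd δ 6 ≤ δ := Nat.le_of_dvd h2 (Nat.gcd_dvd_left δ 6)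
  have hδ6 : δ ≤ 6 := by omega
  have hδ : δ = 1 ∨ δ = 2 ∨ δ = 3 ∨ δ = 6 := by
    clear hr h3
    interval_cases δ
    · simp
    · simp
    · simp
    · have h5 : Nat.gcd 4 6 = 2 := by norm_num
      rw [h5] at h4
      omega
    · have h5 : Nat.gcd 5 6 = 1 := by norm_num
      rw [h5] at h4
      omega
    · simp
  refine ⟨fun hrat => ?_, hδ⟩
  have h5 : irr F K ≠ 1 := fun h => hrat (isRational_of_irr_eq_one h)
  have h6 : irr F K ≤ max 2 δ := h4.trans (max_le_max le_rfl hdδ)
  change irr F K = _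
  omega

end

end Pool.Agent.Helper17.Irr
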